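import Pool.Agent.MP_2ab689_gt.Big.Spec

/-!
Row ANG: the angles of two consecutive rows interlace.
-/

namespace Pool.Agent.MP_2ab689_gt.Big

open Real

namespace Ang

theorem sum_mod (N : ℕ) (F : ℕ → ℝ) (M : ℕ) :
    ∑ k ∈ Finset.range (M * N), F (k % N) = M * ∑ r ∈ Finset.range N, F r := by
  induction M with
  | zero => simp
  | succ M ih =>
    rw [Nat.succ_mul, Finset.sum_range_add, ih]
    have : ∑ x ∈ Finset.range N, F ((M * N + x) % N) = ∑ r ∈ Finset.range N, F r := by
      refine Finset.sum_congr rfl fun x hx => ?_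
      rw [Nat.mul_add_mod_self_right, Nat.mod_eq_of_lt (Finset.mem_range.1 hx)]
    rw [this]
    push_cast
    ring

theorem gap (N : ℕ) (hN : 0 < N) (a : ℕ → ℝ) (h0 : a 0 = 0) (h1 : a N = 1) (k : ℕ) :
    ((((k + 1) / N : ℕ) : ℝ) + a ((k + 1) % N)) - (((k / N : ℕ) : ℝ) + a (k % N)) =
      a (k % N + 1) - a (k % N) := by
  have hr : k % N < N := Nat.mod_lt _ hN
  have hk : k + 1 = (k % N + 1) + N * (k / N) := by
    have := Nat.mod_add_div k N
    omega
  by_cases hc : k % N + 1 < N
  · have e1 : (k + 1) / N = k / N := by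
      rw [hk, Nat.add_mul_div_left _ _ hN, Nat.div_eq_of_lt hc, zero_add]
    have e2 : (k + 1) % N = k % N + 1 := by
      rw [hk, Nat.add_mul_mod_self_left, Nat.mod_eq_of_lt hc]
    rw [e1, e2]
    ring
  · have hN' : k % N + 1 = N := by omega
    have e1 : (k + 1) / N = k / N + 1 := by
      rw [hk, Nat.add_mul_div_left _ _ hN, hN', Nat.div_self hN, add_comm]
    have e2 : (k + 1) % N = 0 := by
      rw [hk, Nat.add_mul_mod_self_left, hN', Nat.mod_self]
    rw [e1, e2, hN', h0, h1]
    push_cast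
    ring

theorem build (M Q : ℕ) (hM : 0 < M) (hQ : 2 ≤ Q) (a : ℕ → ℝ) (h0 : a 0 = 0) (h1 : a (2 * Q) = 1)
    (hg : ∀ r < 2 * Q, 0 ≤ (a (r + 1) - a r) * (Q - 1) ∧ (a (r + 1) - a r) * (Q - 1) ≤ 1)
    (S : ℝ) (hS : ∑ r ∈ Finset.range (2 * Q), ((a (r + 1) - a r) * (Q - 1) - 1 / 2) ^ 2 ≤ S) :
    ∃ g : ℕ → ℝ, (∀ k, g (k + 2 * M * Q) = g k + 2 * π) ∧
      (∀ k, 0 ≤ g (k + 1) - g k ∧ g (k + 1) - g k ≤ 2 * π / M / (Q - 1)) ∧
      (∀ k, ∃ r < 2 * Q, ∃ s < M, ∃ n : ℤ, r % 2 = k % 2 ∧
        g k = 2 * π / M * ((s : ℝ) + a r) + n * (2 * π)) ∧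
      ∑ k ∈ Finset.range (2 * M * Q), ((g (k + 1) - g k) * (Q - 1) / (2 * π / M) - 1 / 2) ^ 2 ≤
        M * S := by
  have hN : 0 < 2 * Q := by omega
  have hMr : (0 : ℝ) < M := by exact_mod_cast hM
  have hQr : (0 : ℝ) < (Q : ℝ) - 1 := by
    have : (2 : ℝ) ≤ Q := by exact_mod_cast hQ
    linarith
  have hom : 0 < 2 * π / M := by positivity
  have hgap : ∀ k : ℕ, 2 * π / M * ((((k + 1) / (2 * Q) : ℕ) : ℝ) + a ((k + 1) % (2 * Q))) -
      2 * π / M * (((k / (2 * Q) : ℕ) : ℝ) + a (k % (2 * Q))) =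
      2 * π / M * (a (k % (2 * Q) + 1) - a (k % (2 * Q))) := by
    intro k
    rw [← mul_sub, gap _ hN a h0 h1]
  refine ⟨fun k => 2 * π / M * (((k / (2 * Q) : ℕ) : ℝ) + a (k % (2 * Q))), ?_, ?_, ?_, ?_⟩
  · intro k
    have e : k + 2 * M * Q = k + 2 * Q * M := by ring
    simp only
    rw [e, Nat.add_mul_div_left _ _ hN, Nat.add_mul_mod_self_left]
    push_cast
    field_simp
    ring
  · intro k
    simp only
    rw [hgap]
    obtain ⟨g1, g2⟩ := hg (k % (2 * Q)) (Nat.mod_lt _ hN)
    constructor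
    · exact mul_nonneg hom.le (nonneg_of_mul_nonneg_left g1 hQr)
    · rw [le_div_iff₀ hQr, mul_assoc]
      nlinarith
  · intro k
    refine ⟨k % (2 * Q), Nat.mod_lt _ hN, (k / (2 * Q)) % M, Nat.mod_lt _ hM,
      ((k / (2 * Q) / M : ℕ) : ℤ), Nat.mod_mul_right_mod _ _ _, ?_⟩
    have e : ((k / (2 * Q) : ℕ) : ℝ) =
        ((k / (2 * Q) % M : ℕ) : ℝ) + M * ((k / (2 * Q) / M : ℕ) : ℝ) := by
      exact_mod_cast (Nat.mod_add_div _ M).symm
    simp only
    rw [Int.cast_natCast]
    generalize ((k / (2 * Q) % M : ℕ) : ℝ) = u at e ⊢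
    generalize ((k / (2 * Q) / M : ℕ) : ℝ) = v at e ⊢
    rw [e]
    field_simp
    ring
  · have e : 2 * M * Q = M * (2 * Q) := by ring
    have e2 : ∑ k ∈ Finset.range (2 * M * Q),
        ((2 * π / M * ((((k + 1) / (2 * Q) : ℕ) : ℝ) + a ((k + 1) % (2 * Q))) -
        2 * π / M * (((k / (2 * Q) : ℕ) : ℝ) + a (k % (2 * Q)))) * (Q - 1) / (2 * π / M) - 1 / 2) ^ 2
        = (M : ℝ) * ∑ r ∈ Finset.range (2 * Q), ((a (r + 1) - a r) * (Q - 1) - 1 / 2) ^ 2 := by
      rw [e, ← sum_mod (2 * Q) (fun r => ((a (r + 1) - a r) * (Q - 1) - 1 / 2) ^ 2) M]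
      refine Finset.sum_congr rfl fun k _ => ?_
      rw [hgap, mul_assoc, mul_div_cancel_left₀ _ hom.ne']
    rw [e2]
    exact mul_le_mul_of_nonneg_left hS hMr.le

theorem pos (M j q w s t : ℕ) (hs : s < M) (ht : t < q) : s * q + t < M * q ∧
    rowAng M j q w (s * q + t) =
      2 * π / M * ((s : ℝ) + prof q w ((t : ℝ) + if Even j then 0 else 1 / 2)) := by
  have hq : 0 < q := by omega
  constructor
  · calc s * q + t < s * q + q := by omega
      _ = (s + 1) * q := by ring
      _ ≤ M * q := Nat.mul_le_mul_right _ hs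
  · unfold rowAng
    have e1 : (s * q + t) / q = s := by
      rw [add_comm, Nat.add_mul_div_right _ _ hq, Nat.div_eq_of_lt ht, zero_add]
    have e2 : (s * q + t) % q = t := by
      rw [Nat.mul_add_mod_self_right, Nat.mod_eq_of_lt ht]
    rw [e1, e2]

theorem half (j r : ℕ) (h : Even (j + r)) :
    (r : ℝ) / 2 = ((r / 2 : ℕ) : ℝ) + if Even j then 0 else 1 / 2 := by
  have e : (r : ℝ) = 2 * ((r / 2 : ℕ) : ℝ) + ((r % 2 : ℕ) : ℝ) := by
    exact_mod_cast (Nat.div_add_mod r 2).symm
  rw [Nat.even_iff] at h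
  by_cases hj : Even j
  · rw [if_pos hj]
    rw [Nat.even_iff] at hj
    have : r % 2 = 0 := by omega
    rw [this] at e
    push_cast at e
    linarith
  · rw [if_neg hj]
    rw [Nat.even_iff] at hj
    have : r % 2 = 1 := by omega
    rw [this] at e
    push_cast at e
    linarith

theorem tail_sum (N L : ℕ) (F : ℕ → ℝ) (c : ℝ) (hc : 0 ≤ c) (h1 : ∀ r < N, F r ≤ c)
    (h2 : ∀ r, r + L < N → F r ≤ 0) : ∑ r ∈ Finset.range N, F r ≤ L * c := by
  calc ∑ r ∈ Finset.range N, F r ≤ ∑ r ∈ Finset.range N, if N ≤ r + L then c else 0 := by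
        refine Finset.sum_le_sum fun r hr => ?_
        split_ifs with h
        · exact h1 r (Finset.mem_range.1 hr)
        · exact h2 r (by omega)
    _ = ((Finset.range N).filter fun r => N ≤ r + L).card * c := by
        rw [← Finset.sum_filter, Finset.sum_const, nsmul_eq_mul]
    _ ≤ L * c := by
        refine mul_le_mul_of_nonneg_right ?_ hc
        have : ((Finset.range N).filter fun r => N ≤ r + L).card ≤ (Finset.Ico (N - L) N).card := by
          refine Finset.card_le_card fun r hr => ?_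
          rw [Finset.mem_filter, Finset.mem_range] at hr
          rw [Finset.mem_Ico]
          omega
        rw [Nat.card_Ico] at this
        have h3 : ((Finset.range N).filter fun r => N ≤ r + L).card ≤ L := by omega
        exact_mod_cast h3

theorem mono (v v' x : ℝ) (hv : 0 < v) (h : v ≤ v') (hx : 0 ≤ x) :
    max 0 (1 - x / v) ≤ max 0 (1 - x / v') := by
  refine max_le_max le_rfl ?_
  have := div_le_div_of_nonneg_left hx hv h
  linarith

theorem dev (w w0 w1 u : ℝ) (hw : 2 ≤ w) (a0 : w ≤ w0) (b0 : w0 ≤ w + 1) (a1 : w ≤ w1)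
    (b1 : w1 ≤ w + 1) (hu : 1 / 2 ≤ u) :
    |max 0 (1 - (u - 1 / 2) / w1) - max 0 (1 - u / w0)| ≤ 3 / (2 * (w + 1)) := by
  have hw0 : 0 < w := by linarith
  have hw1 : 0 < w + 1 := by linarith
  have m1 := mono w1 (w + 1) (u - 1 / 2) (by linarith) b1 (by linarith)
  have m2 := mono w w0 u hw0 a0 (by linarith)
  have m3 := mono w w1 (u - 1 / 2) hw0 a1 (by linarith)
  have m4 := mono w0 (w + 1) u (by linarith) b0 (by linarith)
  have hc : 0 < 3 / (2 * (w + 1)) := by positivity
  have k1 : max 0 (1 - (u - 1 / 2) / (w + 1)) ≤ max 0 (1 - u / w) + 3 / (2 * (w + 1)) := by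
    refine max_le (by have := le_max_left 0 (1 - u / w); linarith) ?_
    by_cases h : u ≤ w
    · have h1 := le_max_right 0 (1 - u / w)
      have h2 : u / w - (u - 1 / 2) / (w + 1) ≤ 3 / (2 * (w + 1)) := by
        have e : 3 / (2 * (w + 1)) - (u / w - (u - 1 / 2) / (w + 1)) = (w - u) / (w * (w + 1)) := by
          field_simp
          ring
        have : 0 ≤ (w - u) / (w * (w + 1)) := div_nonneg (by linarith) (by positivity)
        linarith
      linarith
    · have h1 := le_max_left 0 (1 - u / w)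
      have e : 3 / (2 * (w + 1)) - (1 - (u - 1 / 2) / (w + 1)) = (u - w) / (w + 1) := by
        field_simp
        ring
      have : 0 ≤ (u - w) / (w + 1) := div_nonneg (by linarith) (by positivity)
      linarith
  have k2 : max 0 (1 - u / (w + 1)) ≤ max 0 (1 - (u - 1 / 2) / w) + 3 / (2 * (w + 1)) := by
    refine max_le (by have := le_max_left 0 (1 - (u - 1 / 2) / w); linarith) ?_
    by_cases h : u ≤ w
    · have h1 := le_max_right 0 (1 - (u - 1 / 2) / w)
      have e : 3 / (2 * (w + 1)) - ((u - 1 / 2) / w - u / (w + 1)) =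
          (2 * w + 1 / 2 - u) / (w * (w + 1)) := by
        field_simp
        ring
      have : 0 ≤ (2 * w + 1 / 2 - u) / (w * (w + 1)) := div_nonneg (by linarith) (by positivity)
      linarith
    · have h1 := le_max_left 0 (1 - (u - 1 / 2) / w)
      have e : 3 / (2 * (w + 1)) - (1 - u / (w + 1)) = (u + 1 / 2 - w) / (w + 1) := by
        field_simp
        ring
      have : 0 ≤ (u + 1 / 2 - w) / (w + 1) := div_nonneg (by linarith) (by positivity)
      linarith
  rw [abs_le]
  constructor <;> linarith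

theorem dev0 (w w0 w1 u : ℝ) (hw : 2 ≤ w) (a0 : w ≤ w0) (b0 : w0 ≤ w + 1) (a1 : w ≤ w1)
    (b1 : w1 ≤ w + 1) (hu : w + 3 / 2 ≤ u) :
    max 0 (1 - (u - 1 / 2) / w1) - max 0 (1 - u / w0) = 0 := by
  have h1 : 1 ≤ (u - 1 / 2) / w1 := by
    rw [le_div_iff₀ (by linarith)]
    linarith
  have h0 : 1 ≤ u / w0 := by
    rw [le_div_iff₀ (by linarith)]
    linarith
  rw [max_eq_left (by linarith), max_eq_left (by linarith), sub_zero]

theorem prof_zero (q w : ℕ) (hw : 0 < w) (h : w ≤ q) : prof q w 0 = 0 := by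
  unfold prof
  have hwr : (0 : ℝ) < w := by exact_mod_cast hw
  have hr : (w : ℝ) ≤ q := by exact_mod_cast h
  have : 1 ≤ ((q : ℝ) - 0) / w := by
    rw [le_div_iff₀ hwr]
    linarith
  rw [max_eq_left (by linarith)]
  simp

theorem prof_top (q w : ℕ) (hq : 2 ≤ q) : prof q w q = 1 := by
  unfold prof
  have hr : (2 : ℝ) ≤ q := by exact_mod_cast hq
  rw [sub_self, zero_div, sub_zero, max_eq_right zero_le_one, div_self (by linarith)]

theorem prof_full (q : ℕ) (hq : 2 ≤ q) (y : ℝ) (hy : 0 ≤ y) : prof q q y = y / q := by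
  unfold prof
  have hr : (2 : ℝ) ≤ q := by exact_mod_cast hq
  have h0 : (0 : ℝ) < q := by linarith
  have h1 : (q : ℝ) - 1 ≠ 0 := by linarith
  have e : 1 - ((q : ℝ) - y) / q = y / q := by
    field_simp
    ring
  rw [e, max_eq_right (by positivity)]
  field_simp

end Ang

open Ang in
theorem angleS : AngleS := by
  intro M j q w q' w' hM hw hwq hstep
  have hq : 2 ≤ q := le_trans hw hwq
  have hqr : (2 : ℝ) ≤ q := by exact_mod_cast hq
  have hwr : (2 : ℝ) ≤ w := by exact_mod_cast hw
  rcases hstep with ⟨rfl, hw'⟩ | ⟨hj, rfl, rfl, rfl⟩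
  · -- no insertion
    obtain ⟨v, hv⟩ : ∃ v : ℕ → ℕ, ∀ r, v r = if Even (j + r) then w else w' := ⟨_, fun _ => rfl⟩
    have hv1 : ∀ r, w ≤ v r ∧ v r ≤ w + 1 ∧ v r ≤ q' := by
      intro r
      rw [hv]
      split_ifs <;> omega
    have hq1 : (q' : ℝ) - 1 ≠ 0 := by linarith
    have hd : ∀ r : ℕ, (prof q' (v (r + 1)) (((r + 1 : ℕ) : ℝ) / 2) - prof q' (v r) ((r : ℝ) / 2)) *
        ((q' : ℝ) - 1) - 1 / 2 = -(max 0 (1 - (((q' : ℝ) - r / 2) - 1 / 2) / (v (r + 1) : ℝ)) -
          max 0 (1 - ((q' : ℝ) - r / 2) / (v r : ℝ))) := by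
      intro r
      unfold prof
      have e : (q' : ℝ) - ((r + 1 : ℕ) : ℝ) / 2 = ((q' : ℝ) - r / 2) - 1 / 2 := by
        push_cast
        ring
      rw [e, ← sub_div, div_mul_cancel₀ _ hq1]
      push_cast
      ring
    have hb : ∀ r < 2 * q', |max 0 (1 - (((q' : ℝ) - r / 2) - 1 / 2) / (v (r + 1) : ℝ)) -
          max 0 (1 - ((q' : ℝ) - r / 2) / (v r : ℝ))| ≤ 3 / (2 * ((w : ℝ) + 1)) := by
      intro r hr
      have hr' : (r : ℝ) + 1 ≤ 2 * q' := by exact_mod_cast hr
      exact dev w _ _ _ hwr (by exact_mod_cast (hv1 r).1) (by exact_mod_cast (hv1 r).2.1)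
        (by exact_mod_cast (hv1 (r + 1)).1) (by exact_mod_cast (hv1 (r + 1)).2.1) (by linarith)
    have hc : 3 / (2 * ((w : ℝ) + 1)) ≤ 1 / 2 := by
      rw [div_le_div_iff₀ (by positivity) (by positivity)]
      linarith
    obtain ⟨g, g1, g2, g3, g4⟩ := build M q' hM hq (fun r => prof q' (v r) ((r : ℝ) / 2))
      (by
        simp only [Nat.cast_zero, zero_div]
        exact prof_zero _ _ (by have := hv1 0; omega) (hv1 0).2.2)
      (by
        have e : (((2 * q' : ℕ) : ℝ)) / 2 = q' := by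
          push_cast
          ring
        rw [e]
        exact prof_top _ _ hq)
      (by
        intro r hr
        have h1 := hd r
        have h2 := abs_le.1 (hb r hr)
        constructor <;> linarith [h2.1, h2.2])
      (9 / (w : ℝ))
      (by
        have := tail_sum (2 * q') (2 * w + 2) (fun r => ((prof q' (v (r + 1))
          (((r + 1 : ℕ) : ℝ) / 2) - prof q' (v r) ((r : ℝ) / 2)) * ((q' : ℝ) - 1) - 1 / 2) ^ 2)
          ((3 / (2 * ((w : ℝ) + 1))) ^ 2) (by positivity)
          (by
            intro r hr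
            rw [hd, neg_sq, ← sq_abs]
            exact pow_le_pow_left₀ (abs_nonneg _) (hb r hr) 2)
          (by
            intro r hr
            have hr' : (r : ℝ) + (2 * w + 2) + 1 ≤ 2 * q' := by exact_mod_cast hr
            rw [hd, dev0 w _ _ _ hwr (by exact_mod_cast (hv1 r).1) (by exact_mod_cast (hv1 r).2.1)
              (by exact_mod_cast (hv1 (r + 1)).1) (by exact_mod_cast (hv1 (r + 1)).2.1)
              (by linarith)]
            simp)
        refine this.trans ?_
        have e : ((2 * w + 2 : ℕ) : ℝ) * (3 / (2 * ((w : ℝ) + 1))) ^ 2 = 9 / (2 * ((w : ℝ) + 1)) := by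
          push_cast
          field_simp
          ring
        rw [e]
        exact div_le_div_of_nonneg_left (by norm_num) (by linarith) (by linarith))
    refine ⟨g, g1, g2, ?_, ?_, by simpa using g4⟩
    · intro k hk
      obtain ⟨r, hr, s, hs, n, hp, he⟩ := g3 k
      have hjr : Even (j + r) := by
        rw [Nat.even_iff] at hk ⊢
        omega
      obtain ⟨p1, p2⟩ := pos M j q' w s (r / 2) hs (by omega)
      refine ⟨_, p1, n, ?_⟩
      rw [he, p2, ← half j r hjr, hv, if_pos hjr]
    · intro k hk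
      obtain ⟨r, hr, s, hs, n, hp, he⟩ := g3 k
      have hjr : Even (j + 1 + r) := by
        rw [Nat.odd_iff] at hk
        rw [Nat.even_iff]
        omega
      have hjr' : ¬ Even (j + r) := by
        rw [Nat.even_iff] at hjr ⊢
        omega
      obtain ⟨p1, p2⟩ := pos M (j + 1) q' w' s (r / 2) hs (by omega)
      refine ⟨_, p1, n, ?_⟩
      rw [he, p2, ← half (j + 1) r hjr, hv, if_neg hjr']
  · -- insertion
    obtain ⟨a, ha⟩ : ∃ a : ℕ → ℝ, ∀ r, a r = if Even r then prof (w + 1) 2 ((r : ℝ) / 2) else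
      min ((r : ℝ) / 2) ((w : ℝ) - 1 / 2) / w := ⟨_, fun _ => rfl⟩
    have hw0 : (w : ℝ) ≠ 0 := by linarith
    have hq1 : ((w + 1 : ℕ) : ℝ) - 1 = w := by
      push_cast
      ring
    have hae : ∀ r, Even r → a r * w = r / 2 - max 0 (1 - ((w : ℝ) + 1 - r / 2) / 2) := by
      intro r hr
      rw [ha, if_pos hr]
      unfold prof
      rw [hq1, div_mul_cancel₀ _ hw0]
      push_cast
      rfl
    have hao : ∀ r, ¬ Even r → a r * w = min ((r : ℝ) / 2) ((w : ℝ) - 1 / 2) := by
      intro r hr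
      rw [ha, if_neg hr, div_mul_cancel₀ _ hw0]
    have hd : ∀ r < 2 * (w + 1), (0 ≤ (a (r + 1) - a r) * w ∧ (a (r + 1) - a r) * w ≤ 1 / 2) ∧
        (r + 3 < 2 * (w + 1) → (a (r + 1) - a r) * w = 1 / 2) := by
      intro r hr
      rw [sub_mul]
      by_cases he : Even r
      · have ho : ¬ Even (r + 1) := by
          rw [Nat.even_add_one]
          exact not_not.2 he
        rw [hae r he, hao (r + 1) ho]
        push_cast
        rw [Nat.even_iff] at he
        by_cases h : r + 2 ≤ 2 * w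
        · have h' : (r : ℝ) + 2 ≤ 2 * w := by exact_mod_cast h
          rw [min_eq_left (by linarith), max_eq_left (by linarith)]
          refine ⟨⟨by linarith, by linarith⟩, fun _ => by ring⟩
        · have h1 : r = 2 * w := by omega
          have h' : (r : ℝ) = 2 * w := by exact_mod_cast h1
          rw [min_eq_right (by linarith), max_eq_right (by linarith)]
          refine ⟨⟨by linarith, by linarith⟩, fun _ => by omega⟩
      · have ho : Even (r + 1) := Nat.even_add_one.2 he
        rw [hao r he, hae (r + 1) ho]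
        push_cast
        rw [Nat.even_iff] at he
        by_cases h : r + 3 ≤ 2 * w
        · have h' : (r : ℝ) + 3 ≤ 2 * w := by exact_mod_cast h
          rw [min_eq_left (by linarith), max_eq_left (by linarith)]
          refine ⟨⟨by linarith, by linarith⟩, fun _ => by ring⟩
        · by_cases h2 : r + 1 = 2 * w
          · have h' : (r : ℝ) + 1 = 2 * w := by exact_mod_cast h2
            rw [min_eq_left (by linarith), max_eq_right (by linarith)]
            refine ⟨⟨by linarith, by linarith⟩, fun _ => by omega⟩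
          · have h1 : r = 2 * w + 1 := by omega
            have h' : (r : ℝ) = 2 * w + 1 := by exact_mod_cast h1
            rw [min_eq_right (by linarith), max_eq_right (by linarith)]
            refine ⟨⟨by linarith, by linarith⟩, fun _ => by omega⟩
    obtain ⟨g, g1, g2, g3, g4⟩ := build M (w + 1) hM (by omega) a
      (by
        rw [ha, if_pos Even.zero]
        simp only [Nat.cast_zero, zero_div]
        exact prof_zero _ _ (by norm_num) (by omega))
      (by
        have e : (((2 * (w + 1) : ℕ) : ℝ)) / 2 = ((w + 1 : ℕ) : ℝ) := by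
          push_cast
          ring
        rw [ha, if_pos (even_two_mul _), e]
        exact prof_top _ _ (by omega))
      (by
        intro r hr
        have h1 := (hd r hr).1
        rw [hq1]
        constructor <;> linarith [h1.1, h1.2])
      (9 / (w : ℝ) + (((w + 1 : ℕ) : ℝ) - w))
      (by
        have := tail_sum (2 * (w + 1)) 3 (fun r => ((a (r + 1) - a r) * w - 1 / 2) ^ 2)
          (1 / 4) (by norm_num)
          (by
            intro r hr
            have h1 := (hd r hr).1
            nlinarith [h1.1, h1.2])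
          (by
            intro r hr
            rw [(hd r (by omega)).2 hr]
            simp)
        rw [hq1]
        refine this.trans ?_
        have : (0 : ℝ) ≤ 9 / (w : ℝ) := by positivity
        push_cast
        linarith)
    rw [Nat.odd_iff] at hj
    refine ⟨g, g1, g2, ?_, ?_, g4⟩
    · intro k hk
      obtain ⟨r, hr, s, hs, n, hp, he⟩ := g3 k
      rw [Nat.even_iff] at hk
      have hro : ¬ Even r := by
        rw [Nat.even_iff]
        omega
      have hjo : ¬ Even j := by
        rw [Nat.even_iff]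
        omega
      obtain ⟨p1, p2⟩ := pos M j w w s (min (r / 2) (w - 1)) hs (by omega)
      refine ⟨_, p1, n, ?_⟩
      rw [he, p2, if_neg hjo, prof_full w hw _ (by positivity), ha, if_neg hro]
      have e : min ((r : ℝ) / 2) ((w : ℝ) - 1 / 2) = ((min (r / 2) (w - 1) : ℕ) : ℝ) + 1 / 2 := by
        have h1 := half j r (by rw [Nat.even_iff]; omega)
        rw [if_neg hjo] at h1
        rw [Nat.cast_min, Nat.cast_sub (by omega), ← min_add_add_right, ← h1]
        congr 1
        push_cast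
        ring
      rw [e]
    · intro k hk
      obtain ⟨r, hr, s, hs, n, hp, he⟩ := g3 k
      rw [Nat.odd_iff] at hk
      have hre : Even r := by
        rw [Nat.even_iff]
        omega
      have hjr : Even (j + 1 + r) := by
        rw [Nat.even_iff]
        omega
      obtain ⟨p1, p2⟩ := pos M (j + 1) (w + 1) 2 s (r / 2) hs (by omega)
      refine ⟨_, p1, n, ?_⟩
      rw [he, p2, ← half (j + 1) r hjr, ha, if_pos hre]

end Pool.Agent.MP_2ab689_gt.Big
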