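import Pool.Agent.MP_2ab689_gt.Big.Sect

/-!
Spherical angles of the faces: vertex sums and face sums.
-/

namespace Pool.Agent.MP_2ab689_gt.Big

open Real

namespace Mesh

variable {ι Φ : Type} [Fintype ι] [Fintype Φ] (M : Mesh ι Φ)

/-- The complex number whose argument is the spherical angle at the first vertex. -/
def z (d : Φ) : ℂ := ⟨ip (M.B d) (M.C d) - ip (M.A d) (M.B d) * ip (M.C d) (M.A d), M.D d⟩

/-- The spherical angle at the first vertex. -/
noncomputable def θ (d : Φ) : ℝ := Complex.arg (M.z d)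

open Classical in
/-- The flags at a vertex. -/
noncomputable def star (v : ι) : Finset Φ := Finset.univ.filter fun d => M.tl d = v

/-- The degree of a vertex in the triangulation. -/
noncomputable def deg (v : ι) : ℕ := (M.star v).card

/-- The denominator in the formula for the spherical excess. -/
def N (d : Φ) : ℝ := 1 + ip (M.A d) (M.B d) + ip (M.B d) (M.C d) + ip (M.C d) (M.A d)

/-- The spherical area of the face. -/
noncomputable def E (d : Φ) : ℝ := 2 * Complex.arg ⟨M.N d, M.D d⟩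

theorem mem_star {v : ι} {d : Φ} : d ∈ M.star v ↔ M.tl d = v := by simp [star]

theorem sum_star (f : Φ → ℝ) : ∑ v, ∑ d ∈ M.star v, f d = ∑ d, f d := by
  classical
  unfold star
  convert Finset.sum_fiberwise Finset.univ M.tl f

theorem θ_pos (d : Φ) : 0 < M.θ d := by
  refine lt_of_le_of_ne (Complex.arg_nonneg_iff.mpr (M.D_pos d).le) fun e => ?_
  exact (M.D_pos d).ne' (Complex.arg_eq_zero_iff.mp e.symm).2

theorem θ_lt (d : Φ) : M.θ d < π := Complex.arg_lt_pi_iff.mpr (Or.inr (M.D_pos d).ne')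

theorem z_ne (d : Φ) : M.z d ≠ 0 := fun e => (M.D_pos d).ne' (congrArg Complex.im e)

theorem exists_chart (v : ι) : ∃ w : V → ℂ, (∀ d, M.tl d = v →
    M.z d = w (M.C d) * (starRingEnd ℂ) (w (M.B d))) ∧
    ∀ (a b a' b' : ℝ) (x y x' y' : V), (a : ℂ) * w x + b * w y = a' * w x' + b' * w y' →
      ∃ μ : ℝ, a • x + b • y = μ • M.p v + a' • x' + b' • y' := by
  obtain ⟨e, f, a1, a2, a3, a4, a5, a6, a7⟩ := exists_onb (M.unit v)
  refine ⟨fun x => ⟨ip x e, ip x f⟩, fun d hd => ?_, fun a b a' b' x y x' y' h => ?_⟩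
  · have hA : M.A d = M.p v := by rw [A, hd]
    have hB := a7 (M.B d)
    have hC := a7 (M.C d)
    apply Complex.ext
    · have : ip (M.B d) (M.C d) = ip (M.B d) (ip (M.C d) (M.p v) • M.p v + ip (M.C d) e • e
          + ip (M.C d) f • f) := by rw [← hC]
      rw [ip_add_right, ip_add_right, ip_smul_right, ip_smul_right, ip_smul_right] at this
      simp only [z, Complex.mul_re, Complex.conj_re, Complex.conj_im, hA]
      rw [this, ip_comm (M.p v) (M.B d)]
      ring
    · have : M.D d = det3 (M.p v) (ip (M.B d) (M.p v) • M.p v + ip (M.B d) e • e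
          + ip (M.B d) f • f) (ip (M.C d) (M.p v) • M.p v + ip (M.C d) e • e
          + ip (M.C d) f • f) := by rw [← hB, ← hC, D, hA]
      simp only [z, Complex.mul_im, Complex.conj_re, Complex.conj_im]
      rw [this]
      simp only [det3, Pi.add_apply, Pi.smul_apply, smul_eq_mul] at a6 ⊢
      linear_combination (ip (M.B d) e * ip (M.C d) f - ip (M.B d) f * ip (M.C d) e) * a6
  · have h1 := congrArg Complex.re h
    have h2 := congrArg Complex.im h
    simp only [Complex.add_re, Complex.mul_re, Complex.ofReal_re, Complex.ofReal_im, zero_mul,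
      sub_zero, Complex.add_im, Complex.mul_im, add_zero] at h1 h2
    have h3 := a7 (a • x + b • y - (a' • x' + b' • y'))
    rw [ip_sub_left _ _ e, ip_sub_left _ _ f, ip_add_left _ _ e, ip_add_left _ _ e,
      ip_add_left _ _ f, ip_add_left _ _ f] at h3
    simp only [ip_smul_left] at h3
    rw [h1, h2, sub_self, sub_self, zero_smul, zero_smul, add_zero, add_zero,
      sub_eq_iff_eq_add, ← add_assoc] at h3
    exact ⟨_, h3⟩

theorem angle_le (v : ι) : ∑ d ∈ M.star v, M.θ d ≤ 2 * π := by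
  obtain ⟨w, h1, h2⟩ := M.exists_chart v
  have := sector_sum (M.star v) (fun d => w (M.B d)) (fun d => w (M.C d))
    (fun d hd => by rw [← h1 d (M.mem_star.mp hd)]; exact M.D_pos d) (by
      intro d hd d' hd' hne a b a' b' ha hb ha' hb' e
      obtain ⟨μ, hμ⟩ := h2 _ _ _ _ _ _ _ _ e
      have hv := M.mem_star.mp hd
      have hv' := M.mem_star.mp hd'
      have e2 : (|μ| + 1) • M.A d + a • M.B d + b • M.C d =
          (|μ| + 1 + μ) • M.A d' + a' • M.B d' + b' • M.C d' := by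
        rw [add_assoc, hμ, A, A, hv, hv']
        module
      rcases M.cone_disj (by positivity) ha hb (by linarith [neg_abs_le μ]) ha' hb' e2 with
        h | h | h
      · exact hne h.symm
      · exact M.tl_ne d (by rw [← h, hv, hv'])
      · exact M.tl_ne' d (by rw [← h, hv, hv']))
  refine le_of_eq_of_le (Finset.sum_congr rfl fun d hd => ?_) this
  rw [θ, h1 d (M.mem_star.mp hd)]

theorem angle_ge {v : ι} {S : Finset Φ} (hS : ∀ d ∈ S, M.tl d = v) (hr : ∀ d ∈ S, M.r d ∈ S)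
    (hne : S.Nonempty) : 2 * π ≤ ∑ d ∈ S, M.θ d := by
  classical
  obtain ⟨w, h1, -⟩ := M.exists_chart v
  have e1 : ∀ d ∈ S, ((M.θ d : ℝ) : Real.Angle) = (Complex.arg (w (M.B (M.r d))) : Real.Angle)
      - (Complex.arg (w (M.B d)) : Real.Angle) := by
    intro d hd
    have h := M.z_ne d
    rw [h1 d (hS d hd)] at h
    rw [θ, h1 d (hS d hd), Complex.arg_mul_coe_angle (left_ne_zero_of_mul h)
      (right_ne_zero_of_mul h), Complex.arg_conj_coe_angle, B_r, sub_eq_add_neg]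
  have e2 : ∑ d ∈ S, (Complex.arg (w (M.B (M.r d))) : Real.Angle) =
      ∑ d ∈ S, (Complex.arg (w (M.B d)) : Real.Angle) := by
    have : S.image M.r = S := Finset.eq_of_subset_of_card_le
      (Finset.image_subset_iff.mpr hr) (Finset.card_image_of_injective _ M.r.injective).ge
    conv_rhs => rw [← this, Finset.sum_image fun _ _ _ _ h => M.r.injective h]
  have e3 : ((∑ d ∈ S, M.θ d : ℝ) : Real.Angle) = ((0 : ℝ) : Real.Angle) := by
    have := map_sum Real.Angle.coeHom M.θ S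
    simp only [Real.Angle.coe_coeHom] at this
    rw [this, Finset.sum_congr rfl e1, Finset.sum_sub_distrib, e2, sub_self]
    rfl
  obtain ⟨k, hk⟩ := Real.Angle.angle_eq_iff_two_pi_dvd_sub.mp e3
  have hp : 0 < ∑ d ∈ S, M.θ d := Finset.sum_pos (fun d _ => M.θ_pos d) hne
  rw [sub_zero] at hk
  rw [hk] at hp ⊢
  have : (1 : ℝ) ≤ k := by
    have : (0 : ℝ) < k := (pos_iff_pos_of_mul_pos hp).mp two_pi_pos
    exact_mod_cast (by exact_mod_cast this : 0 < k)
  nlinarith [pi_pos]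

theorem angle_sum (v : ι) : ∑ d ∈ M.star v, M.θ d = 2 * π :=
  (M.angle_le v).antisymm (M.angle_ge (fun _ hd => M.mem_star.mp hd)
    (fun d hd => M.mem_star.mpr ((M.tl_r d).trans (M.mem_star.mp hd)))
    (let ⟨d, h⟩ := M.exists_flag v; ⟨d, M.mem_star.mpr h⟩))

/-- The rotation is transitive on the flags at a vertex. -/
theorem star_eq {v : ι} {S : Finset Φ} (hS : ∀ d ∈ S, M.tl d = v) (hr : ∀ d ∈ S, M.r d ∈ S)
    (hne : S.Nonempty) : S = M.star v := by
  have hsub : S ⊆ M.star v := fun d hd => M.mem_star.mpr (hS d hd)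
  by_contra h
  obtain ⟨d, h1, h2⟩ := Finset.exists_of_ssubset (hsub.ssubset_of_ne h)
  have := Finset.sum_lt_sum_of_subset hsub h1 h2 (M.θ_pos d) fun j _ _ => (M.θ_pos j).le
  linarith [M.angle_le v, M.angle_ge hS hr hne]

theorem sum_θ : ∑ d, M.θ d = 2 * π * Fintype.card ι := by
  rw [← M.sum_star]
  simp [angle_sum, mul_comm]

theorem N_φ (d : Φ) : M.N (M.φ d) = M.N d := by
  rw [N, N, A_φ, B_φ, C_φ]; ring

theorem E_φ (d : Φ) : M.E (M.φ d) = M.E d := by rw [E, E, N_φ, D_φ]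

theorem N_eq (d : Φ) : M.N d = 4 - (M.sq d + M.sq (M.φ d) + M.sq (M.φ (M.φ d))) / 2 := by
  rw [sq_eq, sq_φ, sq_φφ, N]; ring

theorem D_sq (d : Φ) : M.D d ^ 2 = 1 + 2 * ip (M.A d) (M.B d) * ip (M.B d) (M.C d)
    * ip (M.C d) (M.A d) - ip (M.B d) (M.C d) ^ 2 - ip (M.C d) (M.A d) ^ 2
    - ip (M.A d) (M.B d) ^ 2 := by
  rw [D, det3_sq, uA, uB, uC]; ring

theorem E_bounds {d : Φ} (hN : 0 < M.N d) : 0 < M.E d ∧ M.E d < π ∧ M.E d ≤ 2 * (M.D d / M.N d) ∧
    2 * (M.D d / M.N d) - (M.D d / M.N d) ^ 3 ≤ M.E d := by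
  have hD := M.D_pos d
  set w : ℂ := ⟨M.N d, M.D d⟩ with hw
  have h0 : 0 < Complex.arg w := lt_of_le_of_ne (Complex.arg_nonneg_iff.mpr hD.le)
    fun e => hD.ne' (Complex.arg_eq_zero_iff.mp e.symm).2
  have h1 : Complex.arg w < π / 2 := Complex.arg_lt_pi_div_two_iff.mpr (Or.inl hN)
  have h2 := Real.lt_tan h0 h1
  rw [Complex.tan_arg] at h2
  have h3 := Real.sin_le h0.le
  rw [Complex.sin_arg] at h3
  have hn : ‖w‖ ^ 2 = M.N d ^ 2 + M.D d ^ 2 := by
    rw [Complex.sq_norm, Complex.normSq_apply]; simp only [hw]; ring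
  have hn0 : 0 < ‖w‖ := by
    by_contra h
    have : ‖w‖ = 0 := le_antisymm (not_lt.mp h) (norm_nonneg _)
    rw [this] at hn
    nlinarith
  refine ⟨by unfold E; linarith, by unfold E; linarith, by unfold E; linarith, ?_⟩
  have h4 : M.D d / M.N d - (M.D d / M.N d) ^ 3 / 2 ≤ M.D d / ‖w‖ := by
    set y := M.D d / M.N d with hy
    have hy0 : 0 < y := div_pos hD hN
    have e : M.D d = y * M.N d := by rw [hy]; field_simp
    rw [le_div_iff₀ hn0, e]
    have h5 : ‖w‖ * (1 - y ^ 2 / 2) ≤ M.N d := by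
      rcases le_or_gt (1 - y ^ 2 / 2) 0 with h | h
      · nlinarith
      · refine abs_le_of_sq_le_sq' ?_ hN.le |>.2
        rw [mul_pow, hn, e]
        have : (1 + y ^ 2) * (1 - y ^ 2 / 2) ^ 2 ≤ 1 := by
          nlinarith [mul_nonneg (_root_.sq_nonneg (y ^ 2)) h.le, _root_.sq_nonneg (y ^ 2)]
        nlinarith [_root_.sq_nonneg (M.N d)]
    nlinarith
  unfold E
  change M.D d / ‖w‖ ≤ _ at h3
  linarith

theorem face_sum {d : Φ} (hN : 0 < M.N d) :
    M.θ d + M.θ (M.φ d) + M.θ (M.φ (M.φ d)) = π + M.E d := by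
  set w : ℂ := ⟨M.N d, M.D d⟩ with hw
  have hw0 : w ≠ 0 := fun e => hN.ne' (congrArg Complex.re e)
  have hx : 0 < 1 - ip (M.B d) (M.C d) :=
    sub_pos.mpr (ip_lt_one (M.uB d) (M.uC d) (M.inj.ne (M.tl_ne (M.φ d)).symm))
  have hy : 0 < 1 - ip (M.C d) (M.A d) :=
    sub_pos.mpr (ip_lt_one (M.uC d) (M.uA d) (M.inj.ne (M.tl_ne' d)))
  have hz : 0 < 1 - ip (M.A d) (M.B d) :=
    sub_pos.mpr (ip_lt_one (M.uA d) (M.uB d) (M.inj.ne (M.tl_ne d).symm))
  have hκ : 0 < (1 - ip (M.B d) (M.C d)) * (1 - ip (M.C d) (M.A d)) * (1 - ip (M.A d) (M.B d))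
      / 2 := by positivity
  have e : M.z d * M.z (M.φ d) * M.z (M.φ (M.φ d)) = -((((1 - ip (M.B d) (M.C d))
      * (1 - ip (M.C d) (M.A d)) * (1 - ip (M.A d) (M.B d)) / 2 : ℝ) : ℂ) * (w * w)) := by
    have hD := M.D_sq d
    apply Complex.ext
    · simp only [z, hw, N, D_φ, A_φ, B_φ, C_φ, Complex.mul_re, Complex.mul_im, Complex.neg_re,
        Complex.ofReal_re, Complex.ofReal_im]
      generalize ip (M.B d) (M.C d) = x at *
      generalize ip (M.C d) (M.A d) = y at *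
      generalize ip (M.A d) (M.B d) = t at *
      linear_combination (-((x - t * y) + (y - x * t) + (t - y * x))
        - (1 - x) * (1 - y) * (1 - t) / 2) * hD
    · simp only [z, hw, N, D_φ, A_φ, B_φ, C_φ, Complex.mul_re, Complex.mul_im, Complex.neg_im,
        Complex.ofReal_re, Complex.ofReal_im]
      generalize ip (M.B d) (M.C d) = x at *
      generalize ip (M.C d) (M.A d) = y at *
      generalize ip (M.A d) (M.B d) = t at *
      linear_combination (-M.D d) * hD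
  have e2 : ((M.θ d + M.θ (M.φ d) + M.θ (M.φ (M.φ d)) : ℝ) : Real.Angle) =
      ((π + M.E d : ℝ) : Real.Angle) := by
    rw [Real.Angle.coe_add, Real.Angle.coe_add, θ, θ, θ, ← Complex.arg_mul_coe_angle (M.z_ne _)
      (M.z_ne _), ← Complex.arg_mul_coe_angle (mul_ne_zero (M.z_ne _) (M.z_ne _)) (M.z_ne _), e,
      Complex.arg_neg_coe_angle (mul_ne_zero (by exact_mod_cast hκ.ne') (mul_ne_zero hw0 hw0)),
      Complex.arg_real_mul _ hκ, Complex.arg_mul_coe_angle hw0 hw0, E, two_mul,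
      Real.Angle.coe_add, Real.Angle.coe_add, add_comm]
  obtain ⟨k, hk⟩ := Real.Angle.angle_eq_iff_two_pi_dvd_sub.mp e2
  obtain ⟨b1, b2, -⟩ := M.E_bounds hN
  have k1 : (k : ℝ) < 1 := by
    by_contra h
    nlinarith [M.θ_lt d, M.θ_lt (M.φ d), M.θ_lt (M.φ (M.φ d)), pi_pos]
  have k2 : (-1 : ℝ) < k := by
    by_contra h
    nlinarith [M.θ_pos d, M.θ_pos (M.φ d), M.θ_pos (M.φ (M.φ d)), pi_pos]
  have : k = 0 := by
    have a1 : k < 1 := by exact_mod_cast k1
    have a2 : -1 < k := by exact_mod_cast k2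
    omega
  rw [this] at hk
  simp only [Int.cast_zero, mul_zero] at hk
  linarith

theorem N_ge {ℓ : ℝ} (hl : ∀ d, M.sq d ≤ ℓ ^ 2) (d : Φ) : 4 - 3 * ℓ ^ 2 / 2 ≤ M.N d := by
  rw [N_eq]
  linarith [hl d, hl (M.φ d), hl (M.φ (M.φ d))]

/-- Euler's formula and the total area. -/
theorem sum_E {ℓ : ℝ} (hl : ∀ d, M.sq d ≤ ℓ ^ 2) (h1 : ℓ ^ 2 ≤ 1 / 10) :
    ∑ d, M.E d = 12 * π ∧ Fintype.card Φ + 12 = 6 * Fintype.card ι := by
  have hN : ∀ d, 77 / 20 ≤ M.N d := fun d => by linarith [M.N_ge hl d]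
  have hN0 : ∀ d, 0 < M.N d := fun d => by linarith [hN d]
  have e1 : ∑ d, M.E d = π * (6 * Fintype.card ι - Fintype.card Φ) := by
    have : ∑ d, (π + M.E d) = ∑ d, (M.θ d + M.θ (M.φ d) + M.θ (M.φ (M.φ d))) :=
      Finset.sum_congr rfl fun d _ => (M.face_sum (hN0 d)).symm
    rw [Finset.sum_add_distrib, Finset.sum_add_distrib, Finset.sum_add_distrib, M.sum_φφ,
      M.sum_φ, sum_θ] at this
    simp only [Finset.sum_const, Finset.card_univ, nsmul_eq_mul] at this
    linarith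
  have e2 : ∑ d, M.E d ≤ ∑ d, 40 / 77 * M.D d := Finset.sum_le_sum fun d _ => by
    refine (M.E_bounds (hN0 d)).2.2.1.trans ?_
    rw [← mul_div_assoc, div_le_iff₀ (hN0 d)]
    nlinarith [hN d, M.D_pos d]
  rw [← Finset.mul_sum] at e2
  have e3 := M.sum_D_le Finset.univ
  have e4 : (6 * Fintype.card ι - Fintype.card Φ : ℝ) < 13 := by
    by_contra h
    nlinarith [pi_pos]
  have e5 : 6 * Fintype.card ι < 13 + Fintype.card Φ := by
    have : (6 * Fintype.card ι : ℝ) < 13 + Fintype.card Φ := by linarith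
    exact_mod_cast this
  have e6 : Fintype.card Φ + 12 = 6 * Fintype.card ι := by
    have := M.card
    omega
  refine ⟨?_, e6⟩
  have : (Fintype.card Φ + 12 : ℝ) = 6 * Fintype.card ι := by exact_mod_cast e6
  rw [e1, ← this]
  ring

end Mesh

end Pool.Agent.MP_2ab689_gt.Big
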