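import Pool.Agent.MP_2ab689_gt.Big.Spec

/-!
The construction: a polytope with large volume from a plan of rows.
-/

namespace Pool.Agent.MP_2ab689_gt.Big

open MeasureTheory Set Real

namespace Build

theorem sum_up (f : ℝ → ENNReal) (t : ℕ → ℝ) (a b : ℕ) (hab : a ≤ b)
    (h : ∀ j, a ≤ j → j < b → t j ≤ t (j + 1)) :
    t a ≤ t b ∧ ∑ j ∈ Finset.Ico a b, ∫⁻ z in uIoc (t j) (t (j + 1)), f z =
      ∫⁻ z in Ioc (t a) (t b), f z := by
  induction b, hab using Nat.le_induction with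
  | base => simp
  | succ b hab ih =>
    obtain ⟨i1, i2⟩ := ih fun j h1 h2 => h j h1 (by omega)
    have i3 := h b hab (by omega)
    refine ⟨i1.trans i3, ?_⟩
    rw [Finset.sum_Ico_succ_top hab, i2, uIoc_of_le i3, ← Ioc_union_Ioc_eq_Ioc i1 i3,
      lintegral_union measurableSet_Ioc (Ioc_disjoint_Ioc_of_le le_rfl)]

theorem sum_down (f : ℝ → ENNReal) (t : ℕ → ℝ) (a b : ℕ) (hab : a ≤ b)
    (h : ∀ j, a ≤ j → j < b → t (j + 1) ≤ t j) :
    t b ≤ t a ∧ ∑ j ∈ Finset.Ico a b, ∫⁻ z in uIoc (t j) (t (j + 1)), f z =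
      ∫⁻ z in Ioc (t b) (t a), f z := by
  induction b, hab using Nat.le_induction with
  | base => simp
  | succ b hab ih =>
    obtain ⟨i1, i2⟩ := ih fun j h1 h2 => h j h1 (by omega)
    have i3 := h b hab (by omega)
    refine ⟨i3.trans i1, ?_⟩
    rw [Finset.sum_Ico_succ_top hab, i2, uIoc_of_ge i3, ← Ioc_union_Ioc_eq_Ioc i3 i1,
      lintegral_union measurableSet_Ioc (Ioc_disjoint_Ioc_of_le le_rfl), add_comm]

theorem ofReal_sum_le (s : Finset ℕ) (v : ℕ → ℝ) :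
    ENNReal.ofReal (∑ j ∈ s, v j) ≤ ∑ j ∈ s, ENNReal.ofReal (v j) := by
  induction s using Finset.induction_on with
  | empty => simp
  | insert a s ha ih =>
    rw [Finset.sum_insert ha, Finset.sum_insert ha]
    exact ENNReal.ofReal_add_le.trans (add_le_add_right ih _)

theorem tele (t : ℕ → ℝ) {a b : ℕ} (hab : a ≤ b) :
    ∑ j ∈ Finset.Ico a b, (t j - t (j + 1)) = t a - t b := by
  induction b, hab using Nat.le_induction with
  | base => simp
  | succ b hab ih => rw [Finset.sum_Ico_succ_top hab, ih]; ring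

variable {J : ℕ}

theorem gam_pos (hJ : 2 ≤ J) : 0 < gam J := by
  have : (0 : ℝ) < J := by exact_mod_cast (by omega : 0 < J)
  unfold gam
  positivity

theorem J_gam (hJ : 2 ≤ J) : (J : ℝ) * gam J = π / 2 := by
  have : (0 : ℝ) < J := by exact_mod_cast (by omega : 0 < J)
  unfold gam
  field_simp

theorem gam_le (hJ : 2 ≤ J) : gam J ≤ π / 4 := by
  have h1 : (2 : ℝ) ≤ J := by exact_mod_cast hJ
  nlinarith [J_gam hJ, gam_pos hJ]

theorem half_le (hJ : 2 ≤ J) : gam J / 2 ≤ cc J ∧ cc J ≤ gam J := by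
  have h0 := gam_pos hJ
  have h1 := gam_le hJ
  have h2 := sin_le (x := gam J / 2) (by linarith)
  have h3 := sin_gt_sub_cube (x := gam J / 2) (by linarith)
  have h4 : gam J ≤ 1 := by linarith [pi_le_four]
  have h5 : gam J ^ 3 ≤ gam J := by nlinarith [mul_pos h0 h0]
  unfold cc
  constructor <;> nlinarith

theorem cc_pos (hJ : 2 ≤ J) : 0 < cc J := by linarith [(half_le hJ).1, gam_pos hJ]

theorem hh_eq : √3 * hh J = 2 * cc J := by
  unfold hh
  field_simp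

theorem dcos (j : ℕ) : cos (j * gam J) - cos ((j + 1 : ℕ) * gam J) = cc J * rbar J j := by
  rw [cos_sub_cos, cc, rbar]
  push_cast
  rw [show ((j : ℝ) * gam J + (j + 1) * gam J) / 2 = (j + 1 / 2) * gam J by ring,
    show ((j : ℝ) * gam J - (j + 1) * gam J) / 2 = -(gam J / 2) by ring, sin_neg]
  ring

theorem dsin (j : ℕ) :
    cc J ^ 2 = (cc J * rbar J j) ^ 2 + (sin (j * gam J) - sin ((j + 1 : ℕ) * gam J)) ^ 2 := by
  rw [sin_sub_sin, cc, rbar]
  push_cast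
  rw [show ((j : ℝ) * gam J + (j + 1) * gam J) / 2 = (j + 1 / 2) * gam J by ring,
    show ((j : ℝ) * gam J - (j + 1) * gam J) / 2 = -(gam J / 2) by ring, sin_neg]
  linear_combination (-4 * sin (gam J / 2) ^ 2) * sin_sq_add_cos_sq ((j + 1 / 2) * gam J)

theorem cc_le (hJ : 2 ≤ J) {j : ℕ} (h1 : 1 ≤ j) (h2 : j < J) : cc J ≤ rbar J j := by
  have g0 := gam_pos hJ
  have g1 := gam_le hJ
  have a1 : (1 : ℝ) ≤ j := by exact_mod_cast h1
  have a2 : (j : ℝ) + 1 ≤ J := by exact_mod_cast h2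
  have a3 : sin (3 * (gam J / 2)) ≤ rbar J j :=
    sin_le_sin_of_le_of_le_pi_div_two (by linarith [pi_pos]) (by nlinarith [J_gam hJ])
      (by nlinarith)
  rw [sin_three_mul] at a3
  have s0 : 0 ≤ sin (gam J / 2) := sin_nonneg_of_nonneg_of_le_pi (by linarith) (by linarith [pi_pos])
  have s1 : sin (gam J / 2) ≤ 1 / 2 := (sin_le (by linarith)).trans (by linarith [pi_le_four])
  have s2 : sin (gam J / 2) ^ 2 ≤ 1 / 4 := by nlinarith
  unfold cc
  nlinarith [mul_le_mul_of_nonneg_left s2 s0]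

theorem sin_row (hJ : 2 ≤ J) {j : ℕ} (h2 : j ≤ J) : 0 ≤ sin (j * gam J) := by
  have a2 : (j : ℝ) ≤ J := by exact_mod_cast h2
  have g0 := gam_pos hJ
  exact sin_nonneg_of_nonneg_of_le_pi (by positivity) (by nlinarith [J_gam hJ, pi_pos])

theorem near_row (hJ : 2 ≤ J) (j : ℕ) : |sin (j * gam J) - rbar J j| ≤ cc J ∧
    |sin ((j + 1 : ℕ) * gam J) - rbar J j| ≤ cc J := by
  have g0 := gam_pos hJ
  constructor
  · refine (abs_sin_sub_sin_le _ _).trans (le_trans (le_of_eq ?_) (half_le hJ).1)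
    rw [show (j : ℝ) * gam J - (j + 1 / 2) * gam J = -(gam J / 2) by ring, abs_neg,
      abs_of_pos (by linarith)]
  · refine (abs_sin_sub_sin_le _ _).trans (le_trans (le_of_eq ?_) (half_le hJ).1)
    push_cast
    rw [show ((j : ℝ) + 1) * gam J - (j + 1 / 2) * gam J = gam J / 2 by ring,
      abs_of_pos (by linarith)]

/-- A point of row `j`. -/
noncomputable def pt (J : ℕ) (σ : ℝ) (j : ℕ) (a : ℝ) : V :=
  ![σ * cos (j * gam J), sin (j * gam J) * cos a, sin (j * gam J) * sin a]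

theorem pt_unit {σ : ℝ} (hσ : σ ^ 2 = 1) (j : ℕ) (a : ℝ) : ip (pt J σ j a) (pt J σ j a) = 1 := by
  simp only [ip, pt, Matrix.cons_val_zero, Matrix.cons_val_one, Matrix.cons_val_two,
    Matrix.head_cons, Matrix.tail_cons]
  linear_combination cos (j * gam J) ^ 2 * hσ + sin_sq_add_cos_sq (j * gam J) +
    sin (j * gam J) ^ 2 * sin_sq_add_cos_sq a

theorem pt_per (σ : ℝ) (j : ℕ) (a : ℝ) (m : ℤ) : pt J σ j (a + m * (2 * π)) = pt J σ j a := by
  rw [pt, cos_add_int_mul_two_pi, sin_add_int_mul_two_pi, pt]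

theorem sphere_inf : {x : V | ip x x = 1}.Infinite := by
  refine infinite_of_injOn_mapsTo (s := Ioo (0 : ℝ) 1) (f := fun t => (![t, √(1 - t ^ 2), 0] : V))
    (fun a _ b _ h => by simpa using congrFun h 0) (fun t ht => ?_) (Ioo_infinite one_pos)
  have : 0 ≤ 1 - t ^ 2 := by nlinarith [ht.1, ht.2]
  simp only [ip, mem_ofPred_eq, Matrix.cons_val_zero, Matrix.cons_val_one, Matrix.cons_val_two,
    Matrix.head_cons, Matrix.tail_cons, Real.mul_self_sqrt this]
  ring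

theorem exists_hull {K : ℕ} (S : Finset V) (hS : ∀ x ∈ S, ip x x = 1) (hK : S.card ≤ K)
    (he : ∀ i, (Pi.single i 1 : V) ∈ S ∧ (Pi.single i (-1) : V) ∈ S) :
    ∃ (P : Set E3) (H : Set V), Inscribed K P ∧ volume P = volume H ∧ volume H ≠ ⊤ ∧ Convex ℝ H ∧
      MeasurableSet H ∧ ∀ x ∈ S, x ∈ H := by
  classical
  obtain ⟨T, hT, hc⟩ := (sphere_inf.sdiff S.finite_toSet).exists_subset_card_eq (K - S.card)
  have hd : Disjoint S T := Finset.disjoint_left.2 fun x hx hx' => (hT hx').2 hx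
  have hU : (S ∪ T).card = K := by rw [Finset.card_union_of_disjoint hd, hc]; omega
  let p : Fin K → V := fun i => ((Finset.equivFinOfCardEq hU).symm i : V)
  have pi : Function.Injective p := Subtype.val_injective.comp (Equiv.injective _)
  have pu : ∀ i, ip (p i) (p i) = 1 := fun i => by
    rcases Finset.mem_union.1 ((Finset.equivFinOfCardEq hU).symm i).2 with h | h
    · exact hS _ h
    · exact (hT h).1
  have ps : ∀ x ∈ S, x ∈ range p := fun x hx =>
    ⟨Finset.equivFinOfCardEq hU ⟨x, Finset.mem_union_left _ hx⟩, by simp [p]⟩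
  have pe : ∀ x ∈ S, WithLp.toLp 2 x ∈ convexHull ℝ (range ((WithLp.toLp 2 : V → E3) ∘ p)) :=
    fun x hx => by
      obtain ⟨i, rfl⟩ := ps x hx
      exact subset_convexHull _ _ ⟨i, rfl⟩
  refine ⟨_, convexHull ℝ (range p), inscribed_hull ((WithLp.toLp_injective 2).comp pi)
    (fun i => (norm_eq_one_iff _).2 (pu i)) (zero_mem_interior (convex_convexHull _ _) one_pos
      fun i => ⟨pe _ (he i).1, pe _ (he i).2⟩), vol_toLp p, ?_, convex_convexHull _ _,
    ((finite_range p).isClosed_convexHull ℝ).measurableSet,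
    fun x hx => subset_convexHull _ _ (ps x hx)⟩
  exact ((measure_mono (hull_sub_ball pu)).trans_lt (by rw [vol_ball]; exact ENNReal.ofReal_lt_top)).ne

/-- The volume formula of slab `j`. -/
noncomputable def VV (J j N : ℕ) (g : ℕ → ℝ) : ℝ :=
  if Even j then slabV (cc J * rbar J j) (sin (j * gam J)) (sin ((j + 1 : ℕ) * gam J)) N g
  else slabV (cc J * rbar J j) (sin ((j + 1 : ℕ) * gam J)) (sin (j * gam J)) N g

theorem slab (hs : SlabS) (hJ : 2 ≤ J) {j N : ℕ} (h1 : 1 ≤ j) (h2 : j < J) {g : ℕ → ℝ} {H : Set V}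
    (hH : Convex ℝ H) (hax : ∀ z, |z| ≤ 1 → (![z, 0, 0] : V) ∈ H) {σ : ℝ} (hσ : |σ| = 1)
    (hN : Even N) (g1 : ∀ k, g k ≤ g (k + 1)) (g2 : ∀ k, g (k + 2) - g k < π)
    (g3 : ∀ k, g (k + N) = g k + 2 * π) (g4 : ∀ k, Even (j + k) → pt J σ j (g k) ∈ H)
    (g5 : ∀ k, Odd (j + k) → pt J σ (j + 1) (g k) ∈ H) :
    ENNReal.ofReal (VV J j N g) ≤
      ∫⁻ z in uIoc (σ * cos (j * gam J)) (σ * cos ((j + 1 : ℕ) * gam J)), volume (sec H z) := by
  have hz : ∀ x, (![σ * cos x, 0, 0] : V) ∈ H := fun x =>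
    hax _ (by rw [abs_mul, hσ, one_mul]; exact abs_cos_le_one x)
  have hd : |σ * cos (j * gam J) - σ * cos ((j + 1 : ℕ) * gam J)| = cc J * rbar J j := by
    rw [← mul_sub, abs_mul, hσ, one_mul, dcos, abs_of_pos
      (mul_pos (cc_pos hJ) ((cc_pos hJ).trans_le (cc_le hJ h1 h2)))]
  have s1 := sin_row hJ h2.le
  have s2 := sin_row hJ (show j + 1 ≤ J from h2)
  unfold VV
  split_ifs with hj
  · rw [← hd]
    exact hs H _ _ _ _ N g hH s1 s2 hN (hz _) (hz _) g1 g2 g3 (fun k hk => g4 k (hj.add hk))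
      fun k hk => g5 k (hj.add_odd hk)
  · rw [Nat.not_even_iff_odd] at hj
    rw [← hd, abs_sub_comm, uIoc_comm]
    exact hs H _ _ _ _ N g hH s2 s1 hN (hz _) (hz _) g1 g2 g3 (fun k hk => g5 k (hj.add_even hk))
      fun k hk => g4 k (hj.add_odd hk)

theorem cos_anti (hJ : 2 ≤ J) {j : ℕ} (h1 : 1 ≤ j) (h2 : j < J) :
    cos ((j + 1 : ℕ) * gam J) ≤ cos (j * gam J) := by
  have := mul_pos (cc_pos hJ) ((cc_pos hJ).trans_le (cc_le hJ h1 h2))
  linarith [dcos (J := J) j]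

theorem vol_ge (hJ : 2 ≤ J) {H : Set V} (hm : MeasurableSet H) (hf : volume H ≠ ⊤) (v : ℕ → ℝ)
    (h : ∀ σ : ℝ, σ = 1 ∨ σ = -1 → ∀ j ∈ Finset.Ico 1 J, ENNReal.ofReal (v j) ≤
      ∫⁻ z in uIoc (σ * cos (j * gam J)) (σ * cos ((j + 1 : ℕ) * gam J)), volume (sec H z)) :
    2 * ∑ j ∈ Finset.Ico 1 J, v j ≤ (volume H).toReal := by
  have a1 := (sum_down (fun z => volume (sec H z)) (fun j => 1 * cos (j * gam J)) 1 J (by omega)
    fun j h1 h2 => by simpa using cos_anti hJ h1 h2).2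
  have a2 := (sum_up (fun z => volume (sec H z)) (fun j => -1 * cos (j * gam J)) 1 J (by omega)
    fun j h1 h2 => by simpa using cos_anti hJ h1 h2).2
  have b1 := (ofReal_sum_le _ v).trans (Finset.sum_le_sum (h 1 (Or.inl rfl)))
  have b2 := (ofReal_sum_le _ v).trans (Finset.sum_le_sum (h (-1) (Or.inr rfl)))
  rw [a1] at b1
  rw [a2] at b2
  rw [J_gam hJ, cos_pi_div_two, mul_zero] at b1 b2
  have b3 := add_le_add b2 b1
  rw [← lintegral_union measurableSet_Ioc (Ioc_disjoint_Ioc_of_le le_rfl)] at b3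
  have b4 := ENNReal.ofReal_add_le.trans (b3.trans (setLIntegral_le_lintegral _ _))
  rw [← vol_sections hm, ENNReal.ofReal_le_iff_le_toReal hf] at b4
  linarith

theorem loss {B C : ℝ} (hl : ∀ (c h r a b : ℝ) (N : ℕ) (g : ℕ → ℝ), 0 < c →
    √3 * h = 2 * c → c ≤ r → 0 ≤ a → 0 ≤ b → |a - r| ≤ c → |b - r| ≤ c →
    c ^ 2 = (c * r) ^ 2 + (a - b) ^ 2 → Even N →
    (∀ k, g k ≤ g (k + 1)) → (∀ k, g (k + N) = g k + 2 * π) →
    (∀ k, (g (k + 1) - g k) * r / h ≤ B) →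
    π * (c * r) * (3 * a ^ 2 + 3 * b ^ 2 + (c * r) ^ 2) / 6 - slabV (c * r) a b N g ≤
      (π * c ^ 2 / 6 + 3 * π * h ^ 2 / 8) * (c * r) - c * h ^ 3 / 16 * N +
        C * h ^ 4 * (1 + ∑ k ∈ Finset.range N, ((g (k + 1) - g k) * r / h - 1 / 2) ^ 2))
    (hJ : 2 ≤ J) {j N : ℕ} (h1 : 1 ≤ j) (h2 : j < J) {g : ℕ → ℝ} (hN : Even N)
    (g1 : ∀ k, g k ≤ g (k + 1)) (g3 : ∀ k, g (k + N) = g k + 2 * π)
    (gB : ∀ k, (g (k + 1) - g k) * rbar J j / hh J ≤ B) :
    (π * (cos (j * gam J) - cos (j * gam J) ^ 3 / 3) - π * hh J ^ 2 / 2 * cos (j * gam J)) -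
      (π * (cos ((j + 1 : ℕ) * gam J) - cos ((j + 1 : ℕ) * gam J) ^ 3 / 3) -
        π * hh J ^ 2 / 2 * cos ((j + 1 : ℕ) * gam J)) + √3 * hh J ^ 4 / 32 * N -
      C * hh J ^ 4 * (1 + ∑ k ∈ Finset.range N,
        ((g (k + 1) - g k) * rbar J j / hh J - 1 / 2) ^ 2) ≤ VV J j N g := by
  have s1 := sin_row hJ h2.le
  have s2 := sin_row hJ (show j + 1 ≤ J from h2)
  have n := near_row hJ j
  have e3 : √3 ^ 2 = 3 := Real.sq_sqrt (by norm_num)
  have c1 : cc J = √3 * hh J / 2 := by linarith [hh_eq (J := J)]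
  have c2 : cc J ^ 2 = 3 * hh J ^ 2 / 4 := by rw [c1, div_pow, mul_pow, e3]; ring
  have c3 : cc J * hh J ^ 3 / 16 = √3 * hh J ^ 4 / 32 := by rw [c1]; ring
  have t1 := sin_sq (j * gam J)
  have t2 := sin_sq ((j + 1 : ℕ) * gam J)
  unfold VV
  split_ifs with hj
  · have := hl _ _ _ _ _ N g (cc_pos hJ) hh_eq (cc_le hJ h1 h2) s1 s2 n.1 n.2 (dsin j) hN g1 g3 gB
    rw [c2, c3, t1, t2] at this
    rw [← dcos] at this ⊢
    linarith
  · have := hl _ _ _ _ _ N g (cc_pos hJ) hh_eq (cc_le hJ h1 h2) s2 s1 n.2 n.1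
      (by linear_combination dsin (J := J) j) hN g1 g3 gB
    rw [c2, c3, t1, t2] at this
    rw [← dcos] at this ⊢
    linarith

theorem top : 2 / 3 - gam J ^ 4 / 4 ≤ cos (gam J) - cos (gam J) ^ 3 / 3 := by
  have h1 := one_sub_sq_div_two_le_cos (x := gam J)
  have h2 := cos_le_one (gam J)
  have h3 : (1 - cos (gam J)) ^ 2 ≤ (gam J ^ 2 / 2) ^ 2 :=
    pow_le_pow_left₀ (by linarith) (by linarith) 2
  nlinarith [mul_nonneg (sq_nonneg (1 - cos (gam J))) (sub_nonneg.2 h2)]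

theorem small (hJ : 2 ≤ J) : gam J ^ 4 * J ^ 4 ≤ 16 ∧ hh J ^ 4 * J ^ 4 ≤ 16 := by
  have g0 := gam_pos hJ
  have j0 : (0 : ℝ) ≤ J := Nat.cast_nonneg J
  have c0 := cc_pos hJ
  have e1 : (1.7 : ℝ) ≤ √3 := Real.le_sqrt_of_sq_le (by norm_num)
  have h0 : 0 ≤ hh J := by unfold hh; positivity
  have a1 : gam J * J ≤ 2 := by linarith [J_gam hJ, pi_le_four]
  have a2 : hh J * J ≤ 2 := by
    have b1 : √3 * (hh J * J) ≤ π := by
      rw [← mul_assoc, hh_eq]
      nlinarith [J_gam hJ, mul_le_mul_of_nonneg_right (half_le hJ).2 j0]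
    nlinarith [pi_lt_d2, mul_le_mul_of_nonneg_right e1 (mul_nonneg h0 j0)]
  constructor
  · rw [← mul_pow]
    exact (pow_le_pow_left₀ (by positivity) a1 4).trans (by norm_num)
  · rw [← mul_pow]
    exact (pow_le_pow_left₀ (by positivity) a2 4).trans (by norm_num)

theorem quad {K H : ℝ} (hK : 0 < K) : π * H - √3 / 16 * K * H ^ 2 ≤ 4 * √3 * π ^ 2 / (3 * K) := by
  have e3 : √3 ^ 2 = 3 := Real.sq_sqrt (by norm_num)
  have e0 : 0 < √3 := by positivity
  rw [le_div_iff₀ (by positivity)]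
  refine le_of_mul_le_mul_left ?_ e0
  have e : √3 * (4 * √3 * π ^ 2) - √3 * ((π * H - √3 / 16 * K * H ^ 2) * (3 * K)) =
      3 / 16 * (8 * π - √3 * K * H) ^ 2 := by
    linear_combination (4 * π ^ 2) * e3
  nlinarith [sq_nonneg (8 * π - √3 * K * H)]

theorem err {K J x A : ℝ} (hJ : 2 ≤ J) (h1 : J ^ 2 ≤ K) (h2 : K ≤ 20 * J ^ 2) (hA : 0 ≤ A)
    (hx : x * J ^ 4 ≤ A * (J * log K)) : x ≤ 90 * A * log K / (K * √K) := by
  have k0 : 0 < K := by nlinarith
  have l0 : 0 ≤ log K := log_nonneg (by nlinarith)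
  have s1 : √K ≤ 9 / 2 * J := Real.sqrt_le_iff.2 ⟨by linarith, by nlinarith⟩
  have s2 : K * √K ≤ 90 * J ^ 3 := by
    nlinarith [mul_le_mul h2 s1 (sqrt_nonneg K) (by positivity)]
  have j0 : 0 < J := by linarith
  have x1 : x * J ^ 3 ≤ A * log K := by
    refine le_of_mul_le_mul_right ?_ j0
    nlinarith
  rw [le_div_iff₀ (by positivity)]
  rcases le_or_gt x 0 with h | h
  · exact (mul_nonpos_of_nonpos_of_nonneg h (by positivity)).trans (by positivity)
  · nlinarith [mul_le_mul_of_nonneg_left s2 h.le]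

end Build

open Build in
theorem buildS (h1 : PlanS) (h2 : SlabS) (h3 : LossS) : BuildS := by
  classical
  obtain ⟨B, C, K0, hC, hP⟩ := h1
  obtain ⟨C', hC', hl⟩ := h3 B
  refine ⟨90 * (32 + 2 * C + 32 * C' * (1 + C)), K0, by positivity, fun K hK => ?_⟩
  obtain ⟨J, n, N, α, g, hJ, k1, k2, k3, k4, hg, k5⟩ := hP K hK
  let S1 : ℝ → Finset V := fun σ => (Finset.Ico 1 J).biUnion fun j =>
    (Finset.range (n j)).image fun i => pt J σ j (α j i)
  let S2 : Finset V := (Finset.range (n J)).image fun i => pt J 1 J (α J i)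
  let S3 : ℝ → Finset V := fun σ => Finset.univ.image fun i : Fin 3 => (Pi.single i σ : V)
  have c1 : ∀ σ, (S1 σ).card ≤ ∑ j ∈ Finset.Ico 1 J, n j := fun σ =>
    Finset.card_biUnion_le.trans (Finset.sum_le_sum fun j _ =>
      Finset.card_image_le.trans (Finset.card_range _).le)
  have c2 : S2.card ≤ n J := Finset.card_image_le.trans (Finset.card_range _).le
  have c3 : ∀ σ, (S3 σ).card ≤ 3 := fun σ => Finset.card_image_le.trans (by simp)
  obtain ⟨P, H, hI, hv, hf, hc, hm, hS⟩ := exists_hull (K := K)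
    (S1 1 ∪ S1 (-1) ∪ S2 ∪ S3 1 ∪ S3 (-1)) (by
      intro x hx
      simp only [S1, S2, S3, Finset.mem_union, Finset.mem_biUnion, Finset.mem_image] at hx
      rcases hx with (((⟨j, -, i, -, rfl⟩ | ⟨j, -, i, -, rfl⟩) | ⟨i, -, rfl⟩) | ⟨i, -, rfl⟩) |
        ⟨i, -, rfl⟩
      · exact pt_unit (by norm_num) _ _
      · exact pt_unit (by norm_num) _ _
      · exact pt_unit (by norm_num) _ _
      · fin_cases i <;> simp [ip]
      · fin_cases i <;> simp [ip]) (by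
      have u1 := Finset.card_union_le (S1 1 ∪ S1 (-1) ∪ S2 ∪ S3 1) (S3 (-1))
      have u2 := Finset.card_union_le (S1 1 ∪ S1 (-1) ∪ S2) (S3 1)
      have u3 := Finset.card_union_le (S1 1 ∪ S1 (-1)) S2
      have u4 := Finset.card_union_le (S1 1) (S1 (-1))
      have := c1 1
      have := c1 (-1)
      have := c3 1
      have := c3 (-1)
      omega) (fun i => ⟨by simp [S3], by simp [S3]⟩)
  have hax : ∀ z, |z| ≤ 1 → (![z, 0, 0] : V) ∈ H := fun z hz => by
    have a1 := hS (Pi.single 0 1) (by simp [S3])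
    have a2 := hS (Pi.single 0 (-1)) (by simp [S3])
    have := hc a1 a2 (a := (1 + z) / 2) (b := (1 - z) / 2) (by linarith [(abs_le.1 hz).1])
      (by linarith [(abs_le.1 hz).2]) (by ring)
    convert this using 1
    funext i
    fin_cases i <;> simp
    ring
  have hpt : ∀ σ : ℝ, σ = 1 ∨ σ = -1 → ∀ j, 1 ≤ j → j ≤ J → ∀ i < n j, pt J σ j (α j i) ∈ H := by
    intro σ hσ j j1 j2 i hi
    refine hS _ ?_
    simp only [S1, S2, Finset.mem_union, Finset.mem_biUnion, Finset.mem_image, Finset.mem_Ico,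
      Finset.mem_range]
    rcases j2.lt_or_eq with j3 | rfl
    · rcases hσ with rfl | rfl
      · exact Or.inl (Or.inl (Or.inl (Or.inl ⟨j, ⟨j1, j3⟩, i, hi, rfl⟩)))
      · exact Or.inl (Or.inl (Or.inl (Or.inr ⟨j, ⟨j1, j3⟩, i, hi, rfl⟩)))
    · exact Or.inl (Or.inl (Or.inr ⟨i, hi, by simp only [pt, J_gam hJ, cos_pi_div_two, mul_zero]⟩))
  have hvol := vol_ge hJ hm hf (fun j => VV J j (N j) (g j)) fun σ hσ j hj => by
    obtain ⟨g0, g1, g2, g3, -, g4, g5⟩ := hg j hj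
    obtain ⟨j1, j2⟩ := Finset.mem_Ico.1 hj
    refine slab h2 hJ j1 j2 hc hax (by rcases hσ with rfl | rfl <;> simp) g0 g1 g2 g3
      (fun k hk => ?_) fun k hk => ?_
    · obtain ⟨i, hi, m, e⟩ := g4 k hk
      rw [e, pt_per]
      exact hpt σ hσ j j1 j2.le i hi
    · obtain ⟨i, hi, m, e⟩ := g5 k hk
      rw [e, pt_per]
      exact hpt σ hσ (j + 1) (by omega) j2 i hi
  have hsum := Finset.sum_le_sum (s := Finset.Ico 1 J) fun j hj =>
    loss hl hJ (Finset.mem_Ico.1 hj).1 (Finset.mem_Ico.1 hj).2 (hg j hj).1 (hg j hj).2.1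
      (hg j hj).2.2.2.1 (hg j hj).2.2.2.2.1
  rw [Finset.sum_sub_distrib, Finset.sum_add_distrib, tele (fun j : ℕ =>
    π * (cos (j * gam J) - cos (j * gam J) ^ 3 / 3) - π * hh J ^ 2 / 2 * cos (j * gam J))
    (by omega), ← Finset.mul_sum, ← Finset.mul_sum, Finset.sum_add_distrib, Finset.sum_const,
    J_gam hJ, cos_pi_div_two, Nat.cast_one, one_mul, Nat.card_Ico, nsmul_eq_mul, mul_one] at hsum
  have jr : (2 : ℝ) ≤ J := by exact_mod_cast hJ
  have kr : (0 : ℝ) < K := by nlinarith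
  have l1 : 1 ≤ log K := by
    have : log 4 ≤ log K := log_le_log (by norm_num) (by nlinarith)
    rw [show (4 : ℝ) = 2 ^ 2 by norm_num, log_pow] at this
    push_cast at this
    linarith [one_sub_inv_le_log_of_pos (x := 2) two_pos]
  have l2 : log J ≤ log K := log_le_log (by linarith) (by nlinarith)
  have jj : ((J - 1 : ℕ) : ℝ) ≤ J := by exact_mod_cast Nat.sub_le J 1
  obtain ⟨m1, m2⟩ := small hJ
  have e2 : √3 ≤ 2 := Real.sqrt_le_iff.2 ⟨by norm_num, by norm_num⟩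
  have h4 : 0 ≤ hh J ^ 4 := by positivity
  have jl : (J : ℝ) ≤ J * log K := by nlinarith
  have hx := err (x := π * gam J ^ 4 / 2 + √3 * hh J ^ 4 / 16 * (C * J) +
    2 * (C' * hh J ^ 4 * (J + C * J * log J))) (A := 32 + 2 * C + 32 * C' * (1 + C)) jr k1 k2
    (by positivity) (by
      have a1 : π * (gam J ^ 4 * J ^ 4) ≤ 4 * 16 :=
        mul_le_mul pi_le_four m1 (by positivity) (by norm_num)
      have a2 : √3 * (hh J ^ 4 * J ^ 4) * (C * J) ≤ 2 * 16 * (C * (J * log K)) :=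
        mul_le_mul (mul_le_mul e2 m2 (by positivity) (by norm_num))
          (mul_le_mul_of_nonneg_left jl hC.le) (by positivity) (by norm_num)
      have a3 : (J : ℝ) + C * J * log J ≤ (1 + C) * (J * log K) := by
        nlinarith [mul_le_mul_of_nonneg_left l2 (by positivity : (0 : ℝ) ≤ C * J)]
      have a4 : hh J ^ 4 * J ^ 4 * (J + C * J * log J) ≤ 16 * ((1 + C) * (J * log K)) :=
        mul_le_mul m2 a3 (by have := log_nonneg (by linarith : (1 : ℝ) ≤ J); positivity)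
          (by norm_num)
      nlinarith [mul_le_mul_of_nonneg_left a4 hC'.le])
  have q1 := quad (H := hh J ^ 2) kr
  have q2 := mul_le_mul_of_nonneg_left (top (J := J)) pi_pos.le
  have q3 : π * hh J ^ 2 / 2 * cos (gam J) ≤ π * hh J ^ 2 / 2 :=
    mul_le_of_le_one_right (by positivity) (cos_le_one _)
  have q4 := mul_le_mul_of_nonneg_left k4 (by positivity : 0 ≤ √3 * hh J ^ 4 / 32)
  have q5 := mul_le_mul_of_nonneg_left (add_le_add jj k5) (by positivity : 0 ≤ C' * hh J ^ 4)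
  refine ⟨P, hI, ?_⟩
  rw [hv]
  linarith

end Pool.Agent.MP_2ab689_gt.Big
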