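import Pool.Agent.MP_2ab689_gt.Big.Spec

/-!
Row CAP: a cap without defects carries strain.
-/

namespace Pool.Agent.MP_2ab689_gt.Big

open MeasureTheory Set Real

namespace Cap

variable {ι Φ : Type} [Fintype ι] [Fintype Φ]

theorem D_le (M : Mesh ι Φ) {ℓ : ℝ} (h0 : 0 ≤ ℓ) (hl : ∀ d, M.sq d ≤ ℓ ^ 2) (d : Φ) :
    M.D d ≤ ℓ ^ 2 := by
  have e : M.D d = det3 (M.A d) (M.A d - M.B d) (M.A d - M.C d) := by
    simp only [Mesh.D, det3, Pi.sub_apply]; ring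
  have h1 := abs_det3_le (M.A d) (M.A d - M.B d) (M.A d - M.C d)
  rw [← e, nv_eq_one (M.uA d), one_mul] at h1
  have h2 := mul_le_mul (M.nv_AB h0 hl d) (M.nv_AC h0 hl d) (nv_nonneg _) h0
  calc M.D d ≤ |M.D d| := le_abs_self _
    _ ≤ ℓ * ℓ := h1.trans h2
    _ = ℓ ^ 2 := by ring

theorem mem_near (M : Mesh ι Φ) {c : V} {R : ℝ} {d : Φ} :
    d ∈ M.near c R ↔ nv (M.A d - c) ≤ R := by
  simp [Mesh.near]

/-- Many flags start in a cap. -/
theorem card_near (M : Mesh ι Φ) {h : ℝ} (hF : M.Fine h) {c : V} (hc : ip c c = 1) {r : ℝ}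
    (hr : 0 < r) (hr1 : r ≤ 1 / 1000) (hh : 384 * h ≤ r ^ 2) :
    r ^ 2 ≤ 2304 * h ^ 2 * (M.near c r).card := by
  have h0 := hF.pos
  have hr2 : r ^ 2 ≤ 1 / 1000000 := by nlinarith
  have hk : (48 * h) ^ 2 ≤ 1 / 2 := by nlinarith
  have h1 := M.cap_low hc (t := 1 - r ^ 2 / 4) (ℓ := 48 * h) (κ := 1 - (48 * h) ^ 2)
    (by positivity) (by linarith) hF.edge (by linarith) hF.ball (by linarith)
    (by nlinarith [sq_nonneg r]) (M.near c r) (by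
      intro d hd
      rw [mem_near, nv_le_iff hr.le, ip_sub_unit (M.uA d) hc]
      linarith)
  have h2 : ∑ d ∈ M.near c r, M.D d ≤ (M.near c r).card * (48 * h) ^ 2 := by
    have := Finset.sum_le_card_nsmul (M.near c r) (fun d => M.D d) ((48 * h) ^ 2)
      fun d _ => D_le M (by positivity) hF.edge d
    simpa [nsmul_eq_mul] using this
  have h3 : (1 / 2 : ℝ) ^ 3 ≤ (1 - (48 * h) ^ 2) ^ 3 :=
    pow_le_pow_left₀ (by norm_num) (by linarith) 3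
  have h4 : r ^ 2 ≤ 12 * π * (1 - (1 - r ^ 2 / 4)) * (1 - (48 * h) ^ 2) ^ 3 := by
    have e : 12 * π * (1 - (1 - r ^ 2 / 4)) = 3 * π * r ^ 2 := by ring
    rw [e]
    have p3 := pi_gt_three
    calc r ^ 2 ≤ 3 * 3 * r ^ 2 * (1 / 2) ^ 3 := by nlinarith [sq_nonneg r]
      _ ≤ 3 * π * r ^ 2 * (1 - (48 * h) ^ 2) ^ 3 := by gcongr
  nlinarith

theorem qf_nonneg (y : ℤ × ℤ) : 0 ≤ qf y := by
  unfold qf
  nlinarith [sq_nonneg ((y.1 : ℝ) + y.2), sq_nonneg (y.1 : ℝ), sq_nonneg (y.2 : ℝ)]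

theorem const_ge : (18 / 5 : ℝ) ≤ 2 * π / √3 := by
  have h3 : √3 ≤ 174 / 100 := by
    rw [Real.sqrt_le_iff]; norm_num
  have h0 : 0 < √3 := by positivity
  rw [le_div_iff₀ h0]
  linarith [pi_gt_d2]

/-- The second moment of the lattice points. -/
theorem moment (h4 : LatS) {u : ℝ} (hu : 100 ≤ u) :
    ((Lat (u ^ 2)).card : ℝ) ≤ 6 * u ^ 2 ∧ u ^ 6 / 8 ≤ ∑ y ∈ Lat (u ^ 2), qf y ^ 2 := by
  classical
  have u0 : 0 ≤ u := by linarith
  obtain ⟨a1, -, a3, a4⟩ := h4 (u ^ 2) (by positivity)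
  obtain ⟨b1, -, -, b4⟩ := h4 ((u / 2) ^ 2) (by positivity)
  rw [Real.sqrt_sq u0] at a3 a4
  rw [Real.sqrt_sq (by positivity)] at b4
  refine ⟨by nlinarith, ?_⟩
  have hsub : Lat ((u / 2) ^ 2) ⊆ Lat (u ^ 2) := fun y hy =>
    (a1 y).mpr (((b1 y).mp hy).trans (by nlinarith))
  have c1 : ((Lat (u ^ 2) \ Lat ((u / 2) ^ 2)).card : ℝ) =
      (Lat (u ^ 2)).card - (Lat ((u / 2) ^ 2)).card := by
    rw [Finset.card_sdiff_of_subset hsub, Nat.cast_sub (Finset.card_le_card hsub)]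
  have c2 : 2 * u ^ 2 ≤ ((Lat (u ^ 2) \ Lat ((u / 2) ^ 2)).card : ℝ) := by
    rw [c1]
    have := mul_le_mul_of_nonneg_right const_ge (sq_nonneg u)
    nlinarith
  have c3 : ((Lat (u ^ 2) \ Lat ((u / 2) ^ 2)).card : ℝ) * (u ^ 4 / 16) ≤
      ∑ y ∈ Lat (u ^ 2) \ Lat ((u / 2) ^ 2), qf y ^ 2 := by
    have := Finset.card_nsmul_le_sum (Lat (u ^ 2) \ Lat ((u / 2) ^ 2)) (fun y => qf y ^ 2)
      (u ^ 4 / 16) (by
        intro y hy
        have k : (u / 2) ^ 2 < qf y := by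
          have := (Finset.mem_sdiff.mp hy).2
          rwa [b1, not_le] at this
        calc u ^ 4 / 16 = ((u / 2) ^ 2) ^ 2 := by ring
          _ ≤ qf y ^ 2 := pow_le_pow_left₀ (by positivity) k.le 2)
    simpa [nsmul_eq_mul] using this
  calc u ^ 6 / 8 = 2 * u ^ 2 * (u ^ 4 / 16) := by ring
    _ ≤ _ := mul_le_mul_of_nonneg_right c2 (by positivity)
    _ ≤ _ := c3
    _ ≤ _ := Finset.sum_le_sum_of_subset_of_nonneg Finset.sdiff_subset
      fun y _ _ => sq_nonneg _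

/-- The comparison of the chords from one flag with the lattice. -/
theorem one_flag (h4 : LatS) (h5 : LayerS) (M : Mesh ι Φ) {h r e : ℝ} (h0 : 0 < h)
    (hh1 : h ≤ 1) (hr : 0 < r) (hr1 : r ≤ 1) (d : Φ)
    (hinj : ∀ y ∈ Lat ((r / h) ^ 2), ∀ y' ∈ Lat ((r / h) ^ 2),
      M.tl (M.ch y.1 y.2 d) = M.tl (M.ch y'.1 y'.2 d) → y = y')
    (hcnt : ∀ x, 0 ≤ x → x ≤ r ^ 2 → ∀ U : Finset ι,
      (∀ v ∈ U, ip (M.p v - M.A d) (M.p v - M.A d) ≤ x) →
      (U.card : ℝ) ≤ 2 * π / √3 * (x / h ^ 2) + e) :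
    ∑ y ∈ Lat ((r / h) ^ 2), h ^ 2 * qf y ≤
      ∑ y ∈ Lat ((r / h) ^ 2),
        ip (M.A (M.ch y.1 y.2 d) - M.A d) (M.A (M.ch y.1 y.2 d) - M.A d) +
      r ^ 2 * (e + 40 / h) := by
  classical
  have hh : 0 < h ^ 2 := by positivity
  obtain ⟨a1, -, -, -⟩ := h4 ((r / h) ^ 2) (by positivity)
  have k := h5 (ℤ × ℤ) (ℤ × ℤ) (Lat ((r / h) ^ 2)) (Lat ((r / h) ^ 2))
    (fun y => ip (M.A (M.ch y.1 y.2 d) - M.A d) (M.A (M.ch y.1 y.2 d) - M.A d))
    (fun y => h ^ 2 * qf y) (r ^ 2) (e + 40 / h) (by positivity)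
    (fun _ _ => ip_self_nonneg _) (fun y _ => mul_nonneg hh.le (qf_nonneg y)) (by
      intro x x0 x1
      obtain ⟨b1, -, b3, -⟩ := h4 (x / h ^ 2) (by positivity)
      have e1 : ((Lat ((r / h) ^ 2)).filter fun y => h ^ 2 * qf y ≤ x) = Lat (x / h ^ 2) := by
        ext y
        rw [Finset.mem_filter, a1, b1, le_div_iff₀ hh, div_pow, le_div_iff₀ hh]
        constructor
        · intro k; linarith [k.2]
        · intro k; constructor <;> linarith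
      have e2 := hcnt x x0 x1 (((Lat ((r / h) ^ 2)).filter fun y =>
        ip (M.A (M.ch y.1 y.2 d) - M.A d) (M.A (M.ch y.1 y.2 d) - M.A d) ≤ x).image
          fun y => M.tl (M.ch y.1 y.2 d)) (by
          intro v hv
          obtain ⟨y, hy, rfl⟩ := Finset.mem_image.mp hv
          exact (Finset.mem_filter.mp hy).2)
      rw [Finset.card_image_of_injOn (fun y hy y' hy' k => hinj y (Finset.mem_filter.mp hy).1 y'
        (Finset.mem_filter.mp hy').1 k)] at e2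
      have e3 : √(x / h ^ 2) ≤ 1 / h := by
        rw [Real.sqrt_le_iff]
        refine ⟨by positivity, ?_⟩
        rw [div_pow, one_pow]
        exact div_le_div_of_nonneg_right (by nlinarith) hh.le
      have e4 : 1 ≤ 1 / h := by rw [le_div_iff₀ h0]; linarith
      have e5 : 40 / h = 40 * (1 / h) := by ring
      rw [e1]
      linarith)
  have l1 : ∑ y ∈ Lat ((r / h) ^ 2),
      (r ^ 2 - ip (M.A (M.ch y.1 y.2 d) - M.A d) (M.A (M.ch y.1 y.2 d) - M.A d)) ≤ _ :=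
    (Finset.sum_le_sum fun y _ => le_max_left _ 0).trans k
  have l2 : ∑ y ∈ Lat ((r / h) ^ 2), max (r ^ 2 - h ^ 2 * qf y) 0 =
      ∑ y ∈ Lat ((r / h) ^ 2), (r ^ 2 - h ^ 2 * qf y) := by
    refine Finset.sum_congr rfl fun y hy => max_eq_left ?_
    have := (a1 y).mp hy
    rw [div_pow, le_div_iff₀ hh] at this
    linarith
  rw [l2, Finset.sum_sub_distrib, Finset.sum_sub_distrib] at l1
  linarith

end Cap

open Cap in
theorem capS (h1 : ChartS) (h2 : ChordS) (h3 : CountS) (h4 : LatS) (h5 : LayerS) : CapS := by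
  obtain ⟨C, h0, C0, h00, hC⟩ := h3
  refine ⟨128 * (C + 250000), h0, by positivity, h00, ?_⟩
  intro ι Φ _ _ M h hF hh0 c r hc hg hr hr1 hdeg
  have hp := hF.pos
  set Y := ∑ d ∈ M.near c (500 * r), |M.x h d| with hY
  have Y0 : 0 ≤ Y := Finset.sum_nonneg fun _ _ => abs_nonneg _
  have hY2 : 0 ≤ h ^ 2 * Y := by positivity
  have hr2 : r ^ 2 ≤ 1 / 1000000 := by nlinarith
  rcases le_or_gt (r ^ 2) (384 * h) with hc1 | hc1
  · have : r ^ 4 ≤ 384 * h := by nlinarith [sq_nonneg r]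
    nlinarith [mul_pos C0 hp, mul_nonneg C0.le hY2]
  have hhr : 384000 * h ≤ r := by nlinarith
  have hh1 : h ≤ 1 := by linarith
  have hu : 100 ≤ r / h := by rw [le_div_iff₀ hp]; linarith
  have hh : 0 < h ^ 2 := by positivity
  obtain ⟨m1, m2⟩ := moment h4 hu
  obtain ⟨a1, a2, -, -⟩ := h4 ((r / h) ^ 2) (by positivity)
  rw [Real.sqrt_sq (by positivity)] at a2
  have a3 : ∀ y ∈ Lat ((r / h) ^ 2), |(y.1 : ℝ)| * h ≤ 2 * r ∧ |(y.2 : ℝ)| * h ≤ 2 * r := by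
    intro y hy
    obtain ⟨k1, k2⟩ := a2 y hy
    rw [← mul_div_assoc, le_div_iff₀ hp] at k1 k2
    exact ⟨k1, k2⟩
  have a4 : ∀ y ∈ Lat ((r / h) ^ 2), h ^ 2 * qf y ≤ r ^ 2 := by
    intro y hy
    have := (a1 y).mp hy
    rw [div_pow, le_div_iff₀ hh] at this
    linarith
  have hR1 : 500 * r ≤ 1 := by linarith
  obtain ⟨-, ch2⟩ := h1 ι Φ M (48 * h) (by positivity) hF.edge
  obtain ⟨-, ch3⟩ := ch2 c (500 * r) hc hg hR1 hdeg
  set e := C * (1 / h + Y) with he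
  have f1 : ∀ d ∈ M.near c r, ∑ y ∈ Lat ((r / h) ^ 2), h ^ 2 * qf y ≤
      ∑ y ∈ Lat ((r / h) ^ 2),
        ip (M.A (M.ch y.1 y.2 d) - M.A d) (M.A (M.ch y.1 y.2 d) - M.A d) +
      r ^ 2 * (e + 40 / h) := by
    intro d hd
    rw [mem_near] at hd
    refine one_flag h4 h5 M hp hh1 hr (by linarith) d ?_ ?_
    · intro y hy y' hy' k
      obtain ⟨k1, k2⟩ := a3 y hy
      obtain ⟨k3, k4⟩ := a3 y' hy'
      exact Prod.ext_iff.mpr (ch3 d y.1 y.2 y'.1 y'.2 (by nlinarith) (by nlinarith) k)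
    · intro x x0 x1 U hU
      have sx : √x ≤ r := by
        rw [Real.sqrt_le_iff]; exact ⟨hr.le, x1⟩
      refine hC ι Φ M h hF hh0 c (M.A d) x (500 * r) (M.uA d) x0 (by linarith) (by linarith) U
        fun v hv => ⟨hdeg v ?_, hU v hv⟩
      have k1 : nv (M.p v - M.A d) ≤ r := (nv_le_iff hr.le).mpr ((hU v hv).trans x1)
      linarith [nv_tri (M.p v) (M.A d) c]
  set n : ℝ := ((M.near c r).card : ℝ) with hn
  have f2 : n * ∑ y ∈ Lat ((r / h) ^ 2), h ^ 2 * qf y ≤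
      ∑ y ∈ Lat ((r / h) ^ 2), ∑ d ∈ M.near c r,
        ip (M.A (M.ch y.1 y.2 d) - M.A d) (M.A (M.ch y.1 y.2 d) - M.A d) +
      n * (r ^ 2 * (e + 40 / h)) := by
    have := Finset.sum_le_sum f1
    rw [Finset.sum_add_distrib, Finset.sum_const, Finset.sum_const, nsmul_eq_mul, nsmul_eq_mul,
      Finset.sum_comm] at this
    exact this
  have h3r : 3 * h ^ 2 ≤ r ^ 2 := by nlinarith
  have f3 : ∀ y ∈ Lat ((r / h) ^ 2), ∑ d ∈ M.near c r,
      ip (M.A (M.ch y.1 y.2 d) - M.A d) (M.A (M.ch y.1 y.2 d) - M.A d) ≤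
      n * (h ^ 2 * qf y) - n * h ^ 4 / 16 * qf y ^ 2 + (3 * n * h ^ 2 + 18 * r ^ 2 * Y) := by
    intro y hy
    obtain ⟨k1, k2⟩ := a3 y hy
    have k3 := a4 y hy
    have k4 := h2 ι Φ M h hF c r (500 * r) y hc hg hR1 hdeg (by nlinarith) (by nlinarith)
    have k5 : 9 * h ^ 2 * (qf y + 3) * Y ≤ 18 * r ^ 2 * Y :=
      mul_le_mul_of_nonneg_right (by nlinarith) Y0
    rw [← hY, ← hn] at k4
    nlinarith
  have f4 := Finset.sum_le_sum f3
  rw [Finset.sum_add_distrib, Finset.sum_sub_distrib, ← Finset.mul_sum, ← Finset.mul_sum,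
    Finset.sum_const, nsmul_eq_mul] at f4
  have n1 : r ^ 2 ≤ 2304 * h ^ 2 * n := card_near M hF hc hr hr1 hc1.le
  have n0 : 0 < n := by
    by_contra k
    have : 2304 * h ^ 2 * n ≤ 0 := mul_nonpos_of_nonneg_of_nonpos (by positivity) (not_lt.mp k)
    nlinarith
  have g1 : n * h ^ 4 / 16 * ((r / h) ^ 6 / 8) ≤
      n * h ^ 4 / 16 * ∑ y ∈ Lat ((r / h) ^ 2), qf y ^ 2 :=
    mul_le_mul_of_nonneg_left m2 (by positivity)
  have g2 : ((Lat ((r / h) ^ 2)).card : ℝ) * (3 * n * h ^ 2 + 18 * r ^ 2 * Y) ≤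
      6 * (r / h) ^ 2 * (3 * n * h ^ 2 + 18 * (2304 * h ^ 2 * n) * Y) := by
    gcongr
  have g3 : n * h ^ 4 / 16 * ((r / h) ^ 6 / 8) ≤
      6 * (r / h) ^ 2 * (3 * n * h ^ 2 + 18 * (2304 * h ^ 2 * n) * Y) +
        n * (r ^ 2 * (e + 40 / h)) := by
    rw [← Finset.mul_sum] at f2
    rw [← Finset.mul_sum] at f4
    linarith [f2, f4, g1, g2]
  have g4 : (n * (r / h) ^ 2) * (r ^ 4 / 128) ≤
      (n * (r / h) ^ 2) * (18 * h ^ 2 + 248832 * (h ^ 2 * Y) + C * h + C * (h ^ 2 * Y)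
        + 40 * h) := by
    refine le_of_eq_of_le ?_ (g3.trans (le_of_eq ?_))
    · field_simp; ring
    · rw [he]; field_simp; ring
  have g5 := le_of_mul_le_mul_left g4 (by positivity)
  nlinarith [mul_pos C0 hp, mul_nonneg C0.le hY2]

end Pool.Agent.MP_2ab689_gt.Big
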