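import Pool.Agent.MP_2ab689_gt.Big.Spec

/-!
The lattice chart on a cap without defects.
-/

namespace Pool.Agent.MP_2ab689_gt.Big

namespace Chart

theorem up {Φ : Type} (T : Equiv.Perm Φ) (i : ℤ) (d : Φ) :
    (T ^ (i + 1)) d = T ((T ^ i) d) := by
  rw [add_comm, zpow_one_add, Equiv.Perm.mul_apply]

theorem down {Φ : Type} (T : Equiv.Perm Φ) (i : ℤ) (d : Φ) :
    T ((T ^ (i - 1)) d) = (T ^ i) d := by
  rw [← up, sub_add_cancel]

variable {ι Φ : Type} [Fintype ι] [Fintype Φ] (M : Mesh ι Φ)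

theorem r_rinv (d : Φ) : M.r (M.r⁻¹ d) = d := by simp

theorem rinv_r (d : Φ) : M.r⁻¹ (M.r d) = d := by simp

theorem tl_rinv (d : Φ) : M.tl (M.r⁻¹ d) = M.tl d := by
  have := M.tl_r (M.r⁻¹ d)
  rw [r_rinv] at this
  exact this.symm

theorem T0_apply (d : Φ) : M.T0 d = M.r (M.r (M.r (M.s d))) := by
  simp [Mesh.T0, pow_succ]

theorem T1_apply (d : Φ) : M.T1 d = M.r⁻¹ (M.T0 (M.r d)) := by
  simp [Mesh.T1]

theorem ch_apply (i j : ℤ) (d : Φ) : M.ch i j d = (M.T1 ^ j) ((M.T0 ^ i) d) := rfl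

theorem tl_T0 (d : Φ) : M.tl (M.T0 d) = M.tl (M.φ d) := by
  rw [T0_apply, M.tl_r, M.tl_r, M.tl_r, M.tl_s]

theorem tl_T1 (d : Φ) : M.tl (M.T1 d) = M.tl (M.φ (M.φ d)) := by
  rw [T1_apply, tl_rinv, tl_T0, M.tl_φr]

theorem A_T0 (d : Φ) : M.A (M.T0 d) = M.B d := by rw [Mesh.A, tl_T0, Mesh.B]

theorem A_T1 (d : Φ) : M.A (M.T1 d) = M.C d := by rw [Mesh.A, tl_T1, Mesh.C]

theorem walk {T : Equiv.Perm Φ} {ℓ : ℝ} (hT : ∀ d, nv (M.A (T d) - M.A d) ≤ ℓ) (d : Φ) (i : ℤ) :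
    nv (M.A ((T ^ i) d) - M.A d) ≤ |(i : ℝ)| * ℓ := by
  induction i using Int.induction_on with
  | zero => simp [nv_zero]
  | succ n ih =>
    have h1 := nv_tri (M.A ((T ^ ((n : ℤ) + 1)) d)) (M.A ((T ^ (n : ℤ)) d)) (M.A d)
    have h2 := hT ((T ^ (n : ℤ)) d)
    rw [← up] at h2
    have hn : (0 : ℝ) ≤ n := Nat.cast_nonneg n
    push_cast at ih ⊢
    rw [abs_of_nonneg hn] at ih
    rw [abs_of_nonneg (by linarith)]
    linarith
  | pred n ih =>
    have h1 := nv_tri (M.A ((T ^ (-(n : ℤ) - 1)) d)) (M.A ((T ^ (-(n : ℤ))) d)) (M.A d)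
    have h2 := hT ((T ^ (-(n : ℤ) - 1)) d)
    rw [down, nv_sub_comm] at h2
    have hn : (0 : ℝ) ≤ n := Nat.cast_nonneg n
    push_cast at ih ⊢
    rw [abs_of_nonpos (by linarith)] at ih
    rw [abs_of_nonpos (by linarith)]
    linarith

theorem comm {d : Φ} (h : (M.r ^ 6) (M.s d) = M.s d) : M.T0 (M.T1 d) = M.T1 (M.T0 d) := by
  have k : ∀ e, M.r (M.s (M.r (M.s (M.r e)))) = M.s e := by
    intro e
    rw [M.s_r e, M.r_φ (M.φ e), M.s2, M.r_φ]
  have h6 : M.r (M.r (M.r (M.r (M.r (M.r (M.s d)))))) = M.s d := by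
    simpa [pow_succ] using h
  rw [T1_apply, T1_apply, T0_apply, T0_apply, T0_apply, T0_apply, rinv_r, rinv_r]
  generalize M.r (M.r (M.r (M.r (M.s d)))) = y at h6 ⊢
  have hd : d = M.s (M.r (M.r y)) := by rw [h6, M.s2]
  rw [hd, k, k]

/-- An integer induction in which every index used lies between `0` and the target. -/
theorem ind {P : ℤ → Prop} {a : ℝ} (h0 : P 0)
    (hs : ∀ n : ℤ, |(n : ℝ)| ≤ a → |((n + 1 : ℤ) : ℝ)| ≤ a → (P n ↔ P (n + 1))) (i : ℤ)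
    (hi : |(i : ℝ)| ≤ a) : P i := by
  induction i using Int.induction_on with
  | zero => exact h0
  | succ n ih =>
    have hn : (0 : ℝ) ≤ n := Nat.cast_nonneg n
    have h1 : |(((n : ℤ) : ℤ) : ℝ)| ≤ a := by
      push_cast at hi ⊢
      rw [abs_of_nonneg (by linarith)] at hi
      rw [abs_of_nonneg hn]
      linarith
    exact (hs n h1 hi).mp (ih h1)
  | pred n ih =>
    have hn : (0 : ℝ) ≤ n := Nat.cast_nonneg n
    have h1 : |((-(n : ℤ) : ℤ) : ℝ)| ≤ a := by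
      push_cast at hi ⊢
      rw [abs_of_nonpos (by linarith)] at hi
      rw [abs_of_nonpos (by linarith)]
      linarith
    exact (hs (-(n : ℤ) - 1) hi (by rwa [sub_add_cancel])).mpr (by rw [sub_add_cancel]; exact ih h1)

theorem far {T : Equiv.Perm Φ} {ℓ : ℝ} (h0 : 0 ≤ ℓ) (hT : ∀ d, nv (M.A (T d) - M.A d) ≤ ℓ)
    (c : V) (d : Φ) {a : ℝ} {n : ℤ} (hn : |(n : ℝ)| ≤ a) :
    nv (M.A ((T ^ n) d) - c) ≤ nv (M.A d - c) + a * ℓ := by
  have h1 := nv_tri (M.A ((T ^ n) d)) (M.A d) c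
  have h2 := walk M hT d n
  have h3 := mul_le_mul_of_nonneg_right hn h0
  linarith

theorem comm_pow (h : OrbS) {ℓ : ℝ} (h0 : 0 ≤ ℓ) (hl : ∀ d, M.sq d ≤ ℓ ^ 2) {c : V} {R : ℝ}
    (hv : ∀ v, nv (M.p v - c) < R → M.deg v = 6) (e : Φ) (j : ℤ)
    (he : nv (M.A e - c) + (|(j : ℝ)| + 1) * ℓ < R) :
    M.T0 ((M.T1 ^ j) e) = (M.T1 ^ j) (M.T0 e) := by
  have hT : ∀ d, nv (M.A (M.T1 d) - M.A d) ≤ ℓ := fun d => by
    rw [A_T1, nv_sub_comm]; exact M.nv_AC h0 hl d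
  refine ind (P := fun n => M.T0 ((M.T1 ^ n) e) = (M.T1 ^ n) (M.T0 e)) (a := |(j : ℝ)|)
    (by simp) (fun n hn _ => ?_) j le_rfl
  have h1 := far M h0 hT c e hn
  have h2 := nv_tri (M.B ((M.T1 ^ n) e)) (M.A ((M.T1 ^ n) e)) c
  have h3 := M.nv_AB h0 hl ((M.T1 ^ n) e)
  rw [nv_sub_comm] at h3
  have h4 : M.deg (M.tl (M.s ((M.T1 ^ n) e))) = 6 := by
    refine hv _ ?_
    rw [M.tl_s]
    change nv (M.B ((M.T1 ^ n) e) - c) < R
    linarith
  rw [up, up, comm M (h _ _ M _ h4)]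
  exact M.T1.injective.eq_iff.symm

theorem dev_pow {T : Equiv.Perm Φ} {ℓ : ℝ} (h0 : 0 ≤ ℓ) (hT : ∀ d, nv (M.A (T d) - M.A d) ≤ ℓ)
    {c : V} {R : ℝ} {z : ι → ℂ} {u : Φ → ℂ} {w : ℂ}
    (hz : ∀ d, nv (M.A d - c) < R → nv (M.A (T d) - c) < R →
      z (M.tl (T d)) = z (M.tl d) + w * u d ∧ u (T d) = u d) (e : Φ) (i : ℤ)
    (he : nv (M.A e - c) + |(i : ℝ)| * ℓ < R) :
    z (M.tl ((T ^ i) e)) = z (M.tl e) + i * w * u e ∧ u ((T ^ i) e) = u e := by
  refine ind (P := fun n => z (M.tl ((T ^ n) e)) = z (M.tl e) + n * w * u e ∧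
    u ((T ^ n) e) = u e) (a := |(i : ℝ)|) (by simp) (fun n hn hn' => ?_) i le_rfl
  have h1 := far M h0 hT c e hn
  have h2 := far M h0 hT c e hn'
  rw [up] at h2
  obtain ⟨k1, k2⟩ := hz ((T ^ n) e) (by linarith) (by linarith)
  rw [up, k1, k2]
  push_cast
  constructor
  · rintro ⟨a, b⟩
    exact ⟨by rw [a, b]; ring, b⟩
  · rintro ⟨a, b⟩
    exact ⟨by rw [b] at a; linear_combination a, b⟩

theorem om_three : om * (om * om) = -1 := by
  have h3 : √3 * √3 = 3 := Real.mul_self_sqrt (by norm_num)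
  refine Complex.ext ?_ ?_
  · simp only [om, Complex.mul_re, Complex.mul_im, Complex.neg_re, Complex.one_re]
    linear_combination (-3 / 8) * h3
  · simp only [om, Complex.mul_re, Complex.mul_im, Complex.neg_im, Complex.one_im]
    linear_combination (-√3 / 8) * h3

theorem om_ne : om ≠ 0 := fun e => by
  have := om_three
  rw [e] at this
  simp at this

end Chart

open Chart in
theorem chartS (h1 : OrbS) (h2 : DevS) : ChartS := by
  intro ι Φ _ _ M ℓ h0 hl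
  have hT0 : ∀ d, nv (M.A (M.T0 d) - M.A d) ≤ ℓ := fun d => by
    rw [A_T0, nv_sub_comm]; exact M.nv_AB h0 hl d
  have hT1 : ∀ d, nv (M.A (M.T1 d) - M.A d) ≤ ℓ := fun d => by
    rw [A_T1, nv_sub_comm]; exact M.nv_AC h0 hl d
  refine ⟨fun d i j => ⟨?_, ?_⟩, fun c R hc hg hR hv => ⟨fun d i j hd => ?_, ?_⟩⟩
  · have a1 := walk M hT0 d i
    have a2 := walk M hT1 ((M.T0 ^ i) d) j
    have a3 := nv_tri (M.A ((M.T1 ^ j) ((M.T0 ^ i) d))) (M.A ((M.T0 ^ i) d)) (M.A d)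
    rw [ch_apply]
    linarith
  · rw [ch_apply, ch_apply, up, A_T1]
  · have a1 := far M h0 hT0 c d (le_refl |(i : ℝ)|)
    rw [ch_apply, ch_apply, up, ← comm_pow M h1 h0 hl hv _ j (by linarith), A_T0]
  · intro d i j i' j' hd hd' e
    have hi := abs_nonneg (i : ℝ)
    have hj := abs_nonneg (j : ℝ)
    have hR0 : 0 < R := by
      have := nv_nonneg (M.A d - c)
      have := mul_nonneg (by linarith : 0 ≤ |(i : ℝ)| + |(j : ℝ)| + 3) h0
      linarith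
    have hh : ∀ v, 1 - R ^ 2 / 2 < ip c (M.p v) ↔ nv (M.p v - c) < R := by
      intro v
      rw [← not_le (a := R), ← pow_le_pow_iff_left₀ hR0.le (nv_nonneg _) two_ne_zero, nv_sq,
        ip_sub_unit (M.unit v) hc, ip_comm (M.p v) c, not_le]
      constructor <;> intro h <;> linarith
    obtain ⟨z, u, hu⟩ := h2 ι Φ M c (1 - R ^ 2 / 2) hg (by nlinarith) fun v h => hv v ((hh v).mp h)
    have hA : ∀ d, 1 - R ^ 2 / 2 < ip c (M.A d) ↔ nv (M.A d - c) < R := fun d => hh _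
    have z0 : ∀ d, nv (M.A d - c) < R → nv (M.A (M.T0 d) - c) < R →
        z (M.tl (M.T0 d)) = z (M.tl d) + 1 * u d ∧ u (M.T0 d) = u d := by
      intro d a b
      have b' := (hA _).mpr b
      rw [A_T0] at b'
      obtain ⟨k1, k2⟩ := (hu d ((hA d).mpr a)).2.2 b'
      refine ⟨by rw [tl_T0, k1, one_mul], ?_⟩
      have s0 : 1 - R ^ 2 / 2 < ip c (M.A (M.s d)) := by rwa [M.A_s]
      have s1 : 1 - R ^ 2 / 2 < ip c (M.A (M.r (M.s d))) := by rwa [M.A_r]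
      have s2 : 1 - R ^ 2 / 2 < ip c (M.A (M.r (M.r (M.s d)))) := by rwa [M.A_r]
      rw [T0_apply, (hu _ s2).2.1, (hu _ s1).2.1, (hu _ s0).2.1, k2]
      linear_combination (-u d) * om_three
    have z1 : ∀ d, nv (M.A d - c) < R → nv (M.A (M.T1 d) - c) < R →
        z (M.tl (M.T1 d)) = z (M.tl d) + om * u d ∧ u (M.T1 d) = u d := by
      intro d a b
      have k0 := (hu d ((hA d).mpr a)).2.1
      have k3 := (hu _ ((hA _).mpr b)).2.1
      obtain ⟨k1, k2⟩ := z0 (M.r d) (by rwa [M.A_r]) (by rwa [A_T0, M.B_r, ← A_T1])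
      rw [T1_apply, r_rinv, k2, k0] at k3
      rw [T1_apply, tl_rinv, k1, M.tl_r, k0, one_mul]
      exact ⟨rfl, (mul_left_cancel₀ om_ne k3).symm⟩
    have key : ∀ i j : ℤ, nv (M.A d - c) + (|(i : ℝ)| + |(j : ℝ)| + 3) * ℓ < R →
        z (M.tl (M.ch i j d)) = z (M.tl d) + (i + j * om) * u d := by
      intro i j hd
      have hj := mul_nonneg (abs_nonneg (j : ℝ)) h0
      have a1 := far M h0 hT0 c d (le_refl |(i : ℝ)|)
      obtain ⟨k1, k2⟩ := dev_pow M h0 hT0 z0 d i (by linarith)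
      obtain ⟨k3, -⟩ := dev_pow M h0 hT1 z1 ((M.T0 ^ i) d) j (by linarith)
      rw [ch_apply, k3, k1, k2]
      ring
    have hu0 : u d ≠ 0 := (hu d ((hA d).mpr (by
      have := mul_nonneg (by linarith : 0 ≤ |(i : ℝ)| + |(j : ℝ)| + 3) h0
      linarith))).1
    have e1 := key i j hd
    rw [e, key i' j' hd'] at e1
    have e2 := mul_right_cancel₀ hu0 (add_left_cancel e1)
    have e3 := congrArg Complex.im e2
    have e4 := congrArg Complex.re e2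
    simp only [om, Complex.add_im, Complex.add_re, Complex.mul_im, Complex.mul_re,
      Complex.intCast_im, Complex.intCast_re] at e3 e4
    have h3 : (0 : ℝ) < √3 / 2 := by positivity
    have e5 : (j' : ℝ) = j := mul_right_cancel₀ h3.ne' (by linarith)
    have e6 : (i' : ℝ) = i := by rw [e5] at e4; linarith
    exact ⟨by exact_mod_cast e6.symm, by exact_mod_cast e5.symm⟩

end Pool.Agent.MP_2ab689_gt.Big
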