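import Pool.Agent.MP_2ab689_gt.Defs

/-!
The valence of a vertex of a polytope.
-/

namespace Pool.Agent.MP_2ab689_gt

/-- The valence of `v` in `P`: the number of vertices `u` other than `v` such that the segment
from `v` to `u` is a face (an extreme subset) of `P`. -/
noncomputable def valence (P : Set (EuclideanSpace ℝ (Fin 3))) (v : EuclideanSpace ℝ (Fin 3)) : ℕ :=
  {u | u ∈ P.extremePoints ℝ ∧ u ≠ v ∧ IsExtreme ℝ P (segment ℝ v u)}.ncard

end Pool.Agent.MP_2ab689_gt
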