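import Pool.Agent.MP_2ab689_gt.Big.Angle
import Pool.Agent.MP_2ab689_gt.Big.VDefs

/-!
Statements of the steps of the two theorems on maximisers with many vertices.
-/

namespace Pool.Agent.MP_2ab689_gt.Big

open MeasureTheory Set Real

namespace Mesh

variable {ι Φ : Type} [Fintype ι] [Fintype Φ] (M : Mesh ι Φ)

/-- Strain of the first edge. -/
noncomputable def x (h : ℝ) (d : Φ) : ℝ := M.sq d / h ^ 2 - 1
/-- Sum of the absolute strains of a face. -/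
noncomputable def X1 (h : ℝ) (d : Φ) : ℝ :=
  |M.x h d| + |M.x h (M.φ d)| + |M.x h (M.φ (M.φ d))|
/-- Sum of the squared strains of a face. -/
noncomputable def X2 (h : ℝ) (d : Φ) : ℝ :=
  M.x h d ^ 2 + M.x h (M.φ d) ^ 2 + M.x h (M.φ (M.φ d)) ^ 2
/-- The energy. -/
noncomputable def W (h : ℝ) : ℝ := ∑ d, M.x h d ^ 2
/-- The charge of a vertex. -/
noncomputable def q (v : ι) : ℝ := π / 3 * (6 - (M.deg v : ℝ))
/-- The linear part of the angle. -/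
noncomputable def lin (h : ℝ) (d : Φ) : ℝ :=
  √3 / 6 * (2 * M.x h (M.φ d) - M.x h d - M.x h (M.φ (M.φ d)))
open Classical in
/-- Flags whose face is not small. -/
noncomputable def good (h : ℝ) : Finset Φ := Finset.univ.filter fun d => √3 / 4 * h ^ 2 ≤ M.D d
open Classical in
/-- Vertices of degree different from six. -/
noncomputable def defects : Finset ι := Finset.univ.filter fun v => M.deg v ≠ 6
open Classical in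
/-- Flags that start within chord distance `R` of `c`. -/
noncomputable def near (c : V) (R : ℝ) : Finset Φ :=
  Finset.univ.filter fun d => nv (M.A d - c) ≤ R

/-- Maximality among configurations with the same index set. -/
def Maxi : Prop := ∀ p' : ι → V, Function.Injective p' → (∀ i, ip (p' i) (p' i) = 1) →
  (∃ ε : ℝ, 0 < ε ∧ ∀ y : V, ip y y ≤ ε → y ∈ convexHull ℝ (range p')) →
  volume (convexHull ℝ (range p')) ≤ volume M.hull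

/-- All edges are short on the scale `h`. -/
structure Fine (h : ℝ) : Prop where
  pos : 0 < h
  edge : ∀ d, M.sq d ≤ (48 * h) ^ 2
  num : √3 * h ^ 2 * Fintype.card ι = 8 * π
  ball : ∀ y : V, ip y y ≤ (1 - (48 * h) ^ 2) ^ 2 → y ∈ M.hull

/-- Translation along the first edge. -/
def T0 : Equiv.Perm Φ := M.r ^ 3 * M.s
/-- Translation along the next edge. -/
def T1 : Equiv.Perm Φ := M.r⁻¹ * M.T0 * M.r
/-- The lattice chart. -/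
def ch (i j : ℤ) : Equiv.Perm Φ := M.T1 ^ j * M.T0 ^ i

/-- `c` separates the heights of the vertices. -/
def Generic (c : V) : Prop := ∀ i j, i ≠ j → ip c (M.p i) ≠ ip c (M.p j)

end Mesh

/-- A statement about fine meshes with a constant `C`, for `h` small. -/
def Unif (P : ∀ {ι Φ : Type} [Fintype ι] [Fintype Φ], Mesh ι Φ → ℝ → ℝ → Prop) : Prop :=
  ∃ C h0 : ℝ, 0 < C ∧ 0 < h0 ∧ ∀ (ι Φ : Type) [Fintype ι] [Fintype Φ] (M : Mesh ι Φ) (h : ℝ),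
    M.Fine h → h ≤ h0 → P M h C

-- ## Maximisers

/-- Row DEL. -/
def DelS : Prop := ∀ (ι Φ : Type) [Fintype ι] [Fintype Φ] (M : Mesh ι Φ), M.Maxi →
  4 * π / 3 - M.vol ≤ 1 / 3000 → ∃ δ : ℝ, 0 ≤ δ ∧ δ * Fintype.card ι ≤ 4000 ∧
    (∀ d, M.sq d ≤ 8 * δ) ∧ ∀ y : V, ip y y ≤ (1 - δ) ^ 2 → y ∈ M.hull

/-- Row EXV, existence of a maximiser. -/
def ExS : Prop := ∀ K : ℕ, (∃ P, Inscribed K P ∧ ENNReal.ofReal (2 * π / 3) < volume P) →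
  ∃ P, IsMaxVol K P

/-- Row EXV, valence. -/
def ValS : Prop := ∀ (ι Φ : Type) [Fintype ι] [Fintype Φ] (M : Mesh ι Φ) (v : ι),
  valence (convexHull ℝ (range ((WithLp.toLp 2 : V → E3) ∘ M.p))) (WithLp.toLp 2 (M.p v)) ≤ M.deg v

-- ## One triangle

/-- Row TRI1. -/
def DetS : Prop := Unif fun M h C => ∀ d, |M.D d - √3 / 2 * h ^ 2| ≤ C * h ^ 2 * (M.X1 h d + h ^ 2)

/-- Row TRI1. -/
def RhoS : Prop := Unif fun M h C => ∀ d,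
  nv (M.C d + M.C (M.s d) - M.A d - M.B d) ≤ C * h * (M.X1 h d + M.X1 h (M.s d) + h)

/-- Row TRI1. -/
def BadS : Prop := Unif fun M h C => ∀ d, d ∉ M.good h → 1 ≤ C * M.X2 h d

/-- Row TRI2. -/
def AngS : Prop := Unif fun M h C => ∀ d,
  |M.θ d - π / 3 - M.E d / 3 - M.lin h d| ≤ C * (M.X2 h d + h ^ 2)

/-- Row TRI2 (from `AngS`). -/
def DefS : Prop := Unif fun M h C =>
  ∑ v, |M.q v| ≤ C * M.W h ∧ (M.defects.card : ℝ) ≤ C * M.W h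

/-- Row STAB. -/
def StabS : Prop := Unif fun M h C =>
  M.W h * h ^ 4 ≤ C * (max (4 * π / 3 - π * h ^ 2 / 2 - M.vol) 0 + h ^ 4)

-- ## The lower bound for the energy

/-- Row REG (from `AngS`, `RhoS`, `BadS`). -/
def RegS : Prop := Unif fun {ι} _ _ _ M h C => ∀ (F m : ι → ℝ) (L : ℝ), 0 ≤ L → (∀ i, 0 ≤ m i) →
  (∀ i j, nv (M.p j - M.p i) ≤ 48 * h → |F j - F i| ≤ L * nv (M.p j - M.p i)) →
  (∀ i, ∃ g : V, nv g ≤ L ∧ ∀ j, nv (M.p j - M.p i) ≤ 48 * h →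
    |F j - F i - ip g (M.p j - M.p i)| ≤ m i * nv (M.p j - M.p i) ^ 2) →
  |∑ v, M.q v * F v - ∑ d, M.E d / 3 * F (M.tl d)| ≤
    C * (L * h * (M.W h + 1) + h ^ 2 * √(M.W h) * √(∑ d ∈ M.good h, m (M.tl d) ^ 2))

/-- The inverse square of the regularised distance to `Z`. -/
noncomputable def Phi (Z : Finset V) (η r0 : ℝ) (a : V) : ℝ :=
  1 / r0 ^ 2 + ∑ z ∈ Z, 1 / (ip (a - z) (a - z) + η ^ 2)

/-- Row POT. -/
def PotS : Prop := ∃ C : ℝ, 0 < C ∧ ∀ (Z : Finset V) (η r0 : ℝ) (f : ℝ → ℝ) (c : V), 0 < η →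
  0 < r0 → ip c c = 1 → (∀ s t, |f s - f t| ≤ |s - t|) → ∃ F : V → ℝ,
    (∀ y, |F y - f (ip c y)| ≤ r0) ∧ (∀ z ∈ Z, |F z - f (ip c z)| ≤ η) ∧
    (∀ a y, nv (y - a) ≤ η / 10 → |F y - F a| ≤ C * nv (y - a)) ∧
    ∀ a, ∃ g : V, nv g ≤ C ∧ ∀ y, nv (y - a) ≤ η / 10 →
      |F y - F a - ip g (y - a)| ≤ C * √(Phi Z η r0 a) * nv (y - a) ^ 2

/-- Row PACK. -/
def PackS : Prop := Unif fun M h C => ∀ z : V, ip z z = 1 →
  ∑ d ∈ M.good h, 1 / (ip (M.A d - z) (M.A d - z) + (480 * h) ^ 2) ≤ C * log (1 / h) / h ^ 2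

/-- Row DUAL. -/
def DualS : Prop := Unif fun M _ _ => ∀ c : V, ip c c = 1 → ∃ f : ℝ → ℝ,
  (∀ s t, |f s - f t| ≤ |s - t|) ∧
  π / 200 ≤ ∑ v, M.q v * f (ip c (M.p v)) - ∑ d, M.E d / 3 * f (ip c (M.A d))

/-- Row GLOW (from `RegS`, `DefS`, `PotS`, `PackS`, `DualS`). -/
def GlowS : Prop := Unif fun M h C => 1 ≤ C * (h * M.W h * √(log (1 / h)))

-- ## The construction

/-- Row FAN. -/
def FanS : Prop := ∀ (H : Set ℂ) (N : ℕ) (g ρ : ℕ → ℝ), Convex ℝ H → (0 : ℂ) ∈ H →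
  (∀ k, g k ≤ g (k + 1)) → (∀ k, g (k + 2) - g k < π) → (∀ k, g (k + N) = g k + 2 * π) →
  (∀ k, 0 ≤ ρ k) → (∀ k, ρ (k + N) = ρ k) →
  (∀ k, (⟨ρ k * cos (g k) + ρ (k + 1) * cos (g (k + 1)),
    ρ k * sin (g k) + ρ (k + 1) * sin (g (k + 1))⟩ : ℂ) ∈ H) →
  ENNReal.ofReal (∑ k ∈ Finset.range N, (ρ k * ρ (k + 1) * sin (g (k + 1) - g k)
    + ρ k * ρ (k + 2) * sin (g (k + 2) - g k)
    + ρ (k + 1) * ρ (k + 2) * sin (g (k + 2) - g (k + 1))) / 2) ≤ volume H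

/-- The volume formula of a slab of height `Δ` between a row of radius `a` (even indices) and a
row of radius `b` (odd indices). -/
noncomputable def slabV (Δ a b : ℝ) (N : ℕ) (g : ℕ → ℝ) : ℝ :=
  Δ / 2 * ∑ k ∈ Finset.range N, ((if Even k then a else b) ^ 2 / 3 * sin (g (k + 2) - g k)
    + a * b / 6 * (sin (g (k + 1) - g k) + sin (g (k + 2) - g (k + 1))))

/-- Row SLAB (from `FanS`). -/
def SlabS : Prop := ∀ (H : Set V) (za zb a b : ℝ) (N : ℕ) (g : ℕ → ℝ), Convex ℝ H → 0 ≤ a →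
  0 ≤ b → Even N → (![za, 0, 0] : V) ∈ H → (![zb, 0, 0] : V) ∈ H →
  (∀ k, g k ≤ g (k + 1)) → (∀ k, g (k + 2) - g k < π) → (∀ k, g (k + N) = g k + 2 * π) →
  (∀ k, Even k → (![za, a * cos (g k), a * sin (g k)] : V) ∈ H) →
  (∀ k, Odd k → (![zb, b * cos (g k), b * sin (g k)] : V) ∈ H) →
  ENNReal.ofReal (slabV |za - zb| a b N g) ≤ ∫⁻ z in uIoc za zb, volume (sec H z)

/-- Row LOSS. -/
def LossS : Prop := ∀ B : ℝ, ∃ C : ℝ, 0 < C ∧ ∀ (c h r a b : ℝ) (N : ℕ) (g : ℕ → ℝ), 0 < c →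
  √3 * h = 2 * c → c ≤ r → 0 ≤ a → 0 ≤ b → |a - r| ≤ c → |b - r| ≤ c →
  c ^ 2 = (c * r) ^ 2 + (a - b) ^ 2 → Even N →
  (∀ k, g k ≤ g (k + 1)) → (∀ k, g (k + N) = g k + 2 * π) →
  (∀ k, (g (k + 1) - g k) * r / h ≤ B) →
  π * (c * r) * (3 * a ^ 2 + 3 * b ^ 2 + (c * r) ^ 2) / 6 - slabV (c * r) a b N g ≤
    (π * c ^ 2 / 6 + 3 * π * h ^ 2 / 8) * (c * r) - c * h ^ 3 / 16 * N +
      C * h ^ 4 * (1 + ∑ k ∈ Finset.range N, ((g (k + 1) - g k) * r / h - 1 / 2) ^ 2)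

/-- Polar angle between consecutive rows. -/
noncomputable def gam (J : ℕ) : ℝ := π / (2 * J)
/-- Chord between consecutive rows. -/
noncomputable def cc (J : ℕ) : ℝ := 2 * sin (gam J / 2)
/-- The lattice constant. -/
noncomputable def hh (J : ℕ) : ℝ := 2 * cc J / √3
/-- Radius in the middle of the slab below row `j`. -/
noncomputable def rbar (J j : ℕ) : ℝ := sin ((j + 1 / 2) * gam J)

/-- One step of the row data: `q` points per sector, relaxation width `w`. -/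
def Step (j q w q' w' : ℕ) : Prop := (q' = q ∧ w' = min q (w + 1)) ∨
  (Odd j ∧ w = q ∧ q' = q + 1 ∧ w' = 2)

/-- Row SEQ. -/
def SeqS : Prop := ∃ (C : ℝ) (K0 : ℕ), 0 < C ∧ ∀ K ≥ K0, ∃ (J M : ℕ) (q w : ℕ → ℕ), 2 ≤ J ∧
  5 ≤ M ∧ (J : ℝ) ^ 2 ≤ K ∧ (K : ℝ) ≤ 20 * J ^ 2 ∧
  (∀ j, 2 ≤ w j ∧ w j ≤ q j) ∧ (∀ j < J, Step j (q j) (w j) (q (j + 1)) (w (j + 1))) ∧
  (∀ j < J, |2 * π / (M * hh J) * rbar J j - q j| ≤ C) ∧
  (M : ℝ) * ∑ j ∈ Finset.range J, (1 / (w j : ℝ) + ((q (j + 1) : ℝ) - q j)) ≤ C * J * log J ∧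
  M * (2 * ∑ j ∈ Finset.Ico 1 J, q j + q J) + 6 ≤ K ∧
  (K : ℝ) ≤ M * (2 * ∑ j ∈ Finset.Ico 1 J, (q (j + 1) : ℝ)) + C * J

/-- Position in a sector. -/
noncomputable def prof (q w : ℕ) (y : ℝ) : ℝ := (y - max 0 (1 - (q - y) / w)) / (q - 1)

/-- Angle of point `i` of row `j`. -/
noncomputable def rowAng (M j q w i : ℕ) : ℝ :=
  2 * π / M * ((i / q : ℕ) + prof q w ((i % q : ℕ) + if Even j then 0 else 1 / 2))

/-- Row ANG. -/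
def AngleS : Prop := ∀ M j q w q' w' : ℕ, 0 < M → 2 ≤ w → w ≤ q → Step j q w q' w' →
  ∃ g : ℕ → ℝ, (∀ k, g (k + 2 * M * q') = g k + 2 * π) ∧
    (∀ k, 0 ≤ g (k + 1) - g k ∧ g (k + 1) - g k ≤ 2 * π / M / (q' - 1)) ∧
    (∀ k, Even (j + k) → ∃ i < M * q, ∃ n : ℤ, g k = rowAng M j q w i + n * (2 * π)) ∧
    (∀ k, Odd (j + k) → ∃ i < M * q', ∃ n : ℤ, g k = rowAng M (j + 1) q' w' i + n * (2 * π)) ∧
    ∑ k ∈ Finset.range (2 * M * q'), ((g (k + 1) - g k) * (q' - 1) / (2 * π / M) - 1 / 2) ^ 2 ≤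
      M * (9 / (w : ℝ) + ((q' : ℝ) - q))

/-- Row PLAN (from `SeqS`, `AngleS`). -/
def PlanS : Prop := ∃ (B C : ℝ) (K0 : ℕ), 0 < C ∧ ∀ K ≥ K0, ∃ (J : ℕ) (n N : ℕ → ℕ)
  (α g : ℕ → ℕ → ℝ), 2 ≤ J ∧ (J : ℝ) ^ 2 ≤ K ∧ (K : ℝ) ≤ 20 * J ^ 2 ∧
  2 * ∑ j ∈ Finset.Ico 1 J, n j + n J + 6 ≤ K ∧
  (K : ℝ) ≤ ∑ j ∈ Finset.Ico 1 J, (N j : ℝ) + C * J ∧
  (∀ j ∈ Finset.Ico 1 J, Even (N j) ∧ (∀ k, g j k ≤ g j (k + 1)) ∧
    (∀ k, g j (k + 2) - g j k < π) ∧ (∀ k, g j (k + N j) = g j k + 2 * π) ∧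
    (∀ k, (g j (k + 1) - g j k) * rbar J j / hh J ≤ B) ∧
    (∀ k, Even (j + k) → ∃ i < n j, ∃ m : ℤ, g j k = α j i + m * (2 * π)) ∧
    (∀ k, Odd (j + k) → ∃ i < n (j + 1), ∃ m : ℤ, g j k = α (j + 1) i + m * (2 * π))) ∧
  ∑ j ∈ Finset.Ico 1 J, ∑ k ∈ Finset.range (N j),
    ((g j (k + 1) - g j k) * rbar J j / hh J - 1 / 2) ^ 2 ≤ C * J * log J

/-- Row BUILD (from `PlanS`, `SlabS`, `LossS`). -/
def BuildS : Prop := ∃ (C : ℝ) (K0 : ℕ), 0 < C ∧ ∀ K ≥ K0, ∃ P, Inscribed K P ∧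
  4 * π / 3 - 4 * √3 * π ^ 2 / (3 * K) - C * log K / (K * √K) ≤ (volume P).toReal

-- ## Caps without defects

/-- The sixth root of unity. -/
noncomputable def om : ℂ := ⟨1 / 2, √3 / 2⟩

/-- Row SWEEP. -/
def OrbS : Prop := ∀ (ι Φ : Type) [Fintype ι] [Fintype Φ] (M : Mesh ι Φ) (d : Φ),
  M.deg (M.tl d) = 6 → (M.r ^ 6) d = d

/-- Row SWEEP. -/
def DevS : Prop := ∀ (ι Φ : Type) [Fintype ι] [Fintype Φ] (M : Mesh ι Φ) (c : V) (t : ℝ),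
  M.Generic c → 0 ≤ t → (∀ v, t < ip c (M.p v) → M.deg v = 6) →
  ∃ (z : ι → ℂ) (u : Φ → ℂ), ∀ d, t < ip c (M.A d) → u d ≠ 0 ∧ u (M.r d) = om * u d ∧
    (t < ip c (M.B d) → z (M.tl (M.φ d)) = z (M.tl d) + u d ∧ u (M.s d) = -u d)

/-- Row CHART (from `OrbS`, `DevS`). -/
def ChartS : Prop := ∀ (ι Φ : Type) [Fintype ι] [Fintype Φ] (M : Mesh ι Φ) (ℓ : ℝ), 0 ≤ ℓ →
  (∀ d, M.sq d ≤ ℓ ^ 2) →
  (∀ d (i j : ℤ), nv (M.A (M.ch i j d) - M.A d) ≤ (|(i : ℝ)| + |(j : ℝ)|) * ℓ ∧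
    M.A (M.ch i (j + 1) d) = M.C (M.ch i j d)) ∧
  ∀ (c : V) (R : ℝ), ip c c = 1 → M.Generic c → R ≤ 1 →
    (∀ v, nv (M.p v - c) < R → M.deg v = 6) →
    (∀ d (i j : ℤ), nv (M.A d - c) + (|(i : ℝ)| + |(j : ℝ)| + 3) * ℓ < R →
      M.A (M.ch (i + 1) j d) = M.B (M.ch i j d)) ∧
    ∀ d (i j i' j' : ℤ), nv (M.A d - c) + (|(i : ℝ)| + |(j : ℝ)| + 3) * ℓ < R →
      nv (M.A d - c) + (|(i' : ℝ)| + |(j' : ℝ)| + 3) * ℓ < R →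
      M.tl (M.ch i j d) = M.tl (M.ch i' j' d) → i = i' ∧ j = j'

/-- Row PLSEG. -/
def SegS : Prop := ∀ i j : ℤ, ∃ (N : ℕ) (a b : ℕ → ℤ) (up : ℕ → Bool), 0 < N ∧
  (∀ k < N, |a k| ≤ |i| + 1 ∧ |b k| ≤ |j| + 1) ∧ ∀ P : ℤ → ℤ → ℝ,
    N * (P i j - P 0 0) = ∑ k ∈ Finset.range N, if up k = true then
      i * (P (a k + 1) (b k) - P (a k) (b k)) + j * (P (a k) (b k + 1) - P (a k) (b k))
    else i * (P (a k + 1) (b k + 1) - P (a k) (b k + 1))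
      + j * (P (a k + 1) (b k + 1) - P (a k + 1) (b k))

/-- The norm form of the triangular lattice. -/
def qf (y : ℤ × ℤ) : ℝ := (y.1 : ℝ) ^ 2 + y.1 * y.2 + (y.2 : ℝ) ^ 2

/-- Lattice points of norm at most `s`. -/
noncomputable def Lat (s : ℝ) : Finset (ℤ × ℤ) :=
  (Finset.Icc (-(⌈s⌉ + 1)) (⌈s⌉ + 1) ×ˢ Finset.Icc (-(⌈s⌉ + 1)) (⌈s⌉ + 1)).filter
    fun y => qf y ≤ s

/-- Row LAT. -/
def LatS : Prop := ∀ s : ℝ, 0 ≤ s → (∀ y, y ∈ Lat s ↔ qf y ≤ s) ∧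
  (∀ y ∈ Lat s, |(y.1 : ℝ)| ≤ 2 * √s ∧ |(y.2 : ℝ)| ≤ 2 * √s) ∧
  2 * π / √3 * s - 20 * (√s + 1) ≤ (Lat s).card ∧
  ((Lat s).card : ℝ) ≤ 16 / 3 * s + 5 * √s + 1

/-- Row LAT. -/
def LayerS : Prop := ∀ (α β : Type) (U : Finset α) (Y : Finset β) (s : α → ℝ) (t : β → ℝ)
  (R e : ℝ), 0 ≤ R → (∀ u ∈ U, 0 ≤ s u) → (∀ y ∈ Y, 0 ≤ t y) →
  (∀ x, 0 ≤ x → x ≤ R → ((U.filter fun u => s u ≤ x).card : ℝ) ≤
    (Y.filter fun y => t y ≤ x).card + e) →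
  ∑ u ∈ U, max (R - s u) 0 ≤ ∑ y ∈ Y, max (R - t y) 0 + R * e

/-- Row CHORD (from `ChartS`, `SegS`). -/
def ChordS : Prop := ∀ (ι Φ : Type) [Fintype ι] [Fintype Φ] (M : Mesh ι Φ) (h : ℝ), M.Fine h →
  ∀ (c : V) (r R : ℝ) (y : ℤ × ℤ), ip c c = 1 → M.Generic c → R ≤ 1 →
    (∀ v, nv (M.p v - c) < R → M.deg v = 6) →
    r + (2 * |(y.1 : ℝ)| + 2 * |(y.2 : ℝ)| + 12) * (48 * h) < R → h ^ 2 * (qf y + 3) ≤ 4 →
    ∑ d ∈ M.near c r, ip (M.A (M.ch y.1 y.2 d) - M.A d) (M.A (M.ch y.1 y.2 d) - M.A d) ≤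
      (M.near c r).card * (h ^ 2 * qf y - h ^ 4 * qf y ^ 2 / 16 + 3 * h ^ 2) +
        9 * h ^ 2 * (qf y + 3) * ∑ d ∈ M.near c R, |M.x h d|

/-- Row COUNT (from `DetS`). -/
def CountS : Prop := Unif fun {ι} _ _ _ M h C => ∀ (c a : V) (s R : ℝ), ip a a = 1 → 0 ≤ s →
  s ≤ 1 → nv (a - c) + √s + 48 * h ≤ R → ∀ U : Finset ι,
    (∀ v ∈ U, M.deg v = 6 ∧ ip (M.p v - a) (M.p v - a) ≤ s) →
    (U.card : ℝ) ≤ 2 * π / √3 * (s / h ^ 2) + C * (1 / h + ∑ d ∈ M.near c R, |M.x h d|)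

/-- Row CAP (from `ChartS`, `ChordS`, `CountS`, `LatS`, `LayerS`). -/
def CapS : Prop := Unif fun M h C => ∀ (c : V) (r : ℝ), ip c c = 1 → M.Generic c → 0 < r →
  r ≤ 1 / 1000 → (∀ v, nv (M.p v - c) < 500 * r → M.deg v = 6) →
  r ^ 4 ≤ C * (h + h ^ 2 * ∑ d ∈ M.near c (500 * r), |M.x h d|)

/-- Row PIG (from `CapS`). -/
def PigS : Prop := Unif fun M h C => ∀ r : ℝ, 0 < r → r ≤ 1 / 10000 →
  C * (M.defects.card * r ^ 2) < 1 → r ^ 4 ≤ C * (h + r ^ 2 * h * √(M.W h))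

/-- Row PIG. -/
def LowS : Prop := ∀ (ι Φ : Type) [Fintype ι] [Fintype Φ] (M : Mesh ι Φ),
  Fintype.card Φ + 12 ≤ 6 * Fintype.card ι →
  M.defects.card ≤ 7 * (Finset.univ.filter fun v => M.deg v ≤ 5).card

end Pool.Agent.MP_2ab689_gt.Big
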