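import Mathlib.Algebra.Order.Chebyshev
import Pool.Agent.MP_2ab689_gt.Big.Spec

/-!
Row CHORD: the mean squared chord along a lattice vector.
-/

namespace Pool.Agent.MP_2ab689_gt.Big

open MeasureTheory Set Real

namespace Chord

theorem qf_nonneg (y : ℤ × ℤ) : 0 ≤ qf y := by
  unfold qf
  nlinarith [sq_nonneg ((y.1 : ℝ) + y.2), sq_nonneg (y.1 : ℝ), sq_nonneg (y.2 : ℝ)]

theorem tri (i j h x0 x1 x2 : ℝ) (e0 e1 : V) (h0 : ip e0 e0 = h ^ 2 * (1 + x0))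
    (h1 : ip e1 e1 = h ^ 2 * (1 + x1)) (h2 : ip (e0 - e1) (e0 - e1) = h ^ 2 * (1 + x2)) :
    ip (i • e0 + j • e1) (i • e0 + j • e1) ≤
      h ^ 2 * (i ^ 2 + i * j + j ^ 2) * (1 + |x0| + |x1| + |x2|) := by
  have e : ip (i • e0 + j • e1) (i • e0 + j • e1) = i ^ 2 * ip e0 e0 + j ^ 2 * ip e1 e1 +
      i * j * (ip e0 e0 + ip e1 e1 - ip (e0 - e1) (e0 - e1)) := by
    simp only [ip, Pi.add_apply, Pi.sub_apply, Pi.smul_apply, smul_eq_mul]; ring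
  have key : ∀ u x : ℝ, |u| ≤ i ^ 2 + i * j + j ^ 2 → u * x ≤ (i ^ 2 + i * j + j ^ 2) * |x| :=
    fun u x hu => (le_abs_self _).trans (by
      rw [abs_mul]; exact mul_le_mul_of_nonneg_right hu (abs_nonneg x))
  have k0 := key (i ^ 2 + i * j) x0 (abs_le.mpr
    ⟨by nlinarith [sq_nonneg (i + j), sq_nonneg i], by nlinarith [sq_nonneg j]⟩)
  have k1 := key (j ^ 2 + i * j) x1 (abs_le.mpr
    ⟨by nlinarith [sq_nonneg (i + j), sq_nonneg j], by nlinarith [sq_nonneg i]⟩)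
  have k2 := key (-(i * j)) x2 (abs_le.mpr
    ⟨by nlinarith [sq_nonneg i, sq_nonneg j], by nlinarith [sq_nonneg (i + j)]⟩)
  rw [e, h0, h1, h2]
  have := mul_le_mul_of_nonneg_left (add_le_add (add_le_add k0 k1) k2) (sq_nonneg h)
  nlinarith [this]

/-- The vector attached to a cell. -/
noncomputable def cv (P : ℤ → ℤ → V) (i j a b : ℤ) (up : Bool) : V :=
  if up = true then (i : ℝ) • (P (a + 1) b - P a b) + (j : ℝ) • (P a (b + 1) - P a b)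
  else (i : ℝ) • (P (a + 1) (b + 1) - P a (b + 1)) + (j : ℝ) • (P (a + 1) (b + 1) - P (a + 1) b)

theorem seg (h2 : SegS) (i j : ℤ) : ∃ (N : ℕ) (a b : ℕ → ℤ) (up : ℕ → Bool), 0 < N ∧
    (∀ k < N, |a k| ≤ |i| + 1 ∧ |b k| ≤ |j| + 1) ∧ ∀ P : ℤ → ℤ → V,
      N * ip (P i j - P 0 0) (P i j - P 0 0) ≤
        ∑ k ∈ Finset.range N, ip (cv P i j (a k) (b k) (up k)) (cv P i j (a k) (b k) (up k)) := by
  obtain ⟨N, a, b, up, hN, hab, hP⟩ := h2 i j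
  refine ⟨N, a, b, up, hN, hab, fun P => ?_⟩
  have hN' : (0 : ℝ) < N := by exact_mod_cast hN
  have key : ∀ m : Fin 3, N * (P i j m - P 0 0 m) ^ 2 ≤
      ∑ k ∈ Finset.range N, cv P i j (a k) (b k) (up k) m ^ 2 := by
    intro m
    have e := hP fun a b => P a b m
    have e2 : (N : ℝ) * (P i j m - P 0 0 m) =
        ∑ k ∈ Finset.range N, cv P i j (a k) (b k) (up k) m := by
      rw [e]
      refine Finset.sum_congr rfl fun k _ => ?_
      unfold cv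
      split_ifs <;> simp only [Pi.add_apply, Pi.sub_apply, Pi.smul_apply, smul_eq_mul]
    have e3 := sq_sum_le_card_mul_sum_sq (s := Finset.range N)
      (f := fun k => cv P i j (a k) (b k) (up k) m)
    rw [← e2, Finset.card_range] at e3
    refine le_of_mul_le_mul_left ?_ hN'
    calc (N : ℝ) * (N * (P i j m - P 0 0 m) ^ 2) = (N * (P i j m - P 0 0 m)) ^ 2 := by ring
      _ ≤ _ := e3
  have k0 := key 0
  have k1 := key 1
  have k2 := key 2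
  have e : ∑ k ∈ Finset.range N, ip (cv P i j (a k) (b k) (up k)) (cv P i j (a k) (b k) (up k)) =
      ∑ k ∈ Finset.range N, cv P i j (a k) (b k) (up k) 0 ^ 2 +
      ∑ k ∈ Finset.range N, cv P i j (a k) (b k) (up k) 1 ^ 2 +
      ∑ k ∈ Finset.range N, cv P i j (a k) (b k) (up k) 2 ^ 2 := by
    rw [← Finset.sum_add_distrib, ← Finset.sum_add_distrib]
    refine Finset.sum_congr rfl fun k _ => ?_
    unfold ip; ring
  rw [e]
  simp only [ip, Pi.sub_apply]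
  nlinarith [k0, k1, k2]

theorem sum_perm {Φ : Type} (σ : Equiv.Perm Φ) (S T : Finset Φ) (f : Φ → ℝ) (hf : ∀ d, 0 ≤ f d)
    (h : ∀ d ∈ S, σ d ∈ T) : ∑ d ∈ S, f (σ d) ≤ ∑ d ∈ T, f d := by
  refine (Finset.sum_map S σ.toEmbedding f).symm.le.trans ?_
  refine Finset.sum_le_sum_of_subset_of_nonneg (fun e he => ?_) fun e _ _ => hf e
  obtain ⟨d, hd, rfl⟩ := Finset.mem_map.mp he
  exact h d hd

theorem unit3 {a m b : V} (ha : ip a a = 1) (hm : ip m m = 1) (hb : ip b b = 1) :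
    ip (b - a) (b - a) ≤ 2 * (ip (m - a) (m - a) + ip (b - m) (b - m)) -
      (ip (m - a) (m - a) + ip (b - m) (b - m)) ^ 2 / 4 := by
  have h := ip_sq_le (a + b) m
  rw [hm, ip_add_left, ip_add_left, ip_add_right, ip_add_right, ha, hb, ip_comm a b,
    ip_comm a m] at h
  rw [ip_sub_unit hb ha, ip_sub_unit hm ha, ip_sub_unit hb hm]
  nlinarith [h]

variable {ι Φ : Type} [Fintype ι] [Fintype Φ] (M : Mesh ι Φ)

theorem mem_near {c : V} {R : ℝ} {d : Φ} : d ∈ M.near c R ↔ nv (M.A d - c) ≤ R := by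
  simp [Mesh.near]

theorem sq_x {h : ℝ} (hh : 0 < h) (d : Φ) : M.sq d = h ^ 2 * (1 + M.x h d) := by
  unfold Mesh.x; field_simp; ring

theorem ip_swap (a b : V) : ip (a - b) (a - b) = ip (b - a) (b - a) := by
  simp only [ip, Pi.sub_apply]; ring

theorem cell {h : ℝ} (hh : 0 < h) {c : V} {r R ℓ : ℝ} (hl : 0 ≤ ℓ)
    (c1 : ∀ d (i j : ℤ), nv (M.A (M.ch i j d) - M.A d) ≤ (|(i : ℝ)| + |(j : ℝ)|) * ℓ ∧
      M.A (M.ch i (j + 1) d) = M.C (M.ch i j d))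
    (c2 : ∀ d (i j : ℤ), nv (M.A d - c) + (|(i : ℝ)| + |(j : ℝ)| + 3) * ℓ < R →
      M.A (M.ch (i + 1) j d) = M.B (M.ch i j d))
    (i j i0 j0 a b : ℤ) (up : Bool)
    (hR : r + (|((a + i0 : ℤ) : ℝ)| + |((b + j0 : ℤ) : ℝ)| + 4) * ℓ < R) :
    ∑ d ∈ M.near c r, ip (cv (fun a b => M.A (M.ch (a + i0) (b + j0) d)) i j a b up)
        (cv (fun a b => M.A (M.ch (a + i0) (b + j0) d)) i j a b up) ≤
      h ^ 2 * qf (i, j) * ((M.near c r).card + 3 * ∑ d ∈ M.near c R, |M.x h d|) := by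
  have ea : a + 1 + i0 = a + i0 + 1 := by ring
  have eb : b + 1 + j0 = b + j0 + 1 := by ring
  simp only [cv, ea, eb]
  generalize a + i0 = a' at hR ⊢
  generalize b + j0 = b' at hR ⊢
  have ha1 : |((a' + 1 : ℤ) : ℝ)| ≤ |(a' : ℝ)| + 1 := by
    push_cast; exact (abs_add_le _ _).trans (by rw [abs_one])
  have hb1 : |((b' + 1 : ℤ) : ℝ)| ≤ |(b' : ℝ)| + 1 := by
    push_cast; exact (abs_add_le _ _).trans (by rw [abs_one])
  have hnear : ∀ d ∈ M.near c r, ∀ u v : ℤ, |(u : ℝ)| ≤ |(a' : ℝ)| + 1 →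
      |(v : ℝ)| ≤ |(b' : ℝ)| + 1 → nv (M.A (M.ch u v d) - c) ≤ R := by
    intro d hd u v hu hv
    have h1 := (c1 d u v).1
    have h2 := (mem_near M).mp hd
    have h3 := nv_tri (M.A (M.ch u v d)) (M.A d) c
    have h4 : (|(u : ℝ)| + |(v : ℝ)|) * ℓ ≤ (|(a' : ℝ)| + |(b' : ℝ)| + 4) * ℓ :=
      mul_le_mul_of_nonneg_right (by linarith) hl
    linarith
  have hB : ∀ d ∈ M.near c r, ∀ v : ℤ, |(v : ℝ)| ≤ |(b' : ℝ)| + 1 →
      M.A (M.ch (a' + 1) v d) = M.B (M.ch a' v d) := by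
    intro d hd v hv
    refine c2 d a' v ?_
    have h2 := (mem_near M).mp hd
    have h4 : (|(a' : ℝ)| + |(v : ℝ)| + 3) * ℓ ≤ (|(a' : ℝ)| + |(b' : ℝ)| + 4) * ℓ :=
      mul_le_mul_of_nonneg_right (by linarith) hl
    linarith
  have ha0 : |(a' : ℝ)| ≤ |(a' : ℝ)| + 1 := by linarith
  have hb0 : |(b' : ℝ)| ≤ |(b' : ℝ)| + 1 := by linarith
  have fin : ∀ (σ0 σ1 σ2 : Equiv.Perm Φ) (w : Φ → ℝ), (∀ d ∈ M.near c r, σ0 d ∈ M.near c R) →
      (∀ d ∈ M.near c r, σ1 d ∈ M.near c R) → (∀ d ∈ M.near c r, σ2 d ∈ M.near c R) →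
      (∀ d ∈ M.near c r, w d ≤ h ^ 2 * ((i : ℝ) ^ 2 + i * j + j ^ 2) *
        (1 + |M.x h (σ0 d)| + |M.x h (σ1 d)| + |M.x h (σ2 d)|)) →
      ∑ d ∈ M.near c r, w d ≤
        h ^ 2 * qf (i, j) * ((M.near c r).card + 3 * ∑ d ∈ M.near c R, |M.x h d|) := by
    intro σ0 σ1 σ2 w s0 s1 s2 hw
    refine (Finset.sum_le_sum hw).trans ?_
    rw [← Finset.mul_sum]
    refine mul_le_mul_of_nonneg_left ?_ (mul_nonneg (sq_nonneg h) (qf_nonneg (i, j)))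
    rw [Finset.sum_add_distrib, Finset.sum_add_distrib, Finset.sum_add_distrib]
    have t0 := sum_perm σ0 _ _ (fun d => |M.x h d|) (fun d => abs_nonneg _) s0
    have t1 := sum_perm σ1 _ _ (fun d => |M.x h d|) (fun d => abs_nonneg _) s1
    have t2 := sum_perm σ2 _ _ (fun d => |M.x h d|) (fun d => abs_nonneg _) s2
    simp only [Finset.sum_const, nsmul_eq_mul, mul_one]
    linarith
  have s2 : ∀ d ∈ M.near c r, (M.φ * M.ch a' b') d ∈ M.near c R := by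
    intro d hd
    rw [mem_near, Equiv.Perm.mul_apply, M.A_φ, ← hB d hd b' hb0]
    exact hnear d hd _ _ ha1 hb0
  have l2 : ∀ d ∈ M.near c r, ip (M.A (M.ch (a' + 1) b' d) - M.A (M.ch a' (b' + 1) d))
      (M.A (M.ch (a' + 1) b' d) - M.A (M.ch a' (b' + 1) d)) =
        h ^ 2 * (1 + M.x h ((M.φ * M.ch a' b') d)) := by
    intro d hd
    rw [← sq_x M hh, hB d hd b' hb0, (c1 d a' b').2, Equiv.Perm.mul_apply, Mesh.sq, M.A_φ, M.B_φ]
  have l0 : ∀ d ∈ M.near c r, ∀ v : ℤ, |(v : ℝ)| ≤ |(b' : ℝ)| + 1 →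
      ip (M.A (M.ch (a' + 1) v d) - M.A (M.ch a' v d))
      (M.A (M.ch (a' + 1) v d) - M.A (M.ch a' v d)) = h ^ 2 * (1 + M.x h (M.ch a' v d)) := by
    intro d hd v hv
    rw [← sq_x M hh, hB d hd v hv, Mesh.sq, ip_swap]
  have l1 : ∀ d, ∀ u : ℤ, ip (M.A (M.ch u (b' + 1) d) - M.A (M.ch u b' d))
      (M.A (M.ch u (b' + 1) d) - M.A (M.ch u b' d)) =
        h ^ 2 * (1 + M.x h ((M.φ * M.φ * M.ch u b') d)) := by
    intro d u
    rw [← sq_x M hh, (c1 d u b').2, Equiv.Perm.mul_apply, Equiv.Perm.mul_apply, Mesh.sq, M.A_φ,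
      M.B_φ, M.B_φ, M.C_φ]
  have s1 : ∀ u : ℤ, |(u : ℝ)| ≤ |(a' : ℝ)| + 1 →
      ∀ d ∈ M.near c r, (M.φ * M.φ * M.ch u b') d ∈ M.near c R := by
    intro u hu d hd
    rw [mem_near, Equiv.Perm.mul_apply, Equiv.Perm.mul_apply, M.A_φ, M.B_φ, ← (c1 d u b').2]
    exact hnear d hd _ _ hu hb1
  have s0 : ∀ v : ℤ, |(v : ℝ)| ≤ |(b' : ℝ)| + 1 → ∀ d ∈ M.near c r, M.ch a' v d ∈ M.near c R := by
    intro v hv d hd
    rw [mem_near]
    exact hnear d hd _ _ ha0 hv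
  cases up with
  | true =>
    simp only [if_true]
    refine fin (M.ch a' b') (M.φ * M.φ * M.ch a' b') (M.φ * M.ch a' b') _ (s0 b' hb0)
      (s1 a' ha0) s2 fun d hd => tri _ _ _ _ _ _ _ _ (l0 d hd b' hb0) (l1 d a') ?_
    rw [sub_sub_sub_cancel_right]
    exact l2 d hd
  | false =>
    simp only [Bool.false_eq_true, if_false]
    refine fin (M.ch a' (b' + 1)) (M.φ * M.φ * M.ch (a' + 1) b') (M.φ * M.ch a' b') _
      (s0 _ hb1) (s1 _ ha1) s2 fun d hd => tri _ _ _ _ _ _ _ _ (l0 d hd _ hb1) (l1 d _) ?_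
    rw [sub_sub_sub_cancel_left]
    exact l2 d hd

theorem piece (h2 : SegS) {h : ℝ} (hh : 0 < h) {c : V} {r R ℓ : ℝ} (hl : 0 ≤ ℓ)
    (c1 : ∀ d (i j : ℤ), nv (M.A (M.ch i j d) - M.A d) ≤ (|(i : ℝ)| + |(j : ℝ)|) * ℓ ∧
      M.A (M.ch i (j + 1) d) = M.C (M.ch i j d))
    (c2 : ∀ d (i j : ℤ), nv (M.A d - c) + (|(i : ℝ)| + |(j : ℝ)| + 3) * ℓ < R →
      M.A (M.ch (i + 1) j d) = M.B (M.ch i j d))
    (i j i0 j0 : ℤ)
    (hR : r + (|(i : ℝ)| + |(i0 : ℝ)| + |(j : ℝ)| + |(j0 : ℝ)| + 6) * ℓ < R) :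
    ∑ d ∈ M.near c r, ip (M.A (M.ch (i + i0) (j + j0) d) - M.A (M.ch i0 j0 d))
        (M.A (M.ch (i + i0) (j + j0) d) - M.A (M.ch i0 j0 d)) ≤
      h ^ 2 * qf (i, j) * ((M.near c r).card + 3 * ∑ d ∈ M.near c R, |M.x h d|) := by
  obtain ⟨N, a, b, up, hN, hab, hP⟩ := seg h2 i j
  have hN' : (0 : ℝ) < N := by exact_mod_cast hN
  refine le_of_mul_le_mul_left ?_ hN'
  rw [Finset.mul_sum]
  have h1 := fun d => hP fun a b => M.A (M.ch (a + i0) (b + j0) d)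
  simp only [zero_add] at h1
  refine (Finset.sum_le_sum fun d _ => h1 d).trans ?_
  rw [Finset.sum_comm]
  refine (Finset.sum_le_sum fun k hk => cell M hh hl c1 c2 i j i0 j0 (a k) (b k) (up k) ?_).trans
    (by rw [Finset.sum_const, Finset.card_range, nsmul_eq_mul])
  obtain ⟨k1, k2⟩ := hab k (Finset.mem_range.mp hk)
  have k1' : |((a k : ℤ) : ℝ)| ≤ |(i : ℝ)| + 1 := by exact_mod_cast k1
  have k2' : |((b k : ℤ) : ℝ)| ≤ |(j : ℝ)| + 1 := by exact_mod_cast k2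
  have k3 := abs_add_le ((a k : ℤ) : ℝ) (i0 : ℝ)
  have k4 := abs_add_le ((b k : ℤ) : ℝ) (j0 : ℝ)
  have h4 : (|((a k + i0 : ℤ) : ℝ)| + |((b k + j0 : ℤ) : ℝ)| + 4) * ℓ ≤
      (|(i : ℝ)| + |(i0 : ℝ)| + |(j : ℝ)| + |(j0 : ℝ)| + 6) * ℓ := by
    push_cast
    exact mul_le_mul_of_nonneg_right (by linarith) hl
  linarith

theorem half (i : ℤ) : ∃ u e : ℤ, i = 2 * u + e ∧ 0 ≤ e ∧ e ≤ 1 ∧ |u| ≤ |i| ∧
    |u + e| + |u| ≤ |i| := by
  refine ⟨i / 2, i % 2, by omega, by omega, by omega, ?_, ?_⟩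
  · rcases abs_cases (i / 2) with h | h <;> rcases abs_cases i with h' | h' <;> omega
  · rcases abs_cases (i / 2) with h | h <;> rcases abs_cases i with h' | h' <;>
      rcases abs_cases (i / 2 + i % 2) with h'' | h'' <;> omega

end Chord

open Chord in
theorem chordS (h1 : ChartS) (h2 : SegS) : ChordS := by
  rintro ι Φ _ _ M h hF c r R ⟨i, j⟩ hc hg hR1 hdeg hR hq
  have hh := hF.pos
  have hl : 0 ≤ 48 * h := by linarith
  obtain ⟨c1, c2⟩ := h1 ι Φ M (48 * h) hl hF.edge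
  have c2 := (c2 c R hc hg hR1 hdeg).1
  obtain ⟨u, e, hi, e0, e1, hu, hue⟩ := half i
  obtain ⟨v, f, hj, f0, f1, hv, hvf⟩ := half j
  have hu' : |(u : ℝ)| ≤ |(i : ℝ)| := by exact_mod_cast hu
  have hv' : |(v : ℝ)| ≤ |(j : ℝ)| := by exact_mod_cast hv
  have hue' : |((u + e : ℤ) : ℝ)| + |(u : ℝ)| ≤ |(i : ℝ)| := by exact_mod_cast hue
  have hvf' : |((v + f : ℤ) : ℝ)| + |(v : ℝ)| ≤ |(j : ℝ)| := by exact_mod_cast hvf
  have hi0 := abs_nonneg (i : ℝ)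
  have hj0 := abs_nonneg (j : ℝ)
  simp only at hR ⊢
  have p1 := piece M h2 hh hl c1 c2 u v 0 0 (r := r) (by
    have : (|(u : ℝ)| + |((0 : ℤ) : ℝ)| + |(v : ℝ)| + |((0 : ℤ) : ℝ)| + 6) * (48 * h) ≤
        (2 * |(i : ℝ)| + 2 * |(j : ℝ)| + 12) * (48 * h) := by
      refine mul_le_mul_of_nonneg_right ?_ hl
      simp only [Int.cast_zero, abs_zero]
      linarith
    linarith)
  have p2 := piece M h2 hh hl c1 c2 (u + e) (v + f) u v (r := r) (by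
    have : (|((u + e : ℤ) : ℝ)| + |(u : ℝ)| + |((v + f : ℤ) : ℝ)| + |(v : ℝ)| + 6) * (48 * h) ≤
        (2 * |(i : ℝ)| + 2 * |(j : ℝ)| + 12) * (48 * h) :=
      mul_le_mul_of_nonneg_right (by linarith) hl
    linarith)
  have ei : u + e + u = i := by omega
  have ej : v + f + v = j := by omega
  have e00 : ∀ d, M.ch 0 0 d = d := fun d => by simp [Mesh.ch]
  simp only [add_zero, e00] at p1
  rw [ei, ej] at p2
  have hqq : qf (u, v) + qf (u + e, v + f) ≤ (qf (i, j) + 3) / 2 := by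
    have e0' : (0 : ℝ) ≤ e := by exact_mod_cast e0
    have e1' : (e : ℝ) ≤ 1 := by exact_mod_cast e1
    have f0' : (0 : ℝ) ≤ f := by exact_mod_cast f0
    have f1' : (f : ℝ) ≤ 1 := by exact_mod_cast f1
    simp only [qf, hi, hj]
    push_cast
    nlinarith [mul_le_mul e1' f1' f0' zero_le_one, mul_le_mul e1' e1' e0' zero_le_one,
      mul_le_mul f1' f1' f0' zero_le_one]
  have hq0 := qf_nonneg (i, j)
  set q := qf (i, j)
  set n : ℝ := ((M.near c r).card : ℝ) with hn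
  have hn0 : 0 ≤ n := Nat.cast_nonneg _
  have hY0 : 0 ≤ ∑ d ∈ M.near c R, |M.x h d| := Finset.sum_nonneg fun d _ => abs_nonneg _
  set Y := ∑ d ∈ M.near c R, |M.x h d|
  set s0 := h ^ 2 * (q + 3) / 2 with hs0
  have hs00 : 0 ≤ s0 := by positivity
  have hs2 : s0 ≤ 2 := by linarith
  let s : Φ → ℝ := fun d => ip (M.A (M.ch u v d) - M.A d) (M.A (M.ch u v d) - M.A d) +
    ip (M.A (M.ch i j d) - M.A (M.ch u v d)) (M.A (M.ch i j d) - M.A (M.ch u v d))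
  have hs : ∑ d ∈ M.near c r, s d ≤ s0 * (n + 3 * Y) := by
    simp only [s]
    rw [Finset.sum_add_distrib]
    have := mul_le_mul_of_nonneg_right (mul_le_mul_of_nonneg_left hqq (sq_nonneg h))
      (by positivity : 0 ≤ n + 3 * Y)
    rw [hs0]
    nlinarith [this]
  have ht : ∀ d ∈ M.near c r, ip (M.A (M.ch i j d) - M.A d) (M.A (M.ch i j d) - M.A d) ≤
      s0 ^ 2 / 4 + (2 - s0 / 2) * s d := by
    intro d _
    have := unit3 (M.uA d) (M.uA (M.ch u v d)) (M.uA (M.ch i j d))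
    change _ ≤ 2 * s d - s d ^ 2 / 4 at this
    nlinarith [sq_nonneg (s d - s0)]
  refine (Finset.sum_le_sum ht).trans ?_
  rw [Finset.sum_add_distrib, ← Finset.mul_sum, Finset.sum_const, nsmul_eq_mul, ← hn]
  have k1 := mul_le_mul_of_nonneg_left hs (by linarith : 0 ≤ 2 - s0 / 2)
  have k2 : h ^ 4 * q ^ 2 / 16 ≤ s0 ^ 2 / 4 := by
    have : h ^ 4 * q ^ 2 ≤ h ^ 4 * (q + 3) ^ 2 :=
      mul_le_mul_of_nonneg_left (by nlinarith) (by positivity)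
    rw [hs0]; nlinarith [this]
  have k3 := mul_le_mul_of_nonneg_left k2 hn0
  have k4 : 0 ≤ s0 * Y := mul_nonneg hs00 hY0
  have k5 : 0 ≤ s0 * (s0 * Y) := mul_nonneg hs00 k4
  have k6 : h ^ 2 * q + 3 * h ^ 2 = 2 * s0 := by rw [hs0]; ring
  have k7 : n * (h ^ 2 * q - h ^ 4 * q ^ 2 / 16 + 3 * h ^ 2) =
      n * (2 * s0) - n * (h ^ 4 * q ^ 2 / 16) := by rw [← k6]; ring
  have k8 : 9 * h ^ 2 * (q + 3) * Y = 18 * (s0 * Y) := by rw [hs0]; ring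
  rw [k7, k8]
  nlinarith [k1, k3, k4, k5]

end Pool.Agent.MP_2ab689_gt.Big
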