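import Pool.Agent.MP_2ab689_gt.Big.Spec

/-!
A maximiser has no deep face: the depth is at most a constant over the number of vertices.
-/

namespace Pool.Agent.MP_2ab689_gt.Big

open MeasureTheory Set Real

namespace Del

theorem vol_add {U T W : Set V} (hU : U ⊆ W) (hT : T ⊆ W) (hd : Disjoint U T)
    (hm : NullMeasurableSet T volume) {x c : ℝ} (hx : 0 ≤ x)
    (hv : volume T = ENNReal.ofReal x) (hc : 0 ≤ c) (hW : volume W ≤ ENNReal.ofReal c) :
    volume U ≠ ⊤ ∧ (volume U).toReal + x ≤ c := by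
  have h1 : volume U ≠ ⊤ := ne_top_of_le_ne_top ENNReal.ofReal_ne_top ((measure_mono hU).trans hW)
  refine ⟨h1, ?_⟩
  have h2 := (measure_mono (union_subset hU hT)).trans hW
  rw [measure_union₀ hm hd.aedisjoint, hv, ← ENNReal.ofReal_toReal h1,
    ← ENNReal.ofReal_add ENNReal.toReal_nonneg hx, ENNReal.ofReal_le_ofReal_iff hc] at h2
  exact h2

theorem comb4 {Q : Set V} (hQ : Convex ℝ Q) {g a b c : V} (hg : g ∈ Q) (ha : a ∈ Q) (hb : b ∈ Q)
    (hc : c ∈ Q) {α β γ : ℝ} (h1 : 0 ≤ α) (h2 : 0 ≤ β) (h3 : 0 ≤ γ) (h4 : α + β + γ ≤ 1) :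
    (1 - α - β - γ) • g + α • a + β • b + γ • c ∈ Q := by
  have := hQ.sum_mem (t := Finset.univ) (w := ![1 - α - β - γ, α, β, γ]) (z := ![g, a, b, c])
    (fun i _ => by fin_cases i <;> simp <;> linarith) (by simp [Fin.sum_univ_four]; ring)
    (fun i _ => by fin_cases i <;> simp [hg, ha, hb, hc])
  simpa [Fin.sum_univ_four] using this

theorem spike {Q : Set V} (hQ : Convex ℝ Q) {s e : ℝ} (hs : s ≤ 1 / 3) (he : 0 < e)
    (hes : e ≤ 2 * s) (hb : ∀ y : V, ip y y ≤ (1 - s) ^ 2 → y ∈ Q) {n : V} (hn : ip n n = 1)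
    (hnQ : n ∈ Q) : ∃ T ⊆ Q, (∀ x ∈ T, 1 - e < ip n x) ∧ NullMeasurableSet T volume ∧
      volume T = ENNReal.ofReal (e ^ 3 / (12 * s)) := by
  obtain ⟨u, v, a1, a2, -, a4, a5, a6, -⟩ := exists_onb hn
  have hs0 : 0 < s := by linarith
  obtain ⟨ρ, hρ⟩ : ∃ ρ : ℝ, ρ ^ 2 = s := ⟨√s, sq_sqrt hs0.le⟩
  obtain ⟨l, hl⟩ : ∃ l : ℝ, l * (2 * s) = e := ⟨e / (2 * s), div_mul_cancel₀ _ (by positivity)⟩
  have l0 : 0 < l := by nlinarith
  have l1 : l ≤ 1 := by nlinarith
  have key : ∀ w : V, ip w w = 1 → ip n w = 0 → n + ((-e) • n + (l * ρ) • w) ∈ Q := by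
    intro w h1 h2
    have h3 : (1 - 2 * s) • n + ρ • w ∈ Q := hb _ (by
      simp only [ip_add_left, ip_add_right, ip_smul_left, ip_smul_right, hn, h1, h2, ip_comm w n]
      nlinarith)
    have h4 := hQ hnQ h3 (sub_nonneg.mpr l1) l0.le (by ring)
    have e4 : n + ((-e) • n + (l * ρ) • w) = (1 - l) • n + l • ((1 - 2 * s) • n + ρ • w) := by
      funext i
      simp only [Pi.add_apply, Pi.smul_apply, smul_eq_mul]
      linear_combination (n i) * hl
    rwa [e4]
  have a7 : ip (-u) (-u) = 1 := by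
    rw [← a1]; simp only [ip, Pi.neg_apply]; ring
  have a8 : ip n (-u) = 0 := by
    rw [← neg_eq_zero, ← a4]; simp only [ip, Pi.neg_apply]; ring
  refine ⟨aff n (n + ((-e) • n + (l * ρ) • u)) (n + ((-e) • n + (l * ρ) • v))
    (n + ((-e) • n + (l * ρ) • (-u))) '' stdO, ?_, ?_,
    (convex_aff _ _ _ _ convex_stdO).nullMeasurableSet _, ?_⟩
  · rintro _ ⟨w, ⟨h0, h1, h2, h3⟩, rfl⟩
    have := comb4 hQ hnQ (key u a1 a4) (key v a2 a5) (key _ a7 a8) h0.le h1.le h2.le h3.le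
    refine (congrArg (· ∈ Q) ?_).mp this
    funext i
    simp only [aff, Pi.add_apply, Pi.smul_apply, Pi.sub_apply, smul_eq_mul]
    ring
  · rintro _ ⟨w, ⟨h0, h1, h2, h3⟩, rfl⟩
    simp only [aff, add_sub_cancel_left, ip_add_right, ip_smul_right, hn, a4, a5, a8]
    nlinarith
  · have e1 : T4 (n + ((-e) • n + (l * ρ) • u)) (n + ((-e) • n + (l * ρ) • v))
        (n + ((-e) • n + (l * ρ) • (-u))) n = -(2 * e * (l * ρ) ^ 2) * det3 n u v := by
      simp only [T4, det3, Pi.add_apply, Pi.smul_apply, Pi.sub_apply, Pi.neg_apply, smul_eq_mul]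
      ring
    rw [vol_aff, vol_stdO, e1, a6, mul_one, abs_neg, abs_of_nonneg (by positivity),
      ← ENNReal.ofReal_mul (by positivity)]
    congr 1
    rw [eq_div_iff (by positivity), mul_pow, hρ, ← hl]
    ring

theorem convex_ball : Convex ℝ {x : V | ip x x ≤ 1} := by
  intro x hx y hy a b ha hb hab
  have k : ∀ x : V, ip x x ≤ 1 ↔ nv x ≤ 1 := fun x => by rw [nv_le_iff zero_le_one, one_pow]
  simp only [mem_ofPred_eq, k] at *
  refine (nv_add _ _).trans ?_
  rw [nv_smul, nv_smul, abs_of_nonneg ha, abs_of_nonneg hb]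
  nlinarith

variable {ι Φ : Type} [Fintype ι] [Fintype Φ] (M : Mesh ι Φ)

theorem face (d : Φ) : ∃ (n : V) (h : ℝ), ip n n = 1 ∧ 0 < h ∧ ip n (M.A d) = h ∧
    ip n (M.B d) = h ∧ ip n (M.C d) = h ∧ ∀ y ∈ M.hull, ip n y ≤ h := by
  set N := crs (M.B d - M.A d) (M.C d - M.A d) with hN
  have h0 : 0 < ip N N := crs_ne (M.uA d) (M.uB d) (M.uC d) (M.inj.ne (M.tl_ne d).symm)
    (M.inj.ne (M.tl_ne (M.φ d)).symm) (M.inj.ne (M.tl_ne' d))
  have hL : 0 < nv N := by
    rw [← nv_sq] at h0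
    exact lt_of_le_of_ne (nv_nonneg N) fun e => by rw [← e] at h0; simp at h0
  have hi : 0 < (nv N)⁻¹ := inv_pos.mpr hL
  have k : ∀ x, T4 (M.A d) (M.B d) (M.C d) x = M.D d - ip N x := fun x => T4_crs _ _ _ x
  have k1 := k (M.A d)
  have k2 := k (M.B d)
  have k3 := k (M.C d)
  rw [T4_self1] at k1
  rw [T4_self2] at k2
  rw [T4_self3] at k3
  refine ⟨(nv N)⁻¹ • N, (nv N)⁻¹ * M.D d, ?_, mul_pos hi (M.D_pos d), ?_, ?_, ?_, fun y hy => ?_⟩
  · rw [ip_smul_left, ip_smul_right, ← nv_sq]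
    field_simp
  · rw [ip_smul_left, ← sub_eq_zero.mp k1.symm]
  · rw [ip_smul_left, ← sub_eq_zero.mp k2.symm]
  · rw [ip_smul_left, ← sub_eq_zero.mp k3.symm]
  · have := M.T4_nonneg d hy
    rw [k] at this
    rw [ip_smul_left]
    exact mul_le_mul_of_nonneg_left (by linarith) hi.le

/-- The deepest face. -/
theorem depth : ∃ (n : V) (δ : ℝ), ip n n = 1 ∧ 0 ≤ δ ∧ δ < 1 ∧ (∀ y ∈ M.hull, ip n y ≤ 1 - δ) ∧
    (∀ d, M.sq d ≤ 8 * δ) ∧ ∀ y : V, ip y y ≤ (1 - δ) ^ 2 → y ∈ M.hull := by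
  choose n h hn h0 hA hB hC hy using face M
  obtain ⟨d1, -⟩ := M.cover 0 M.zero_mem
  obtain ⟨d0, -, hd0⟩ := Finset.exists_min_image Finset.univ h ⟨d1, Finset.mem_univ _⟩
  have hm : ∀ d, h d0 ≤ h d := fun d => hd0 d (Finset.mem_univ d)
  refine ⟨n d0, 1 - h d0, hn d0, ?_, by linarith [h0 d0], fun y hy' => by linarith [hy d0 y hy'],
    fun d => ?_, fun y hy' => ?_⟩
  · have := ip_le_one (hn d0) (M.uA d0)
    linarith [hA d0]
  · have h1 := ip_self_nonneg (M.A d + M.B d - (2 : ℝ) • n d)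
    simp only [ip_sub_left, ip_sub_right, ip_add_left, ip_add_right, ip_smul_left, ip_smul_right,
      M.uA, M.uB, hn, ip_comm (M.A d) (n d), ip_comm (M.B d) (n d), hA, hB,
      ip_comm (M.B d) (M.A d)] at h1
    rw [M.sq_eq]
    linarith [hm d]
  · obtain ⟨ε, hε, hb⟩ := M.ball
    rw [sub_sub_cancel] at hy'
    have h1 : h d0 ≤ 1 := by
      have := ip_le_one (hn d0) (M.uA d0)
      linarith [hA d0]
    have ht : 0 < √ε := sqrt_pos.mpr hε
    obtain ⟨d, hd⟩ := M.cover _ (hb (√ε • y) (by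
      rw [ip_smul_left, ip_smul_right, ← mul_assoc, mul_self_sqrt hε.le]
      have : h d0 ^ 2 ≤ 1 := pow_le_one₀ (h0 d0).le h1
      nlinarith))
    obtain ⟨α, β, γ, a1, a2, a3, -, e⟩ := Mesh.mem_Spx.mp hd
    change _ = α • M.A d + β • M.B d + γ • M.C d at e
    have h2 := congrArg (ip (n d)) e
    rw [ip_add_right, ip_add_right, ip_smul_right, ip_smul_right, ip_smul_right, ip_smul_right,
      hA, hB, hC] at h2
    have h3 : ip (n d) y ≤ h d := by
      have := ip_le_nv (n d) y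
      rw [nv_eq_one (hn d), one_mul] at this
      exact this.trans (((nv_le_iff (h0 d0).le).mpr hy').trans (hm d))
    have h4 : α + β + γ ≤ √ε := by
      have := mul_le_mul_of_nonneg_left h3 ht.le
      exact le_of_mul_le_mul_right (by linarith) (h0 d)
    have h5 := M.comb_mem d (div_nonneg a1 ht.le) (div_nonneg a2 ht.le) (div_nonneg a3 ht.le)
      (by rw [← add_div, ← add_div]; exact (div_le_one ht).mpr h4)
    refine (congrArg (· ∈ M.hull) ?_).mp h5
    funext i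
    have := congrFun e i
    simp only [Pi.add_apply, Pi.smul_apply, smul_eq_mul] at this ⊢
    field_simp
    linarith

/-- A slightly shrunk vertex lies in the hull of its neighbours. -/
theorem shrink {δ : ℝ} (hsq : ∀ d, M.sq d ≤ 8 * δ) (a : ι) {Q : Set V} (hQ : Convex ℝ Q)
    (hp : ∀ i, i ≠ a → M.p i ∈ Q) : ∃ t : ℝ, 1 - 4 * δ ≤ t ∧ t ≤ 1 ∧ t • M.p a ∈ Q := by
  classical
  obtain ⟨d, hd⟩ := M.exists_flag a
  have htl : ∀ k : ℕ, M.tl ((M.r ^ k) d) = a := by
    intro k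
    induction k with
    | zero => exact hd
    | succ k ih => rw [pow_succ', Equiv.Perm.mul_apply, M.tl_r, ih]
  have hBC : ∀ k : ℕ, M.B ((M.r ^ (k + 1)) d) = M.C ((M.r ^ k) d) := fun k => by
    rw [pow_succ', Equiv.Perm.mul_apply, M.B_r]
  have hex : ∃ k : ℕ, det3 (M.p a) (M.B d) (M.C ((M.r ^ k) d)) ≤ 0 := by
    refine ⟨orderOf M.r - 1, ?_⟩
    rw [← hBC, Nat.sub_add_cancel (orderOf_pos M.r), pow_orderOf_eq_one, Equiv.Perm.one_apply,
      det3_self23]
  have hA : ∀ e, M.tl e = a → M.A e = M.p a := fun e he => by rw [Mesh.A, he]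
  obtain ⟨j, hj⟩ : ∃ j, Nat.find hex = j + 1 := by
    refine Nat.exists_eq_succ_of_ne_zero fun h0 => ?_
    have h1 := Nat.find_spec hex
    rw [h0, pow_zero, Equiv.Perm.one_apply, ← hA d hd] at h1
    exact absurd (M.D_pos d) (not_lt.mpr h1)
  have h1 := Nat.find_spec hex
  have h2 := not_le.mp (Nat.find_min hex (m := j) (by omega))
  rw [hj] at h1
  rw [← hBC] at h2
  have he := htl (j + 1)
  generalize (M.r ^ (j + 1)) d = e at h1 h2 he
  have h3 := M.D_pos e
  rw [Mesh.D, hA e he] at h3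
  have hB : ∀ e, M.tl e = a → M.B e ∈ Q ∧ 1 - 4 * δ ≤ ip (M.p a) (M.B e) ∧
      ip (M.p a) (M.B e) ≤ 1 := fun e he => by
    have := hsq e
    rw [M.sq_eq, hA e he] at this
    exact ⟨hp _ (he ▸ M.tl_ne e), by linarith, ip_le_one (M.unit a) (M.uB e)⟩
  obtain ⟨b1, b2, b3⟩ := hB d hd
  obtain ⟨u1, u2, u3⟩ := hB e he
  obtain ⟨v1, v2, v3⟩ := hB (M.r e) ((M.tl_r e).trans he)
  rw [M.B_r] at v1 v2 v3
  have ua := M.unit a
  generalize M.p a = x at *
  generalize M.B d = b at *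
  generalize M.B e = u at *
  generalize M.C e = v at *
  have hσ : 0 < det3 x u v - det3 x b v + det3 x b u := by linarith
  set σ := det3 x u v - det3 x b v + det3 x b u with hσ'
  have cr : (det3 b u v / σ) • x = (det3 x u v / σ) • b + (-det3 x b v / σ) • u
      + (det3 x b u / σ) • v := by
    funext i
    simp only [Pi.add_apply, Pi.smul_apply, smul_eq_mul]
    field_simp
    fin_cases i <;> simp only [det3, Fin.zero_eta, Fin.mk_one, Fin.reduceFinMk] <;> ring
  have p1 := (div_pos h3 hσ).le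
  have p2 := div_nonneg (neg_nonneg.mpr h1) hσ.le
  have p3 := (div_pos h2 hσ).le
  have p4 : det3 x u v / σ + -det3 x b v / σ + det3 x b u / σ = 1 := by
    field_simp
    ring
  have h4 := congrArg (ip x) cr
  simp only [ip_add_right, ip_smul_right, ua, mul_one] at h4
  refine ⟨det3 b u v / σ, ?_, ?_, ?_⟩
  · nlinarith [mul_le_mul_of_nonneg_left b2 p1, mul_le_mul_of_nonneg_left u2 p2,
      mul_le_mul_of_nonneg_left v2 p3]
  · nlinarith [mul_le_mul_of_nonneg_left b3 p1, mul_le_mul_of_nonneg_left u3 p2,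
      mul_le_mul_of_nonneg_left v3 p3]
  · have h5 := comb4 hQ b1 b1 u1 v1 p1 p2 p3 p4.le
    rw [cr]
    rwa [show 1 - det3 x u v / σ - -det3 x b v / σ - det3 x b u / σ = 0 by linarith, zero_smul,
      zero_add] at h5

theorem exchange (hM : M.Maxi) {n : V} {δ : ℝ} (hn : ip n n = 1) (h0 : 0 < δ) (h1 : δ ≤ 1 / 15)
    (hh : ∀ y ∈ M.hull, ip n y ≤ 1 - δ) (hsq : ∀ d, M.sq d ≤ 8 * δ)
    (hb : ∀ y : V, ip y y ≤ (1 - δ) ^ 2 → y ∈ M.hull) (a : ι) :
    δ ≤ 40 * ∑ d ∈ M.star a, M.D d := by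
  classical
  set Q := convexHull ℝ (range (Function.update M.p a n)) with hQ'
  have hQ : Convex ℝ Q := convex_convexHull ℝ _
  have hp : ∀ i, i ≠ a → M.p i ∈ Q := fun i hi =>
    subset_convexHull ℝ _ ⟨i, Function.update_of_ne hi _ _⟩
  have hnQ : n ∈ Q := subset_convexHull ℝ _ ⟨a, Function.update_self _ _ _⟩
  obtain ⟨t, t1, t2, t3⟩ := shrink M hsq a hQ hp
  have t0 : 0 < t := by linarith
  let τ : ι → ℝ := fun i => if i = a then t else 1
  have τ0 : ∀ i, 0 < τ i := fun i => by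
    simp only [τ]
    split_ifs
    exacts [t0, one_pos]
  have τ1 : ∀ i, τ i ≤ 1 := fun i => by
    simp only [τ]
    split_ifs
    exacts [t2, le_rfl]
  have τQ : ∀ i, τ i • M.p i ∈ Q := fun i => by
    simp only [τ]
    split_ifs with h
    · rwa [h]
    · rw [one_smul]
      exact hp i h
  have z0 : (0 : V) ∈ Q := by
    obtain ⟨w, w0, w1, e⟩ := mem_hull M.p (hb ((-(1 - δ)) • M.p a) (by
      rw [ip_smul_left, ip_smul_right, M.unit]
      nlinarith))
    have h2 := hQ.sum_mem (t := Finset.univ) (fun i _ => w0 i) w1 fun i _ => τQ i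
    have e2 : ∑ i, w i • τ i • M.p i = (-(1 - δ + w a * (1 - t))) • M.p a := by
      have : ∀ i, w i • τ i • M.p i =
          w i • M.p i - if i = a then (w a * (1 - t)) • M.p a else 0 := fun i => by
        simp only [τ]
        split_ifs with h
        · rw [h, smul_smul, ← sub_smul]
          congr 1
          ring
        · rw [one_smul, sub_zero]
      simp only [this, Finset.sum_sub_distrib, Finset.sum_ite_eq', Finset.mem_univ, if_true, ← e]
      rw [← sub_smul]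
      congr 1
      ring
    rw [e2] at h2
    have c0 : 0 < 1 - δ + w a * (1 - t) := by
      have := mul_nonneg (w0 a) (sub_nonneg.mpr t2)
      linarith
    generalize 1 - δ + w a * (1 - t) = c at h2 c0
    have h3 := hQ h2 t3 (a := t / (t + c)) (b := c / (t + c)) (by positivity) (by positivity)
      (by field_simp)
    rwa [smul_smul, smul_smul, ← add_smul, show t / (t + c) * -c + c / (t + c) * t = 0 by ring,
      zero_smul] at h3
  have hbQ : ∀ y : V, ip y y ≤ (1 - 5 * δ) ^ 2 → y ∈ Q := by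
    intro y hy
    obtain ⟨w, w0, w1, e⟩ := mem_hull M.p (hb (t⁻¹ • y) (by
      rw [ip_smul_left, ip_smul_right, ← mul_assoc, ← mul_inv, inv_mul_le_iff₀ (by positivity)]
      have : 1 - 5 * δ ≤ t * (1 - δ) := by nlinarith
      have := pow_le_pow_left₀ (by linarith) this 2
      nlinarith))
    have h2 := hQ.sum_mem (t := Finset.univ) (z := fun i => t • M.p i) (fun i _ => w0 i) w1
      fun i _ => by
        by_cases h : i = a
        · rwa [h]
        · exact hQ.smul_mem_of_zero_mem z0 (hp i h) ⟨t0.le, t2⟩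
    have e2 : ∑ i, w i • t • M.p i = y := by
      simp only [smul_comm (w _) t, ← Finset.smul_sum, ← e, smul_inv_smul₀ t0.ne']
    rwa [e2] at h2
  have hne : ∀ i, M.p i ≠ n := fun i e => by
    have := hh _ (M.p_mem i)
    rw [e, hn] at this
    linarith
  have hmax : volume Q ≤ ENNReal.ofReal M.vol := by
    rw [Mesh.vol, ENNReal.ofReal_toReal M.vol_ne_top]
    refine hM _ (fun i j e => ?_) (fun i => ?_) ⟨(1 - 5 * δ) ^ 2, ?_, hbQ⟩
    · by_cases hi : i = a <;> by_cases hj : j = a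
      · rw [hi, hj]
      · rw [hi, Function.update_self, Function.update_of_ne hj] at e
        exact absurd e.symm (hne j)
      · rw [hj, Function.update_self, Function.update_of_ne hi] at e
        exact absurd e (hne i)
      · rw [Function.update_of_ne hi, Function.update_of_ne hj] at e
        exact M.inj e
    · by_cases hi : i = a
      · rw [hi, Function.update_self, hn]
      · rw [Function.update_of_ne hi, M.unit]
    · have : 0 < 1 - 5 * δ := by linarith
      positivity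
  obtain ⟨T, T1, T2, T3, T4⟩ := spike hQ (s := 5 * δ) (by linarith) h0 (by linarith) hbQ hn hnQ
  obtain ⟨v1, v2⟩ := vol_add (U := Q ∩ {x | ip n x ≤ 1 - δ}) inter_subset_left T1
    (disjoint_left.mpr fun x hx hx' => absurd (T2 x hx') (not_lt.mpr hx.2)) T3 (by positivity) T4
    ENNReal.toReal_nonneg hmax
  have h2 := M.pack_scaled τ τ0 Finset.univ _ ENNReal.toReal_nonneg
    (ENNReal.ofReal_toReal v1).ge fun d _ α β γ a1 a2 a3 a4 => by
      refine ⟨?_, hh _ (M.comb_mem d (mul_pos a1 (τ0 _)).le (mul_pos a2 (τ0 _)).le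
        (mul_pos a3 (τ0 _)).le ?_)⟩
      · have := comb4 hQ z0 (τQ (M.tl d)) (τQ (M.tl (M.φ d))) (τQ (M.tl (M.φ (M.φ d)))) a1.le
          a2.le a3.le a4.le
        simp only [smul_zero, zero_add, smul_smul] at this
        exact this
      · linarith [mul_le_of_le_one_right a1.le (τ1 (M.tl d)),
          mul_le_of_le_one_right a2.le (τ1 (M.tl (M.φ d))),
          mul_le_of_le_one_right a3.le (τ1 (M.tl (M.φ (M.φ d))))]
  let F : Φ → ℝ := fun d => (1 - τ (M.tl d)) * M.D d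
  have h3 : ∑ d, F d = (1 - t) * ∑ d ∈ M.star a, M.D d := by
    rw [Mesh.star, Finset.sum_filter, Finset.mul_sum]
    refine Finset.sum_congr rfl fun d _ => ?_
    simp only [F, τ]
    split_ifs <;> simp
  have h4 : ∑ d, (M.D d - F d - F (M.φ d) - F (M.φ (M.φ d))) ≤
      ∑ d, τ (M.tl d) * τ (M.tl (M.φ d)) * τ (M.tl (M.φ (M.φ d))) * M.D d := by
    refine Finset.sum_le_sum fun d _ => ?_
    simp only [F, M.D_φ]
    have x0 := τ0 (M.tl d)
    have x1 := sub_nonneg.mpr (τ1 (M.tl d))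
    have y0 := τ0 (M.tl (M.φ d))
    have y1 := sub_nonneg.mpr (τ1 (M.tl (M.φ d)))
    have z1 := sub_nonneg.mpr (τ1 (M.tl (M.φ (M.φ d))))
    have xy : τ (M.tl d) * τ (M.tl (M.φ d)) ≤ 1 := mul_le_one₀ (τ1 _) y0.le (τ1 _)
    have := mul_nonneg (add_nonneg (mul_nonneg x1 y1) (mul_nonneg (sub_nonneg.mpr xy) z1))
      (M.D_pos d).le
    nlinarith
  simp only [Finset.sum_sub_distrib] at h4
  rw [M.sum_φφ F, M.sum_φ F, h3, M.sum_D] at h4
  have h5 : 0 ≤ ∑ d ∈ M.star a, M.D d := Finset.sum_nonneg fun d _ => (M.D_pos d).le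
  have h6 : δ ^ 3 / (12 * (5 * δ)) = δ * δ / 60 := by
    field_simp
    ring
  rw [h6] at v2
  have h7 := mul_le_mul_of_nonneg_right (show 1 - t ≤ 4 * δ by linarith) h5
  refine le_of_mul_le_mul_left ?_ h0
  change _ ≤ M.vol at v2
  linarith

end Del

open Del

theorem delS : DelS := by
  intro ι Φ _ _ M hM hv
  obtain ⟨n, δ, hn, h0, -, hh, hsq, hb⟩ := depth M
  refine ⟨δ, h0, ?_, hsq, hb⟩
  rcases h0.eq_or_lt with h | h0
  · rw [← h]
    norm_num
  have h1 : δ ≤ 1 / 15 := by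
    have e0 : 0 < min δ (1 / 3) := lt_min h0 (by norm_num)
    have e1 := min_le_left δ (1 / 3)
    have e2 := min_le_right δ (1 / 3)
    obtain ⟨T, T1, T2, T3, T4⟩ := spike convex_ball e2 e0 (by linarith)
      (fun y hy => le_trans hy (by nlinarith)) hn hn.le
    obtain ⟨-, v2⟩ := vol_add (U := M.hull) (hull_sub_ball M.unit) T1
      (disjoint_left.mpr fun x hx hx' => by linarith [T2 x hx', hh x hx]) T3 (by positivity) T4
      (by positivity) vol_ball.le
    have h6 : min δ (1 / 3) ^ 3 / (12 * min δ (1 / 3)) = min δ (1 / 3) ^ 2 / 12 := by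
      field_simp
    rw [h6] at v2
    change M.vol + _ ≤ _ at v2
    have e3 : min δ (1 / 3) ≤ 1 / 15 := by nlinarith
    rcases min_le_iff.mp e3 with h | h
    · exact h
    · norm_num at h
  have h2 : ∑ _v : ι, δ ≤ ∑ v, 40 * ∑ d ∈ M.star v, M.D d :=
    Finset.sum_le_sum fun v _ => exchange M hM hn h0 h1 hh hsq hb v
  rw [← Finset.mul_sum, M.sum_star, Finset.sum_const, Finset.card_univ, nsmul_eq_mul] at h2
  linarith [M.sum_D_le Finset.univ, pi_le_four]

end Pool.Agent.MP_2ab689_gt.Big
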