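import Pool.Agent.MP_2ab689_gt.Big.Spec

/-!
A Lipschitz test function that separates the charges from the area.
-/

namespace Pool.Agent.MP_2ab689_gt.Big

open MeasureTheory Set Real

namespace Dual

theorem exists_test {α : Type} [Fintype α] (w t : α → ℝ) {a b m : ℝ} (hab : a ≤ b)
    (H : ∀ s ∈ Ioc a b, m ≤ |∑ i, if s ≤ t i then w i else 0|) :
    ∃ f : ℝ → ℝ, (∀ s t, |f s - f t| ≤ |s - t|) ∧ m * (b - a) ≤ ∑ i, w i * f (t i) := by
  let G : ℝ → ℝ := fun s => ∑ i, if s ≤ t i then w i else 0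
  have mG : Measurable G := Finset.measurable_sum _ fun i _ =>
    Measurable.ite measurableSet_Iic measurable_const measurable_const
  let σ : ℝ → ℝ := fun s => if 0 ≤ G s then 1 else -1
  have mσ : Measurable σ :=
    Measurable.ite (measurableSet_le measurable_const mG) measurable_const measurable_const
  have bσ : ∀ s, ‖σ s‖ ≤ 1 := fun s => by
    simp only [σ]
    split_ifs <;> simp
  have iσ : IntegrableOn σ (Ioc a b) :=
    Measure.integrableOn_of_bounded (M := 1) (by simp) mσ.aestronglyMeasurable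
      (Filter.Eventually.of_forall bσ)
  let τ : ℝ → ℝ := (Ioc a b).indicator σ
  have iτ : Integrable τ := (integrable_indicator_iff measurableSet_Ioc).2 iσ
  refine ⟨fun x => ∫ s in Iic x, τ s, fun x y => ?_, ?_⟩
  · rw [intervalIntegral.integral_Iic_sub_Iic iτ.integrableOn iτ.integrableOn]
    have := intervalIntegral.norm_integral_le_of_norm_le_const (a := y) (b := x) (f := τ) (C := 1)
      fun s _ => (norm_indicator_le_norm_self _ _).trans (bσ s)
    rwa [one_mul] at this
  · have i1 : ∀ i, Integrable fun s => w i * (Iic (t i)).indicator τ s := fun i =>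
      (iτ.indicator measurableSet_Iic).const_mul _
    have e1 : ∑ i, w i * ∫ s in Iic (t i), τ s = ∫ s, ∑ i, w i * (Iic (t i)).indicator τ s := by
      rw [integral_finsetSum _ fun i _ => i1 i]
      exact Finset.sum_congr rfl fun i _ => by
        rw [integral_const_mul, integral_indicator measurableSet_Iic]
    have e2 : m * (b - a) = ∫ s, (Ioc a b).indicator (fun _ => m) s := by
      rw [integral_indicator measurableSet_Ioc, setIntegral_const, Real.volume_real_Ioc_of_le hab,
        smul_eq_mul, mul_comm]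
    rw [e1, e2]
    refine integral_mono ((integrable_indicator_iff measurableSet_Ioc).2
      (integrableOn_const (by simp))) (integrable_finsetSum _ fun i _ => i1 i) fun s => ?_
    have e3 : ∑ i, w i * (Iic (t i)).indicator τ s = τ s * G s := by
      rw [Finset.mul_sum]
      refine Finset.sum_congr rfl fun i _ => ?_
      by_cases k : s ≤ t i
      · rw [indicator_of_mem (mem_Iic.2 k), if_pos k, mul_comm]
      · rw [indicator_of_notMem (fun c => k (mem_Iic.1 c)), if_neg k, mul_zero, mul_zero]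
    change _ ≤ ∑ i, w i * (Iic (t i)).indicator τ s
    rw [e3]
    by_cases k : s ∈ Ioc a b
    · simp only [τ, indicator_of_mem k, σ]
      refine (H s k).trans (le_of_eq ?_)
      change |G s| = _
      split_ifs with c
      · rw [abs_of_nonneg c, one_mul]
      · rw [abs_of_neg (not_le.1 c), neg_one_mul]
    · simp only [τ, indicator_of_notMem k, zero_mul, le_refl]

variable {ι Φ : Type} [Fintype ι] [Fintype Φ] (M : Mesh ι Φ)

theorem D_le {ℓ : ℝ} (h0 : 0 ≤ ℓ) (hl : ∀ d, M.sq d ≤ ℓ ^ 2) (d : Φ) : M.D d ≤ ℓ ^ 2 := by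
  have e : M.D d = det3 (M.A d) (M.A d - M.B d) (M.A d - M.C d) := by
    simp only [Mesh.D, det3, Pi.sub_apply]
    ring
  have := abs_det3_le (M.A d) (M.A d - M.B d) (M.A d - M.C d)
  rw [nv_eq_one (M.uA d), one_mul, ← e] at this
  have k := mul_le_mul (M.nv_AB h0 hl d) (M.nv_AC h0 hl d) (nv_nonneg _) h0
  calc M.D d ≤ |M.D d| := le_abs_self _
    _ ≤ ℓ * ℓ := this.trans k
    _ = ℓ ^ 2 := by ring

theorem E_two {ℓ : ℝ} (h0 : 0 ≤ ℓ) (h1 : ℓ ≤ 1 / 1000) (hl : ∀ d, M.sq d ≤ ℓ ^ 2) (d : Φ) :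
    199 / 400 * M.D d ≤ M.E d ∧ M.E d ≤ 200 / 399 * M.D d := by
  have l2 : ℓ ^ 2 ≤ 1 / 1000000 := by nlinarith
  have n1 : 399 / 100 ≤ M.N d := by linarith [M.N_ge hl d]
  have n2 : M.N d ≤ 4 := by
    linarith [M.N_eq d, M.sq_nonneg d, M.sq_nonneg (M.φ d), M.sq_nonneg (M.φ (M.φ d))]
  have n0 : 0 < M.N d := by linarith
  obtain ⟨-, -, u, l⟩ := M.E_bounds n0
  have p := M.D_pos d
  have q := D_le M h0 hl d
  have y1 : M.D d / 4 ≤ M.D d / M.N d := div_le_div_of_nonneg_left p.le n0 n2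
  have y2 : M.D d / M.N d ≤ M.D d / (399 / 100) := div_le_div_of_nonneg_left p.le (by norm_num) n1
  generalize M.D d / M.N d = y at *
  have y3 : y ^ 2 ≤ 1 / 100 := by nlinarith
  have y4 : y ^ 3 ≤ y / 100 := by nlinarith
  constructor <;> linarith

theorem area {h : ℝ} (F : M.Fine h) (h1 : h ≤ 1 / 48000) {c : V} (hc : ip c c = 1) {s : ℝ}
    (hs : s ∈ Ioc (8 / 9 : ℝ) (17 / 18)) :
    π / 10 ≤ ∑ d, (if s ≤ ip c (M.A d) then M.E d / 3 else 0) ∧
      ∑ d, (if s ≤ ip c (M.A d) then M.E d / 3 else 0) ≤ 7 * π / 30 := by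
  have l0 : 0 ≤ 48 * h := by linarith [F.pos]
  have l1 : 48 * h ≤ 1 / 1000 := by linarith
  have he := F.edge
  have hb := F.ball
  generalize 48 * h = ℓ at *
  have cm : ∀ d, ip c (M.A d) = ip (M.A d) c := fun d => by
    simp only [ip]
    ring
  rw [← Finset.sum_filter, ← Finset.sum_div]
  obtain ⟨s1, s2⟩ := hs
  have p := pi_pos
  have l2 : ℓ ^ 2 ≤ 1 / 1000000 := by nlinarith
  have up := M.cap_height hc l0 he (t := s) (by linarith) (by linarith)
    (Finset.univ.filter fun d => s ≤ ip c (M.A d)) fun d hd => cm d ▸ (Finset.mem_filter.1 hd).2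
  have lo := M.cap_low hc l0 (by linarith) he (κ := 1 - ℓ ^ 2) (by linarith) hb (t := s + 2 * ℓ)
    (by linarith) (by linarith) (Finset.univ.filter fun d => s ≤ ip c (M.A d)) fun d hd =>
      Finset.mem_filter.2 ⟨Finset.mem_univ _, by rw [cm]; linarith⟩
  have a1 := Finset.sum_le_sum (s := Finset.univ.filter fun d => s ≤ ip c (M.A d))
    fun d _ => (E_two M l0 l1 he d).1
  have a2 := Finset.sum_le_sum (s := Finset.univ.filter fun d => s ≤ ip c (M.A d))
    fun d _ => (E_two M l0 l1 he d).2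
  rw [← Finset.mul_sum] at a1 a2
  have k1 : (99 / 100 : ℝ) ≤ (1 - ℓ ^ 2) ^ 3 := by
    have : (999 / 1000 : ℝ) ^ 3 ≤ (1 - ℓ ^ 2) ^ 3 := pow_le_pow_left₀ (by norm_num) (by linarith) 3
    linarith [show (99 / 100 : ℝ) ≤ (999 / 1000) ^ 3 by norm_num]
  have k2 : 12 * π * (53 / 1000) * (99 / 100) ≤ 12 * π * (1 - (s + 2 * ℓ)) * (1 - ℓ ^ 2) ^ 3 :=
    mul_le_mul (mul_le_mul_of_nonneg_left (by linarith) (by positivity)) k1 (by norm_num)
      (mul_nonneg (by positivity) (by linarith))
  have k3 : 12 * π * (1 - s + ℓ) ≤ 12 * π * (113 / 1000) :=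
    mul_le_mul_of_nonneg_left (by linarith) (by positivity)
  constructor <;> linarith

end Dual

theorem dualS : DualS := by
  refine ⟨1, 1 / 48000, one_pos, by norm_num, fun ι Φ _ _ M h F h1 c hc => ?_⟩
  obtain ⟨f, f1, f2⟩ := Dual.exists_test (α := ι ⊕ Φ) (Sum.elim M.q fun d => -(M.E d / 3))
    (Sum.elim (fun v => ip c (M.p v)) fun d => ip c (M.A d)) (a := 8 / 9) (b := 17 / 18)
    (m := π / 10) (by norm_num) (fun s hs => by
      obtain ⟨a1, a2⟩ := Dual.area M F h1 hc hs
      have e : ∑ v, (if s ≤ ip c (M.p v) then M.q v else 0) =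
          π / 3 * ((∑ v, if s ≤ ip c (M.p v) then 6 - (M.deg v : ℤ) else 0 : ℤ) : ℝ) := by
        push_cast
        rw [Finset.mul_sum]
        exact Finset.sum_congr rfl fun v _ => by split_ifs <;> simp [Mesh.q]
      have e' : ∑ d, (if s ≤ ip c (M.A d) then -(M.E d / 3) else 0) =
          -∑ d, (if s ≤ ip c (M.A d) then M.E d / 3 else 0) := by
        rw [← Finset.sum_neg_distrib]
        exact Finset.sum_congr rfl fun v _ => by split_ifs <;> simp
      simp only [Fintype.sum_sum_type, Sum.elim_inl, Sum.elim_inr]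
      rw [e, e']
      generalize (∑ v, if s ≤ ip c (M.p v) then 6 - (M.deg v : ℤ) else 0 : ℤ) = n
      have p := pi_pos
      rcases le_or_gt n 0 with k | k
      · have : (n : ℝ) ≤ 0 := by exact_mod_cast k
        exact le_abs.2 (Or.inr (by nlinarith))
      · have : (1 : ℝ) ≤ n := by exact_mod_cast k
        exact le_abs.2 (Or.inl (by nlinarith)))
  refine ⟨f, f1, ?_⟩
  simp only [Fintype.sum_sum_type, Sum.elim_inl, Sum.elim_inr, neg_mul, Finset.sum_neg_distrib]
    at f2
  linarith [pi_pos]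

end Pool.Agent.MP_2ab689_gt.Big
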