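import Mathlib.Topology.Semicontinuity.Basic
import Mathlib.MeasureTheory.Measure.Lebesgue.VolumeOfBalls
import Mathlib.Analysis.Normed.Module.Convex
import Pool.Agent.MP_2ab689_gt.Big.Spec

/-!
Existence of a maximiser, and the valence of a vertex.
-/

namespace Pool.Agent.MP_2ab689_gt.Big

open MeasureTheory Set Real Filter Topology

namespace Exv

theorem usc (K : ℕ) :
    UpperSemicontinuous fun p : Fin K → E3 => volume (convexHull ℝ (range p)) := by
  intro p y hy
  have h1 := tendsto_measure_cthickening_of_isCompact (μ := volume)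
    ((finite_range p).isCompact_convexHull ℝ)
  obtain ⟨δ, hδ, h2⟩ := ((h1.eventually_lt_const hy).filter_mono
    (nhdsWithin_le_nhds (s := Ioi (0 : ℝ)))).and self_mem_nhdsWithin |>.exists
  filter_upwards [Metric.closedBall_mem_nhds p h2] with q hq
  refine lt_of_le_of_lt (measure_mono (convexHull_min ?_
    ((convex_convexHull ℝ _).cthickening δ))) hδ
  rintro _ ⟨i, rfl⟩
  exact Metric.mem_cthickening_of_dist_le _ (p i) _ _ (subset_convexHull ℝ _ (mem_range_self i))
    ((dist_le_pi_dist q p i).trans hq)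

theorem half {P : Set E3} (hc : Convex ℝ P) (hb : P ⊆ Metric.closedBall 0 1)
    (h0 : (0 : E3) ∉ interior P) : volume P ≤ ENNReal.ofReal (2 * π / 3) := by
  have h1 : volume (interior P) = volume P :=
    measure_interior_of_null_frontier (hc.addHaar_frontier volume)
  have h2 : volume (-interior P) = volume P := by rw [Measure.measure_neg, h1]
  have h3 : Disjoint (interior P) (-interior P) := by
    rw [Set.disjoint_left]
    intro x hx hx'
    apply h0
    have := hc.interior hx (Set.mem_neg.1 hx') (a := 1 / 2) (b := 1 / 2) (by norm_num)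
      (by norm_num) (by norm_num)
    simpa using this
  have h4 := measure_union (μ := volume) h3 isOpen_interior.neg.measurableSet
  have h5 : interior P ∪ -interior P ⊆ Metric.closedBall 0 1 := by
    rintro x (hx | hx)
    · exact hb (interior_subset hx)
    · simpa using hb (interior_subset (Set.mem_neg.1 hx))
  have h6 := measure_mono (μ := volume) h5
  rw [h4, h1, h2, EuclideanSpace.volume_closedBall_fin_three, ← two_mul] at h6
  have h7 : ENNReal.ofReal 1 ^ 3 * ENNReal.ofReal (π * 4 / 3) =
      2 * ENNReal.ofReal (2 * π / 3) := by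
    rw [show (2 : ENNReal) = ENNReal.ofReal 2 by simp, ← ENNReal.ofReal_mul (by norm_num)]
    simp only [ENNReal.ofReal_one, one_pow, one_mul]
    congr 1; ring
  rw [h7] at h6
  exact (ENNReal.mul_le_mul_iff_right (by norm_num) (by norm_num)).1 h6

theorem mem_toLp {ι : Type} (p : ι → V) (x : V) :
    (WithLp.toLp 2 x : E3) ∈ convexHull ℝ (range ((WithLp.toLp 2 : V → E3) ∘ p)) ↔
      x ∈ convexHull ℝ (range p) := by
  have := LinearMap.image_convexHull (WithLp.linearEquiv 2 ℝ V).symm.toLinearMap (range p)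
  rw [← range_comp] at this
  refine (Set.ext_iff.1 this _).symm.trans ?_
  exact (WithLp.linearEquiv 2 ℝ V).symm.injective.mem_set_image

theorem seg_unit {a b x : E3} (ha : ‖a‖ = 1) (hb : ‖b‖ = 1) (hx : ‖x‖ = 1)
    (h : x ∈ segment ℝ a b) : x = a ∨ x = b := by
  have h1 : x ∈ (Metric.closedBall (0 : E3) 1).extremePoints ℝ :=
    StrictConvexSpace.sphere_subset_extremePoints_closedBall _ one_ne_zero (by simp [hx])
  rw [mem_extremePoints_iff_forall_segment] at h1
  rcases h1.2 a (by simp [ha]) b (by simp [hb]) h with e | e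
  · exact Or.inl e.symm
  · exact Or.inr e.symm

end Exv

theorem exS : ExS := by
  classical
  rintro K ⟨P0, hP0, hv0⟩
  have hne : ∀ P, Inscribed K P → ∃ p ∈ univ.pi fun _ : Fin K => Metric.sphere (0 : E3) 1,
      Function.Injective p ∧ P = convexHull ℝ (range p) := by
    intro P hP
    obtain ⟨p, h1, h2, h3⟩ := hP.exists_fam
    exact ⟨_, fun i _ => by simpa using (norm_eq_one_iff _).2 (h2 i),
      (WithLp.toLp_injective 2).comp h1, h3⟩
  obtain ⟨p0, hp0, hi0, rfl⟩ := hne P0 hP0
  obtain ⟨p, hp, hmax⟩ := UpperSemicontinuousOn.exists_isMaxOn ⟨p0, hp0⟩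
    (isCompact_univ_pi fun _ => isCompact_sphere (0 : E3) 1)
    ((Exv.usc K).upperSemicontinuousOn _)
  obtain ⟨u, hu1, hu2, hu3⟩ := Finset.exists_subsuperset_card_eq
    (s := Finset.univ.image p) (t := Finset.univ.image p ∪ Finset.univ.image p0) (n := K)
    Finset.subset_union_left (Finset.card_image_le.trans (by simp)) (by
      refine le_trans ?_ (Finset.card_le_card Finset.subset_union_right)
      rw [Finset.card_image_of_injective _ hi0]; simp)
  have hn : ∀ x ∈ (u : Set E3), ‖x‖ = 1 := by
    intro x hx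
    rcases Finset.mem_union.1 (hu2 hx) with h | h
    · obtain ⟨i, -, rfl⟩ := Finset.mem_image.1 h
      simpa using hp i (mem_univ i)
    · obtain ⟨i, -, rfl⟩ := Finset.mem_image.1 h
      simpa using hp0 i (mem_univ i)
  have hle : volume (convexHull ℝ (range p)) ≤ volume (convexHull ℝ (u : Set E3)) := by
    refine measure_mono (convexHull_mono ?_)
    rintro _ ⟨i, rfl⟩
    exact hu1 (Finset.mem_image_of_mem p (Finset.mem_univ i))
  refine ⟨convexHull ℝ (u : Set E3), ⟨⟨u, rfl⟩, ?_, ?_, ?_⟩, fun P hP => ?_⟩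
  · by_contra h0
    have h1 := Exv.half (convex_convexHull ℝ _)
      (convexHull_min (fun y hy => by simp [hn y hy]) (convex_closedBall _ _)) h0
    exact absurd (hv0.trans_le ((hmax hp0).trans (hle.trans h1))) (lt_irrefl _)
  · rw [ext_hull hn, ncard_coe_finset, hu3]
  · rw [ext_hull hn]; exact hn
  · obtain ⟨q, hq, -, rfl⟩ := hne P hP
    exact (hmax hq).trans hle

theorem valS : ValS := by
  classical
  intro ι Φ _ _ M v
  have hn : ∀ i, ‖(WithLp.toLp 2 (M.p i) : E3)‖ = 1 := fun i => (norm_eq_one_iff _).2 (M.unit i)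
  have hsub : {u | u ∈ (convexHull ℝ (range ((WithLp.toLp 2 : V → E3) ∘ M.p))).extremePoints ℝ ∧
      u ≠ WithLp.toLp 2 (M.p v) ∧ IsExtreme ℝ (convexHull ℝ (range ((WithLp.toLp 2 : V → E3) ∘ M.p)))
        (segment ℝ (WithLp.toLp 2 (M.p v)) u)} ⊆
      ((M.star v).image fun d => (WithLp.toLp 2 (M.B d) : E3) : Finset E3) := by
    rintro u ⟨h1, h2, h3⟩
    rw [ext_hull (by rintro _ ⟨i, rfl⟩; exact hn i)] at h1
    obtain ⟨j, rfl⟩ := h1
    simp only [Function.comp_apply] at h2 h3 ⊢
    have hjv : M.p v ≠ M.p j := fun e => h2 (by rw [e])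
    have key : ∀ (x z : V) (ε : ℝ), 0 < ε → x ∈ M.hull → z + ε • (z - x) ∈ M.hull →
        (WithLp.toLp 2 z : E3) ∈ segment ℝ (WithLp.toLp 2 (M.p v)) (WithLp.toLp 2 (M.p j)) →
        (WithLp.toLp 2 x : E3) ∈ segment ℝ (WithLp.toLp 2 (M.p v)) (WithLp.toLp 2 (M.p j)) := by
      intro x z ε hε hx hy hz
      refine h3.left_mem_of_mem_openSegment ((Exv.mem_toLp M.p x).2 hx)
        ((Exv.mem_toLp M.p _).2 hy) hz ⟨ε / (1 + ε), 1 / (1 + ε), by positivity, by positivity,
          by field_simp; ring, ?_⟩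
      ext i
      simp only [PiLp.add_apply, PiLp.smul_apply, Pi.add_apply, Pi.smul_apply, Pi.sub_apply,
        smul_eq_mul]
      field_simp
      ring
    have fin : ∀ d, M.tl d = v → (WithLp.toLp 2 (M.B d) : E3) ∈
        segment ℝ (WithLp.toLp 2 (M.p v)) (WithLp.toLp 2 (M.p j)) →
        (WithLp.toLp 2 (M.p j) : E3) ∈
          (((M.star v).image fun d => (WithLp.toLp 2 (M.B d) : E3) : Finset E3) : Set E3) := by
      intro d hd hB
      rcases Exv.seg_unit (hn v) (hn j) (hn _) hB with e | e
      · exact absurd ((M.inj (WithLp.toLp_injective 2 e)).trans hd.symm) (M.tl_ne d)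
      · exact Finset.mem_coe.2 (Finset.mem_image.2 ⟨d, M.mem_star.2 hd, e⟩)
    obtain ⟨d, hd, t, α, β, γ, ht, hα, hβ, hγ, hs, e⟩ := M.cover_at v (M.p_mem j)
    have hA : M.A d = M.p v := by rw [Mesh.A, hd]
    have hzm := M.comb_mem d hα hβ hγ hs
    have ht1 : t ≤ 1 := by
      have b1 : ip _ _ ≤ 1 := hull_sub_ball M.unit hzm
      rw [← e] at b1
      have b2 := ip_lt_one (M.unit v) (M.unit j) hjv
      simp only [ip_add_left, ip_add_right, ip_smul_left, ip_smul_right, ip_sub_left,
        ip_sub_right, M.unit, ip_comm (M.p j) (M.p v)] at b1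
      by_contra hc
      nlinarith [mul_pos (mul_pos ht (sub_pos.2 (not_le.1 hc))) (sub_pos.2 b2)]
    have hz : (WithLp.toLp 2 (α • M.A d + β • M.B d + γ • M.C d) : E3) ∈
        segment ℝ (WithLp.toLp 2 (M.p v)) (WithLp.toLp 2 (M.p j)) := by
      rw [← e]
      refine ⟨1 - t, t, by linarith, ht.le, by ring, ?_⟩
      ext i
      simp only [PiLp.add_apply, PiLp.smul_apply, Pi.add_apply, Pi.smul_apply, Pi.sub_apply,
        smul_eq_mul]
      ring
    rcases hβ.lt_or_eq with hβ' | hβ'
    · refine fin d hd (key _ _ β hβ' (M.p_mem _) ?_ hz)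
      convert M.comb_mem d (α := (1 + β) * α) (β := β * β) (γ := (1 + β) * γ) (by positivity)
        (by positivity) (by positivity) (by nlinarith) using 1
      module
    rcases hγ.lt_or_eq with hγ' | hγ'
    · refine fin (M.r d) ((M.tl_r d).trans hd) ?_
      rw [M.B_r]
      refine key _ _ γ hγ' (M.p_mem _) ?_ hz
      convert M.comb_mem d (α := (1 + γ) * α) (β := (1 + γ) * β) (γ := γ * γ) (by positivity)
        (by positivity) (by positivity) (by nlinarith) using 1
      module
    subst hβ' hγ'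
    have hα1 : α < 1 := by
      refine lt_of_le_of_ne (by linarith) fun h => hjv ?_
      rw [h, hA] at e
      simp only [one_smul, zero_smul, add_zero, add_eq_left, smul_eq_zero, ht.ne', false_or,
        sub_eq_zero] at e
      exact e.symm
    have h0 := key 0 _ (1 - α) (by linarith) M.zero_mem (by
      convert M.comb_mem d (α := (2 - α) * α) (β := 0) (γ := 0)
        (mul_nonneg (by linarith) hα) le_rfl le_rfl (by nlinarith) using 1
      module) hz
    obtain ⟨ε, hε, hb⟩ := M.ball
    refine fin d hd (key _ 0 √ε (Real.sqrt_pos.2 hε) (M.p_mem _) (hb _ ?_) h0)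
    have : (0 : V) + √ε • (0 - M.B d) = (-√ε) • M.B d := by module
    rw [this, ip_smul_left, ip_smul_right, M.uB]
    nlinarith [Real.mul_self_sqrt hε.le]
  refine (ncard_le_ncard hsub (Finset.finite_toSet _)).trans ?_
  rw [ncard_coe_finset]
  exact Finset.card_image_le

end Pool.Agent.MP_2ab689_gt.Big
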