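import Pool.Agent.MP_2ab689_gt.Big.Spec

/-!
Area of a convex set that contains a fan of triangles.
-/

namespace Pool.Agent.MP_2ab689_gt.Big

open MeasureTheory Set Real

namespace Fan

/-- Cross product. -/
def cr (u v : ℂ) : ℝ := u.re * v.im - u.im * v.re

/-- Open triangle with vertices `0`, `u`, `v`. -/
def T (u v : ℂ) : Set ℂ := {p | 0 < cr p v ∧ 0 < cr u p ∧ cr p v + cr u p < cr u v}

theorem T_meas (u v : ℂ) : MeasurableSet (T u v) := by
  simp only [T, cr, ofPred_and]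
  exact ((isOpen_lt (by fun_prop) (by fun_prop)).inter ((isOpen_lt (by fun_prop)
    (by fun_prop)).inter (isOpen_lt (by fun_prop) (by fun_prop)))).measurableSet

theorem T_vol (u v : ℂ) : ENNReal.ofReal (cr u v / 2) ≤ volume (T u v) := by
  rcases le_or_gt (cr u v) 0 with h | h
  · rw [ENNReal.ofReal_of_nonpos (by linarith)]
    exact zero_le
  let L := Matrix.toLin (Module.Basis.finTwoProd ℝ) (Module.Basis.finTwoProd ℝ)
    !![v.im, -v.re; -u.im, u.re]
  have hL : LinearMap.det L = cr u v := by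
    rw [LinearMap.det_toLin, Matrix.det_fin_two_of, cr]
    ring
  have e : T u v = Complex.measurableEquivRealProd ⁻¹'
      (L ⁻¹' {p : ℝ × ℝ | 0 < p.1 ∧ 0 < p.2 ∧ p.1 + p.2 < cr u v}) := by
    ext p
    have e1 : cr p v = v.im * p.re + -v.re * p.im := by rw [cr]; ring
    have e2 : cr u p = -u.im * p.re + u.re * p.im := by rw [cr]; ring
    simp only [T, L, mem_ofPred_eq, mem_preimage, Matrix.toLin_finTwoProd_apply,
      Complex.measurableEquivRealProd_apply, e1, e2]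
  rw [e, Complex.volume_preserving_equiv_real_prod.measure_preimage_equiv,
    Measure.addHaar_preimage_linearMap _ (hL ▸ h.ne'), vol_tri _ h.le, hL,
    ← ENNReal.ofReal_mul (abs_nonneg _), abs_of_pos (inv_pos.2 h)]
  refine le_of_eq (congrArg _ ?_)
  field_simp

theorem T_sub {H : Set ℂ} (hH : Convex ℝ H) (h0 : (0 : ℂ) ∈ H) {u v : ℂ} (hu : u ∈ H)
    (hv : v ∈ H) : T u v ⊆ H := by
  rintro p ⟨h1, h2, h3⟩
  have h4 : 0 < cr u v := by linarith
  have h5 : 0 < cr p v + cr u p := by linarith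
  have k := hH.smul_mem_of_zero_mem h0 (hH hu hv (div_nonneg h1.le h5.le) (div_nonneg h2.le h5.le)
    (by rw [← add_div, div_self h5.ne'])) (t := (cr p v + cr u p) / cr u v)
    ⟨by positivity, (div_le_one h4).2 h3.le⟩
  convert k using 1
  apply Complex.ext
  · simp only [Complex.smul_re, Complex.add_re, smul_eq_mul]
    field_simp
    simp only [cr]
    ring
  · simp only [Complex.smul_im, Complex.add_im, smul_eq_mul]
    field_simp
    simp only [cr]
    ring

theorem comb {r1 r2 α β : ℝ} (h1 : 0 ≤ r1) (h2 : 0 ≤ r2) (hab : α ≤ β) (hπ : β - α < π) :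
    ∃ r ψ, 0 ≤ r ∧ α ≤ ψ ∧ ψ ≤ β ∧ r1 * cos α + r2 * cos β = r * cos ψ ∧
      r1 * sin α + r2 * sin β = r * sin ψ := by
  have s0 : 0 ≤ sin (β - α) := sin_nonneg_of_nonneg_of_le_pi (by linarith) hπ.le
  obtain ⟨ψ, ⟨a1, a2⟩, hψ⟩ := intermediate_value_Icc hab
    (f := fun ψ => r1 * sin (ψ - α) - r2 * sin (β - ψ)) (by fun_prop) (show (0 : ℝ) ∈ _ from
      ⟨by simpa using mul_nonneg h2 s0, by simpa using mul_nonneg h1 s0⟩)
  simp only at hψ
  obtain ⟨x, rfl⟩ : ∃ x, α = ψ - x := ⟨ψ - α, by ring⟩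
  obtain ⟨y, rfl⟩ : ∃ y, β = ψ + y := ⟨β - ψ, by ring⟩
  rw [sub_sub_cancel, add_sub_cancel_left] at hψ
  rw [show ψ + y - (ψ - x) = x + y by ring] at hπ s0
  refine ⟨r1 * cos x + r2 * cos y, ψ, ?_, a1, a2, ?_, ?_⟩
  · have x0 : 0 ≤ x := by linarith
    have y0 : 0 ≤ y := by linarith
    rcases (add_nonneg x0 y0).eq_or_lt with e | e
    · rw [show x = 0 by linarith, show y = 0 by linarith, cos_zero]
      linarith
    · have sx : 0 ≤ sin x := sin_nonneg_of_nonneg_of_le_pi x0 (by linarith)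
      have sy : 0 ≤ sin y := sin_nonneg_of_nonneg_of_le_pi y0 (by linarith)
      have sp : 0 < sin x + sin y := by
        rcases x0.eq_or_lt with f | f
        · linarith [sin_pos_of_pos_of_lt_pi (x := y) (by linarith) (by linarith)]
        · linarith [sin_pos_of_pos_of_lt_pi f (by linarith)]
      refine nonneg_of_mul_nonneg_left ?_ sp
      have : (r1 * cos x + r2 * cos y) * (sin x + sin y) = (r1 + r2) * sin (x + y) := by
        rw [sin_add]
        linear_combination (cos x - cos y) * hψ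
      rw [this]
      positivity
  · rw [cos_sub, cos_add]
    linear_combination sin ψ * hψ
  · rw [sin_sub, sin_add]
    linear_combination -cos ψ * hψ

theorem pos_of_sin {x y : ℝ} (hx : 0 < sin x) (hy : 0 < sin y) (h0 : 0 ≤ x + y)
    (h1 : y ≤ 2 * π) : 0 < x := by
  by_contra hh
  have a : x < -π := by
    by_contra h
    linarith [sin_nonpos_of_nonpos_of_neg_pi_le (not_lt.1 hh) (not_lt.1 h)]
  have b := sin_nonpos_of_nonpos_of_neg_pi_le (x := y - 2 * π) (by linarith) (by linarith)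
  rw [sin_sub_two_pi] at b
  linarith

theorem polar (p : ℂ) (a : ℝ) :
    ∃ ψ, a ≤ ψ ∧ ψ ≤ a + 2 * π ∧ p.re = ‖p‖ * cos ψ ∧ p.im = ‖p‖ * sin ψ := by
  have h := toIcoMod_mem_Ico two_pi_pos a p.arg
  refine ⟨_, h.1, h.2.le, ?_, ?_⟩
  · rw [toIcoMod, zsmul_eq_mul, cos_sub_int_mul_two_pi, Complex.norm_mul_cos_arg]
  · rw [toIcoMod, zsmul_eq_mul, sin_sub_int_mul_two_pi, Complex.norm_mul_sin_arg]

theorem pos_right {a b x : ℝ} (ha : 0 ≤ a) (hb : 0 ≤ b) (h : 0 < a * b * x) : 0 < x :=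
  (pos_iff_pos_of_mul_pos h).1 ((mul_nonneg ha hb).lt_of_ne fun e => by simp [← e] at h)

end Fan

open Fan in
theorem fanS : FanS := by
  intro H N g ρ hH h0 hg hπ hN hρ hρN hw
  obtain ⟨w, hw'⟩ : ∃ w : ℕ → ℂ, w = fun k => ⟨ρ k * cos (g k) + ρ (k + 1) * cos (g (k + 1)),
    ρ k * sin (g k) + ρ (k + 1) * sin (g (k + 1))⟩ := ⟨_, rfl⟩
  have hH' : ∀ k, w k ∈ H := fun k => hw' ▸ hw k
  have N0 : N ≠ 0 := by
    rintro rfl
    linarith [hN 0, pi_pos]
  choose r φ0 r0 l0 u0 e1 e2 using fun k => comb (hρ k) (hρ (k + 1)) (hg k)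
    (by linarith [hπ k, hg (k + 1)])
  have g0 := hN 0
  have g1 := hN 1
  have p0 := hρN 0
  have p1 := hρN 1
  rw [zero_add] at g0 p0
  rw [add_comm] at g1 p1
  obtain ⟨φ, s, φN, hφ⟩ : ∃ φ s : ℕ → ℝ, φ N = φ 0 + 2 * π ∧ ∀ k, 0 ≤ s k ∧ g k ≤ φ k ∧
      φ k ≤ g (k + 1) ∧ (w k).re = s k * cos (φ k) ∧ (w k).im = s k * sin (φ k) := by
    refine ⟨Function.update φ0 N (φ0 0 + 2 * π), Function.update r N (r 0), by simp [N0.symm],
      fun k => ?_⟩
    rcases eq_or_ne k N with rfl | e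
    · simp only [Function.update_self, hw', g0, g1, p0, p1, cos_add_two_pi, sin_add_two_pi]
      exact ⟨r0 0, by linarith [l0 0], by linarith [u0 0], e1 0, e2 0⟩
    · simp only [Function.update_of_ne e, hw']
      exact ⟨r0 k, l0 k, u0 k, e1 k, e2 k⟩
  have mono : Monotone φ := monotone_nat_of_le_succ fun k => (hφ k).2.2.1.trans (hφ (k + 1)).2.1
  have key : ∀ k < N, ∀ p ∈ T (w k) (w (k + 1)), ∀ ψ, φ 0 ≤ ψ → ψ ≤ φ 0 + 2 * π →
      p.re = ‖p‖ * cos ψ → p.im = ‖p‖ * sin ψ → φ k < ψ ∧ ψ < φ (k + 1) := by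
    rintro k hk p ⟨a1, a2, -⟩ ψ b1 b2 b3 b4
    have c1 : 0 < sin (φ (k + 1) - ψ) := pos_right (norm_nonneg p) (hφ (k + 1)).1 (by
      rw [cr, b3, b4, (hφ (k + 1)).2.2.2.1, (hφ (k + 1)).2.2.2.2] at a1
      rw [sin_sub]
      linarith)
    have c2 : 0 < sin (ψ - φ k) := pos_right (norm_nonneg p) (hφ k).1 (by
      rw [cr, b3, b4, (hφ k).2.2.2.1, (hφ k).2.2.2.2] at a2
      rw [sin_sub]
      linarith)
    have m1 := mono (Nat.zero_le k)
    have m2 := mono k.le_succ
    have m3 := mono (Nat.succ_le_of_lt hk)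
    exact ⟨by linarith [pos_of_sin c2 c1 (by linarith) (by linarith)],
      by linarith [pos_of_sin c1 c2 (by linarith) (by linarith)]⟩
  have dis : ∀ j k, j < k → k < N → Disjoint (T (w j) (w (j + 1))) (T (w k) (w (k + 1))) := by
    intro j k hjk hk
    refine disjoint_left.2 fun p a b => ?_
    obtain ⟨ψ, b1, b2, b3, b4⟩ := polar p (φ 0)
    linarith [(key j (hjk.trans hk) p a ψ b1 b2 b3 b4).2, (key k hk p b ψ b1 b2 b3 b4).1,
      mono (Nat.succ_le_of_lt hjk)]
  calc _ = ENNReal.ofReal (∑ k ∈ Finset.range N, cr (w k) (w (k + 1)) / 2) := by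
        refine congrArg _ (Finset.sum_congr rfl fun k _ => ?_)
        simp only [hw', cr, sin_sub]
        ring
    _ ≤ ∑ k ∈ Finset.range N, ENNReal.ofReal (cr (w k) (w (k + 1)) / 2) := by
        induction Finset.range N using Finset.cons_induction with
        | empty => simp
        | cons a t ha ih =>
          rw [Finset.sum_cons, Finset.sum_cons]
          exact ENNReal.ofReal_add_le.trans (add_le_add le_rfl ih)
    _ ≤ ∑ k ∈ Finset.range N, volume (T (w k) (w (k + 1))) :=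
        Finset.sum_le_sum fun k _ => T_vol _ _
    _ = volume (⋃ k ∈ Finset.range N, T (w k) (w (k + 1))) := by
        refine (measure_biUnion_finset (fun j hj k hk e => ?_) fun k _ => T_meas _ _).symm
        rcases lt_or_gt_of_ne e with f | f
        · exact dis j k f (Finset.mem_range.1 hk)
        · exact (dis k j f (Finset.mem_range.1 hj)).symm
    _ ≤ volume H := measure_mono (iUnion₂_subset fun k _ => T_sub hH h0 (hH' k) (hH' (k + 1)))

end Pool.Agent.MP_2ab689_gt.Big
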