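import Pool.Agent.MP_2ab689_gt.Big.Glow

/-!
Assembly of the two theorems on maximisers with many vertices.
-/

namespace Pool.Agent.MP_2ab689_gt.Big

open MeasureTheory Set Real WithLp

theorem hull_toLp {ι : Type} (p : ι → V) : convexHull ℝ (range ((toLp 2 : V → E3) ∘ p)) =
    (ofLp : E3 → V) ⁻¹' convexHull ℝ (range p) := by
  have := LinearMap.image_convexHull (WithLp.linearEquiv 2 ℝ V).symm.toLinearMap (range p)
  rw [← range_comp] at this
  refine this.symm.trans ?_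
  exact (WithLp.linearEquiv 2 ℝ V).symm.toEquiv.image_eq_preimage_symm _

theorem ball_iff {ι : Type} (p : ι → V) :
    0 ∈ interior (convexHull ℝ (range ((toLp 2 : V → E3) ∘ p))) ↔
      ∃ ε : ℝ, 0 < ε ∧ ∀ x : V, ip x x ≤ ε → x ∈ convexHull ℝ (range p) := by
  rw [mem_interior_iff_mem_nhds, hull_toLp]
  constructor
  · intro h
    obtain ⟨ε, h0, h1⟩ := Metric.nhds_basis_closedBall.mem_iff.mp h
    refine ⟨ε ^ 2, by positivity, fun x hx => h1 (a := toLp 2 x) ?_⟩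
    rw [mem_closedBall_zero_iff]
    exact (nv_le_iff h0.le).mpr hx
  · rintro ⟨ε, h0, h1⟩
    refine Metric.nhds_basis_closedBall.mem_iff.mpr ⟨√ε, by positivity, fun x hx => h1 _ ?_⟩
    rw [mem_closedBall_zero_iff] at hx
    rw [← norm_sq_E3, ← Real.sq_sqrt h0.le]
    exact pow_le_pow_left₀ (norm_nonneg _) hx 2

theorem mesh_of_max {K : ℕ} {P : Set E3} (hK : 4 ≤ K) (hP : IsMaxVol K P) :
    ∃ (Φ : Type) (_ : Fintype Φ) (M : Mesh (Fin K) Φ), M.Maxi ∧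
      P = convexHull ℝ (range ((toLp 2 : V → E3) ∘ M.p)) ∧ (volume P).toReal = M.vol := by
  obtain ⟨p, h1, h2, rfl⟩ := hP.1.exists_fam
  obtain ⟨Φ, i, M, rfl⟩ := exists_mesh hK p h2 h1 ((ball_iff p).mp hP.1.2.1)
  refine ⟨Φ, i, M, fun p' k1 k2 k3 => ?_, rfl, by rw [vol_toLp]; rfl⟩
  have := hP.2 _ (inscribed_hull ((toLp_injective 2).comp k1)
    (fun i => (norm_eq_one_iff _).mpr (k2 i)) ((ball_iff p').mpr k3))
  rwa [vol_toLp, vol_toLp] at this

theorem vol_fin {K : ℕ} {P : Set E3} (h : Inscribed K P) : volume P ≠ ⊤ := by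
  obtain ⟨⟨S, rfl⟩, -⟩ := h
  exact (S.finite_toSet.isCompact_convexHull ℝ).measure_lt_top.ne

/-- The scales attached to `K`. -/
structure Scales (K : ℕ) (U u h : ℝ) : Prop where
  big : U ≤ u
  one : 2 ≤ u
  def_u : u = (K : ℝ) ^ (1 / 4 : ℝ)
  pow4 : (K : ℝ) = u ^ 4
  sqrt : √K = u ^ 2
  log1 : 1 ≤ log K
  log2 : log K ≤ 4 * u
  h1 : 1 ≤ h * u ^ 2
  h2 : h * u ^ 2 ≤ 4
  h3 : 14 ≤ h ^ 2 * K
  num : √3 * h ^ 2 * K = 8 * π
  e : π * h ^ 2 / 2 = 4 * √3 * π ^ 2 / (3 * K)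

theorem exists_scales (U : ℝ) : ∃ K0 : ℕ, ∀ K ≥ K0, ∃ u h, Scales K U u h := by
  refine ⟨⌈(max U 2) ^ 4⌉₊, fun K hK => ?_⟩
  have m0 : (2 : ℝ) ≤ max U 2 := le_max_right _ _
  have hK' : (max U 2) ^ 4 ≤ (K : ℝ) := (Nat.le_ceil _).trans (by exact_mod_cast hK)
  have K0 : (0 : ℝ) < K := lt_of_lt_of_le (by positivity) hK'
  set u := (K : ℝ) ^ (1 / 4 : ℝ) with hu
  have u0 : 0 < u := by positivity
  have u4 : (K : ℝ) = u ^ 4 := by
    rw [hu, ← Real.rpow_natCast, ← Real.rpow_mul K0.le]; norm_num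
  have u1 : max U 2 ≤ u := by
    rw [u4] at hK'
    exact (pow_le_pow_iff_left₀ (by positivity) u0.le (by norm_num)).mp hK'
  have u2 : 2 ≤ u := m0.trans u1
  have s3 : √3 * √3 = 3 := Real.mul_self_sqrt (by norm_num)
  have s1 : (17 / 10 : ℝ) ≤ √3 := Real.le_sqrt_of_sq_le (by norm_num)
  have s2 : √3 ≤ 7 / 4 := Real.sqrt_le_iff.mpr ⟨by norm_num, by norm_num⟩
  set h := √(8 * π / (√3 * K)) with hh
  have h0 : 0 ≤ h := by positivity
  have hsq : h ^ 2 = 8 * π / (√3 * K) := Real.sq_sqrt (by positivity)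
  have num : √3 * h ^ 2 * K = 8 * π := by rw [hsq]; field_simp
  have n0 : 0 ≤ h ^ 2 * K := by positivity
  have n1 : 14 ≤ h ^ 2 * K := by nlinarith [pi_gt_d2]
  have n2 : h ^ 2 * K ≤ 16 := by nlinarith [pi_lt_d2]
  have n3 : (h * u ^ 2) ^ 2 = h ^ 2 * K := by rw [u4]; ring
  refine ⟨u, h, (le_max_left _ _).trans u1, u2, rfl, u4, ?_, ?_, ?_, ?_, ?_, n1, num, ?_⟩
  · rw [u4, show u ^ 4 = (u ^ 2) ^ 2 by ring, Real.sqrt_sq (by positivity)]
  · rw [Real.le_log_iff_exp_le K0, u4]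
    nlinarith [exp_one_lt_d9, pow_le_pow_left₀ (by norm_num) u2 4]
  · rw [u4, Real.log_pow]
    have := Real.log_le_sub_one_of_pos u0
    push_cast
    linarith
  · exact abs_le_of_sq_le_sq' (by rw [n3]; linarith) (by positivity) |>.2
  · exact abs_le_of_sq_le_sq' (by rw [n3]; linarith) (by norm_num) |>.2
  · rw [hsq]
    field_simp
    linear_combination (-8) * s3

theorem fine_of_max (h1 : DelS) (h2 : ExS) (h3 : BuildS) : ∃ C : ℝ, 0 < C ∧ ∀ U : ℝ, ∃ K0 : ℕ,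
    ∀ K ≥ K0, (∃ P, IsMaxVol K P) ∧ ∀ P, IsMaxVol K P → ∃ (Φ : Type) (_ : Fintype Φ)
      (M : Mesh (Fin K) Φ) (u h : ℝ), Scales K U u h ∧ M.Fine h ∧
      P = convexHull ℝ (range ((toLp 2 : V → E3) ∘ M.p)) ∧ (volume P).toReal = M.vol ∧
      4 * π / 3 - 4 * √3 * π ^ 2 / (3 * K) - M.vol ≤ C * log K / (K * √K) := by
  obtain ⟨C, K1, c0, H⟩ := h3
  refine ⟨C, c0, fun U => ?_⟩
  obtain ⟨K2, H2⟩ := exists_scales (max U (3000 * (32 + 4 * C)))
  refine ⟨max K1 K2, fun K hK => ?_⟩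
  obtain ⟨Q, q1, q2⟩ := H K ((le_max_left _ _).trans hK)
  obtain ⟨u, h, S⟩ := H2 K ((le_max_right _ _).trans hK)
  have u0 : 0 < u := by linarith [S.one]
  have u1 : 3000 * (32 + 4 * C) ≤ u := (le_max_right _ _).trans S.big
  have u2 : u ≤ u ^ 2 := by nlinarith [S.one]
  have u3 : u ^ 2 ≤ u ^ 4 := by nlinarith [S.one]
  have h0 : 0 < h := by
    by_contra k
    nlinarith [S.h1, sq_nonneg u]
  have hu : h * u ≤ 4 := by nlinarith [S.h2]
  have hs : h ≤ 1 / 24000 := by nlinarith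
  have d1 : 4 * √3 * π ^ 2 / (3 * K) + C * log K / (K * √K) ≤ 1 / 3000 := by
    have a1 : π * h ^ 2 / 2 ≤ 32 / u := by
      rw [le_div_iff₀ u0]
      have k1 : h * (h * u) ≤ 1 * 4 := by gcongr; linarith
      nlinarith [mul_le_mul_of_nonneg_left k1 pi_pos.le, pi_lt_d2]
    have a2 : C * log K / (K * √K) ≤ 4 * C / u := by
      rw [S.sqrt, div_le_div_iff₀ (by rw [S.pow4]; positivity) u0]
      have : log K * u ≤ 4 * (K * u ^ 2) := by
        have := mul_le_mul_of_nonneg_right S.log2 u0.le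
        have k : 1 * u ^ 2 ≤ K * u ^ 2 := by
          gcongr
          rw [S.pow4]; nlinarith [S.one]
        nlinarith
      nlinarith
    rw [← S.e]
    refine (add_le_add a1 a2).trans ?_
    rw [← add_div, div_le_iff₀ u0]
    linarith
  refine ⟨h2 K ⟨Q, q1, ?_⟩, fun P hP => ?_⟩
  · rw [← ENNReal.ofReal_toReal (vol_fin q1), ENNReal.ofReal_lt_ofReal_iff_of_nonneg
      (by positivity)]
    linarith [pi_gt_three]
  have K4 : 4 ≤ K := by
    have : (4 : ℝ) ≤ K := by rw [S.pow4]; nlinarith [S.one]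
    exact_mod_cast this
  obtain ⟨Φ, i, M, m1, m2, m3⟩ := mesh_of_max K4 hP
  have v1 : (volume Q).toReal ≤ M.vol := m3 ▸ ENNReal.toReal_mono (vol_fin hP.1) (hP.2 Q q1)
  obtain ⟨δ, e0, e1, e2, e3⟩ := h1 _ _ M m1 (by linarith)
  rw [Fintype.card_fin] at e1
  have K0 : (0 : ℝ) < K := by positivity
  have e4 : 8 * δ ≤ (48 * h) ^ 2 := by
    refine le_of_mul_le_mul_right ?_ K0
    nlinarith [S.h3]
  refine ⟨Φ, i, M, u, h, { S with big := (le_max_left _ _).trans S.big },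
    ⟨h0, fun d => (e2 d).trans e4, by rw [Fintype.card_fin]; exact S.num, fun y hy =>
      e3 y (hy.trans (pow_le_pow_left₀ (by nlinarith) (by linarith) 2))⟩, m2, m3, by linarith⟩

theorem third (h1 : DelS) (h2 : ExS) (h3 : BuildS) (h4 : StabS) (h5 : GlowS) :
    ∃ (c C : ℝ) (K0 : ℕ), 0 < c ∧ 0 < C ∧ ∀ K ≥ K0, (∃ P, IsMaxVol K P) ∧ ∀ P, IsMaxVol K P →
      c / (K * √K * √(log K)) ≤ 4 * π / 3 - 4 * √3 * π ^ 2 / (3 * K) - (volume P).toReal ∧
      4 * π / 3 - 4 * √3 * π ^ 2 / (3 * K) - (volume P).toReal ≤ C * log K / (K * √K) := by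
  obtain ⟨C, c0, H⟩ := fine_of_max h1 h2 h3
  obtain ⟨Cs, a, s0, a0, Hs⟩ := h4
  obtain ⟨Cg, b, g0, b0, Hg⟩ := h5
  obtain ⟨K0, H⟩ := H (max (max (4 / a) (4 / b)) (16 * (Cg * Cs)))
  refine ⟨1 / (2 * (Cg * Cs)), C, K0, by positivity, c0, fun K hK => ⟨(H K hK).1, fun P hP => ?_⟩⟩
  obtain ⟨Φ, i, M, u, h, S, hf, -, m3, m4⟩ := (H K hK).2 P hP
  rw [m3]
  refine ⟨?_, m4⟩
  have big := S.big
  simp only [max_le_iff] at big
  obtain ⟨⟨b1, b2⟩, b3⟩ := big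
  have u0 : 0 < u := by linarith [S.one]
  have h0 := hf.pos
  have hu : h * u ≤ 4 := by nlinarith [S.h2, S.one, mul_pos h0 u0]
  rw [div_le_iff₀ a0] at b1
  rw [div_le_iff₀ b0] at b2
  have k1 := Hs _ _ M h hf (by nlinarith)
  have k2 := Hg _ _ M h hf (by nlinarith)
  beta_reduce at k1 k2
  rw [S.e] at k1
  set X := 4 * π / 3 - 4 * √3 * π ^ 2 / (3 * K) - M.vol
  have K0 : (0 : ℝ) < K := by rw [S.pow4]; positivity
  have l0 : 1 ≤ √(log K) := Real.one_le_sqrt.mpr S.log1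
  have l1 : √(log (1 / h)) ≤ √(log K) := by
    refine Real.sqrt_le_sqrt (Real.log_le_log (by positivity) ?_)
    rw [div_le_iff₀ h0, S.pow4]
    nlinarith [S.h1, S.one, mul_le_mul_of_nonneg_left (show 1 ≤ u ^ 2 by nlinarith [S.one])
      (show 0 ≤ h * u ^ 2 by positivity)]
  have l2 : √(log K) ≤ 2 * u := Real.sqrt_le_iff.mpr ⟨by positivity, by nlinarith [S.log2, S.one]⟩
  set L := √(log K)
  have W0 := M.W_nonneg h
  have k3 : 1 ≤ Cg * (h * M.W h * L) := k2.trans (by gcongr)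
  have k4 : h ^ 3 ≤ Cg * Cs * L * (max X 0 + h ^ 4) := by
    calc h ^ 3 = 1 * h ^ 3 := by ring
      _ ≤ Cg * (h * M.W h * L) * h ^ 3 := by gcongr
      _ = Cg * L * (M.W h * h ^ 4) := by ring
      _ ≤ Cg * L * (Cs * (max X 0 + h ^ 4)) := by gcongr
      _ = _ := by ring
  have k5 : Cg * Cs * L * h ≤ 1 / 2 := by
    have : Cg * Cs * L * h * u ≤ 1 / 2 * u := by
      calc _ ≤ Cg * Cs * (2 * u) * h * u := by gcongr
        _ = 2 * (Cg * Cs) * (h * u ^ 2) := by ring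
        _ ≤ 2 * (Cg * Cs) * 4 := by gcongr; exact S.h2
        _ ≤ _ := by linarith
    exact le_of_mul_le_mul_right this u0
  have k6 : h ^ 3 / 2 ≤ Cg * Cs * L * max X 0 := by
    nlinarith [mul_le_mul_of_nonneg_right k5 (pow_pos h0 3).le]
  have k7 : max X 0 = X := by
    refine max_eq_left (le_of_not_gt fun k => ?_)
    rw [max_eq_right k.le] at k6
    linarith [pow_pos h0 3]
  rw [k7] at k6
  have X0 : 0 ≤ X := k7 ▸ le_max_right _ _
  rw [S.sqrt, S.pow4, div_div, div_le_iff₀ (by positivity)]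
  calc (1 : ℝ) ≤ (h * u ^ 2) ^ 3 := one_le_pow₀ S.h1
    _ = h ^ 3 / 2 * (2 * u ^ 6) := by ring
    _ ≤ Cg * Cs * L * X * (2 * u ^ 6) := by gcongr
    _ = _ := by ring

theorem low_valence (h1 : DelS) (h2 : ExS) (h3 : BuildS) (h4 : StabS) (h6 : PigS)
    (h7 : LowS) (h8 : ValS) :
    ∃ (c : ℝ) (K0 : ℕ), 0 < c ∧ ∀ K ≥ K0, (∃ P, IsMaxVol K P) ∧ ∀ P, IsMaxVol K P →
      c * (K : ℝ) ^ (1 / 4 : ℝ) / √(log K) ≤
        ({v | v ∈ P.extremePoints ℝ ∧ valence P v ≤ 5}.ncard : ℝ) := by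
  classical
  obtain ⟨C, c0, H⟩ := fine_of_max h1 h2 h3
  obtain ⟨Cs, a, s0, a0, Hs⟩ := h4
  obtain ⟨Cp, b, g0, b0, Hp⟩ := h6
  set G := √(Cs * (C + 1)) with hG
  have G0 : 0 ≤ G := by positivity
  set A := 4 * Cp * G + 4 * Cp + 1 with hA
  have A1 : 1 ≤ A := by have : 0 ≤ 4 * Cp * G + 4 * Cp := by positivity
                        linarith
  obtain ⟨K0, H⟩ := H (max (max (4 / a) (4 / b)) (4 * A ^ 2 * 10000 ^ 4))
  refine ⟨1 / (7 * (Cp * A)), K0, by positivity, fun K hK => ⟨(H K hK).1, fun P hP => ?_⟩⟩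
  obtain ⟨Φ, i, M, u, h, S, hf, m2, -, m4⟩ := (H K hK).2 P hP
  have big := S.big
  simp only [max_le_iff] at big
  obtain ⟨⟨b1, b2⟩, b3⟩ := big
  have u0 : 0 < u := by linarith [S.one]
  have h0 := hf.pos
  have hu : h * u ≤ 4 := by nlinarith [S.h2, S.one, mul_pos h0 u0]
  rw [div_le_iff₀ a0] at b1
  rw [div_le_iff₀ b0] at b2
  have k1 := Hs _ _ M h hf (by nlinarith)
  have k2 := Hp _ _ M h hf (by nlinarith)
  beta_reduce at k1 k2
  rw [S.e] at k1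
  have l0 : 1 ≤ √(log K) := Real.one_le_sqrt.mpr S.log1
  have l1 : √(log K) ^ 2 = log K := Real.sq_sqrt (by linarith [S.log1])
  set L := √(log K)
  have u1 : 1 ≤ u ^ 2 := by nlinarith [S.one]
  have w1 : M.W h ≤ (G * L * u) ^ 2 := by
    have e1 : max (4 * π / 3 - 4 * √3 * π ^ 2 / (3 * K) - M.vol) 0 ≤ C * L ^ 2 / u ^ 6 := by
      refine max_le (m4.trans_eq ?_) (by positivity)
      rw [S.sqrt, l1]
      congr 1
      rw [S.pow4]; ring
    have e2 : C * L ^ 2 / u ^ 6 ≤ C * L ^ 2 * u ^ 2 * h ^ 4 := by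
      rw [div_le_iff₀ (by positivity)]
      calc _ = C * L ^ 2 * 1 := by ring
        _ ≤ C * L ^ 2 * (h * u ^ 2) ^ 4 := by gcongr; exact one_le_pow₀ S.h1
        _ = _ := by ring
    have e3 : h ^ 4 ≤ L ^ 2 * u ^ 2 * h ^ 4 := le_mul_of_one_le_left (by positivity)
      (one_le_mul_of_one_le_of_one_le (one_le_pow₀ l0) u1)
    refine le_of_mul_le_mul_right (k1.trans ?_) (pow_pos h0 4)
    rw [mul_pow, mul_pow, hG, Real.sq_sqrt (by positivity)]
    calc _ ≤ Cs * (C * L ^ 2 * u ^ 2 * h ^ 4 + L ^ 2 * u ^ 2 * h ^ 4) := by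
          gcongr; exact e1.trans e2
      _ = _ := by ring
  have w2 : √(M.W h) ≤ G * L * u := Real.sqrt_le_iff.mpr ⟨by positivity, w1⟩
  set t := L / u with ht
  have t0 : 0 < t := by positivity
  have tu : t * u = L := by rw [ht]; field_simp
  set r := √(A * t) with hr
  have r2 : r ^ 2 = A * t := Real.sq_sqrt (by positivity)
  have r4 : r ^ 4 = A ^ 2 * t ^ 2 := by rw [show r ^ 4 = (r ^ 2) ^ 2 by ring, r2]; ring
  have t1 : t ^ 2 * u ≤ 4 := by
    refine le_of_mul_le_mul_right ?_ u0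
    calc _ = (t * u) ^ 2 := by ring
      _ ≤ _ := by rw [tu, l1]; exact S.log2
  have r1 : r ≤ 1 / 10000 := by
    refine le_of_pow_le_pow_left₀ (n := 4) (by norm_num) (by norm_num) ?_
    refine le_of_mul_le_mul_right ?_ u0
    rw [r4]
    nlinarith [mul_le_mul_of_nonneg_left t1 (sq_nonneg A)]
  have k3 : 1 ≤ Cp * (M.defects.card * r ^ 2) := by
    refine le_of_not_gt fun k => ?_
    have k4 := k2 r (by positivity) r1 k
    have e1 : h ≤ 4 * t ^ 2 := by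
      refine le_of_mul_le_mul_right ?_ (pow_pos u0 2)
      calc _ ≤ 4 * 1 := by linarith [S.h2]
        _ ≤ 4 * L ^ 2 := by gcongr; exact one_le_pow₀ l0
        _ = _ := by rw [← tu]; ring
    have e2 : r ^ 2 * h * √(M.W h) ≤ A * G * 4 * t ^ 2 := by
      calc _ ≤ A * t * h * (G * L * u) := by rw [r2]; gcongr
        _ = A * G * (h * u ^ 2) * t ^ 2 := by rw [← tu]; ring
        _ ≤ _ := by gcongr; exact S.h2
    have e3 : A ^ 2 * t ^ 2 ≤ Cp * (4 + A * G * 4) * t ^ 2 := by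
      rw [← r4]
      refine k4.trans ?_
      calc _ ≤ Cp * (4 * t ^ 2 + A * G * 4 * t ^ 2) := by gcongr
        _ = _ := by ring
    have e4 := le_of_mul_le_mul_right e3 (pow_pos t0 2)
    have e5 : A ^ 2 = A * (4 * Cp * G) + A * (4 * Cp + 1) := by rw [sq]; nth_rw 2 [hA]; ring
    nlinarith [mul_le_mul_of_nonneg_right A1 (show 0 ≤ 4 * Cp + 1 by positivity)]
  have n1 : (M.defects.card : ℝ) ≤ 7 * (Finset.univ.filter fun v => M.deg v ≤ 5).card := by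
    exact_mod_cast h7 _ _ M M.card
  have n2 : (Finset.univ.filter fun v => M.deg v ≤ 5).card ≤
      {v | v ∈ P.extremePoints ℝ ∧ valence P v ≤ 5}.ncard := by
    have ex : P.extremePoints ℝ = range ((toLp 2 : V → E3) ∘ M.p) := by
      rw [m2]
      exact ext_hull (by rintro _ ⟨i, rfl⟩; exact (norm_eq_one_iff _).mpr (M.unit i))
    rw [← Finset.card_image_of_injective _ ((toLp_injective 2).comp M.inj), ← ncard_coe_finset]
    refine ncard_le_ncard (fun x hx => ?_) ((finite_range _).subset fun x hx => ex ▸ hx.1)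
    obtain ⟨v, hv, rfl⟩ := Finset.mem_image.mp hx
    refine ⟨ex ▸ mem_range_self v, ?_⟩
    rw [m2]
    exact (h8 _ _ M v).trans (Finset.mem_filter.mp hv).2
  have n3 : (M.defects.card : ℝ) ≤
      7 * ({v | v ∈ P.extremePoints ℝ ∧ valence P v ≤ 5}.ncard : ℝ) :=
    n1.trans (by gcongr)
  rw [← S.def_u, div_le_iff₀ (by positivity), div_mul_eq_mul_div, div_le_iff₀ (by positivity)]
  calc 1 * u ≤ Cp * (M.defects.card * r ^ 2) * u := by gcongr
    _ = M.defects.card * (Cp * A * (t * u)) := by rw [r2]; ring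
    _ ≤ 7 * ({v | v ∈ P.extremePoints ℝ ∧ valence P v ≤ 5}.ncard : ℝ) * (Cp * A * (t * u)) := by
      gcongr
    _ = _ := by rw [tu]; ring

end Pool.Agent.MP_2ab689_gt.Big
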