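import Mathlib.Analysis.Complex.ExponentialBounds
import Pool.Agent.MP_2ab689_gt.Big.Spec

/-!
The lower bound for the energy.
-/

namespace Pool.Agent.MP_2ab689_gt.Big

open Real

namespace Mesh

variable {ι Φ : Type} [Fintype ι] [Fintype Φ] (M : Mesh ι Φ)

theorem sum_deg : ∑ v, (M.deg v : ℝ) = Fintype.card Φ := by
  simpa [deg] using M.sum_star fun _ => (1 : ℝ)

theorem sum_q : 4 * π ≤ ∑ v, M.q v := by
  have h1 : (Fintype.card Φ + 12 : ℝ) ≤ 6 * Fintype.card ι := by exact_mod_cast M.card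
  simp only [q]
  rw [← Finset.mul_sum, Finset.sum_sub_distrib, sum_deg]
  simp only [Finset.sum_const, Finset.card_univ, nsmul_eq_mul]
  nlinarith [pi_pos]

theorem W_nonneg (h : ℝ) : 0 ≤ M.W h := Finset.sum_nonneg fun _ _ => _root_.sq_nonneg _

theorem Fine.card_le {M : Mesh ι Φ} {h : ℝ} (hf : M.Fine h) :
    (Fintype.card Φ : ℝ) * h ^ 2 ≤ 96 := by
  have h1 : (Fintype.card Φ + 12 : ℝ) ≤ 6 * Fintype.card ι := by exact_mod_cast M.card
  have h2 := hf.num
  have h3 : (17 / 10 : ℝ) ≤ √3 := Real.le_sqrt_of_sq_le (by norm_num)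
  have h4 : 0 ≤ h ^ 2 * Fintype.card ι := by positivity
  nlinarith [pi_lt_d2, mul_le_mul_of_nonneg_right h3 h4, _root_.sq_nonneg h,
    mul_le_mul_of_nonneg_right h1 (_root_.sq_nonneg h)]

end Mesh

theorem glowS (h1 : RegS) (h2 : DefS) (h3 : PotS) (h4 : PackS) (h5 : DualS) : GlowS := by
  classical
  obtain ⟨Cr, a1, r0, p1, H1⟩ := h1
  obtain ⟨Cd, a2, d0, p2, H2⟩ := h2
  obtain ⟨Cp, c0, H3⟩ := h3
  obtain ⟨Ck, a4, k0, p4, H4⟩ := h4
  obtain ⟨C5, a5, -, p5, H5⟩ := h5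
  set b : ℝ := Cp * √(Cd * (96 * 3200 ^ 2 + Ck)) with hb
  have b0 : 0 ≤ b := by positivity
  refine ⟨100 * (480 * Cd + Cr * (Cp * (1 + Cd) + b)), min (min (min a1 a2) (min a4 a5)) (1 / 200),
    by positivity, by positivity, fun ι Φ _ _ M h hf hh => ?_⟩
  simp only [le_min_iff] at hh
  obtain ⟨⟨⟨g1, g2⟩, g4, g5⟩, g6⟩ := hh
  have hp := hf.pos
  have hc : ip (![1, 0, 0] : V) ![1, 0, 0] = 1 := by simp [ip]
  obtain ⟨f, f1, f2⟩ := H5 ι Φ M h hf g5 _ hc
  obtain ⟨F, F1, F2, F3, F4⟩ := H3 (M.defects.image M.p) (480 * h) (1 / 3200) f _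
    (by positivity) (by norm_num) hc f1
  obtain ⟨q1, q2⟩ := H2 ι Φ M h hf g2
  have e48 : 480 * h / 10 = 48 * h := by ring
  rw [e48] at F3 F4
  have R := H1 ι Φ M h hf g1 (fun v => F (M.p v))
    (fun v => Cp * √(Phi (M.defects.image M.p) (480 * h) (1 / 3200) (M.p v))) Cp c0.le
    (fun _ => by positivity) (fun i j hij => F3 _ _ hij)
    (fun i => let ⟨g, u1, u2⟩ := F4 (M.p i); ⟨g, u1, fun j hj => u2 _ hj⟩)
  have W0 := M.W_nonneg h
  have W1 : 1 ≤ Cd * M.W h := by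
    have : ∑ v, M.q v ≤ ∑ v, |M.q v| := Finset.sum_le_sum fun _ _ => le_abs_self _
    linarith [M.sum_q, pi_gt_three]
  have l1 : 1 ≤ log (1 / h) := by
    rw [Real.le_log_iff_exp_le (by positivity), le_div_iff₀ hp]
    nlinarith [exp_one_lt_d9, exp_pos 1]
  set ℓ := log (1 / h) with hℓ
  have l2 : 1 ≤ √ℓ := Real.one_le_sqrt.mpr l1
  have S1 : ∑ d ∈ M.good h, (Cp * √(Phi (M.defects.image M.p) (480 * h) (1 / 3200)
      (M.p (M.tl d)))) ^ 2 ≤ (b * √(M.W h) * √ℓ / h) ^ 2 := by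
    have P0 : ∀ a, 0 ≤ Phi (M.defects.image M.p) (480 * h) (1 / 3200) a := fun a =>
      add_nonneg (by positivity) (Finset.sum_nonneg fun z _ =>
        div_nonneg zero_le_one (add_nonneg (ip_self_nonneg _) (sq_nonneg _)))
    simp only [mul_pow, Real.sq_sqrt (P0 _)]
    rw [← Finset.mul_sum, div_pow, mul_pow, mul_pow, hb, mul_pow, Real.sq_sqrt (by positivity),
      Real.sq_sqrt W0, Real.sq_sqrt (by linarith)]
    simp only [Phi]
    rw [Finset.sum_add_distrib, Finset.sum_comm]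
    have u1 : ∑ z ∈ M.defects.image M.p, ∑ d ∈ M.good h,
        1 / (ip (M.p (M.tl d) - z) (M.p (M.tl d) - z) + (480 * h) ^ 2) ≤
        Cd * M.W h * (Ck * ℓ / h ^ 2) := by
      refine (Finset.sum_le_card_nsmul _ _ (Ck * ℓ / h ^ 2) fun z hz => ?_).trans ?_
      · obtain ⟨v, -, rfl⟩ := Finset.mem_image.mp hz
        exact H4 ι Φ M h hf g4 _ (M.unit v)
      · rw [nsmul_eq_mul]
        refine mul_le_mul_of_nonneg_right (le_trans ?_ q2) (by positivity)
        exact_mod_cast Finset.card_image_le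
    have u2 : ∑ d ∈ M.good h, (1 : ℝ) / (1 / 3200) ^ 2 ≤
        Cd * M.W h * (96 * 3200 ^ 2 * ℓ / h ^ 2) := by
      rw [Finset.sum_const, nsmul_eq_mul]
      have v1 : ((M.good h).card : ℝ) ≤ 96 / h ^ 2 := by
        rw [le_div_iff₀ (by positivity)]
        refine le_trans (mul_le_mul_of_nonneg_right ?_ (sq_nonneg h)) hf.card_le
        exact_mod_cast Finset.card_le_univ _
      have v2 : 1 ≤ Cd * M.W h * ℓ := one_le_mul_of_one_le_of_one_le W1 l1
      calc _ ≤ 96 / h ^ 2 * (1 / (1 / 3200) ^ 2) := by gcongr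
        _ = 1 * (96 * 3200 ^ 2 / h ^ 2) := by ring
        _ ≤ Cd * M.W h * ℓ * (96 * 3200 ^ 2 / h ^ 2) := by gcongr
        _ = _ := by ring
    calc _ ≤ Cp ^ 2 * (Cd * M.W h * (96 * 3200 ^ 2 * ℓ / h ^ 2)
          + Cd * M.W h * (Ck * ℓ / h ^ 2)) := by gcongr
      _ = _ := by ring
  have S2 := Real.sqrt_le_sqrt S1
  rw [Real.sqrt_sq (by positivity)] at S2
  have S3 : h ^ 2 * √(M.W h) * √(∑ d ∈ M.good h, (Cp * √(Phi (M.defects.image M.p) (480 * h)
      (1 / 3200) (M.p (M.tl d)))) ^ 2) ≤ b * (h * M.W h * √ℓ) := by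
    calc _ ≤ h ^ 2 * √(M.W h) * (b * √(M.W h) * √ℓ / h) := by gcongr
      _ = b * (h * (√(M.W h) * √(M.W h)) * √ℓ) := by field_simp
      _ = _ := by rw [Real.mul_self_sqrt W0]
  have hW : h * M.W h ≤ h * M.W h * √ℓ := le_mul_of_one_le_right (by positivity) l2
  have S4 : Cp * h * (M.W h + 1) ≤ Cp * (1 + Cd) * (h * M.W h * √ℓ) := by
    calc _ ≤ Cp * h * (M.W h + Cd * M.W h) := by gcongr
      _ = Cp * (1 + Cd) * (h * M.W h) := by ring
      _ ≤ _ := by gcongr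
  have T1 : ∑ v, M.q v * f (ip ![1, 0, 0] (M.p v)) - ∑ v, M.q v * F (M.p v) ≤
      480 * Cd * (h * M.W h * √ℓ) := by
    rw [← Finset.sum_sub_distrib]
    calc _ ≤ ∑ v, |M.q v| * (480 * h) := Finset.sum_le_sum fun v _ => by
          rw [← mul_sub]
          by_cases hv : M.deg v = 6
          · simp [Mesh.q, hv]
          · refine (le_abs_self _).trans ?_
            rw [abs_mul, abs_sub_comm]
            exact mul_le_mul_of_nonneg_left (F2 _ (Finset.mem_image_of_mem _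
              (by simpa [Mesh.defects] using hv))) (abs_nonneg _)
      _ ≤ Cd * M.W h * (480 * h) := by rw [← Finset.sum_mul]; gcongr
      _ = 480 * Cd * (h * M.W h) := by ring
      _ ≤ _ := by gcongr
  have hl : (48 * h) ^ 2 ≤ 1 / 10 := by nlinarith
  have T2 : ∑ d, M.E d / 3 * F (M.p (M.tl d)) - ∑ d, M.E d / 3 * f (ip ![1, 0, 0] (M.A d)) ≤
      π / 800 := by
    rw [← Finset.sum_sub_distrib]
    calc _ ≤ ∑ d, M.E d * (1 / 9600) := Finset.sum_le_sum fun d _ => by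
          have e0 := (M.E_bounds (d := d) (by linarith [M.N_ge hf.edge d])).1
          have e1 := (le_abs_self _).trans (F1 (M.A d))
          change _ * F (M.A d) - _ ≤ _
          nlinarith
      _ = _ := by rw [← Finset.sum_mul, (M.sum_E hf.edge hl).1]; ring
  have T3 := (le_abs_self _).trans (R.trans (mul_le_mul_of_nonneg_left (add_le_add S4 S3) r0.le))
  have T4 : 3 * π / 800 ≤ (480 * Cd + Cr * (Cp * (1 + Cd) + b)) * (h * M.W h * √ℓ) := by
    linarith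
  linarith [pi_gt_three]

end Pool.Agent.MP_2ab689_gt.Big
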