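import Mathlib.Analysis.Real.Pi.Bounds
import Pool.Agent.MP_2ab689_gt.Big.Spec

/-!
Row LAT: points of the triangular lattice in a disc, and the layer comparison of two sums.
-/

namespace Pool.Agent.MP_2ab689_gt.Big

open MeasureTheory Set Real

namespace Lat

theorem sq_le (y : ℤ × ℤ) : 3 / 4 * (y.1 : ℝ) ^ 2 ≤ qf y ∧ 3 / 4 * (y.2 : ℝ) ^ 2 ≤ qf y := by
  unfold qf
  constructor
  · nlinarith [sq_nonneg ((y.2 : ℝ) + y.1 / 2)]
  · nlinarith [sq_nonneg ((y.1 : ℝ) + y.2 / 2)]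

theorem mem_Icc_of {s : ℝ} {a : ℤ} (h : 3 / 4 * (a : ℝ) ^ 2 ≤ s) :
    a ∈ Finset.Icc (-(⌈s⌉ + 1)) (⌈s⌉ + 1) := by
  have h1 := Int.le_ceil s
  rw [Finset.mem_Icc]
  constructor
  · have : (-((⌈s⌉ : ℝ) + 1)) ≤ a := by nlinarith [sq_nonneg ((a : ℝ) + 1)]
    exact_mod_cast this
  · have : (a : ℝ) ≤ (⌈s⌉ : ℝ) + 1 := by nlinarith [sq_nonneg ((a : ℝ) - 1)]
    exact_mod_cast this

theorem mem_iff (s : ℝ) (y : ℤ × ℤ) : y ∈ Lat s ↔ qf y ≤ s := by
  unfold Lat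
  rw [Finset.mem_filter, Finset.mem_product]
  exact ⟨fun h => h.2, fun h =>
    ⟨⟨mem_Icc_of ((sq_le y).1.trans h), mem_Icc_of ((sq_le y).2.trans h)⟩, h⟩⟩

theorem abs_le_of {s a : ℝ} (hs : 0 ≤ s) (h : 3 / 4 * a ^ 2 ≤ s) : |a| ≤ 2 * √s := by
  apply abs_le_of_sq_le_sq' _ (by positivity) |> abs_le.2
  rw [mul_pow, Real.sq_sqrt hs]
  nlinarith

theorem card_le {s : ℝ} (hs : 0 ≤ s) : ((Lat s).card : ℝ) ≤ 16 / 3 * s + 5 * √s + 1 := by
  set n : ℕ := ⌊√(4 / 3 * s)⌋₊ with hn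
  have h1 : (n : ℝ) ≤ √(4 / 3 * s) := Nat.floor_le (sqrt_nonneg _)
  have h2 : (n : ℝ) ^ 2 ≤ 4 / 3 * s := (Real.le_sqrt (Nat.cast_nonneg n) (by positivity)).1 h1
  have h3 : (n : ℝ) ≤ 5 / 4 * √s := by
    refine (abs_le_of_sq_le_sq' ?_ (by positivity)).2
    rw [mul_pow, Real.sq_sqrt hs]
    linarith
  have key : ∀ a : ℤ, 3 / 4 * (a : ℝ) ^ 2 ≤ s → a ∈ Finset.Icc (-(n : ℤ)) n := by
    intro a ha
    have h4 : ((a.natAbs : ℕ) : ℝ) ≤ √(4 / 3 * s) := by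
      apply Real.le_sqrt_of_sq_le
      rw [Nat.cast_natAbs, Int.cast_abs, sq_abs]
      linarith
    have h5 : a.natAbs ≤ n := Nat.le_floor h4
    rw [Finset.mem_Icc]
    omega
  have hsub : Lat s ⊆ Finset.Icc (-(n : ℤ)) n ×ˢ Finset.Icc (-(n : ℤ)) n := by
    intro y hy
    rw [mem_iff] at hy
    exact Finset.mem_product.2 ⟨key _ ((sq_le y).1.trans hy), key _ ((sq_le y).2.trans hy)⟩
  have h6 := Finset.card_le_card hsub
  have h7 : (Finset.Icc (-(n : ℤ)) n).card = 2 * n + 1 := by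
    rw [Int.card_Icc]
    omega
  rw [Finset.card_product, h7] at h6
  have h8 : ((Lat s).card : ℝ) ≤ (2 * n + 1) * (2 * n + 1) := by exact_mod_cast h6
  nlinarith

theorem vol_disc' (g : ℝ) :
    volume {p : ℝ × ℝ | p.1 ^ 2 + p.2 ^ 2 ≤ g} = ENNReal.ofReal (π * g) := by
  have hm : MeasurableSet {p : ℝ × ℝ | p.1 ^ 2 + p.2 ^ 2 ≤ g} :=
    (isClosed_le (by fun_prop) continuous_const).measurableSet
  rw [← Complex.volume_preserving_equiv_real_prod.measure_preimage hm.nullMeasurableSet,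
    ← vol_disc g]
  rfl

theorem vol_ell (g : ℝ) : volume {p : ℝ × ℝ | p.1 ^ 2 + p.1 * p.2 + p.2 ^ 2 ≤ g} =
    ENNReal.ofReal (2 * π / √3 * g) := by
  have h3 : (0 : ℝ) < √3 := by positivity
  have h33 : (√3 : ℝ) ^ 2 = 3 := Real.sq_sqrt (by norm_num)
  set L := Matrix.toLin (Module.Basis.finTwoProd ℝ) (Module.Basis.finTwoProd ℝ)
    !![(1 : ℝ), 1 / 2; 0, √3 / 2] with hL
  have hd : LinearMap.det L = √3 / 2 := by
    rw [hL, LinearMap.det_toLin, Matrix.det_fin_two_of]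
    ring
  have e : {p : ℝ × ℝ | p.1 ^ 2 + p.1 * p.2 + p.2 ^ 2 ≤ g} =
      L ⁻¹' {p : ℝ × ℝ | p.1 ^ 2 + p.2 ^ 2 ≤ g} := by
    ext p
    simp only [hL, mem_preimage, mem_ofPred_eq, Matrix.toLin_finTwoProd_apply]
    have : (1 * p.1 + 1 / 2 * p.2) ^ 2 + (0 * p.1 + √3 / 2 * p.2) ^ 2 =
        p.1 ^ 2 + p.1 * p.2 + p.2 ^ 2 := by
      linear_combination (p.2 ^ 2 / 4) * h33
    rw [this]
  rw [e, Measure.addHaar_preimage_linearMap _ (by rw [hd]; positivity), hd, vol_disc',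
    ← ENNReal.ofReal_mul (abs_nonneg _), abs_of_pos (by positivity)]
  congr 1
  field_simp

theorem shift {a b u v ρ : ℝ} (hρ : 0 ≤ ρ) (h : a ^ 2 + a * b + b ^ 2 ≤ ρ ^ 2) (hu : 0 ≤ u)
    (hu' : u ≤ 1) (hv : 0 ≤ v) (hv' : v ≤ 1) :
    (a - u) ^ 2 + (a - u) * (b - v) + (b - v) ^ 2 ≤ (ρ + 2) ^ 2 := by
  have h1 : u ^ 2 + u * v + v ^ 2 ≤ 3 := by nlinarith
  have h0 : 0 ≤ u ^ 2 + u * v + v ^ 2 := by positivity
  have h2 : (2 * a * u + a * v + b * u + 2 * b * v) ^ 2 ≤ (4 * ρ) ^ 2 := by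
    have h3 : (2 * a * u + a * v + b * u + 2 * b * v) ^ 2 ≤
        4 * ((a ^ 2 + a * b + b ^ 2) * (u ^ 2 + u * v + v ^ 2)) := by
      nlinarith [sq_nonneg (a * v - b * u)]
    have h4 : (a ^ 2 + a * b + b ^ 2) * (u ^ 2 + u * v + v ^ 2) ≤ ρ ^ 2 * 3 :=
      mul_le_mul h h1 h0 (sq_nonneg ρ)
    nlinarith [sq_nonneg ρ]
  have h5 := (abs_le_of_sq_le_sq' h2 (by positivity)).1
  nlinarith

theorem le_card {ρ : ℝ} (hρ : 0 ≤ ρ) : 2 * π / √3 * ρ ^ 2 ≤ (Lat ((ρ + 2) ^ 2)).card := by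
  have hsub : {p : ℝ × ℝ | p.1 ^ 2 + p.1 * p.2 + p.2 ^ 2 ≤ ρ ^ 2} ⊆
      ⋃ y ∈ Lat ((ρ + 2) ^ 2), Ico (y.1 : ℝ) (y.1 + 1) ×ˢ Ico (y.2 : ℝ) (y.2 + 1) := by
    intro p hp
    simp only [mem_iUnion]
    refine ⟨(⌊p.1⌋, ⌊p.2⌋), ?_, ⟨Int.floor_le _, Int.lt_floor_add_one _⟩,
      ⟨Int.floor_le _, Int.lt_floor_add_one _⟩⟩
    rw [mem_iff]
    have := shift hρ hp (Int.fract_nonneg p.1) (Int.fract_lt_one p.1).le (Int.fract_nonneg p.2)
      (Int.fract_lt_one p.2).le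
    simpa only [Int.self_sub_fract, qf] using this
  have h1 := (measure_mono (μ := volume) hsub).trans (measure_biUnion_finset_le _ _)
  rw [vol_ell] at h1
  simp only [Measure.volume_eq_prod, Measure.prod_prod, Real.volume_Ico, add_sub_cancel_left,
    ENNReal.ofReal_one, mul_one, Finset.sum_const, nsmul_eq_mul] at h1
  rw [← ENNReal.ofReal_natCast] at h1
  exact (ENNReal.ofReal_le_ofReal_iff (Nat.cast_nonneg _)).1 h1

theorem const_le : 2 * π / √3 ≤ 5 := by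
  have h3 : (3 / 2 : ℝ) ≤ √3 := Real.le_sqrt_of_sq_le (by norm_num)
  rw [div_le_iff₀ (by positivity)]
  linarith [Real.pi_lt_d2]

theorem le_card' {s : ℝ} (hs : 0 ≤ s) : 2 * π / √3 * s - 20 * (√s + 1) ≤ (Lat s).card := by
  have hc := const_le
  have hc0 : 0 ≤ 2 * π / √3 := by positivity
  have h0 := Real.sqrt_nonneg s
  have hq := Real.sq_sqrt hs
  rcases le_total (√s) 2 with h | h
  · have h1 : s ≤ 4 := by nlinarith
    have h2 : 2 * π / √3 * s ≤ 5 * 4 := mul_le_mul hc h1 hs (by norm_num)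
    have h3 : (0 : ℝ) ≤ (Lat s).card := Nat.cast_nonneg _
    linarith
  · have h1 := le_card (ρ := √s - 2) (by linarith)
    rw [sub_add_cancel, hq] at h1
    have h2 : 2 * π / √3 * √s ≤ 5 * √s := mul_le_mul_of_nonneg_right hc h0
    have h3 : (√s - 2) ^ 2 = s - 4 * √s + 4 := by linear_combination hq
    rw [h3] at h1
    nlinarith

theorem int_ind (a R : ℝ) : ∫ x, (Icc a R).indicator (fun _ => (1 : ℝ)) x = max (R - a) 0 := by
  rw [integral_indicator_const _ measurableSet_Icc, Real.volume_real_Icc, smul_eq_mul, mul_one]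

theorem intg_ind (a R e : ℝ) : Integrable ((Icc a R).indicator fun _ => e) volume :=
  (integrable_indicator_iff measurableSet_Icc).2 (continuous_const.integrableOn_Icc)

theorem sum_ind {α : Type} (U : Finset α) (s : α → ℝ) {R x : ℝ} (hx : x ≤ R) :
    ∑ u ∈ U, (Icc (s u) R).indicator (fun _ => (1 : ℝ)) x = (U.filter fun u => s u ≤ x).card := by
  rw [Finset.card_filter]
  push_cast
  refine Finset.sum_congr rfl fun u _ => ?_
  by_cases h : s u ≤ x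
  · rw [if_pos h, indicator_of_mem (show x ∈ Icc (s u) R from ⟨h, hx⟩)]
  · rw [if_neg h, indicator_of_notMem fun h' => h h'.1]

theorem sum_ind_zero {α : Type} (U : Finset α) (s : α → ℝ) {R x : ℝ} (hs : ∀ u ∈ U, 0 ≤ s u)
    (hx : x ∉ Icc 0 R) : ∑ u ∈ U, (Icc (s u) R).indicator (fun _ => (1 : ℝ)) x = 0 :=
  Finset.sum_eq_zero fun u hu => indicator_of_notMem (fun h => hx ⟨(hs u hu).trans h.1, h.2⟩) _

end Lat

theorem latS : LatS := fun s hs =>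
  ⟨Lat.mem_iff s, fun y hy =>
    ⟨Lat.abs_le_of hs ((Lat.sq_le y).1.trans ((Lat.mem_iff s y).1 hy)),
      Lat.abs_le_of hs ((Lat.sq_le y).2.trans ((Lat.mem_iff s y).1 hy))⟩,
    Lat.le_card' hs, Lat.card_le hs⟩

theorem layerS : LayerS := by
  intro α β U Y s t R e hR hs ht h
  have h1 : R * e = ∫ x, (Icc 0 R).indicator (fun _ => e) x := by
    rw [integral_indicator_const _ measurableSet_Icc, Real.volume_real_Icc, smul_eq_mul, sub_zero,
      max_eq_left hR]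
  have iU := integrable_finsetSum U fun u _ => Lat.intg_ind (s u) R 1
  have iY := integrable_finsetSum Y fun y _ => Lat.intg_ind (t y) R 1
  simp only [← Lat.int_ind]
  rw [h1, ← integral_finsetSum _ fun u _ => Lat.intg_ind (s u) R 1,
    ← integral_finsetSum _ fun y _ => Lat.intg_ind (t y) R 1,
    ← integral_add iY (Lat.intg_ind 0 R e)]
  refine integral_mono iU (iY.add (Lat.intg_ind 0 R e)) fun x => ?_
  by_cases hx : x ∈ Icc 0 R
  · simp only [Lat.sum_ind _ _ hx.2, indicator_of_mem hx]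
    exact h x hx.1 hx.2
  · simp only [Lat.sum_ind_zero U s hs hx, Lat.sum_ind_zero Y t ht hx, indicator_of_notMem hx,
      add_zero, le_refl]

end Pool.Agent.MP_2ab689_gt.Big
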