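import Pool.Agent.MP_2ab689_gt.Big.Spec

/-!
The volume lost in one slab of the construction.
-/

namespace Pool.Agent.MP_2ab689_gt.Big

open MeasureTheory Set Real

namespace Loss

theorem shift (f : ℕ → ℝ) (N : ℕ) (h : f N = f 0) :
    ∑ k ∈ Finset.range N, f (k + 1) = ∑ k ∈ Finset.range N, f k := by
  have h1 := Finset.sum_range_succ f N
  have h2 := Finset.sum_range_succ' f N
  linarith

theorem alt (p q : ℝ) (g : ℕ → ℝ) (m : ℕ) :
    ∑ k ∈ Finset.range (m + m), (if Even k then p else q) * (g (k + 2) - g k)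
      = p * (g (m + m) - g 0) + q * (g (m + m + 1) - g 1) := by
  induction m with
  | zero => simp
  | succ m ih =>
    have e : m + 1 + (m + 1) = m + m + 1 + 1 := by ring
    have h1 : Even (m + m) := ⟨m, rfl⟩
    have h2 : ¬ Even (m + m + 1) := by
      rw [Nat.even_add_one]; exact fun h => h h1
    rw [e, Finset.sum_range_succ, Finset.sum_range_succ, ih, if_pos h1, if_neg h2]
    ring

theorem term (x y p q R : ℝ) (hx : 0 ≤ x) (hy : 0 ≤ y) (hp : 0 ≤ p) (hq : 0 ≤ q)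
    (hpR : p ≤ R) (hqR : q ≤ R) :
    p / 3 * (x + y) + q / 6 * (x + y) - R / 18 * ((x + y) ^ 3 + (x ^ 3 + y ^ 3) / 2)
      ≤ p / 3 * sin (x + y) + q / 6 * (sin x + sin y) := by
  have h1 := Real.sin_ge_sub_cube hx
  have h2 := Real.sin_ge_sub_cube hy
  have h3 := Real.sin_ge_sub_cube (add_nonneg hx hy)
  have a1 : p * ((x + y) - (x + y) ^ 3 / 6) ≤ p * sin (x + y) := mul_le_mul_of_nonneg_left h3 hp
  have a2 : q * (x - x ^ 3 / 6) ≤ q * sin x := mul_le_mul_of_nonneg_left h1 hq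
  have a3 : q * (y - y ^ 3 / 6) ≤ q * sin y := mul_le_mul_of_nonneg_left h2 hq
  have b1 : p * (x + y) ^ 3 ≤ R * (x + y) ^ 3 :=
    mul_le_mul_of_nonneg_right hpR (by positivity)
  have b2 : q * x ^ 3 ≤ R * x ^ 3 := mul_le_mul_of_nonneg_right hqR (by positivity)
  have b3 : q * y ^ 3 ≤ R * y ^ 3 := mul_le_mul_of_nonneg_right hqR (by positivity)
  nlinarith

theorem cube (u v B : ℝ) (hu : 0 ≤ u) (hv : 0 ≤ v) (huB : u ≤ B) (hvB : v ≤ B) :
    (u + v) ^ 3 + (u ^ 3 + v ^ 3) / 2 ≤ -9 / 4 + 27 / 8 * (u + v)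
      + 5 * (1 + B) * ((u - 1 / 2) ^ 2 + (v - 1 / 2) ^ 2) := by
  have hB : 0 ≤ B := hu.trans huB
  have e1 : (u + v) ^ 3 = -2 + 3 * (u + v) + (u + v - 1) ^ 2 * (2 + (u + v)) := by ring
  have e2 : u ^ 3 = -1 / 4 + 3 / 4 * u + (u - 1 / 2) ^ 2 * (1 + u) := by ring
  have e3 : v ^ 3 = -1 / 4 + 3 / 4 * v + (v - 1 / 2) ^ 2 * (1 + v) := by ring
  have h1 : (u + v - 1) ^ 2 ≤ 2 * ((u - 1 / 2) ^ 2 + (v - 1 / 2) ^ 2) := by
    nlinarith [sq_nonneg (u - v)]
  have h2 : (u + v - 1) ^ 2 * (2 + (u + v))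
      ≤ 2 * ((u - 1 / 2) ^ 2 + (v - 1 / 2) ^ 2) * (2 + 2 * B) :=
    mul_le_mul h1 (by linarith) (by positivity) (by positivity)
  have h3 : (u - 1 / 2) ^ 2 * (1 + u) ≤ (u - 1 / 2) ^ 2 * (1 + B) :=
    mul_le_mul_of_nonneg_left (by linarith) (sq_nonneg _)
  have h4 : (v - 1 / 2) ^ 2 * (1 + v) ≤ (v - 1 / 2) ^ 2 * (1 + B) :=
    mul_le_mul_of_nonneg_left (by linarith) (sq_nonneg _)
  have h5 : 0 ≤ (1 + B) * ((u - 1 / 2) ^ 2 + (v - 1 / 2) ^ 2) := by positivity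
  rw [e1, e2, e3]
  nlinarith

theorem fin (c h r T E n K : ℝ) (hc : 0 < c) (hh : 0 < h) (hch : c ≤ h) (hcr : c ≤ r)
    (hE : 0 ≤ E) (hn : 0 ≤ n) (hK : 0 ≤ K) (hT0 : 0 ≤ T)
    (hT : T ≤ -9 / 4 * n + 27 / 2 * π * (r / h) + K * E) :
    c * r / 2 * ((r + c) ^ 2 / 18 * ((h / r) ^ 3 * T))
      ≤ 3 * π * h ^ 2 / 8 * (c * r) - c * h ^ 3 / 16 * n + (5 + K) * h ^ 4 * (1 + E) := by
  have hr : 0 < r := hc.trans_le hcr
  have hpi := Real.pi_le_four
  have hpi0 := Real.pi_pos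
  have h1 : (r + c) ^ 2 ≤ r ^ 2 + 3 * c * r := by nlinarith
  have h2 : c * r / 2 * ((r + c) ^ 2 / 18 * ((h / r) ^ 3 * T))
      ≤ c * r / 2 * ((r ^ 2 + 3 * c * r) / 18 * ((h / r) ^ 3 * T)) := by
    gcongr
  have e1 : c * r / 2 * ((r ^ 2 + 3 * c * r) / 18 * ((h / r) ^ 3 * T))
      = c * h ^ 3 / 36 * T + c * (c / r) * h ^ 3 / 12 * T := by
    field_simp
    ring
  have h3 : c * h ^ 3 / 36 * T
      ≤ c * h ^ 3 / 36 * (-9 / 4 * n + 27 / 2 * π * (r / h) + K * E) := by gcongr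
  have e2 : c * h ^ 3 / 36 * (-9 / 4 * n + 27 / 2 * π * (r / h) + K * E)
      = 3 * π * h ^ 2 / 8 * (c * r) - c * h ^ 3 / 16 * n + c * h ^ 3 / 36 * (K * E) := by
    field_simp
    ring
  have h4 : c * (c / r) * h ^ 3 / 12 * T
      ≤ c * (c / r) * h ^ 3 / 12 * (27 / 2 * π * (r / h) + K * E) := by
    gcongr
    linarith
  have e3 : c * (c / r) * h ^ 3 / 12 * (27 / 2 * π * (r / h) + K * E)
      = 9 / 8 * π * (c * c * h ^ 2) + c * (c / r) * h ^ 3 / 12 * (K * E) := by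
    field_simp
    ring
  have hcr1 : c / r ≤ 1 := (div_le_one hr).2 hcr
  have hKE : 0 ≤ K * E := mul_nonneg hK hE
  have h5 : c * (c / r) * h ^ 3 / 12 * (K * E) ≤ h * 1 * h ^ 3 / 12 * (K * E) := by gcongr
  have h6 : c * h ^ 3 / 36 * (K * E) ≤ h * h ^ 3 / 36 * (K * E) := by gcongr
  have h7 : 9 / 8 * π * (c * c * h ^ 2) ≤ 9 / 8 * 4 * (h * h * h ^ 2) := by gcongr
  have h8 : 0 ≤ h ^ 4 * (K * E) := by positivity
  have h9 : 0 ≤ h ^ 4 * K := by positivity
  have h10 : 0 ≤ h ^ 4 * E := by positivity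
  have h11 : 0 ≤ h ^ 4 := by positivity
  nlinarith

end Loss

theorem lossS : LossS := by
  intro B
  refine ⟨5 + 10 * (1 + |B|), by positivity, ?_⟩
  intro c h r a b N g hc hch hcr ha hb har hbr hD hN hg hper hB
  have hr : 0 < r := hc.trans_le hcr
  have h3 : (0 : ℝ) < √3 := by positivity
  have h32 : √3 ≤ 2 := by
    rw [Real.sqrt_le_iff]; norm_num
  have hh : 0 < h := by
    by_contra hneg
    have : √3 * h ≤ 0 := mul_nonpos_of_nonneg_of_nonpos h3.le (not_lt.1 hneg)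
    linarith
  have hch' : c ≤ h := by nlinarith
  obtain ⟨m, rfl⟩ := hN
  set N := m + m with hNdef
  set u : ℕ → ℝ := fun k => (g (k + 1) - g k) * r / h with hu
  have hu0 : ∀ k, 0 ≤ u k := fun k => by
    have := hg k
    simp only [hu]
    have h0 : 0 ≤ g (k + 1) - g k := by linarith
    positivity
  have huB : ∀ k, u k ≤ |B| := fun k => (hB k).trans (le_abs_self B)
  have hgu : ∀ k, g (k + 1) - g k = h / r * u k := fun k => by
    simp only [hu]; field_simp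
  have g0 : g N = g 0 + 2 * π := by simpa using hper 0
  have g1 : g (N + 1) = g 1 + 2 * π := by rw [add_comm]; exact hper 1
  have huN : u N = u 0 := by simp only [hu]; rw [g0, g1]; ring
  have hsum : ∑ k ∈ Finset.range N, u k = 2 * π * (r / h) := by
    have h1 := Finset.sum_range_sub g N
    have h2 : ∑ k ∈ Finset.range N, u k = (∑ k ∈ Finset.range N, (g (k + 1) - g k)) * (r / h) := by
      rw [Finset.sum_mul]
      exact Finset.sum_congr rfl fun k _ => by simp only [hu]; ring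
    rw [h2, h1, g0]; ring
  have hsum1 := Loss.shift u N huN
  have hsum2 := Loss.shift (fun k => (u k - 1 / 2) ^ 2) N (by simp only [huN])
  set E := ∑ k ∈ Finset.range N, (u k - 1 / 2) ^ 2 with hE
  set T := ∑ k ∈ Finset.range N, ((u k + u (k + 1)) ^ 3 + (u k ^ 3 + u (k + 1) ^ 3) / 2) with hT
  have hE0 : 0 ≤ E := Finset.sum_nonneg fun k _ => sq_nonneg _
  have hT0 : 0 ≤ T := Finset.sum_nonneg fun k _ => by
    have := hu0 k
    have := hu0 (k + 1)
    positivity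
  have hTle : T ≤ -9 / 4 * N + 27 / 2 * π * (r / h) + 10 * (1 + |B|) * E := by
    have h1 : T ≤ ∑ k ∈ Finset.range N, (-9 / 4 + 27 / 8 * (u k + u (k + 1))
        + 5 * (1 + |B|) * ((u k - 1 / 2) ^ 2 + (u (k + 1) - 1 / 2) ^ 2)) :=
      Finset.sum_le_sum fun k _ => Loss.cube _ _ _ (hu0 k) (hu0 _) (huB k) (huB _)
    rw [Finset.sum_add_distrib, Finset.sum_add_distrib, ← Finset.mul_sum, ← Finset.mul_sum,
      Finset.sum_add_distrib, Finset.sum_add_distrib, hsum1, hsum2, hsum, Finset.sum_const,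
      Finset.card_range, nsmul_eq_mul] at h1
    linarith
  have haR : a ≤ r + c := by linarith [(abs_le.1 har).2]
  have hbR : b ≤ r + c := by linarith [(abs_le.1 hbr).2]
  have hlow : ∑ k ∈ Finset.range N, ((if Even k then a ^ 2 / 3 + a * b / 6 else b ^ 2 / 3 + a * b / 6)
        * (g (k + 2) - g k) - (r + c) ^ 2 / 18 * ((h / r) ^ 3
          * ((u k + u (k + 1)) ^ 3 + (u k ^ 3 + u (k + 1) ^ 3) / 2)))
      ≤ ∑ k ∈ Finset.range N, ((if Even k then a else b) ^ 2 / 3 * sin (g (k + 2) - g k)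
        + a * b / 6 * (sin (g (k + 1) - g k) + sin (g (k + 2) - g (k + 1)))) := by
    refine Finset.sum_le_sum fun k _ => ?_
    have hx : 0 ≤ g (k + 1) - g k := by linarith [hg k]
    have hy : 0 ≤ g (k + 2) - g (k + 1) := by linarith [hg (k + 1)]
    have hab : a * b ≤ (r + c) ^ 2 := by
      rw [sq]; exact mul_le_mul haR hbR hb (by positivity)
    have e : g (k + 2) - g k = (g (k + 1) - g k) + (g (k + 2) - g (k + 1)) := by ring
    have e1 := hgu k
    have e2 : g (k + 2) - g (k + 1) = h / r * u (k + 1) := hgu (k + 1)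
    have e3 : (h / r) ^ 3 * ((u k + u (k + 1)) ^ 3 + (u k ^ 3 + u (k + 1) ^ 3) / 2)
        = ((g (k + 1) - g k) + (g (k + 2) - g (k + 1))) ^ 3
          + ((g (k + 1) - g k) ^ 3 + (g (k + 2) - g (k + 1)) ^ 3) / 2 := by
      rw [e1, e2]; ring
    rw [e3, e]
    split_ifs
    · have := Loss.term _ _ (a ^ 2) (a * b) ((r + c) ^ 2) hx hy (by positivity) (by positivity)
        (by gcongr) hab
      linarith
    · have := Loss.term _ _ (b ^ 2) (a * b) ((r + c) ^ 2) hx hy (by positivity) (by positivity)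
        (by gcongr) hab
      linarith
  rw [Finset.sum_sub_distrib, ← Finset.mul_sum, ← Finset.mul_sum, hNdef, Loss.alt, ← hNdef, g0, g1,
    ← hT] at hlow
  have hfin := Loss.fin c h r T E N (10 * (1 + |B|)) hc hh hch' hcr hE0 (Nat.cast_nonneg _)
    (by positivity) hT0 hTle
  have hD0 : 0 ≤ c * r / 2 := by positivity
  have hmul := mul_le_mul_of_nonneg_left hlow hD0
  have hseg : π * (c * r) * (3 * a ^ 2 + 3 * b ^ 2 + (c * r) ^ 2) / 6
      = π * c ^ 2 / 6 * (c * r) + c * r / 2 * ((a ^ 2 / 3 + a * b / 6) * (2 * π)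
        + (b ^ 2 / 3 + a * b / 6) * (2 * π)) := by
    have : (c * r) ^ 2 = c ^ 2 - (a - b) ^ 2 := by linarith
    rw [this]; ring
  unfold slabV
  rw [hseg]
  have e4 : g 0 + 2 * π - g 0 = 2 * π := by ring
  have e5 : g 1 + 2 * π - g 1 = 2 * π := by ring
  rw [e4, e5] at hmul
  nlinarith

end Pool.Agent.MP_2ab689_gt.Big
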