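import Pool.Agent.MP_2ab689_gt.Limit

/-!
The triangulated boundary of an inscribed polytope, described by flags.
-/

namespace Pool.Agent.MP_2ab689_gt.Big

open MeasureTheory Set Filter Topology

/-- A triangulation of the boundary of the convex hull of unit vectors, given by its flags
(oriented triangles with a first vertex). -/
structure Mesh (ι Φ : Type) [Fintype ι] [Fintype Φ] where
  p : ι → V
  tl : Φ → ι
  φ : Equiv.Perm Φ
  s : Equiv.Perm Φ
  φ3 : ∀ d, φ (φ (φ d)) = d
  s2 : ∀ d, s (s d) = d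
  tl_s : ∀ d, tl (s d) = tl (φ d)
  unit : ∀ i, ip (p i) (p i) = 1
  inj : Function.Injective p
  ball : ∃ ε : ℝ, 0 < ε ∧ ∀ x : V, ip x x ≤ ε → x ∈ convexHull ℝ (range p)
  Dpos : ∀ d, 0 < det3 (p (tl d)) (p (tl (φ d))) (p (tl (φ (φ d))))
  weak : ∀ d l, 0 ≤ T4 (p (tl d)) (p (tl (φ d))) (p (tl (φ (φ d)))) (p l)
  disj : ∀ d d' (x : V), 0 < det3 x (p (tl (φ d))) (p (tl (φ (φ d)))) →
    0 < det3 (p (tl d)) x (p (tl (φ (φ d)))) → 0 < det3 (p (tl d)) (p (tl (φ d))) x →
    0 < det3 x (p (tl (φ d'))) (p (tl (φ (φ d')))) →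
    0 < det3 (p (tl d')) x (p (tl (φ (φ d')))) → 0 < det3 (p (tl d')) (p (tl (φ d'))) x →
    d' = d ∨ d' = φ d ∨ d' = φ (φ d)
  cover : ∀ x ∈ convexHull ℝ (range p),
    ∃ d, x ∈ Spx 0 (p (tl d)) (p (tl (φ d))) (p (tl (φ (φ d))))
  card : Fintype.card Φ + 12 ≤ 6 * Fintype.card ι
  upx : ∀ (c : V) (d d' : Φ), tl d = tl d' →
    ip c (p (tl (φ d))) < ip c (p (tl d)) → ip c (p (tl d)) < ip c (p (tl (φ (φ d)))) →
    ip c (p (tl (φ d'))) < ip c (p (tl d')) → ip c (p (tl d')) < ip c (p (tl (φ (φ d')))) →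
    d = d'

theorem strict_disj {ι : Type} {q : ι → V} {a b c a' b' c' : ι} (F : Face (posq q) a b c)
    (F' : Face (posq q) a' b' c') (x : V)
    (h1 : 0 < det3 x (q b) (q c)) (h2 : 0 < det3 (q a) x (q c)) (h3 : 0 < det3 (q a) (q b) x)
    (k1 : 0 < det3 x (q b') (q c')) (k2 : 0 < det3 (q a') x (q c'))
    (k3 : 0 < det3 (q a') (q b') x) :
    (a' = a ∨ a' = b ∨ a' = c) ∧ (b' = a ∨ b' = b ∨ b' = c) ∧ (c' = a ∨ c' = b ∨ c' = c) := by
  have key : ∀ a b c a' b' c' : V, det3 a' b' c' * T4 a b c x - det3 a b c * T4 a' b' c' x =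
      det3 x b' c' * T4 a b c a' + det3 a' x c' * T4 a b c b' + det3 a' b' x * T4 a b c c' := by
    intro a b c a' b' c'
    simp only [T4, det3, Pi.sub_apply]; ring
  have e1 := key (q a) (q b) (q c) (q a') (q b') (q c')
  have e2 := key (q a') (q b') (q c') (q a) (q b) (q c)
  have p1 := mul_nonneg k1.le (face_nonneg F a')
  have p2 := mul_nonneg k2.le (face_nonneg F b')
  have p3 := mul_nonneg k3.le (face_nonneg F c')
  have p4 := mul_nonneg h1.le (face_nonneg F' a)
  have p5 := mul_nonneg h2.le (face_nonneg F' b)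
  have p6 := mul_nonneg h3.le (face_nonneg F' c)
  exact ⟨face_eq_zero F ((mul_eq_zero.mp (by linarith : det3 x (q b') (q c') * _ = 0)).resolve_left
      k1.ne'),
    face_eq_zero F ((mul_eq_zero.mp (by linarith : det3 (q a') x (q c') * _ = 0)).resolve_left
      k2.ne'),
    face_eq_zero F ((mul_eq_zero.mp (by linarith : det3 (q a') (q b') x * _ = 0)).resolve_left
      k3.ne')⟩

theorem strict_upx {ι : Type} {q : ι → V} {v a b a' b' : ι} (h : Face (posq q) v a b)
    (h' : Face (posq q) v a' b') (c : V) (h1 : ip c (q a) < ip c (q v))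
    (h2 : ip c (q v) < ip c (q b)) (h3 : ip c (q a') < ip c (q v))
    (h4 : ip c (q v) < ip c (q b')) : a = a' ∧ b = b' := by
  have key : T4 (q v) (q a') (q b') (q b) * (ip c (q v) - ip c (q a))
      + T4 (q v) (q a') (q b') (q a) * (ip c (q b) - ip c (q v))
      + T4 (q v) (q a) (q b) (q b') * (ip c (q v) - ip c (q a'))
      + T4 (q v) (q a) (q b) (q a') * (ip c (q b') - ip c (q v)) = 0 := by
    simp only [T4, det3, ip, Pi.sub_apply]; ring
  have g1 := sub_pos.mpr h1
  have g2 := sub_pos.mpr h2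
  have g3 := sub_pos.mpr h3
  have g4 := sub_pos.mpr h4
  have p1 := mul_nonneg (face_nonneg h' b) g1.le
  have p2 := mul_nonneg (face_nonneg h' a) g2.le
  have p3 := mul_nonneg (face_nonneg h b') g3.le
  have p4 := mul_nonneg (face_nonneg h a') g4.le
  have z3 : T4 (q v) (q a) (q b) (q b') = 0 :=
    (mul_eq_zero.mp (by linarith : _ * (ip c (q v) - ip c (q a')) = 0)).resolve_right g3.ne'
  have z4 : T4 (q v) (q a) (q b) (q a') = 0 :=
    (mul_eq_zero.mp (by linarith : _ * (ip c (q b') - ip c (q v)) = 0)).resolve_right g4.ne'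
  constructor
  · rcases face_eq_zero h z4 with e | e | e
    · rw [e] at h3; simp at h3
    · exact e.symm
    · rw [e] at h3; linarith
  · rcases face_eq_zero h z3 with e | e | e
    · rw [e] at h4; simp at h4
    · rw [e] at h4; linarith
    · exact e.symm

theorem crs_ne {a b c : V} (ha : ip a a = 1) (hb : ip b b = 1) (hc : ip c c = 1) (h1 : a ≠ b)
    (h2 : b ≠ c) (h3 : c ≠ a) : 0 < ip (crs (b - a) (c - a)) (crs (b - a) (c - a)) := by
  refine lt_of_le_of_ne (ip_self_nonneg _) fun e => h2 ?_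
  have e0 := eq_zero_of_ip e.symm.le
  have c0 := congrFun e0 0
  have c1 := congrFun e0 1
  have c2 := congrFun e0 2
  simp only [crs, Pi.sub_apply, Matrix.cons_val_zero, Matrix.cons_val_one, Matrix.cons_val_two,
    Matrix.head_cons, Matrix.tail_cons, Pi.zero_apply] at c0 c1 c2
  have u0 : 0 < 1 - ip a b := sub_pos.mpr (ip_lt_one ha hb h1)
  have v0 : 0 < 1 - ip a c := sub_pos.mpr (ip_lt_one ha hc h3.symm)
  have k0 : (1 - ip a c) * (b 0 - a 0) = (1 - ip a b) * (c 0 - a 0) := by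
    unfold ip at *
    linear_combination (-(a 1)) * c2 + a 2 * c1 + (c 0 - b 0) * ha
  have k1 : (1 - ip a c) * (b 1 - a 1) = (1 - ip a b) * (c 1 - a 1) := by
    unfold ip at *
    linear_combination (-(a 2)) * c0 + a 0 * c2 + (c 1 - b 1) * ha
  have k2 : (1 - ip a c) * (b 2 - a 2) = (1 - ip a b) * (c 2 - a 2) := by
    unfold ip at *
    linear_combination (-(a 0)) * c1 + a 1 * c0 + (c 2 - b 2) * ha
  have k3 : (1 - ip a c) ^ 2 * (2 * (1 - ip a b)) = (1 - ip a b) ^ 2 * (2 * (1 - ip a c)) := by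
    have e1 : 2 * (1 - ip a b) = (b 0 - a 0) ^ 2 + (b 1 - a 1) ^ 2 + (b 2 - a 2) ^ 2 := by
      unfold ip at *; linear_combination (-1) * ha - hb
    have e2 : 2 * (1 - ip a c) = (c 0 - a 0) ^ 2 + (c 1 - a 1) ^ 2 + (c 2 - a 2) ^ 2 := by
      unfold ip at *; linear_combination (-1) * ha - hc
    calc _ = ((1 - ip a c) * (b 0 - a 0)) ^ 2 + ((1 - ip a c) * (b 1 - a 1)) ^ 2
          + ((1 - ip a c) * (b 2 - a 2)) ^ 2 := by rw [e1]; ring
      _ = _ := by rw [k0, k1, k2, e2]; ring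
  have k4 : 1 - ip a c = 1 - ip a b := by
    have : (1 - ip a c) * (1 - ip a b) * ((1 - ip a c) - (1 - ip a b)) = 0 := by
      linear_combination k3 / 2
    rcases mul_eq_zero.mp this with h | h
    · exact absurd h (mul_pos v0 u0).ne'
    · linarith
  rw [k4] at k0 k1 k2
  funext i
  fin_cases i
  · exact sub_left_inj.mp (mul_left_cancel₀ u0.ne' k0)
  · exact sub_left_inj.mp (mul_left_cancel₀ u0.ne' k1)
  · exact sub_left_inj.mp (mul_left_cancel₀ u0.ne' k2)

theorem T4_crs (a b c x : V) : T4 a b c x = det3 a b c - ip (crs (b - a) (c - a)) x := by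
  simp only [T4, det3, ip, crs, Pi.sub_apply, Matrix.cons_val_zero, Matrix.cons_val_one,
    Matrix.cons_val_two, Matrix.head_cons, Matrix.tail_cons]
  ring

theorem ip_smul_left (t : ℝ) (x y : V) : ip (t • x) y = t * ip x y := by
  simp only [ip, Pi.smul_apply, smul_eq_mul]; ring

theorem ip_smul_right (t : ℝ) (x y : V) : ip x (t • y) = t * ip x y := by
  simp only [ip, Pi.smul_apply, smul_eq_mul]; ring

theorem exists_mesh {n : ℕ} (h4 : 4 ≤ n) (p : Fin n → V) (hu : ∀ i, ip (p i) (p i) = 1)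
    (hinj : Function.Injective p)
    (h0 : ∃ ε : ℝ, 0 < ε ∧ ∀ x : V, ip x x ≤ ε → x ∈ convexHull ℝ (range p)) :
    ∃ (Φ : Type) (_ : Fintype Φ) (M : Mesh (Fin n) Φ), M.p = p := by
  classical
  have h4' : 4 ≤ Fintype.card (Fin n) := by simpa using h4
  obtain ⟨pos, hfr⟩ := exists_freq (l := 𝓝[≠] (0 : ℝ))
    (P := fun t pos => Gen (pert p t) ∧ posq (pert p t) = pos)
    ((ev_gen p).mono fun t ht => ⟨_, ht, rfl⟩)
  set l : Filter ℝ := 𝓝[≠] (0 : ℝ) ⊓ 𝓟 {t | Gen (pert p t) ∧ posq (pert p t) = pos} with hl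
  have : l.NeBot := frequently_iff_neBot.mp hfr
  have hev : ∀ᶠ t in l, Gen (pert p t) ∧ posq (pert p t) = pos :=
    eventually_inf_principal.mpr (Eventually.of_forall fun _ h => h)
  have hle : l ≤ 𝓝 0 := inf_le_left.trans nhdsWithin_le_nhds
  have lim : ∀ {X : Type} [TopologicalSpace X] (f : ℝ → X), Continuous f →
      Tendsto f l (𝓝 (f 0)) := fun f hf => (hf.tendsto 0).mono_left hle
  have evlt : ∀ f g : ℝ → ℝ, Continuous f → Continuous g → f 0 < g 0 → ∀ᶠ t in l, f t < g t :=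
    fun f g hf hg h => (lim f hf).eventually_lt (lim g hg) h
  have cp := cont_pert p
  have hcomb : Comb pos := by
    obtain ⟨t, h1, h2⟩ := hev.exists
    exact h2 ▸ h1.comb h4'
  have hweak : ∀ {a b c d}, pos a b c d → 0 ≤ T4 (p a) (p b) (p c) (p d) := by
    intro a b c d h
    have h1 := lim (fun t => T4 (pert p t a) (pert p t b) (pert p t c) (pert p t d)) (by
      simp only [T4, det3, Pi.sub_apply]; fun_prop)
    simp only [pert_zero] at h1
    refine ge_of_tendsto h1 (hev.mono fun t ht => ?_)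
    rw [← ht.2] at h
    exact le_of_lt h
  have hw : ∀ a b c, Face pos a b c → ∀ l, 0 ≤ T4 (p a) (p b) (p c) (p l) := by
    intro a b c hf l
    by_cases h1 : l = a
    · rw [h1, T4_self1]
    by_cases h2 : l = b
    · rw [h2, T4_self2]
    by_cases h3 : l = c
    · rw [h3, T4_self3]
    exact hweak (hf.2.2.2 l h1 h2 h3)
  have hD : ∀ a b c, Face pos a b c → 0 < det3 (p a) (p b) (p c) := by
    intro a b c hf
    obtain ⟨ε, hε, hb⟩ := h0
    set N := crs (p b - p a) (p c - p a) with hN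
    have hN0 : 0 < ip N N := crs_ne (hu a) (hu b) (hu c) (hinj.ne hf.1) (hinj.ne hf.2.1)
      (hinj.ne hf.2.2.1)
    have hq : 0 < ε / ip N N := div_pos hε hN0
    obtain ⟨w, w0, w1, e⟩ := mem_hull p (hb (√(ε / ip N N) • N) (by
      rw [ip_smul_left, ip_smul_right, ← mul_assoc, Real.mul_self_sqrt hq.le,
        div_mul_cancel₀ _ hN0.ne']))
    have h1 : 0 ≤ T4 (p a) (p b) (p c) (√(ε / ip N N) • N) := by
      rw [e, T4_sum _ _ _ _ w1]
      exact Finset.sum_nonneg fun i _ => mul_nonneg (w0 i) (hw a b c hf i)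
    rw [T4_crs, ip_smul_right] at h1
    have := mul_pos (Real.sqrt_pos.mpr hq) hN0
    linarith
  have cover : ∀ x ∈ convexHull ℝ (range p),
      ∃ a b c, Face pos a b c ∧ x ∈ Spx 0 (p a) (p b) (p c) := by
    intro x hx
    obtain ⟨w, w0, w1, rfl⟩ := mem_hull p hx
    have hDt : ∀ᶠ t in l, ∀ a b c, Face pos a b c →
        0 < det3 (pert p t a) (pert p t b) (pert p t c) := by
      simp only [eventually_all]
      intro a b c hf
      exact evlt (fun _ => 0) (fun t => det3 (pert p t a) (pert p t b) (pert p t c))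
        continuous_const (by simp only [det3]; fun_prop) (by simpa [pert_zero] using hD a b c hf)
    obtain ⟨⟨a, b, c⟩, hf⟩ := exists_freq (l := l) (α := Fin n × Fin n × Fin n)
      (P := fun t f => Face pos f.1 f.2.1 f.2.2 ∧ (∑ i, w i • pert p t i) ∈
        Spx 0 (pert p t f.1) (pert p t f.2.1) (pert p t f.2.2))
      ((hev.and hDt).mono fun t ht => by
        obtain ⟨a, b, c, h⟩ := cover_of_closed (q := pert p t) h4' 0 (∑ i, w i • pert p t i) (by
            intro a b c hf
            rw [ht.1.2] at hf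
            simpa [T4] using ht.2 a b c hf)
          (by
            intro a b c hf
            rw [T4_sum _ _ _ _ w1]
            exact Finset.sum_nonneg fun i _ => mul_nonneg (w0 i) (face_nonneg hf i))
          (Face pos) hcomb.ex (by rw [ht.1.2]; exact fun _ _ _ h => h)
          (fun _ _ _ h => hcomb.face_rot h) (fun _ _ _ h => hcomb.nb h)
        exact ⟨(a, b, c), h⟩)
    obtain ⟨t0, hF, -⟩ := hf.exists
    refine ⟨a, b, c, hF, ?_⟩
    have cp' : ∀ i, Continuous fun t => pert p t i := fun i => continuous_pi (cp i)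
    have h1 := lim (fun t => ((∑ i, w i • pert p t i, 0,
      pert p t a, pert p t b, pert p t c) : V × V × V × V × V)) (by fun_prop)
    have h2 := isClosed_Spx.mem_of_frequently_of_tendsto (hf.mono fun t ht => ht.2) h1
    simpa only [pert_zero, mem_ofPred_eq] using h2
  let Φ : Type := {x : Fin n × Fin n × Fin n // Face pos x.1 x.2.1 x.2.2}
  let φ : Equiv.Perm Φ :=
    { toFun := fun d => ⟨(d.1.2.1, d.1.2.2, d.1.1), hcomb.face_rot d.2⟩
      invFun := fun d => ⟨(d.1.2.2, d.1.1, d.1.2.1), hcomb.face_rot (hcomb.face_rot d.2)⟩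
      left_inv := fun _ => rfl
      right_inv := fun _ => rfl }
  let s0 : Φ → Φ := fun d => ⟨(d.1.2.1, d.1.1, (hcomb.nb d.2).choose), (hcomb.nb d.2).choose_spec⟩
  have hs0 : Function.Involutive s0 := by
    rintro ⟨⟨a, b, c⟩, h⟩
    refine Subtype.ext (Prod.ext rfl (Prod.ext rfl ?_))
    exact hcomb.face_unique (s0 (s0 ⟨(a, b, c), h⟩)).2 h
  refine ⟨Φ, inferInstance, ⟨p, fun d => d.1.1, φ, hs0.toPerm s0, fun _ => rfl, hs0,
    fun _ => rfl, hu, hinj, h0, fun d => hD _ _ _ d.2, fun d l => hw _ _ _ d.2 l, ?_, ?_, ?_, ?_⟩,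
    rfl⟩
  · rintro ⟨⟨a, b, c⟩, F⟩ ⟨⟨a', b', c'⟩, F'⟩ x h1 h2 h3 k1 k2 k3
    change 0 < det3 x (p b) (p c) at h1
    change 0 < det3 (p a) x (p c) at h2
    change 0 < det3 (p a) (p b) x at h3
    change 0 < det3 x (p b') (p c') at k1
    change 0 < det3 (p a') x (p c') at k2
    change 0 < det3 (p a') (p b') x at k3
    have e1 : ∀ b c, 0 < det3 x (p b) (p c) → ∀ᶠ t in l, 0 < det3 x (pert p t b) (pert p t c) :=
      fun b c h => evlt (fun _ => 0) (fun t => det3 x (pert p t b) (pert p t c))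
        continuous_const (by simp only [det3]; fun_prop) (by simpa [pert_zero] using h)
    have e2 : ∀ b c, 0 < det3 (p b) x (p c) → ∀ᶠ t in l, 0 < det3 (pert p t b) x (pert p t c) :=
      fun b c h => evlt (fun _ => 0) (fun t => det3 (pert p t b) x (pert p t c))
        continuous_const (by simp only [det3]; fun_prop) (by simpa [pert_zero] using h)
    have e3 : ∀ b c, 0 < det3 (p b) (p c) x → ∀ᶠ t in l, 0 < det3 (pert p t b) (pert p t c) x :=
      fun b c h => evlt (fun _ => 0) (fun t => det3 (pert p t b) (pert p t c) x)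
        continuous_const (by simp only [det3]; fun_prop) (by simpa [pert_zero] using h)
    obtain ⟨t, ⟨ht, g1, g2, g3⟩, g4, g5, g6⟩ := ((hev.and ((e1 _ _ h1).and ((e2 _ _ h2).and
      (e3 _ _ h3)))).and ((e1 _ _ k1).and ((e2 _ _ k2).and (e3 _ _ k3)))).exists
    have G := F
    have G' := F'
    simp only at G G'
    rw [← ht.2] at G G'
    obtain ⟨ha, hb, hc⟩ := strict_disj G G' x g1 g2 g3 g4 g5 g6
    have d1 := hD _ _ _ F
    have d2 := hD _ _ _ F'
    have n1 := F'.1
    have n2 := F'.2.1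
    have n3 := F'.2.2.1
    simp only at d1 d2 n1 n2 n3
    rcases ha with rfl | rfl | rfl <;> rcases hb with rfl | rfl | rfl <;>
      rcases hc with rfl | rfl | rfl <;>
      first
      | exact absurd rfl n1
      | exact absurd rfl n2
      | exact absurd rfl n3
      | exact Or.inl rfl
      | exact Or.inr (Or.inl rfl)
      | exact Or.inr (Or.inr rfl)
      | (exfalso; unfold det3 at d1 d2; linarith)
  · intro x hx
    obtain ⟨a, b, c, h, hx⟩ := cover x hx
    exact ⟨⟨(a, b, c), h⟩, hx⟩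
  · have := hcomb.card (Finset.univ.image fun d : Φ => (d.1.1, d.1.2.1)) (by
      intro e he
      obtain ⟨d, -, rfl⟩ := Finset.mem_image.mp he
      exact ⟨_, d.2⟩)
    rwa [Finset.card_image_of_injective _ (by
      rintro ⟨⟨a, b, c⟩, F⟩ ⟨⟨a', b', c'⟩, F'⟩ h
      obtain ⟨rfl, rfl⟩ := Prod.mk.inj h
      exact Subtype.ext (Prod.ext rfl (Prod.ext rfl (hcomb.face_unique F F')))),
      Finset.card_univ] at this
  · rintro c ⟨⟨v, a, b⟩, F⟩ ⟨⟨v', a', b'⟩, F'⟩ e h1 h2 h3 h4
    change v = v' at e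
    subst e
    change ip c (p a) < ip c (p v) at h1
    change ip c (p v) < ip c (p b) at h2
    change ip c (p a') < ip c (p v) at h3
    change ip c (p v) < ip c (p b') at h4
    have e1 : ∀ a b, ip c (p a) < ip c (p b) →
        ∀ᶠ t in l, ip c (pert p t a) < ip c (pert p t b) :=
      fun a b h => evlt (fun t => ip c (pert p t a)) (fun t => ip c (pert p t b))
        (by simp only [ip]; fun_prop) (by simp only [ip]; fun_prop) (by simpa [pert_zero] using h)
    obtain ⟨t, ⟨ht, g1, g2⟩, g3, g4⟩ := ((hev.and ((e1 _ _ h1).and (e1 _ _ h2))).and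
      ((e1 _ _ h3).and (e1 _ _ h4))).exists
    have G := F
    have G' := F'
    simp only at G G'
    rw [← ht.2] at G G'
    obtain ⟨rfl, rfl⟩ := strict_upx G G' c g1 g2 g3 g4
    rfl

end Pool.Agent.MP_2ab689_gt.Big
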