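import Mathlib.Analysis.Convex.Measure
import Pool.Agent.MP_2ab689_gt.Big.Mesh

/-!
Basic facts on meshes: abbreviations, Euclidean length, packing and covering.
-/

namespace Pool.Agent.MP_2ab689_gt.Big

open MeasureTheory Set

/-- Euclidean length. -/
noncomputable def nv (x : V) : ℝ := ‖(WithLp.toLp 2 x : E3)‖

theorem nv_sq (x : V) : nv x ^ 2 = ip x x := norm_sq_E3 _
theorem nv_nonneg (x : V) : 0 ≤ nv x := norm_nonneg _
theorem nv_add (x y : V) : nv (x + y) ≤ nv x + nv y := by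
  unfold nv; rw [WithLp.toLp_add]; exact norm_add_le _ _
theorem nv_neg (x : V) : nv (-x) = nv x := by
  unfold nv; rw [WithLp.toLp_neg]; exact norm_neg _
theorem nv_sub_comm (x y : V) : nv (x - y) = nv (y - x) := by rw [← nv_neg, neg_sub]
theorem nv_smul (t : ℝ) (x : V) : nv (t • x) = |t| * nv x := by
  unfold nv; rw [WithLp.toLp_smul, norm_smul, Real.norm_eq_abs]
theorem nv_zero : nv 0 = 0 := by simp [nv]
theorem nv_tri (x y z : V) : nv (x - z) ≤ nv (x - y) + nv (y - z) := by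
  have := nv_add (x - y) (y - z)
  rwa [sub_add_sub_cancel] at this
theorem nv_le_iff {x : V} {a : ℝ} (ha : 0 ≤ a) : nv x ≤ a ↔ ip x x ≤ a ^ 2 := by
  rw [← nv_sq, pow_le_pow_iff_left₀ (nv_nonneg x) ha two_ne_zero]
theorem nv_eq_one {x : V} (h : ip x x = 1) : nv x = 1 := by
  rw [← nv_sq] at h
  exact (pow_eq_one_iff_of_nonneg (nv_nonneg x) two_ne_zero).mp h
theorem ip_sq_le (x y : V) : ip x y ^ 2 ≤ ip x x * ip y y := by
  unfold ip
  nlinarith [sq_nonneg (x 0 * y 1 - x 1 * y 0), sq_nonneg (x 0 * y 2 - x 2 * y 0),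
    sq_nonneg (x 1 * y 2 - x 2 * y 1)]
theorem abs_ip_le (x y : V) : |ip x y| ≤ nv x * nv y := by
  refine abs_le_of_sq_le_sq' ?_ (mul_nonneg (nv_nonneg x) (nv_nonneg y)) |> abs_le.mpr
  rw [mul_pow, nv_sq, nv_sq]
  exact ip_sq_le x y
theorem ip_le_nv (x y : V) : ip x y ≤ nv x * nv y := (le_abs_self _).trans (abs_ip_le x y)
theorem ip_add_left (x y z : V) : ip (x + y) z = ip x z + ip y z := by
  simp only [ip, Pi.add_apply]; ring
theorem ip_add_right (x y z : V) : ip x (y + z) = ip x y + ip x z := by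
  simp only [ip, Pi.add_apply]; ring
theorem ip_sub_left (x y z : V) : ip (x - y) z = ip x z - ip y z := by
  simp only [ip, Pi.sub_apply]; ring
theorem ip_sub_right (x y z : V) : ip x (y - z) = ip x y - ip x z := by
  simp only [ip, Pi.sub_apply]; ring
theorem ip_sub_unit {a b : V} (ha : ip a a = 1) (hb : ip b b = 1) :
    ip (a - b) (a - b) = 2 - 2 * ip a b := by
  rw [ip_sub_left, ip_sub_right, ip_sub_right, ha, hb, ip_comm b a]; ring
theorem det3_sq (a b c : V) : det3 a b c ^ 2 = ip a a * ip b b * ip c c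
    + 2 * ip a b * ip b c * ip c a - ip a a * ip b c ^ 2 - ip b b * ip c a ^ 2
    - ip c c * ip a b ^ 2 := by
  unfold det3 ip; ring
theorem abs_det3_le (a b c : V) : |det3 a b c| ≤ nv a * nv b * nv c := by
  refine abs_le.mpr (abs_le_of_sq_le_sq' ?_
    (mul_nonneg (mul_nonneg (nv_nonneg a) (nv_nonneg b)) (nv_nonneg c)))
  rw [mul_pow, mul_pow, nv_sq, nv_sq, nv_sq]
  have e : det3 a b c = ip (crs a b) c := by
    simp only [det3, ip, crs, Matrix.cons_val_zero, Matrix.cons_val_one, Matrix.cons_val_two,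
      Matrix.head_cons, Matrix.tail_cons]; ring
  have e2 : ip (crs a b) (crs a b) = ip a a * ip b b - ip a b ^ 2 := by
    simp only [ip, crs, Matrix.cons_val_zero, Matrix.cons_val_one, Matrix.cons_val_two,
      Matrix.head_cons, Matrix.tail_cons]; ring
  rw [e]
  refine (ip_sq_le _ _).trans (mul_le_mul_of_nonneg_right ?_ (ip_self_nonneg c))
  rw [e2]
  linarith [sq_nonneg (ip a b)]

theorem sum_vol_le {Φ : Type} (S : Finset Φ) (B : Φ → Set V)
    (hB : ∀ d ∈ S, NullMeasurableSet (B d) volume) (U : Set V) (hsub : ∀ d ∈ S, B d ⊆ U) (k : ℕ)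
    (hk : ∀ x, ∀ T ⊆ S, (∀ d ∈ T, x ∈ B d) → T.card ≤ k) :
    ∑ d ∈ S, volume (B d) ≤ k * volume U := by
  classical
  have h1 : ∑ d ∈ S, volume (B d) = ∫⁻ x, ∑ d ∈ S, (B d).indicator 1 x := by
    rw [lintegral_finsetSum' (f := fun d => (B d).indicator (1 : V → ENNReal)) _
      fun d hd => (aemeasurable_const.indicator₀ (hB d hd))]
    exact Finset.sum_congr rfl fun d hd => (lintegral_indicator_one₀ (hB d hd)).symm
  have hm : NullMeasurableSet (⋃ d ∈ S, B d) volume := S.nullMeasurableSet_biUnion hB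
  have h2 : ∀ x, ∑ d ∈ S, (B d).indicator (1 : V → ENNReal) x ≤
      (⋃ d ∈ S, B d).indicator (fun _ => (k : ENNReal)) x := by
    intro x
    by_cases hx : x ∈ ⋃ d ∈ S, B d
    · rw [indicator_of_mem hx]
      simp only [indicator_apply, Pi.one_apply]
      rw [Finset.sum_boole]
      exact_mod_cast hk x _ (Finset.filter_subset _ _) fun d hd => (Finset.mem_filter.mp hd).2
    · rw [indicator_of_notMem hx, Finset.sum_eq_zero]
      intro d hd
      exact indicator_of_notMem (fun h => hx (mem_biUnion hd h)) _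
  rw [h1]
  refine (lintegral_mono h2).trans ?_
  rw [lintegral_indicator_const₀ hm]
  gcongr
  exact iUnion₂_subset hsub

theorem le_sum_vol {Φ : Type} (S : Finset Φ) (B : Φ → Set V)
    (hB : ∀ d ∈ S, NullMeasurableSet (B d) volume) (U : Set V) (k : ℕ)
    (hk : ∀ x ∈ U, ∃ T ⊆ S, (∀ d ∈ T, x ∈ B d) ∧ k ≤ T.card) :
    k * volume U ≤ ∑ d ∈ S, volume (B d) := by
  classical
  have hm : ∀ d ∈ S, AEMeasurable ((B d).indicator (1 : V → ENNReal)) volume :=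
    fun d hd => aemeasurable_const.indicator₀ (hB d hd)
  have h1 : ∑ d ∈ S, volume (B d) = ∫⁻ x, ∑ d ∈ S, (B d).indicator 1 x := by
    rw [lintegral_finsetSum' _ hm]
    exact Finset.sum_congr rfl fun d hd => (lintegral_indicator_one₀ (hB d hd)).symm
  rw [h1]
  refine le_trans ?_ (mul_meas_ge_le_lintegral₀ (Finset.aemeasurable_fun_sum S hm) k)
  gcongr
  intro x hx
  obtain ⟨T, hT, h2, h3⟩ := hk x hx
  simp only [mem_ofPred_eq, indicator_apply, Pi.one_apply]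
  rw [Finset.sum_boole]
  exact_mod_cast h3.trans (Finset.card_le_card fun d hd => Finset.mem_filter.mpr ⟨hT hd, h2 d hd⟩)

theorem convex_aff (g a b c : V) {s : Set V} (hs : Convex ℝ s) : Convex ℝ (aff g a b c '' s) := by
  rintro _ ⟨x, hx, rfl⟩ _ ⟨y, hy, rfl⟩ α β hα hβ hαβ
  refine ⟨α • x + β • y, hs hx hy hα hβ hαβ, ?_⟩
  funext i
  simp only [aff, Pi.add_apply, Pi.smul_apply, Pi.sub_apply, smul_eq_mul]
  linear_combination (-(g i)) * hαβ

theorem convex_stdO : Convex ℝ stdO := by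
  rintro x ⟨h0, h1, h2, h3⟩ y ⟨k0, k1, k2, k3⟩ α β hα hβ hαβ
  have key : ∀ u v : ℝ, 0 < u → 0 < v → 0 < α * u + β * v := by
    intro u v hu hv
    rcases hα.lt_or_eq with h | h
    · have := mul_pos h hu
      have := mul_nonneg hβ hv.le
      linarith
    · rw [← h] at hαβ ⊢
      have : β = 1 := by linarith
      rw [this]; linarith
  refine ⟨key _ _ h0 k0, key _ _ h1 k1, key _ _ h2 k2, ?_⟩
  have := key _ _ (sub_pos.mpr h3) (sub_pos.mpr k3)
  simp only [Pi.add_apply, Pi.smul_apply, smul_eq_mul]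
  nlinarith

theorem convex_stdC : Convex ℝ stdC := by
  rintro x ⟨h0, h1, h2, h3⟩ y ⟨k0, k1, k2, k3⟩ α β hα hβ hαβ
  simp only [stdC, mem_ofPred_eq, Pi.add_apply, Pi.smul_apply, smul_eq_mul]
  refine ⟨by positivity, by positivity, by positivity, ?_⟩
  nlinarith [mul_le_mul_of_nonneg_left h3 hα, mul_le_mul_of_nonneg_left k3 hβ]

namespace Mesh

variable {ι Φ : Type} [Fintype ι] [Fintype Φ] (M : Mesh ι Φ)

/-- First vertex. -/
def A (d : Φ) : V := M.p (M.tl d)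
/-- Second vertex. -/
def B (d : Φ) : V := M.p (M.tl (M.φ d))
/-- Third vertex. -/
def C (d : Φ) : V := M.p (M.tl (M.φ (M.φ d)))
/-- Six times the volume of the cone over the face. -/
def D (d : Φ) : ℝ := det3 (M.A d) (M.B d) (M.C d)
/-- Rotation about the first vertex. -/
def r : Equiv.Perm Φ := M.s * M.φ⁻¹
/-- Squared length of the first edge. -/
def sq (d : Φ) : ℝ := ip (M.A d - M.B d) (M.A d - M.B d)
/-- The polytope. -/
def hull : Set V := convexHull ℝ (range M.p)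
/-- Its volume. -/
noncomputable def vol : ℝ := (volume M.hull).toReal

theorem φ_inv (d : Φ) : M.φ⁻¹ d = M.φ (M.φ d) := by
  rw [Equiv.Perm.inv_eq_iff_eq, M.φ3]
theorem r_apply (d : Φ) : M.r d = M.s (M.φ (M.φ d)) := by
  rw [r, Equiv.Perm.mul_apply, φ_inv]
theorem tl_φs (d : Φ) : M.tl (M.φ (M.s d)) = M.tl d := by rw [← M.tl_s, M.s2]
theorem tl_r (d : Φ) : M.tl (M.r d) = M.tl d := by rw [r_apply, M.tl_s, M.φ3]
theorem tl_φr (d : Φ) : M.tl (M.φ (M.r d)) = M.tl (M.φ (M.φ d)) := by rw [r_apply, tl_φs]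
theorem r_φ (d : Φ) : M.r (M.φ d) = M.s d := by rw [r_apply, M.φ3]
theorem s_r (d : Φ) : M.s (M.r d) = M.φ (M.φ d) := by rw [r_apply, M.s2]
theorem A_φ (d : Φ) : M.A (M.φ d) = M.B d := rfl
theorem B_φ (d : Φ) : M.B (M.φ d) = M.C d := rfl
theorem C_φ (d : Φ) : M.C (M.φ d) = M.A d := by rw [C, M.φ3, A]
theorem A_s (d : Φ) : M.A (M.s d) = M.B d := by rw [A, M.tl_s, B]
theorem B_s (d : Φ) : M.B (M.s d) = M.A d := by rw [B, tl_φs, A]
theorem A_r (d : Φ) : M.A (M.r d) = M.A d := by rw [A, tl_r, A]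
theorem B_r (d : Φ) : M.B (M.r d) = M.C d := by rw [B, tl_φr, C]
theorem D_φ (d : Φ) : M.D (M.φ d) = M.D d := by rw [D, A_φ, B_φ, C_φ, det3_rot, D]
theorem D_pos (d : Φ) : 0 < M.D d := M.Dpos d
theorem uA (d : Φ) : ip (M.A d) (M.A d) = 1 := M.unit _
theorem uB (d : Φ) : ip (M.B d) (M.B d) = 1 := M.unit _
theorem uC (d : Φ) : ip (M.C d) (M.C d) = 1 := M.unit _
theorem sq_eq (d : Φ) : M.sq d = 2 - 2 * ip (M.A d) (M.B d) := ip_sub_unit (M.uA d) (M.uB d)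
theorem sq_φ (d : Φ) : M.sq (M.φ d) = 2 - 2 * ip (M.B d) (M.C d) := M.sq_eq _
theorem sq_φφ (d : Φ) : M.sq (M.φ (M.φ d)) = 2 - 2 * ip (M.C d) (M.A d) := by
  rw [sq_eq, B_φ, C_φ]; rfl
theorem sq_s (d : Φ) : M.sq (M.s d) = M.sq d := by rw [sq_eq, sq_eq, A_s, B_s, ip_comm]
theorem sq_nonneg (d : Φ) : 0 ≤ M.sq d := ip_self_nonneg _
theorem tl_ne (d : Φ) : M.tl (M.φ d) ≠ M.tl d := by
  intro e
  have := M.Dpos d
  rw [e, det3_self12] at this
  exact lt_irrefl _ this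
theorem tl_ne' (d : Φ) : M.tl (M.φ (M.φ d)) ≠ M.tl d := by
  have := M.tl_ne (M.φ (M.φ d))
  rw [M.φ3] at this
  exact this.symm
theorem sum_φ (f : Φ → ℝ) : ∑ d, f (M.φ d) = ∑ d, f d := Equiv.sum_comp M.φ f
theorem sum_φφ (f : Φ → ℝ) : ∑ d, f (M.φ (M.φ d)) = ∑ d, f d := by
  rw [M.sum_φ fun d => f (M.φ d), M.sum_φ]
theorem sum_s (f : Φ → ℝ) : ∑ d, f (M.s d) = ∑ d, f d := Equiv.sum_comp M.s f
theorem convex_hull : Convex ℝ M.hull := convex_convexHull ℝ _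
theorem p_mem (i : ι) : M.p i ∈ M.hull := subset_convexHull ℝ _ (mem_range_self i)
theorem zero_mem : (0 : V) ∈ M.hull := by
  obtain ⟨ε, h, hb⟩ := M.ball
  exact hb 0 (by simpa [ip] using h.le)
theorem vol_ne_top : volume M.hull ≠ ⊤ :=
  ((finite_range M.p).isCompact_convexHull ℝ).measure_lt_top.ne
theorem T4_nonneg (d : Φ) {x : V} (hx : x ∈ M.hull) : 0 ≤ T4 (M.A d) (M.B d) (M.C d) x := by
  obtain ⟨w, w0, w1, rfl⟩ := mem_hull M.p hx
  rw [T4_sum _ _ _ _ w1]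
  exact Finset.sum_nonneg fun i _ => mul_nonneg (w0 i) (M.weak d i)

theorem cone_disj {d d' : Φ} {α β γ α' β' γ' : ℝ} (h1 : 0 < α) (h2 : 0 < β) (h3 : 0 < γ)
    (k1 : 0 < α') (k2 : 0 < β') (k3 : 0 < γ')
    (e : α • M.A d + β • M.B d + γ • M.C d = α' • M.A d' + β' • M.B d' + γ' • M.C d') :
    d' = d ∨ d' = M.φ d ∨ d' = M.φ (M.φ d) := by
  have key : ∀ (a b c : V) (α β γ : ℝ), det3 (α • a + β • b + γ • c) b c = α * det3 a b c ∧
      det3 a (α • a + β • b + γ • c) c = β * det3 a b c ∧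
      det3 a b (α • a + β • b + γ • c) = γ * det3 a b c := by
    intro a b c α β γ
    simp only [det3, Pi.add_apply, Pi.smul_apply, smul_eq_mul]
    refine ⟨by ring, by ring, by ring⟩
  obtain ⟨a1, a2, a3⟩ := key (M.A d) (M.B d) (M.C d) α β γ
  obtain ⟨b1, b2, b3⟩ := key (M.A d') (M.B d') (M.C d') α' β' γ'
  rw [← e] at b1 b2 b3
  exact M.disj d d' _ (a1 ▸ mul_pos h1 (M.D_pos d)) (a2 ▸ mul_pos h2 (M.D_pos d))
    (a3 ▸ mul_pos h3 (M.D_pos d)) (b1 ▸ mul_pos k1 (M.D_pos d')) (b2 ▸ mul_pos k2 (M.D_pos d'))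
    (b3 ▸ mul_pos k3 (M.D_pos d'))

/-- Packing bound, with the vertices scaled. -/
theorem pack_scaled (τ : ι → ℝ) (hτ : ∀ i, 0 < τ i) (S : Finset Φ) (U : Set V) {u : ℝ}
    (hu0 : 0 ≤ u) (hu : volume U ≤ ENNReal.ofReal u)
    (hU : ∀ d ∈ S, ∀ α β γ : ℝ, 0 < α → 0 < β → 0 < γ → α + β + γ < 1 →
      (α * τ (M.tl d)) • M.A d + (β * τ (M.tl (M.φ d))) • M.B d
        + (γ * τ (M.tl (M.φ (M.φ d)))) • M.C d ∈ U) :
    ∑ d ∈ S, τ (M.tl d) * τ (M.tl (M.φ d)) * τ (M.tl (M.φ (M.φ d))) * M.D d ≤ 18 * u := by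
  classical
  let Bd : Φ → Set V := fun d => aff 0 (τ (M.tl d) • M.A d) (τ (M.tl (M.φ d)) • M.B d)
    (τ (M.tl (M.φ (M.φ d))) • M.C d) '' stdO
  have hB : ∀ d, ∀ x ∈ Bd d, ∃ α β γ : ℝ, 0 < α ∧ 0 < β ∧ 0 < γ ∧ α + β + γ < 1 ∧
      x = (α * τ (M.tl d)) • M.A d + (β * τ (M.tl (M.φ d))) • M.B d
        + (γ * τ (M.tl (M.φ (M.φ d)))) • M.C d := by
    rintro d _ ⟨w, ⟨h0, h1, h2, h3⟩, rfl⟩
    exact ⟨w 0, w 1, w 2, h0, h1, h2, h3, by simp [aff, smul_smul]⟩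
  have h1 := sum_vol_le S Bd (fun d _ => (convex_aff _ _ _ _ convex_stdO).nullMeasurableSet _) U
    (fun d hd x hx => by
      obtain ⟨α, β, γ, a1, a2, a3, a4, rfl⟩ := hB d x hx
      exact hU d hd α β γ a1 a2 a3 a4) 3 (by
      intro x T _ hT
      rcases T.eq_empty_or_nonempty with rfl | ⟨d, hd⟩
      · simp
      refine (Finset.card_le_card (t := {d, M.φ d, M.φ (M.φ d)}) fun d' hd' => ?_).trans
        Finset.card_le_three
      obtain ⟨α, β, γ, a1, a2, a3, -, e⟩ := hB d x (hT d hd)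
      obtain ⟨α', β', γ', b1, b2, b3, -, e'⟩ := hB d' x (hT d' hd')
      simpa using M.cone_disj (mul_pos a1 (hτ _)) (mul_pos a2 (hτ _)) (mul_pos a3 (hτ _))
        (mul_pos b1 (hτ _)) (mul_pos b2 (hτ _)) (mul_pos b3 (hτ _)) (e.symm.trans e'))
  have hp : ∀ d, 0 < τ (M.tl d) * τ (M.tl (M.φ d)) * τ (M.tl (M.φ (M.φ d))) * M.D d := fun d =>
    mul_pos (mul_pos (mul_pos (hτ _) (hτ _)) (hτ _)) (M.D_pos d)
  have h2 : ∀ d, volume (Bd d) = ENNReal.ofReal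
      (τ (M.tl d) * τ (M.tl (M.φ d)) * τ (M.tl (M.φ (M.φ d))) * M.D d / 6) := by
    intro d
    have e : T4 (τ (M.tl d) • M.A d) (τ (M.tl (M.φ d)) • M.B d)
        (τ (M.tl (M.φ (M.φ d))) • M.C d) 0
        = τ (M.tl d) * τ (M.tl (M.φ d)) * τ (M.tl (M.φ (M.φ d))) * M.D d := by
      simp only [T4, D, det3, sub_zero, Pi.smul_apply, smul_eq_mul]; ring
    simp only [Bd]
    rw [vol_aff, vol_stdO, e, abs_of_pos (hp d), ← ENNReal.ofReal_mul (hp d).le]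
    congr 1
    ring
  simp only [h2] at h1
  rw [← ENNReal.ofReal_sum_of_nonneg fun d _ => (div_pos (hp d) (by norm_num)).le] at h1
  have h3 := h1.trans (mul_le_mul_right hu _)
  rw [show ((3 : ℕ) : ENNReal) = ENNReal.ofReal 3 by simp, ← ENNReal.ofReal_mul (by norm_num),
    ENNReal.ofReal_le_ofReal_iff (by positivity), ← Finset.sum_div] at h3
  linarith

/-- Packing bound. -/
theorem pack (S : Finset Φ) (U : Set V) {u : ℝ} (hu0 : 0 ≤ u) (hu : volume U ≤ ENNReal.ofReal u)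
    (hU : ∀ d ∈ S, ∀ α β γ : ℝ, 0 < α → 0 < β → 0 < γ → α + β + γ < 1 →
      α • M.A d + β • M.B d + γ • M.C d ∈ U) : ∑ d ∈ S, M.D d ≤ 18 * u := by
  simpa using M.pack_scaled (fun _ => 1) (fun _ => one_pos) S U hu0 hu (by simpa using hU)

theorem mem_Spx {a b c x : V} : x ∈ Spx 0 a b c ↔ ∃ α β γ : ℝ, 0 ≤ α ∧ 0 ≤ β ∧ 0 ≤ γ ∧
    α + β + γ ≤ 1 ∧ x = α • a + β • b + γ • c := by
  simp [Spx]

/-- Covering bound. -/
theorem cov (S : Finset Φ) (U : Set V) (hU : U ⊆ M.hull) {u : ℝ}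
    (hu : ENNReal.ofReal u ≤ volume U)
    (hS : ∀ d, ∀ α β γ : ℝ, 0 ≤ α → 0 ≤ β → 0 ≤ γ → α + β + γ ≤ 1 →
      α • M.A d + β • M.B d + γ • M.C d ∈ U → d ∈ S) : 18 * u ≤ ∑ d ∈ S, M.D d := by
  classical
  have hS' : ∀ d, ∀ x ∈ U, x ∈ Spx 0 (M.A d) (M.B d) (M.C d) → d ∈ S := by
    intro d x hx h
    obtain ⟨α, β, γ, a1, a2, a3, a4, rfl⟩ := mem_Spx.mp h
    exact hS d α β γ a1 a2 a3 a4 hx
  have h1 := le_sum_vol S (fun d => Spx 0 (M.A d) (M.B d) (M.C d)) (fun d _ => by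
    rw [Spx_eq]; exact (convex_aff _ _ _ _ convex_stdC).nullMeasurableSet _) U 3 (by
    intro x hx
    obtain ⟨d, hd⟩ := M.cover x (hU hx)
    have hd1 : x ∈ Spx 0 (M.A (M.φ d)) (M.B (M.φ d)) (M.C (M.φ d)) := by
      rw [C_φ]; exact Spx_rot hd
    have hd2 : x ∈ Spx 0 (M.A (M.φ (M.φ d))) (M.B (M.φ (M.φ d))) (M.C (M.φ (M.φ d))) := by
      rw [C_φ]; exact Spx_rot hd1
    refine ⟨{d, M.φ d, M.φ (M.φ d)}, ?_, ?_, ?_⟩
    · intro e he
      simp only [Finset.mem_insert, Finset.mem_singleton] at he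
      rcases he with rfl | rfl | rfl
      exacts [hS' _ x hx hd, hS' _ x hx hd1, hS' _ x hx hd2]
    · intro e he
      simp only [Finset.mem_insert, Finset.mem_singleton] at he
      rcases he with rfl | rfl | rfl
      exacts [hd, hd1, hd2]
    · refine (Finset.card_eq_three.mpr ⟨_, _, _, ?_, ?_, ?_, rfl⟩).ge
      · exact fun e => M.tl_ne d (by rw [← e])
      · exact fun e => M.tl_ne' d (by rw [← e])
      · exact fun e => M.tl_ne (M.φ d) (by rw [← e]))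
  have h2 : ∑ d ∈ S, volume (Spx 0 (M.A d) (M.B d) (M.C d)) ≤
      ENNReal.ofReal (∑ d ∈ S, M.D d / 6) := by
    rw [ENNReal.ofReal_sum_of_nonneg fun d _ => (div_pos (M.D_pos d) (by norm_num)).le]
    refine Finset.sum_le_sum fun d _ => ?_
    have e : T4 (M.A d) (M.B d) (M.C d) 0 = M.D d := by simp [T4, D]
    rw [← e]
    exact vol_Spx_le _ _ _ _ (e ▸ (M.D_pos d).le)
  have h3 := ((mul_le_mul_right hu _).trans h1).trans h2
  rw [show ((3 : ℕ) : ENNReal) = ENNReal.ofReal 3 by simp, ← ENNReal.ofReal_mul (by norm_num),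
    ENNReal.ofReal_le_ofReal_iff (Finset.sum_nonneg fun d _ =>
      (div_pos (M.D_pos d) (by norm_num)).le), ← Finset.sum_div] at h3
  linarith

theorem comb_mem (d : Φ) {α β γ : ℝ} (h1 : 0 ≤ α) (h2 : 0 ≤ β) (h3 : 0 ≤ γ)
    (h4 : α + β + γ ≤ 1) : α • M.A d + β • M.B d + γ • M.C d ∈ M.hull := by
  have := M.convex_hull.sum_mem (t := Finset.univ) (w := ![1 - α - β - γ, α, β, γ])
    (z := ![0, M.A d, M.B d, M.C d])
    (fun i _ => by fin_cases i <;> simp <;> linarith) (by simp [Fin.sum_univ_four]; ring)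
    (fun i _ => by fin_cases i <;> simp [M.zero_mem, A, B, C, M.p_mem])
  simpa [Fin.sum_univ_four] using this

theorem sum_D : ∑ d, M.D d = 18 * M.vol := by
  refine le_antisymm (M.pack _ M.hull ENNReal.toReal_nonneg
    (ENNReal.ofReal_toReal M.vol_ne_top).ge fun d _ α β γ h1 h2 h3 h4 =>
      M.comb_mem d h1.le h2.le h3.le h4.le) (M.cov _ M.hull subset_rfl
    (ENNReal.ofReal_toReal M.vol_ne_top).le fun d _ _ _ _ _ _ _ _ => Finset.mem_univ d)

/-- Near a vertex only the faces at that vertex are needed. -/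
theorem cover_at (v : ι) {y : V} (hy : y ∈ M.hull) : ∃ d, M.tl d = v ∧ ∃ t α β γ : ℝ, 0 < t ∧
    0 ≤ α ∧ 0 ≤ β ∧ 0 ≤ γ ∧ α + β + γ ≤ 1 ∧
    M.p v + t • (y - M.p v) = α • M.A d + β • M.B d + γ • M.C d := by
  open Filter Topology in
  obtain ⟨d, hd⟩ := exists_freq (l := 𝓝[>] (0 : ℝ)) (α := Φ)
    (P := fun t d => 0 < t ∧ M.p v + t • (y - M.p v) ∈ Spx 0 (M.A d) (M.B d) (M.C d)) (by
      filter_upwards [Ioo_mem_nhdsGT (zero_lt_one' ℝ)] with t ht
      obtain ⟨d, hd⟩ := M.cover _ (M.convex_hull.add_smul_sub_mem (M.p_mem v) hy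
        ⟨ht.1.le, ht.2.le⟩)
      exact ⟨d, ht.1, hd⟩)
  have h1 : Tendsto (fun t : ℝ => ((M.p v + t • (y - M.p v), 0, M.A d, M.B d, M.C d) :
      V × V × V × V × V)) (𝓝[>] 0) (𝓝 (M.p v + (0 : ℝ) • (y - M.p v), 0, M.A d, M.B d, M.C d)) :=
    (Continuous.tendsto (by fun_prop) 0).mono_left nhdsWithin_le_nhds
  have h2 := isClosed_Spx.mem_of_frequently_of_tendsto (hd.mono fun t ht => ht.2) h1
  simp only [zero_smul, add_zero, mem_ofPred_eq] at h2
  obtain ⟨t, ht, hx⟩ := hd.exists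
  obtain ⟨α, β, γ, a1, a2, a3, a4, e⟩ := mem_Spx.mp hx
  by_cases c1 : M.tl d = v
  · exact ⟨d, c1, t, α, β, γ, ht, a1, a2, a3, a4, e⟩
  by_cases c2 : M.tl (M.φ d) = v
  · exact ⟨M.φ d, c2, t, β, γ, α, ht, a2, a3, a1, by linarith, by
      rw [e, A_φ, B_φ, C_φ]; abel⟩
  by_cases c3 : M.tl (M.φ (M.φ d)) = v
  · exact ⟨M.φ (M.φ d), c3, t, γ, α, β, ht, a3, a1, a2, by linarith, by
      rw [e, A_φ, B_φ, C_φ, B_φ, C_φ, A_φ]; abel⟩
  exfalso
  obtain ⟨α, β, γ, a1, a2, a3, a4, e⟩ := mem_Spx.mp h2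
  have b1 := ip_lt_one (M.unit v) (M.uA d) (M.inj.ne (Ne.symm c1))
  have b2 := ip_lt_one (M.unit v) (M.uB d) (M.inj.ne (Ne.symm c2))
  have b3 := ip_lt_one (M.unit v) (M.uC d) (M.inj.ne (Ne.symm c3))
  have b4 := M.unit v
  nth_rewrite 2 [e] at b4
  rw [ip_add_right, ip_add_right, ip_smul_right, ip_smul_right, ip_smul_right] at b4
  have z1 : α * (1 - ip (M.p v) (M.A d)) = 0 := by
    nlinarith [mul_nonneg a1 (sub_pos.mpr b1).le, mul_nonneg a2 (sub_pos.mpr b2).le,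
      mul_nonneg a3 (sub_pos.mpr b3).le]
  have z2 : β * (1 - ip (M.p v) (M.B d)) = 0 := by
    nlinarith [mul_nonneg a1 (sub_pos.mpr b1).le, mul_nonneg a2 (sub_pos.mpr b2).le,
      mul_nonneg a3 (sub_pos.mpr b3).le]
  have z3 : γ * (1 - ip (M.p v) (M.C d)) = 0 := by
    nlinarith [mul_nonneg a1 (sub_pos.mpr b1).le, mul_nonneg a2 (sub_pos.mpr b2).le,
      mul_nonneg a3 (sub_pos.mpr b3).le]
  rw [(mul_eq_zero.mp z1).resolve_right (sub_pos.mpr b1).ne',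
    (mul_eq_zero.mp z2).resolve_right (sub_pos.mpr b2).ne',
    (mul_eq_zero.mp z3).resolve_right (sub_pos.mpr b3).ne'] at b4
  simp at b4

theorem exists_flag (v : ι) : ∃ d, M.tl d = v :=
  let ⟨d, h, _⟩ := M.cover_at v M.zero_mem
  ⟨d, h⟩

end Mesh

end Pool.Agent.MP_2ab689_gt.Big
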