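import Mathlib.Analysis.Complex.ExponentialBounds
import Pool.Agent.MP_2ab689_gt.Big.Spec

/-!
A logarithmic bound for the sum of the inverse squared distances to a point.
-/

namespace Pool.Agent.MP_2ab689_gt.Big

open Real

namespace Pack

theorem dyadic {x η : ℝ} (hη : 0 < η) (n : ℕ) (hn : x ≤ 2 ^ n * η) :
    1 / (x ^ 2 + η ^ 2) ≤
      ∑ k ∈ Finset.range (n + 1), if x ≤ 2 ^ k * η then 4 / (2 ^ k * η) ^ 2 else 0 := by
  have hex : ∃ k : ℕ, x ≤ 2 ^ k * η := ⟨n, hn⟩
  have h1 := Nat.find_spec hex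
  refine le_trans ?_ (Finset.single_le_sum (f := fun k : ℕ =>
    if x ≤ 2 ^ k * η then 4 / (2 ^ k * η) ^ 2 else 0) (a := Nat.find hex)
    (fun k _ => by positivity)
    (Finset.mem_range.mpr (Nat.lt_succ_of_le (Nat.find_min' hex hn))))
  simp only [if_pos h1]
  rw [div_le_div_iff₀ (by positivity) (by positivity), one_mul]
  rcases Nat.eq_zero_or_eq_succ_pred (Nat.find hex) with h | h
  · rw [h, pow_zero, one_mul]
    nlinarith [sq_nonneg x, sq_nonneg η]
  · have h2 := not_le.mp (Nat.find_min hex (m := (Nat.find hex).pred) (by omega))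
    rw [h, Nat.succ_eq_add_one, pow_succ (2 : ℝ)]
    have h3 : 0 ≤ 2 ^ (Nat.find hex).pred * η := by positivity
    have h4 := pow_le_pow_left₀ h3 h2.le 2
    nlinarith [sq_nonneg η]

end Pack

theorem packS : PackS := by
  classical
  refine ⟨20000, 1 / 3, by norm_num, by norm_num, fun ι Φ _ _ M h hF hh z hz => ?_⟩
  have h0 := hF.pos
  have hL : 1 ≤ log (1 / h) := by
    rw [le_log_iff_exp_le (by positivity), le_div_iff₀ h0]
    nlinarith [exp_one_lt_d9, exp_pos 1]
  set L := log (1 / h) with hL'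
  have hn : 1 / h ≤ 2 ^ ⌈2 * L⌉₊ := by
    rw [← log_le_log_iff (by positivity) (by positivity), log_pow, ← hL']
    have := mul_le_mul (Nat.le_ceil (2 * L)) (show (1 / 2 : ℝ) ≤ log 2 by
      linarith [log_two_gt_d9]) (by norm_num) (Nat.cast_nonneg _)
    linarith
  have hn2 : (⌈2 * L⌉₊ : ℝ) + 1 ≤ 4 * L := by
    have := Nat.ceil_lt_add_one (show 0 ≤ 2 * L by linarith)
    linarith
  generalize ⌈2 * L⌉₊ = n at hn hn2
  have hη : 0 < 480 * h := by positivity
  have h1 : ∀ d ∈ M.good h, 1 / (ip (M.A d - z) (M.A d - z) + (480 * h) ^ 2) ≤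
      ∑ k ∈ Finset.range (n + 1), if nv (M.A d - z) ≤ 2 ^ k * (480 * h)
        then 4 / (2 ^ k * (480 * h)) ^ 2 else 0 := by
    intro d _
    rw [← nv_sq]
    refine Pack.dyadic hη n ?_
    have a1 := nv_tri (M.A d) 0 z
    rw [sub_zero, zero_sub, nv_neg, nv_eq_one hz, nv_eq_one (M.uA d)] at a1
    rw [div_le_iff₀ h0] at hn
    nlinarith
  refine (Finset.sum_le_sum h1).trans ?_
  rw [Finset.sum_comm]
  have h2 : ∀ k ∈ Finset.range (n + 1), (∑ d ∈ M.good h, if nv (M.A d - z) ≤ 2 ^ k * (480 * h)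
      then 4 / (2 ^ k * (480 * h)) ^ 2 else 0) ≤ 5000 / h ^ 2 := by
    intro k _
    have b0 : (1 : ℝ) ≤ 2 ^ k := one_le_pow₀ one_le_two
    have b1 : 48 * h ≤ 2 ^ k * (480 * h) := by nlinarith
    generalize 2 ^ k * (480 * h) = ρ at b1
    have b2 : 0 < ρ := by linarith
    rw [← Finset.sum_filter, Finset.sum_const, nsmul_eq_mul]
    set S := (M.good h).filter fun d => nv (M.A d - z) ≤ ρ with hS
    have b3 := M.cap_chord' hz b2.le (by positivity) hF.edge S
      fun d hd => (Finset.mem_filter.mp hd).2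
    have b4 := Finset.card_nsmul_le_sum S M.D (√3 / 4 * h ^ 2) fun d hd => by
      have := (Finset.mem_filter.mp hd).1
      rw [Mesh.good, Finset.mem_filter] at this
      exact this.2
    rw [nsmul_eq_mul] at b4
    have b5 : (1 : ℝ) ≤ √3 := one_le_sqrt.mpr (by norm_num)
    have b6 : 0 ≤ (S.card : ℝ) * h ^ 2 := by positivity
    have b7 : (ρ + 48 * h) ^ 2 ≤ 4 * ρ ^ 2 := by nlinarith
    have b8 := mul_le_mul pi_le_four b7 (by positivity) (by norm_num)
    rw [mul_div_assoc', div_le_div_iff₀ (by positivity) (by positivity)]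
    nlinarith [mul_le_mul_of_nonneg_left b5 b6, sq_nonneg ρ]
  refine (Finset.sum_le_card_nsmul _ _ _ h2).trans ?_
  rw [Finset.card_range, nsmul_eq_mul, Nat.cast_succ, mul_div_assoc']
  exact div_le_div_of_nonneg_right (by linarith) (by positivity)

end Pool.Agent.MP_2ab689_gt.Big
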