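import Mathlib.Algebra.Order.Chebyshev
import Pool.Agent.MP_2ab689_gt.Big.Spec

/-!
A cap without defects and with small strain, by counting disjoint caps.
-/

namespace Pool.Agent.MP_2ab689_gt.Big

open MeasureTheory Real

namespace Pig

/-- Many well separated unit vectors. -/
theorem centres {g : ℝ} (h0 : 0 < g) (h1 : g ≤ 1 / 4) : ∃ (J : ℕ) (c : Fin J × Fin J → V),
    1 ≤ 4 * g * J ∧ (∀ k, ip (c k) (c k) = 1) ∧ ∀ k l, k ≠ l → g ≤ nv (c k - c l) := by
  have hf := Nat.floor_le (show 0 ≤ 1 / (2 * g) by positivity)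
  have hl := Nat.lt_floor_add_one (1 / (2 * g))
  rw [le_div_iff₀ (by positivity)] at hf
  rw [div_lt_iff₀ (by positivity)] at hl
  generalize ⌊1 / (2 * g)⌋₊ = J at hf hl
  have b : ∀ i : Fin J, 0 ≤ (i : ℝ) * g ∧ (i : ℝ) * g ≤ 1 / 2 := fun i => by
    have : ((i : ℕ) : ℝ) ≤ J := by exact_mod_cast i.2.le
    exact ⟨by positivity, by nlinarith⟩
  have s : ∀ i j : Fin J, i ≠ j → g ^ 2 ≤ ((i : ℝ) * g - (j : ℝ) * g) ^ 2 := fun i j e => by
    have e1 : ((i : ℕ) : ℤ) - (j : ℕ) ≠ 0 := fun e' => e (Fin.ext (by omega))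
    have e2 : (1 : ℤ) ≤ (((i : ℕ) : ℤ) - (j : ℕ)) ^ 2 := by
      have := sq_pos_of_ne_zero e1
      omega
    have e3 : (1 : ℝ) ≤ (((i : ℕ) : ℝ) - (j : ℕ)) ^ 2 := by exact_mod_cast e2
    nlinarith [sq_nonneg g]
  refine ⟨J, fun k => ![k.1 * g, k.2 * g, √(1 - (k.1 * g) ^ 2 - (k.2 * g) ^ 2)], ?_, fun k => ?_,
    fun k l e => ?_⟩
  · rcases Nat.eq_zero_or_pos J with rfl | hJ
    · simp at hl; linarith
    · have : (1 : ℝ) ≤ J := by exact_mod_cast hJ
      nlinarith
  · have := Real.mul_self_sqrt (show 0 ≤ 1 - ((k.1 : ℝ) * g) ^ 2 - ((k.2 : ℝ) * g) ^ 2 by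
      nlinarith [b k.1, b k.2])
    simp only [ip, Matrix.cons_val_zero, Matrix.cons_val_one, Matrix.cons_val_two,
      Matrix.head_cons, Matrix.tail_cons]
    linarith
  · refine (abs_le_of_sq_le_sq' ?_ (nv_nonneg _)).2
    rw [nv_sq]
    simp only [ip, Pi.sub_apply, Matrix.cons_val_zero, Matrix.cons_val_one, Matrix.cons_val_two,
      Matrix.head_cons, Matrix.tail_cons, ← sq]
    by_cases e1 : k.1 = l.1
    · have := s k.2 l.2 fun e2 => e (Prod.ext e1 e2)
      exact this.trans (le_add_of_le_of_nonneg (le_add_of_nonneg_left (sq_nonneg _)) (sq_nonneg _))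
    · exact (s k.1 l.1 e1).trans
        (le_add_of_le_of_nonneg (le_add_of_nonneg_right (sq_nonneg _)) (sq_nonneg _))

theorem generic {ι Φ : Type} [Fintype ι] [Fintype Φ] (M : Mesh ι Φ) {c : V} (hc : ip c c = 1)
    {ε : ℝ} (h0 : 0 < ε) (h1 : ε ≤ 1) :
    ∃ c' : V, ip c' c' = 1 ∧ M.Generic c' ∧ nv (c' - c) ≤ 2 * ε := by
  have ae : ∀ᵐ x : V, M.Generic x := by
    refine ae_all_iff.mpr fun i => ae_all_iff.mpr fun j => ?_
    by_cases e : i = j
    · exact ae_of_all _ fun _ h => absurd e h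
    let S : Submodule ℝ V :=
      { carrier := {x | ip x (M.p i - M.p j) = 0}
        add_mem' := fun {a b} ha hb => by
          simp only [Set.mem_ofPred_eq] at *
          rw [ip_add_left, ha, hb, add_zero]
        zero_mem' := by simp [ip]
        smul_mem' := fun t a ha => by
          simp only [Set.mem_ofPred_eq] at *
          rw [ip_smul_left, ha, mul_zero] }
    have hS : S ≠ ⊤ := fun h => by
      have h2 : M.p i - M.p j ∈ S := h ▸ Submodule.mem_top
      exact e (M.inj (sub_eq_zero.mp (eq_zero_of_ip (le_of_eq h2))))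
    filter_upwards [measure_eq_zero_iff_ae_notMem.mp (Measure.addHaar_submodule volume S hS)]
      with x hx _ h
    exact hx (show ip x (M.p i - M.p j) = 0 by rw [ip_sub_right, h, sub_self])
  obtain ⟨x, hx, h2⟩ := (Measure.dense_of_ae ae).exists_mem_open
    (U := {x | ip (x - c) (x - c) < ε ^ 2})
    (isOpen_lt (cont_ip2.comp (continuous_id.sub continuous_const)) continuous_const)
    ⟨c, by simp [ip]; positivity⟩
  have h3 : nv (x - c) < ε := by
    have h2 : ip (x - c) (x - c) < ε ^ 2 := h2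
    rw [← nv_sq] at h2
    exact lt_of_pow_lt_pow_left₀ 2 h0.le h2
  have h4 := nv_tri x c 0
  have h5 := nv_tri c x 0
  rw [sub_zero, sub_zero, nv_eq_one hc] at h4 h5
  rw [nv_sub_comm] at h5
  have p : 0 < nv x := by linarith
  refine ⟨(nv x)⁻¹ • x, ?_, fun i j e h => hx i j e ?_, ?_⟩
  · rw [ip_smul_left, ip_smul_right, ← nv_sq]
    field_simp
  · rw [ip_smul_left, ip_smul_left] at h
    exact mul_left_cancel₀ (inv_ne_zero p.ne') h
  · have h6 := nv_tri ((nv x)⁻¹ • x) x c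
    have h7 : (nv x)⁻¹ • x - x = ((nv x)⁻¹ - 1) • x := by rw [sub_smul, one_smul]
    have h8 : |(nv x)⁻¹ - 1| * nv x = |1 - nv x| := by
      rw [← abs_of_pos p, ← abs_mul, abs_of_pos p, sub_mul, inv_mul_cancel₀ p.ne', one_mul]
    rw [h7, nv_smul, h8] at h6
    have : |1 - nv x| ≤ ε := abs_le.mpr ⟨by linarith, by linarith⟩
    linarith

open Classical in
theorem disj_sum {α κ : Type} [Fintype α] [Fintype κ] (P : α → V) (c : κ → V) {g R : ℝ}
    (hR : 2 * R < g) (hc : ∀ k l, k ≠ l → g ≤ nv (c k - c l)) (w : α → ℝ) (hw : ∀ a, 0 ≤ w a) :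
    ∑ k, ∑ a ∈ Finset.univ.filter fun a => nv (P a - c k) ≤ R, w a ≤ ∑ a, w a := by
  rw [← Finset.sum_biUnion]
  · exact Finset.sum_le_sum_of_subset_of_nonneg (Finset.subset_univ _) fun a _ _ => hw a
  · intro k _ l _ e
    refine Finset.disjoint_filter.mpr fun a _ h1 h2 => ?_
    have := nv_tri (c k) (P a) (c l)
    rw [nv_sub_comm (c k) (P a)] at this
    linarith [hc k l e]

theorem abs_sum {ι Φ : Type} [Fintype ι] [Fintype Φ] (M : Mesh ι Φ) {h : ℝ} (F : M.Fine h) :
    h * ∑ d, |M.x h d| ≤ 10 * √(M.W h) := by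
  have h1 : (∑ d, |M.x h d|) ^ 2 ≤ Fintype.card Φ * M.W h := by
    simpa [Mesh.W] using sq_sum_le_card_mul_sum_sq (s := Finset.univ) (f := fun d => |M.x h d|)
  have h2 : (Fintype.card Φ : ℝ) + 12 ≤ 6 * Fintype.card ι := by exact_mod_cast M.card
  have h3 : (17 / 10 : ℝ) ≤ √3 := Real.le_sqrt_of_sq_le (by norm_num)
  have h4 := F.num
  have h5 : h ^ 2 * Fintype.card ι ≤ 16 := by
    have : 0 ≤ h ^ 2 * Fintype.card ι := by positivity
    nlinarith [pi_lt_d2]
  have hW : 0 ≤ M.W h := Finset.sum_nonneg fun d _ => sq_nonneg _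
  refine abs_le_of_sq_le_sq' ?_ (by positivity) |>.2
  rw [mul_pow, mul_pow, Real.sq_sqrt hW]
  have h6 : h ^ 2 * Fintype.card Φ ≤ 100 := by nlinarith [sq_nonneg h]
  nlinarith [mul_le_mul_of_nonneg_left h1 (sq_nonneg h), mul_le_mul_of_nonneg_right h6 hW]

end Pig

open Pig

theorem pigS (hC : CapS) : PigS := by
  classical
  obtain ⟨C, h0, C0, hh, H⟩ := hC
  refine ⟨(C + 1) * (20 * 4800 ^ 2), h0, by positivity, hh, fun ι Φ _ _ M h F hle r r0 r1 hd => ?_⟩
  obtain ⟨J, c, c1, c2, c3⟩ := centres (g := 1200 * r) (by positivity) (by linarith)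
  have hp := F.pos
  set n : ℝ := (J : ℝ) ^ 2 with hn
  have n1 : 1 ≤ 4800 ^ 2 * r ^ 2 * n := by nlinarith
  have n0 : 0 < n := by
    by_contra e
    nlinarith [mul_nonneg (sq_nonneg r) (neg_nonneg.mpr (not_lt.mp e))]
  set Y : ℝ := ∑ d, |M.x h d| with hY
  have Y0 : 0 ≤ Y := Finset.sum_nonneg fun d _ => abs_nonneg _
  set T : ℝ := 2 * Y / n + 1 / h with hT
  have T0 : 0 < T := by positivity
  have s1 := disj_sum M.A c (R := 550 * r) (by linarith) c3 (fun d => |M.x h d|)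
    fun _ => abs_nonneg _
  have s2 := disj_sum M.p c (R := 550 * r) (by linarith) c3
    (fun v => if M.deg v ≠ 6 then 1 else 0) fun _ => by positivity
  rw [Finset.sum_boole] at s2
  have d1 : 2 * (M.defects.card : ℝ) < n := by
    have e : 0 ≤ (M.defects.card : ℝ) * r ^ 2 := by positivity
    have : 4800 ^ 2 * r ^ 2 * (2 * (M.defects.card : ℝ)) < 4800 ^ 2 * r ^ 2 * n := by
      nlinarith [mul_nonneg C0.le e]
    exact lt_of_mul_lt_mul_left this (by positivity)
  obtain ⟨k, -, hk⟩ := Finset.exists_lt_of_sum_lt (s := Finset.univ) (g := fun _ => T)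
    (f := fun k => ∑ d ∈ M.near (c k) (550 * r), |M.x h d| + T *
      ∑ v ∈ Finset.univ.filter fun v => nv (M.p v - c k) ≤ 550 * r,
        if M.deg v ≠ 6 then (1 : ℝ) else 0) (by
      rw [Finset.sum_add_distrib, ← Finset.mul_sum, Finset.sum_const, Finset.card_univ,
        Fintype.card_prod, Fintype.card_fin, nsmul_eq_mul]
      have e1 : ((J * J : ℕ) : ℝ) = n := by rw [hn]; push_cast; ring
      have e2 : n * T = 2 * Y + n / h := by rw [hT]; field_simp
      have e3 : 0 < n / h := by positivity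
      have e4 := mul_le_mul_of_nonneg_left s2 T0.le
      have e5 := mul_lt_mul_of_pos_left d1 T0
      rw [e1]
      unfold Mesh.near
      unfold Mesh.defects at e5
      linarith)
  have k0 : 0 ≤ ∑ d ∈ M.near (c k) (550 * r), |M.x h d| := Finset.sum_nonneg fun _ _ => abs_nonneg _
  have k1 : 0 ≤ ∑ v ∈ Finset.univ.filter fun v => nv (M.p v - c k) ≤ 550 * r,
      if M.deg v ≠ 6 then (1 : ℝ) else 0 := Finset.sum_nonneg fun _ _ => by positivity
  obtain ⟨c', u1, u2, u3⟩ := generic M (c2 k) r0 (by linarith)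
  have tr : ∀ y : V, nv (y - c') ≤ 500 * r → nv (y - c k) ≤ 550 * r := fun y hy => by
    linarith [nv_tri y c' (c k)]
  have m := H ι Φ M h F hle c' r u1 u2 r0 (by linarith) fun v hv => by
    by_contra e
    have := Finset.single_le_sum (f := fun v => if M.deg v ≠ 6 then (1 : ℝ) else 0)
      (s := Finset.univ.filter fun v => nv (M.p v - c k) ≤ 550 * r) (a := v)
      (fun _ _ => by positivity) (Finset.mem_filter.mpr ⟨Finset.mem_univ _, tr _ hv.le⟩)
    rw [if_pos e] at this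
    nlinarith
  have m1 : ∑ d ∈ M.near c' (500 * r), |M.x h d| ≤ ∑ d ∈ M.near (c k) (550 * r), |M.x h d| :=
    Finset.sum_le_sum_of_subset_of_nonneg (fun d hd => Finset.mem_filter.mpr
      ⟨Finset.mem_univ _, tr _ (Finset.mem_filter.mp hd).2⟩) fun _ _ _ => abs_nonneg _
  have m2 : ∑ d ∈ M.near c' (500 * r), |M.x h d| ≤ T := by nlinarith [mul_nonneg T0.le k1]
  have m3 : h ^ 2 * T ≤ h + 20 * 4800 ^ 2 * (r ^ 2 * h * √(M.W h)) := by
    have e1 : h ^ 2 * T = h + 2 * h * (h * Y) / n := by rw [hT]; field_simp; ring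
    have e2 := abs_sum M F
    have e3 : 0 ≤ h * √(M.W h) := by positivity
    rw [e1, add_le_add_iff_left, div_le_iff₀ n0]
    nlinarith [mul_le_mul_of_nonneg_left e2 hp.le, mul_le_mul_of_nonneg_left n1 e3]
  have m4 := mul_le_mul_of_nonneg_left m2 (sq_nonneg h)
  have m5 : 0 ≤ r ^ 2 * h * √(M.W h) := by positivity
  have m6 := mul_le_mul_of_nonneg_left (show h + h ^ 2 * ∑ d ∈ M.near c' (500 * r), |M.x h d| ≤
    20 * 4800 ^ 2 * (h + r ^ 2 * h * √(M.W h)) by linarith) C0.le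
  nlinarith

theorem lowS : LowS := fun ι Φ _ _ M h => by
  classical
  have h1 : ∑ v, (M.deg v : ℝ) = Fintype.card Φ := by
    simpa [Mesh.deg] using M.sum_star fun _ => 1
  have h2 : ∑ v, ((if M.deg v ≠ 6 then (1 : ℝ) else 0) + (6 - M.deg v)) ≤
      ∑ v, 7 * if M.deg v ≤ 5 then (1 : ℝ) else 0 := Finset.sum_le_sum fun v _ => by
    have h0 : (0 : ℝ) ≤ M.deg v := by positivity
    split_ifs with a b b
    · linarith
    · have : (7 : ℝ) ≤ M.deg v := by exact_mod_cast (by omega : 7 ≤ M.deg v)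
      linarith
    · linarith
    · have : (M.deg v : ℝ) = 6 := by exact_mod_cast not_not.mp a
      linarith
  rw [Finset.sum_add_distrib, Finset.sum_sub_distrib, h1, ← Finset.mul_sum, Finset.sum_boole,
    Finset.sum_boole, Finset.sum_const, Finset.card_univ, nsmul_eq_mul] at h2
  have h3 : (Fintype.card Φ : ℝ) + 12 ≤ 6 * Fintype.card ι := by exact_mod_cast h
  have h4 : (M.defects.card : ℝ) ≤ 7 * (Finset.univ.filter fun v => M.deg v ≤ 5).card := by
    unfold Mesh.defects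
    linarith
  exact_mod_cast h4

end Pool.Agent.MP_2ab689_gt.Big
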