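import Pool.Agent.MP_2ab689_gt.Big.Spec

/-!
Row PLAN: the rows of points and the angle sequences of the slabs.
-/

namespace Pool.Agent.MP_2ab689_gt.Big

open MeasureTheory Set Real

namespace Plan

theorem hh_pos {J : ℕ} (hJ : 2 ≤ J) : 0 < hh J := by
  have hJ' : (2 : ℝ) ≤ J := by exact_mod_cast hJ
  have h1 : 0 < gam J / 2 := by unfold gam; positivity
  have h2 : gam J / 2 < π := by
    unfold gam
    rw [div_div, div_lt_iff₀ (by positivity)]
    nlinarith [pi_pos]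
  have h3 := sin_pos_of_pos_of_lt_pi h1 h2
  unfold hh cc
  positivity

theorem rbar_nonneg {J j : ℕ} (hj : j < J) : 0 ≤ rbar J j := by
  have hj' : (j : ℝ) + 1 ≤ J := by exact_mod_cast hj
  have hJ : (0 : ℝ) < J := by linarith [(Nat.cast_nonneg j : (0 : ℝ) ≤ j)]
  unfold rbar gam
  refine sin_nonneg_of_nonneg_of_le_pi (by positivity) ?_
  rw [← mul_div_assoc, div_le_iff₀ (by positivity)]
  nlinarith [pi_pos]

theorem step_le {j q w q' w' : ℕ} (h : Step j q w q' w') : q ≤ q' ∧ q' ≤ q + 1 := by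
  rcases h with ⟨h, -⟩ | ⟨-, -, h, -⟩ <;> omega

/-- The estimate of one squared deviation. -/
theorem term {u xb Q c : ℝ} (hu0 : 0 ≤ u) (hu1 : u ≤ 1) (hQ : 0 < Q) (hx : |xb - Q| ≤ c) :
    (u * xb / Q - 1 / 2) ^ 2 ≤ 2 * (u - 1 / 2) ^ 2 + 2 * (c / Q) ^ 2 := by
  have h1 : u * xb / Q - 1 / 2 = (u - 1 / 2) + u * ((xb - Q) / Q) := by field_simp; ring
  have h2 : ((xb - Q) / Q) ^ 2 ≤ (c / Q) ^ 2 := by
    rw [div_pow, div_pow]
    exact div_le_div_of_nonneg_right (sq_le_sq' (abs_le.1 hx).1 (abs_le.1 hx).2) (by positivity)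
  have h3 : (u * ((xb - Q) / Q)) ^ 2 ≤ ((xb - Q) / Q) ^ 2 := by
    rw [mul_pow]
    exact mul_le_of_le_one_left (sq_nonneg _) (pow_le_one₀ hu0 hu1)
  rw [h1]
  nlinarith [sq_nonneg ((u - 1 / 2) - u * ((xb - Q) / Q))]

end Plan

open Plan in
theorem planS (h1 : SeqS) (h2 : AngleS) : PlanS := by
  obtain ⟨C, K0, hC, hseq⟩ := h1
  have hC' : C ≤ (18 + 16 * (C + 1) ^ 2) * C := by nlinarith [sq_nonneg (C + 1)]
  refine ⟨2 + C, (18 + 16 * (C + 1) ^ 2) * C, K0, by positivity, fun K hK => ?_⟩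
  obtain ⟨J, M, q, w, hJ, hM, hJK, hKJ, hw, hstep, hx, hsum, hcount, hlow⟩ := hseq K hK
  have hM0 : 0 < M := by omega
  have hMr : (5 : ℝ) ≤ M := by exact_mod_cast hM
  have hhh := hh_pos hJ
  have hg : ∀ j, ∃ g : ℕ → ℝ, j < J → (∀ k, g (k + 2 * M * q (j + 1)) = g k + 2 * π) ∧
      (∀ k, 0 ≤ g (k + 1) - g k ∧ g (k + 1) - g k ≤ 2 * π / M / ((q (j + 1) : ℝ) - 1)) ∧
      (∀ k, Even (j + k) → ∃ i < M * q j, ∃ n : ℤ,
        g k = rowAng M j (q j) (w j) i + n * (2 * π)) ∧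
      (∀ k, Odd (j + k) → ∃ i < M * q (j + 1), ∃ n : ℤ,
        g k = rowAng M (j + 1) (q (j + 1)) (w (j + 1)) i + n * (2 * π)) ∧
      ∑ k ∈ Finset.range (2 * M * q (j + 1)),
        ((g (k + 1) - g k) * ((q (j + 1) : ℝ) - 1) / (2 * π / M) - 1 / 2) ^ 2 ≤
        M * (9 / (w j : ℝ) + ((q (j + 1) : ℝ) - q j)) := by
    intro j
    by_cases hj : j < J
    · obtain ⟨g, hg⟩ := h2 M j (q j) (w j) (q (j + 1)) (w (j + 1)) hM0 (hw j).1 (hw j).2
        (hstep j hj)
      exact ⟨g, fun _ => hg⟩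
    · exact ⟨fun _ => 0, fun h => absurd h hj⟩
  choose g hg using hg
  have hq2 : ∀ j, (2 : ℝ) ≤ q j := fun j => by exact_mod_cast (hw j).1.trans (hw j).2
  have hw2 : ∀ j, (2 : ℝ) ≤ w j := fun j => by exact_mod_cast (hw j).1
  have hwq : ∀ j, (w j : ℝ) ≤ q j := fun j => by exact_mod_cast (hw j).2
  have hqq : ∀ j < J, (q j : ℝ) ≤ q (j + 1) ∧ (q (j + 1) : ℝ) ≤ q j + 1 := fun j hj =>
    ⟨by exact_mod_cast (step_le (hstep j hj)).1, by exact_mod_cast (step_le (hstep j hj)).2⟩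
  refine ⟨J, fun j => M * q j, fun j => 2 * M * q (j + 1), fun j i => rowAng M j (q j) (w j) i, g,
    hJ, hJK, hKJ, ?_, ?_, ?_, ?_⟩
  · rw [← Finset.mul_sum]
    calc 2 * (M * ∑ j ∈ Finset.Ico 1 J, q j) + M * q J + 6
        = M * (2 * ∑ j ∈ Finset.Ico 1 J, q j + q J) + 6 := by ring
      _ ≤ K := hcount
  · have e : ∑ j ∈ Finset.Ico 1 J, ((2 * M * q (j + 1) : ℕ) : ℝ) =
        M * (2 * ∑ j ∈ Finset.Ico 1 J, (q (j + 1) : ℝ)) := by
      rw [Finset.mul_sum, Finset.mul_sum]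
      refine Finset.sum_congr rfl fun j _ => ?_
      push_cast; ring
    rw [e]
    have : C * J ≤ (18 + 16 * (C + 1) ^ 2) * C * J :=
      mul_le_mul_of_nonneg_right hC' (Nat.cast_nonneg J)
    linarith
  · intro j hj
    have hj' : j < J := (Finset.mem_Ico.1 hj).2
    obtain ⟨g1, g2, g3, g4, -⟩ := hg j hj'
    have hQ : (1 : ℝ) ≤ (q (j + 1) : ℝ) - 1 := by linarith [hq2 (j + 1)]
    have hgap : 2 * π / M / ((q (j + 1) : ℝ) - 1) ≤ 2 * π / 5 :=
      (div_le_self (by positivity) hQ).trans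
        (div_le_div_of_nonneg_left (by positivity) (by norm_num) hMr)
    refine ⟨⟨M * q (j + 1), by ring⟩, fun k => by linarith [(g2 k).1], fun k => ?_, g1,
      fun k => ?_, g3, g4⟩
    · have a1 := (g2 k).2
      have a2 := (g2 (k + 1)).2
      have : g j (k + 2) = g j (k + 1 + 1) := rfl
      linarith [pi_pos]
    · have hr := rbar_nonneg hj'
      have hxb := (abs_le.1 (hx j hj')).2
      calc (g j (k + 1) - g j k) * rbar J j / hh J
          ≤ 2 * π / M / ((q (j + 1) : ℝ) - 1) * rbar J j / hh J :=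
            div_le_div_of_nonneg_right (mul_le_mul_of_nonneg_right (g2 k).2 hr) hhh.le
        _ = 2 * π / (M * hh J) * rbar J j / ((q (j + 1) : ℝ) - 1) := by
            field_simp
        _ ≤ 2 + C := by
            rw [div_le_iff₀ (by linarith)]
            nlinarith [(hqq j hj').1]
  · have hrow : ∀ j < J, ∑ k ∈ Finset.range (2 * M * q (j + 1)),
        ((g j (k + 1) - g j k) * rbar J j / hh J - 1 / 2) ^ 2 ≤
        (18 + 16 * (C + 1) ^ 2) * (M * (1 / (w j : ℝ) + ((q (j + 1) : ℝ) - q j))) := by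
      intro j hj'
      obtain ⟨-, g2, -, -, g5⟩ := hg j hj'
      have hQ : (1 : ℝ) ≤ (q (j + 1) : ℝ) - 1 := by linarith [hq2 (j + 1)]
      have hQ0 : (0 : ℝ) < (q (j + 1) : ℝ) - 1 := by linarith
      have hom : 0 < 2 * π / M := by positivity
      have hxb : |2 * π / (M * hh J) * rbar J j - ((q (j + 1) : ℝ) - 1)| ≤ C + 1 := by
        have a := abs_le.1 (hx j hj')
        have b := hqq j hj'
        rw [abs_le]; constructor <;> linarith [a.1, a.2, b.1, b.2]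
      have hterm : ∀ k, ((g j (k + 1) - g j k) * rbar J j / hh J - 1 / 2) ^ 2 ≤
          2 * ((g j (k + 1) - g j k) * ((q (j + 1) : ℝ) - 1) / (2 * π / M) - 1 / 2) ^ 2 +
            2 * ((C + 1) / ((q (j + 1) : ℝ) - 1)) ^ 2 := by
        intro k
        have hu0 : 0 ≤ (g j (k + 1) - g j k) * ((q (j + 1) : ℝ) - 1) / (2 * π / M) :=
          div_nonneg (mul_nonneg (g2 k).1 hQ0.le) hom.le
        have hu1 : (g j (k + 1) - g j k) * ((q (j + 1) : ℝ) - 1) / (2 * π / M) ≤ 1 := by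
          rw [div_le_one hom, ← le_div_iff₀ hQ0]; exact (g2 k).2
        have h := term hu0 hu1 hQ0 hxb
        have e : (g j (k + 1) - g j k) * ((q (j + 1) : ℝ) - 1) / (2 * π / M) *
            (2 * π / (M * hh J) * rbar J j) / ((q (j + 1) : ℝ) - 1) =
            (g j (k + 1) - g j k) * rbar J j / hh J := by
          field_simp
        rwa [e] at h
      have hw0 : (0 : ℝ) < w j := by linarith [hw2 j]
      have hfrac : (q (j + 1) : ℝ) / ((q (j + 1) : ℝ) - 1) ^ 2 ≤ 4 * (1 / (w j : ℝ)) := by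
        rw [mul_one_div, div_le_div_iff₀ (by positivity) hw0]
        nlinarith [hwq j, (hqq j hj').1, hq2 (j + 1)]
      have hdq : (0 : ℝ) ≤ (q (j + 1) : ℝ) - q j := by linarith [(hqq j hj').1]
      have hMp : (0 : ℝ) ≤ M := Nat.cast_nonneg M
      calc ∑ k ∈ Finset.range (2 * M * q (j + 1)),
            ((g j (k + 1) - g j k) * rbar J j / hh J - 1 / 2) ^ 2
          ≤ ∑ k ∈ Finset.range (2 * M * q (j + 1)),
            (2 * ((g j (k + 1) - g j k) * ((q (j + 1) : ℝ) - 1) / (2 * π / M) - 1 / 2) ^ 2 +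
              2 * ((C + 1) / ((q (j + 1) : ℝ) - 1)) ^ 2) := Finset.sum_le_sum fun k _ => hterm k
        _ = 2 * ∑ k ∈ Finset.range (2 * M * q (j + 1)),
              ((g j (k + 1) - g j k) * ((q (j + 1) : ℝ) - 1) / (2 * π / M) - 1 / 2) ^ 2 +
              4 * (C + 1) ^ 2 * M * ((q (j + 1) : ℝ) / ((q (j + 1) : ℝ) - 1) ^ 2) := by
            rw [Finset.sum_add_distrib, ← Finset.mul_sum, Finset.sum_const, Finset.card_range,
              nsmul_eq_mul, div_pow (C + 1)]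
            congr 1
            push_cast
            ring
        _ ≤ 2 * (M * (9 / (w j : ℝ) + ((q (j + 1) : ℝ) - q j))) +
              4 * (C + 1) ^ 2 * M * (4 * (1 / (w j : ℝ))) := by
            gcongr
        _ ≤ (18 + 16 * (C + 1) ^ 2) * (M * (1 / (w j : ℝ) + ((q (j + 1) : ℝ) - q j))) := by
            have e9 : 9 / (w j : ℝ) = 9 * (1 / (w j : ℝ)) := by ring
            rw [e9]
            have h5 : 0 ≤ (M : ℝ) * ((q (j + 1) : ℝ) - q j) := mul_nonneg hMp hdq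
            nlinarith [mul_nonneg (sq_nonneg (C + 1)) h5]
    have hnn : ∀ j < J, 0 ≤ (M : ℝ) * (1 / (w j : ℝ) + ((q (j + 1) : ℝ) - q j)) := by
      intro j hj'
      have hw0 : (0 : ℝ) < w j := by linarith [hw2 j]
      have hdq : (0 : ℝ) ≤ (q (j + 1) : ℝ) - q j := by linarith [(hqq j hj').1]
      positivity
    calc ∑ j ∈ Finset.Ico 1 J, ∑ k ∈ Finset.range (2 * M * q (j + 1)),
          ((g j (k + 1) - g j k) * rbar J j / hh J - 1 / 2) ^ 2
        ≤ ∑ j ∈ Finset.Ico 1 J,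
          (18 + 16 * (C + 1) ^ 2) * (M * (1 / (w j : ℝ) + ((q (j + 1) : ℝ) - q j))) :=
          Finset.sum_le_sum fun j hj => hrow j (Finset.mem_Ico.1 hj).2
      _ ≤ ∑ j ∈ Finset.range J,
          (18 + 16 * (C + 1) ^ 2) * (M * (1 / (w j : ℝ) + ((q (j + 1) : ℝ) - q j))) := by
          refine Finset.sum_le_sum_of_subset_of_nonneg ?_ fun j hj _ => ?_
          · intro j hj
            exact Finset.mem_range.2 (Finset.mem_Ico.1 hj).2
          · exact mul_nonneg (by positivity) (hnn j (Finset.mem_range.1 hj))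
      _ = (18 + 16 * (C + 1) ^ 2) *
          (M * ∑ j ∈ Finset.range J, (1 / (w j : ℝ) + ((q (j + 1) : ℝ) - q j))) := by
          rw [← Finset.mul_sum, ← Finset.mul_sum]
      _ ≤ (18 + 16 * (C + 1) ^ 2) * (C * J * log J) :=
          mul_le_mul_of_nonneg_left hsum (by positivity)
      _ = (18 + 16 * (C + 1) ^ 2) * C * J * log J := by ring

end Pool.Agent.MP_2ab689_gt.Big
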