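import Mathlib.MeasureTheory.Integral.IntervalIntegral.Basic
import Pool.Agent.MP_2ab689_gt.Big.Spec

/-!
A Lipschitz function of one coordinate, averaged at a scale that depends on the point.
-/

namespace Pool.Agent.MP_2ab689_gt.Big

open MeasureTheory Set Real

namespace Pot

/-- The mean of `f` over the interval of centre `t` and radius `τ`. -/
noncomputable def G (f : ℝ → ℝ) (t τ : ℝ) : ℝ := (∫ x in (t - τ)..(t + τ), f x) / (2 * τ)

theorem cont {f : ℝ → ℝ} (hf : ∀ s t, |f s - f t| ≤ |s - t|) : Continuous f :=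
  (LipschitzWith.of_dist_le_mul (K := 1) fun s t => by
    simpa [Real.dist_eq] using hf s t).continuous

theorem core {f : ℝ → ℝ} (hf : ∀ s t, |f s - f t| ≤ |s - t|) (y e : ℝ) :
    |(∫ x in y..(y + e), f x) - f y * e| ≤ e ^ 2 := by
  have h1 : (∫ x in y..(y + e), f x) - f y * e = ∫ x in y..(y + e), (f x - f y) := by
    rw [intervalIntegral.integral_sub ((cont hf).intervalIntegrable _ _)
      (continuous_const.intervalIntegrable _ _), intervalIntegral.integral_const]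
    simp [mul_comm]
  have h2 := intervalIntegral.norm_integral_le_of_norm_le_const (a := y) (b := y + e)
    (C := |e|) (f := fun x => f x - f y) (fun x hx => by
      rw [Real.norm_eq_abs]
      refine (hf x y).trans ?_
      have := abs_sub_left_of_mem_uIcc (uIoc_subset_uIcc hx)
      simpa using this)
  rw [h1]
  rw [Real.norm_eq_abs, add_sub_cancel_left, abs_mul_abs_self] at h2
  linarith [sq e]

theorem defect {f : ℝ → ℝ} (hf : ∀ s t, |f s - f t| ≤ |s - t|) (t τ : ℝ) :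
    |(∫ x in (t - τ)..(t + τ), f x) - 2 * τ * f t| ≤ 2 * τ ^ 2 := by
  have h1 := core hf t τ
  have h2 := core hf t (-τ)
  have h3 := intervalIntegral.integral_interval_sub_left (μ := volume) (a := t) (b := t + τ)
    (c := t + -τ) ((cont hf).intervalIntegrable _ _) ((cont hf).intervalIntegrable _ _)
  rw [sub_eq_add_neg t τ, ← h3]
  rw [abs_le] at h1 h2 ⊢
  constructor <;> nlinarith [h1.1, h1.2, h2.1, h2.2]

theorem G_near {f : ℝ → ℝ} (hf : ∀ s t, |f s - f t| ≤ |s - t|) (t : ℝ) {τ : ℝ} (hτ : 0 < τ) :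
    |G f t τ - f t| ≤ τ := by
  have h := defect hf t τ
  have e : G f t τ - f t = ((∫ x in (t - τ)..(t + τ), f x) - 2 * τ * f t) / (2 * τ) := by
    unfold G; field_simp
  rw [e, abs_div, abs_of_pos (by positivity : 0 < 2 * τ), div_le_iff₀ (by positivity)]
  linarith

theorem alg {τ τ' N p m r dt u : ℝ} (hτ : 0 < τ) (h2 : τ ≤ 2 * τ') (hN : |N| ≤ 2 * τ ^ 2)
    (hp : |p| ≤ τ) (hm : |m| ≤ τ) (hr : |r| ≤ (dt + (τ' - τ)) ^ 2 + (dt - (τ' - τ)) ^ 2)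
    (ht : |dt| ≤ u) (hd : |τ' - τ| ≤ 4 * u) :
    |(N + p * (dt + (τ' - τ)) - m * (dt - (τ' - τ)) + r) / (2 * τ') - N / (2 * τ)
      - (p - m) / (2 * τ) * dt - ((p + m) / (2 * τ) - N / (2 * τ ^ 2)) * (τ' - τ)|
      ≤ 122 * u ^ 2 / τ := by
  have hτ' : 0 < τ' := by linarith
  have hu : 0 ≤ u := (abs_nonneg _).trans ht
  obtain ⟨d, rfl⟩ : ∃ d, τ' = τ + d := ⟨τ' - τ, by ring⟩
  simp only [add_sub_cancel_left] at hr hd ⊢
  have e : (N + p * (dt + d) - m * (dt - d) + r) / (2 * (τ + d)) - N / (2 * τ)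
      - (p - m) / (2 * τ) * dt - ((p + m) / (2 * τ) - N / (2 * τ ^ 2)) * d
      = (-(p / τ * (dt + d) * d) + m / τ * (dt - d) * d + r + N / τ ^ 2 * d ^ 2)
        / (2 * (τ + d)) := by
    field_simp
    ring
  have hp' : |p / τ| ≤ 1 := by rwa [abs_div, abs_of_pos hτ, div_le_one hτ]
  have hm' : |m / τ| ≤ 1 := by rwa [abs_div, abs_of_pos hτ, div_le_one hτ]
  have hN' : |N / τ ^ 2| ≤ 2 := by
    rwa [abs_div, abs_of_pos (pow_pos hτ 2), div_le_iff₀ (pow_pos hτ 2)]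
  have he1 : |dt + d| ≤ 5 * u := (abs_add_le _ _).trans (by linarith)
  have he2 : |dt - d| ≤ 5 * u := (abs_sub _ _).trans (by linarith)
  have b1 : |p / τ * (dt + d) * d| ≤ 1 * (5 * u) * (4 * u) := by
    rw [abs_mul, abs_mul]; gcongr
  have b2 : |m / τ * (dt - d) * d| ≤ 1 * (5 * u) * (4 * u) := by
    rw [abs_mul, abs_mul]; gcongr
  have b3 : |r| ≤ (5 * u) ^ 2 + (5 * u) ^ 2 := by
    refine hr.trans ?_
    rw [← sq_abs (dt + d), ← sq_abs (dt - d)]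
    gcongr
  have b4 : |N / τ ^ 2 * d ^ 2| ≤ 2 * (4 * u) ^ 2 := by
    rw [abs_mul, abs_pow]; gcongr
  have b5 : |-(p / τ * (dt + d) * d) + m / τ * (dt - d) * d + r + N / τ ^ 2 * d ^ 2|
      ≤ 122 * u ^ 2 := by
    rw [abs_le] at b1 b2 b3 b4 ⊢
    constructor <;> nlinarith [b1.1, b1.2, b2.1, b2.2, b3.1, b3.2, b4.1, b4.2]
  rw [e, abs_div, abs_of_pos (by positivity : 0 < 2 * (τ + d))]
  gcongr

theorem G_taylor {f : ℝ → ℝ} (hf : ∀ s t, |f s - f t| ≤ |s - t|) (t : ℝ) {τ : ℝ}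
    (hτ : 0 < τ) : ∃ A B : ℝ, |A| ≤ 1 ∧ |B| ≤ 2 ∧ ∀ t' τ' u, τ ≤ 2 * τ' → |t' - t| ≤ u →
      |τ' - τ| ≤ 4 * u →
      |G f t' τ' - G f t τ - A * (t' - t) - B * (τ' - τ)| ≤ 122 * u ^ 2 / τ := by
  have hN := defect hf t τ
  set N := (∫ x in (t - τ)..(t + τ), f x) - 2 * τ * f t with hNd
  have hp : |f (t + τ) - f t| ≤ τ := by simpa [abs_of_pos hτ] using hf (t + τ) t
  have hm : |f (t - τ) - f t| ≤ τ := by simpa [abs_of_pos hτ] using hf (t - τ) t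
  set p := f (t + τ) - f t with hpd
  set m := f (t - τ) - f t with hmd
  have h2τ : 0 < 2 * τ := by positivity
  refine ⟨(p - m) / (2 * τ), (p + m) / (2 * τ) - N / (2 * τ ^ 2), ?_, ?_, ?_⟩
  · rw [abs_div, abs_of_pos h2τ, div_le_one h2τ]
    linarith [abs_sub p m]
  · have b1 : |(p + m) / (2 * τ)| ≤ 1 := by
      rw [abs_div, abs_of_pos h2τ, div_le_one h2τ]
      linarith [abs_add_le p m]
    have b2 : |N / (2 * τ ^ 2)| ≤ 1 := by
      rwa [abs_div, abs_of_pos (by positivity : 0 < 2 * τ ^ 2), div_le_one (by positivity)]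
    linarith [abs_sub ((p + m) / (2 * τ)) (N / (2 * τ ^ 2))]
  intro t' τ' u h2 ht hd
  have hτ' : 0 < τ' := by linarith
  have h1 := core hf (t + τ) (t' - t + (τ' - τ))
  have h3 := core hf (t - τ) (t' - t - (τ' - τ))
  rw [show t + τ + (t' - t + (τ' - τ)) = t' + τ' by ring] at h1
  rw [show t - τ + (t' - t - (τ' - τ)) = t' - τ' by ring] at h3
  have hi : ∀ a b, IntervalIntegrable f volume a b := (cont hf).intervalIntegrable
  have h4 := intervalIntegral.integral_add_adjacent_intervals (hi (t - τ) (t + τ))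
    (hi (t + τ) (t' + τ'))
  have h5 := intervalIntegral.integral_add_adjacent_intervals (hi (t - τ) (t' - τ'))
    (hi (t' - τ') (t' + τ'))
  set r := ((∫ x in (t + τ)..(t' + τ'), f x) - f (t + τ) * (t' - t + (τ' - τ)))
    - ((∫ x in (t - τ)..(t' - τ'), f x) - f (t - τ) * (t' - t - (τ' - τ))) with hrd
  have hr : |r| ≤ (t' - t + (τ' - τ)) ^ 2 + (t' - t - (τ' - τ)) ^ 2 :=
    (abs_sub _ _).trans (add_le_add h1 h3)
  have e1 : G f t τ = f t + N / (2 * τ) := by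
    unfold G; rw [hNd]; field_simp; ring
  have e2 : G f t' τ' = f t
      + (N + p * (t' - t + (τ' - τ)) - m * (t' - t - (τ' - τ)) + r) / (2 * τ') := by
    have : (∫ x in (t' - τ')..(t' + τ'), f x) = 2 * τ' * f t
        + (N + p * (t' - t + (τ' - τ)) - m * (t' - t - (τ' - τ)) + r) := by
      rw [hNd, hpd, hmd, hrd]
      linear_combination h5 - h4
    unfold G; rw [this]; field_simp
  have := alg hτ h2 hN hp hm hr ht hd
  rw [e1, e2]
  convert this using 2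
  ring

theorem term {σ ρ w μ : ℝ} (hσ : 0 < σ) (hρ : 0 ≤ ρ) (h10 : ρ ≤ σ / 10) (hw : |w| ≤ σ * ρ)
    (hμ : 1 ≤ μ * σ) :
    |1 / (σ ^ 2 + (2 * w + ρ ^ 2)) - 1 / σ ^ 2 + 2 * (w / σ ^ 4)| ≤ 7 * (ρ * μ) ^ 2 * (1 / σ ^ 2) := by
  obtain ⟨w1, w2⟩ := abs_le.mp hw
  have hσρ : σ * ρ ≤ σ ^ 2 / 10 := by nlinarith
  have hρρ : ρ ^ 2 ≤ σ * ρ / 10 := by nlinarith
  have hD : 4 / 5 * σ ^ 2 ≤ σ ^ 2 + (2 * w + ρ ^ 2) := by nlinarith [sq_nonneg ρ]
  have hD0 : 0 < σ ^ 2 + (2 * w + ρ ^ 2) := lt_of_lt_of_le (by positivity) hD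
  have hβ : (2 * w + ρ ^ 2) ^ 2 ≤ (21 / 10 * (σ * ρ)) ^ 2 :=
    sq_le_sq' (by nlinarith [sq_nonneg ρ, mul_nonneg hσ.le hρ]) (by linarith)
  have e : 1 / (σ ^ 2 + (2 * w + ρ ^ 2)) - 1 / σ ^ 2 + 2 * (w / σ ^ 4)
      = ((2 * w + ρ ^ 2) ^ 2 / (σ ^ 2 + (2 * w + ρ ^ 2)) - ρ ^ 2) / σ ^ 4 := by
    field_simp
    ring
  have b1 : (2 * w + ρ ^ 2) ^ 2 / (σ ^ 2 + (2 * w + ρ ^ 2)) ≤ 7 * ρ ^ 2 := by
    rw [div_le_iff₀ hD0]
    nlinarith [mul_le_mul_of_nonneg_left hD (sq_nonneg ρ), sq_nonneg (σ * ρ)]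
  have b0 : 0 ≤ (2 * w + ρ ^ 2) ^ 2 / (σ ^ 2 + (2 * w + ρ ^ 2)) := by positivity
  have b2 : |(2 * w + ρ ^ 2) ^ 2 / (σ ^ 2 + (2 * w + ρ ^ 2)) - ρ ^ 2| ≤ 7 * ρ ^ 2 :=
    abs_le.mpr ⟨by nlinarith [sq_nonneg ρ], by nlinarith [sq_nonneg ρ]⟩
  have b3 : 1 ≤ (μ * σ) ^ 2 := one_le_pow₀ hμ
  rw [e, abs_div, abs_of_pos (pow_pos hσ 4), div_le_iff₀ (pow_pos hσ 4)]
  refine b2.trans ?_
  have : 7 * (ρ * μ) ^ 2 * (1 / σ ^ 2) * σ ^ 4 = 7 * ρ ^ 2 * (μ * σ) ^ 2 := by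
    field_simp
  rw [this]
  nlinarith [sq_nonneg ρ]

theorem invsqrt {k : ℝ} (hk : 0 < k) (h : 2 / 3 ≤ k ^ 2) :
    |1 / k - 1 + (k ^ 2 - 1) / 2| ≤ (k ^ 2 - 1) ^ 2 := by
  have hk' : 4 / 5 ≤ k := by nlinarith
  have e : 1 / k - 1 + (k ^ 2 - 1) / 2 = (k - 1) ^ 2 * ((k + 2) / (2 * k)) := by
    field_simp
    ring
  have b : (k + 2) / (2 * k) ≤ (k + 1) ^ 2 := by
    rw [div_le_iff₀ (by positivity)]
    nlinarith [mul_le_mul hk' hk' (by norm_num) hk.le, pow_pos hk 3]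
  rw [e, abs_of_nonneg (by positivity), show (k ^ 2 - 1) ^ 2 = (k - 1) ^ 2 * (k + 1) ^ 2 by ring]
  gcongr

theorem scal {s s' l R ρ μ : ℝ} (hs : 0 < s) (hs' : 0 < s') (hρ : 0 ≤ ρ) (hμ : 0 ≤ μ)
    (hμs : μ ≤ s) (h10 : ρ * μ ≤ 1 / 10) (e : s' ^ 2 = s ^ 2 - 2 * l + R)
    (hl : |l| ≤ ρ * μ * s ^ 2) (hR : |R| ≤ 7 * (ρ * μ) ^ 2 * s ^ 2) :
    |1 / s' - 1 / s - l / s ^ 3| ≤ 11 * s * ρ ^ 2 ∧ |1 / s' - 1 / s| ≤ 4 * ρ ∧
      1 / s ≤ 2 * (1 / s') := by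
  set x := ρ * μ with hx
  have hx0 : 0 ≤ x := mul_nonneg hρ hμ
  have hxs : x ≤ ρ * s := mul_le_mul_of_nonneg_left hμs hρ
  have hs2 := pow_pos hs 2
  have hl' : |l / s ^ 2| ≤ x := by rwa [abs_div, abs_of_pos hs2, div_le_iff₀ hs2]
  have hR' : |R / s ^ 2| ≤ 7 * x ^ 2 := by rwa [abs_div, abs_of_pos hs2, div_le_iff₀ hs2]
  have ey : (s' / s) ^ 2 - 1 = -2 * (l / s ^ 2) + R / s ^ 2 := by
    rw [div_pow, e]; field_simp; ring
  obtain ⟨l1, l2⟩ := abs_le.mp hl'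
  obtain ⟨r1, r2⟩ := abs_le.mp hR'
  have hxx : x ^ 2 ≤ x / 10 := by nlinarith
  have hy1 : -(27 / 10 * x) ≤ (s' / s) ^ 2 - 1 := by rw [ey]; linarith
  have hy2 : (s' / s) ^ 2 - 1 ≤ 27 / 10 * x := by rw [ey]; linarith
  have hy : ((s' / s) ^ 2 - 1) ^ 2 ≤ (27 / 10 * x) ^ 2 := sq_le_sq' hy1 hy2
  obtain ⟨i1, i2⟩ := abs_le.mp (invsqrt (div_pos hs' hs) (by linarith))
  have e1 : 1 / s' - 1 / s = (1 / (s' / s) - 1) / s := by field_simp
  have e2 : 1 / s' - 1 / s - l / s ^ 3 = (1 / (s' / s) - 1 - l / s ^ 2) / s := by field_simp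
  have hx2 : x ^ 2 ≤ (ρ * s) ^ 2 := by gcongr
  have k1 : |1 / (s' / s) - 1| ≤ 4 * x := abs_le.mpr ⟨by nlinarith, by nlinarith⟩
  refine ⟨?_, ?_, ?_⟩
  · rw [e2, abs_div, abs_of_pos hs, div_le_iff₀ hs]
    exact abs_le.mpr ⟨by nlinarith, by nlinarith⟩
  · rw [e1, abs_div, abs_of_pos hs, div_le_iff₀ hs]
    linarith
  · have : -(1 / 2) / s ≤ (1 / (s' / s) - 1) / s := by
      gcongr
      linarith [(abs_le.mp k1).1]
    rw [← e1, neg_div, show 1 / 2 / s = 1 / s / 2 by ring] at this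
    linarith

theorem Phi_ge (Z : Finset V) {η : ℝ} (hη : 0 < η) (r0 : ℝ) (a : V) :
    1 / r0 ^ 2 ≤ Phi Z η r0 a :=
  le_add_of_nonneg_right (Finset.sum_nonneg fun z _ => by
    have := ip_self_nonneg (a - z); positivity)

theorem Phi_ge' {Z : Finset V} {η : ℝ} (hη : 0 < η) (r0 : ℝ) (a : V) {z : V} (hz : z ∈ Z) :
    1 / (ip (a - z) (a - z) + η ^ 2) ≤ Phi Z η r0 a :=
  le_add_of_nonneg_of_le (by positivity) (Finset.single_le_sum
    (f := fun z => 1 / (ip (a - z) (a - z) + η ^ 2)) (fun z _ => by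
      have := ip_self_nonneg (a - z); positivity) hz)

theorem Phi_pos (Z : Finset V) {η r0 : ℝ} (hη : 0 < η) (hr : 0 < r0) (a : V) :
    0 < Phi Z η r0 a := lt_of_lt_of_le (by positivity) (Phi_ge Z hη r0 a)

theorem inv_le {P r : ℝ} (hr : 0 < r) (h : 1 / r ^ 2 ≤ P) : 1 / √P ≤ r := by
  have h1 : 1 / r ≤ √P := Real.le_sqrt_of_sq_le (by rwa [div_pow, one_pow])
  have h2 : 0 < 1 / r := by positivity
  rw [div_le_iff₀ (h2.trans_le h1)]
  rw [div_le_iff₀ hr] at h1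
  linarith

theorem ip_sum (Z : Finset V) (h : V → V) (u : V) :
    ip (∑ z ∈ Z, h z) u = ∑ z ∈ Z, ip (h z) u := by
  simp only [ip, Finset.sum_apply, Finset.sum_mul, Finset.sum_add_distrib]

theorem tau_taylor (Z : Finset V) {η r0 : ℝ} (hη : 0 < η) (hr : 0 < r0) (a : V) :
    ∃ w : V, nv w ≤ 1 ∧ ∀ y, nv (y - a) ≤ η / 10 →
      |1 / √(Phi Z η r0 y) - 1 / √(Phi Z η r0 a) - ip w (y - a)|
        ≤ 11 * √(Phi Z η r0 a) * nv (y - a) ^ 2 ∧
      |1 / √(Phi Z η r0 y) - 1 / √(Phi Z η r0 a)| ≤ 4 * nv (y - a) ∧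
      1 / √(Phi Z η r0 a) ≤ 2 * (1 / √(Phi Z η r0 y)) := by
  have hP := Phi_pos Z hη hr a
  set s := √(Phi Z η r0 a) with hsd
  have hs : 0 < s := Real.sqrt_pos.mpr hP
  have hs2 : s ^ 2 = Phi Z η r0 a := Real.sq_sqrt hP.le
  set σ : V → ℝ := fun z => √(ip (a - z) (a - z) + η ^ 2) with hσd
  have hα : ∀ z, 0 < ip (a - z) (a - z) + η ^ 2 := fun z => by
    have := ip_self_nonneg (a - z); positivity
  have hσ : ∀ z, 0 < σ z := fun z => Real.sqrt_pos.mpr (hα z)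
  have hσ2 : ∀ z, σ z ^ 2 = ip (a - z) (a - z) + η ^ 2 := fun z => Real.sq_sqrt (hα z).le
  have hση : ∀ z, η ≤ σ z := fun z =>
    Real.le_sqrt_of_sq_le (le_add_of_nonneg_left (ip_self_nonneg _))
  have hσn : ∀ z, nv (a - z) ≤ σ z := fun z =>
    (nv_le_iff (hσ z).le).mpr (by rw [hσ2]; exact le_add_of_nonneg_right (sq_nonneg η))
  set μ := min s (1 / η) with hμd
  have hμ0 : 0 < μ := lt_min hs (by positivity)
  have hμσ : ∀ z ∈ Z, 1 ≤ μ * σ z := fun z hz => by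
    rw [← div_le_iff₀ (hσ z)]
    refine le_min (Real.le_sqrt_of_sq_le ?_) (one_div_le_one_div_of_le hη (hση z))
    rw [div_pow, one_pow, hσ2]
    exact Phi_ge' hη r0 a hz
  have hsum : ∑ z ∈ Z, 1 / σ z ^ 2 ≤ s ^ 2 := by
    rw [hs2]
    simp only [hσ2]
    exact le_add_of_nonneg_left (by positivity)
  have hlin : ∀ u : V, |∑ z ∈ Z, ip (a - z) u / σ z ^ 4| ≤ nv u * μ * s ^ 2 := fun u => by
    refine (Finset.abs_sum_le_sum_abs _ _).trans ?_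
    refine le_trans ?_ (mul_le_mul_of_nonneg_left hsum (mul_nonneg (nv_nonneg u) hμ0.le))
    rw [Finset.mul_sum]
    refine Finset.sum_le_sum fun z hz => ?_
    have h4 := pow_pos (hσ z) 4
    rw [abs_div, abs_of_pos h4, div_le_iff₀ h4]
    have e : nv u * μ * (1 / σ z ^ 2) * σ z ^ 4 = σ z * nv u * (μ * σ z) := by
      have := (hσ z).ne'
      field_simp
    rw [e]
    refine (abs_ip_le _ _).trans ((mul_le_mul_of_nonneg_right (hσn z) (nv_nonneg u)).trans ?_)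
    exact le_mul_of_one_le_right (mul_nonneg (hσ z).le (nv_nonneg u)) (hμσ z hz)
  have hw : ∀ u : V, ip ((1 / s ^ 3) • ∑ z ∈ Z, (1 / σ z ^ 4) • (a - z)) u
      = (∑ z ∈ Z, ip (a - z) u / σ z ^ 4) / s ^ 3 := fun u => by
    rw [ip_smul_left, ip_sum, one_div_mul_eq_div]
    simp only [ip_smul_left, one_div_mul_eq_div]
  refine ⟨(1 / s ^ 3) • ∑ z ∈ Z, (1 / σ z ^ 4) • (a - z), ?_, fun y hy => ?_⟩
  · set w := (1 / s ^ 3) • ∑ z ∈ Z, (1 / σ z ^ 4) • (a - z) with hwd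
    have h1 : nv w ^ 2 ≤ nv w := by
      rw [nv_sq, hw w, div_le_iff₀ (pow_pos hs 3)]
      refine (le_abs_self _).trans ((hlin w).trans ?_)
      have := mul_le_mul_of_nonneg_left (min_le_left s (1 / η))
        (mul_nonneg (nv_nonneg w) (pow_pos hs 2).le)
      nlinarith
    nlinarith [nv_nonneg w]
  have hP' := Phi_pos Z hη hr y
  rw [hw]
  set u := y - a with hud
  have hρ := nv_nonneg u
  refine scal (μ := μ) (R := ∑ z ∈ Z, (1 / (σ z ^ 2 + (2 * ip (a - z) u + nv u ^ 2))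
    - 1 / σ z ^ 2 + 2 * (ip (a - z) u / σ z ^ 4))) hs (Real.sqrt_pos.mpr hP') hρ hμ0.le
    (min_le_left _ _) ?_ ?_ (hlin u) ?_
  · calc nv u * μ ≤ η / 10 * (1 / η) := mul_le_mul hy (min_le_right _ _) hμ0.le (by positivity)
      _ = 1 / 10 := by field_simp
  · have e : ∀ z, σ z ^ 2 + (2 * ip (a - z) u + nv u ^ 2) = ip (y - z) (y - z) + η ^ 2 :=
      fun z => by
        rw [hσ2, nv_sq, hud]
        simp only [ip, Pi.sub_apply]
        ring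
    rw [Real.sq_sqrt hP'.le, hs2, Finset.sum_add_distrib, Finset.sum_sub_distrib,
      ← Finset.mul_sum]
    simp only [e]
    simp only [hσ2, Phi]
    ring
  · refine (Finset.abs_sum_le_sum_abs _ _).trans ?_
    refine le_trans ?_ (mul_le_mul_of_nonneg_left hsum (by positivity))
    rw [Finset.mul_sum]
    refine Finset.sum_le_sum fun z hz => term (hσ z) hρ (by linarith [hση z]) ?_ (hμσ z hz)
    exact (abs_ip_le _ _).trans (mul_le_mul_of_nonneg_right (hσn z) hρ)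

end Pot

open Pot in
theorem potS : PotS := by
  refine ⟨150, by norm_num, fun Z η r0 f c hη hr hc hf => ?_⟩
  have hs : ∀ y, 0 < √(Phi Z η r0 y) := fun y => Real.sqrt_pos.mpr (Phi_pos Z hη hr y)
  have hτ : ∀ y, 0 < 1 / √(Phi Z η r0 y) := fun y => one_div_pos.mpr (hs y)
  have hcu : ∀ a y : V, |ip c y - ip c a| ≤ nv (y - a) := fun a y => by
    rw [← ip_sub_right]
    simpa [nv_eq_one hc] using abs_ip_le c (y - a)
  have key : ∀ a, ∃ g : V, nv g ≤ 3 ∧ ∀ y, nv (y - a) ≤ η / 10 →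
      |G f (ip c y) (1 / √(Phi Z η r0 y)) - G f (ip c a) (1 / √(Phi Z η r0 a)) - ip g (y - a)|
        ≤ 144 * √(Phi Z η r0 a) * nv (y - a) ^ 2 := fun a => by
    obtain ⟨w, hw, hw'⟩ := tau_taylor Z hη hr a
    obtain ⟨A, B, hA, hB, hG⟩ := G_taylor hf (ip c a) (hτ a)
    refine ⟨A • c + B • w, ?_, fun y hy => ?_⟩
    · refine (nv_add _ _).trans ?_
      rw [nv_smul, nv_smul, nv_eq_one hc]
      nlinarith [mul_le_mul hB hw (nv_nonneg w) (by norm_num : (0 : ℝ) ≤ 2)]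
    obtain ⟨h1, h2, h3⟩ := hw' y hy
    have h4 := hG _ _ _ h3 (hcu a y) h2
    have h5 : |B * (1 / √(Phi Z η r0 y) - 1 / √(Phi Z η r0 a) - ip w (y - a))|
        ≤ 2 * (11 * √(Phi Z η r0 a) * nv (y - a) ^ 2) := by
      rw [abs_mul]; gcongr
    rw [div_div_eq_mul_div, div_one] at h4
    rw [ip_add_left, ip_smul_left, ip_smul_left, ip_sub_right c]
    rw [abs_le] at h4 h5 ⊢
    constructor <;> nlinarith [h4.1, h4.2, h5.1, h5.2]
  refine ⟨fun y => G f (ip c y) (1 / √(Phi Z η r0 y)), fun y => ?_, fun z hz => ?_,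
    fun a y hy => ?_, fun a => ?_⟩
  · exact (G_near hf _ (hτ y)).trans (inv_le hr (Phi_ge Z hη r0 y))
  · refine (G_near hf _ (hτ z)).trans (inv_le hη ?_)
    simpa [ip] using Phi_ge' hη r0 z hz
  · have hρ := nv_nonneg (y - a)
    rcases le_total (nv (y - a)) (1 / √(Phi Z η r0 a)) with h | h
    · obtain ⟨g, hg, hg'⟩ := key a
      have h1 := hg' y hy
      have h2 := (abs_ip_le g (y - a)).trans (mul_le_mul_of_nonneg_right hg hρ)
      rw [le_div_iff₀ (hs a)] at h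
      have h3 := mul_le_mul_of_nonneg_left h hρ
      rw [abs_le] at h1 h2 ⊢
      constructor <;> nlinarith [h1.1, h1.2, h2.1, h2.2]
    · obtain ⟨w, -, hw'⟩ := tau_taylor Z hη hr a
      obtain ⟨-, h2, -⟩ := hw' y hy
      have h3 := G_near hf (ip c a) (hτ a)
      have h4 := G_near hf (ip c y) (hτ y)
      have h5 := (hf _ _).trans (hcu a y)
      rw [abs_le] at h2 h3 h4 h5 ⊢
      constructor <;> linarith [h2.1, h2.2, h3.1, h3.2, h4.1, h4.2, h5.1, h5.2]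
  · obtain ⟨g, hg, hg'⟩ := key a
    refine ⟨g, by linarith, fun y hy => (hg' y hy).trans ?_⟩
    have := (hs a).le
    gcongr
    norm_num

end Pool.Agent.MP_2ab689_gt.Big
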