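import Pool.Agent.MP_2ab689_gt.Big.Spec

/-!
Row REG: the charge pairing with a test function is controlled by the energy.
-/

namespace Pool.Agent.MP_2ab689_gt.Big

open Real

namespace Reg

variable {ι Φ : Type} [Fintype ι] [Fintype Φ] (M : Mesh ι Φ)

theorem sum_q (F : ι → ℝ) : ∑ v, M.q v * F v = ∑ d, (M.θ d - π / 3) * F (M.tl d) := by
  rw [← M.sum_star]
  refine Finset.sum_congr rfl fun v _ => ?_
  rw [Finset.sum_congr rfl (g := fun d => (M.θ d - π / 3) * F v)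
    (fun d hd => by rw [M.mem_star.mp hd]), ← Finset.sum_mul, Finset.sum_sub_distrib,
    M.angle_sum, Finset.sum_const, nsmul_eq_mul, Mesh.q, Mesh.deg]
  ring

theorem x_s (h : ℝ) (d : Φ) : M.x h (M.s d) = M.x h d := by
  rw [Mesh.x, Mesh.x, M.sq_s]

theorem sum_X2 (h : ℝ) : ∑ d, M.X2 h d = 3 * M.W h := by
  unfold Mesh.X2 Mesh.W
  rw [Finset.sum_add_distrib, Finset.sum_add_distrib, M.sum_φφ fun d => M.x h d ^ 2,
    M.sum_φ fun d => M.x h d ^ 2]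
  ring

theorem X2_nonneg (h : ℝ) (d : Φ) : 0 ≤ M.X2 h d := by unfold Mesh.X2; positivity

theorem W_nonneg (h : ℝ) : 0 ≤ M.W h := Finset.sum_nonneg fun _ _ => sq_nonneg _

theorem card_le {h : ℝ} (hf : M.Fine h) : (Fintype.card Φ : ℝ) * h ^ 2 ≤ 120 := by
  have h1 : (Fintype.card Φ + 12 : ℝ) ≤ 6 * Fintype.card ι := by exact_mod_cast M.card
  have h2 := hf.num
  have h3 : (3 / 2 : ℝ) ≤ √3 := Real.le_sqrt_of_sq_le (by norm_num)
  have h4 : π ≤ 3.15 := pi_lt_d2.le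
  have h5 : (0 : ℝ) ≤ h ^ 2 * Fintype.card ι := by positivity
  have h6 : h ^ 2 * Fintype.card ι ≤ 20 := by nlinarith
  nlinarith [sq_nonneg h]

theorem sum_lin (h : ℝ) (F : ι → ℝ) : ∑ d, M.lin h d * F (M.tl d) =
    √3 / 6 * ∑ d, M.x h d * (F (M.tl (M.φ (M.φ d))) + F (M.tl (M.φ (M.φ (M.s d))))
      - F (M.tl d) - F (M.tl (M.φ d))) := by
  have e1 : ∑ d, M.x h (M.φ d) * F (M.tl d) = ∑ d, M.x h d * F (M.tl (M.φ (M.φ d))) := by
    rw [← M.sum_φφ fun d => M.x h (M.φ d) * F (M.tl d)]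
    simp only [M.φ3]
  have e2 : ∑ d, M.x h (M.φ (M.φ d)) * F (M.tl d) = ∑ d, M.x h d * F (M.tl (M.φ d)) := by
    rw [← M.sum_φ fun d => M.x h (M.φ (M.φ d)) * F (M.tl d)]
    simp only [M.φ3]
  have e3 : ∑ d, M.x h d * F (M.tl (M.φ (M.φ (M.s d)))) =
      ∑ d, M.x h d * F (M.tl (M.φ (M.φ d))) := by
    rw [← M.sum_s fun d => M.x h d * F (M.tl (M.φ (M.φ d)))]
    simp only [x_s]
  have e4 : ∑ d, M.lin h d * F (M.tl d) = √3 / 6 * (2 * ∑ d, M.x h (M.φ d) * F (M.tl d)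
      - ∑ d, M.x h d * F (M.tl d) - ∑ d, M.x h (M.φ (M.φ d)) * F (M.tl d)) := by
    rw [Finset.mul_sum, ← Finset.sum_sub_distrib, ← Finset.sum_sub_distrib, Finset.mul_sum]
    exact Finset.sum_congr rfl fun d _ => by rw [Mesh.lin]; ring
  have e5 : ∑ d, M.x h d * (F (M.tl (M.φ (M.φ d))) + F (M.tl (M.φ (M.φ (M.s d))))
      - F (M.tl d) - F (M.tl (M.φ d))) = ∑ d, M.x h d * F (M.tl (M.φ (M.φ d)))
      + ∑ d, M.x h d * F (M.tl (M.φ (M.φ (M.s d)))) - ∑ d, M.x h d * F (M.tl d)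
      - ∑ d, M.x h d * F (M.tl (M.φ d)) := by
    rw [← Finset.sum_add_distrib, ← Finset.sum_sub_distrib, ← Finset.sum_sub_distrib]
    exact Finset.sum_congr rfl fun d _ => by ring
  rw [e4, e5, e1, e2, e3]
  ring

theorem dB {h : ℝ} (hf : M.Fine h) (d : Φ) : nv (M.p (M.tl (M.φ d)) - M.p (M.tl d)) ≤ 48 * h := by
  rw [nv_sub_comm]
  exact M.nv_AB (by linarith [hf.pos]) hf.edge d

theorem dC {h : ℝ} (hf : M.Fine h) (d : Φ) :
    nv (M.p (M.tl (M.φ (M.φ d))) - M.p (M.tl d)) ≤ 48 * h := by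
  rw [nv_sub_comm]
  exact M.nv_AC (by linarith [hf.pos]) hf.edge d

theorem dC' {h : ℝ} (hf : M.Fine h) (d : Φ) :
    nv (M.p (M.tl (M.φ (M.φ (M.s d)))) - M.p (M.tl d)) ≤ 48 * h := by
  have := dB M hf (M.φ (M.s d))
  rwa [M.tl_φs] at this

theorem rem_le {h C1 L : ℝ} (hf : M.Fine h) (hh : h ≤ 1 / 48) (hC : 0 < C1) (hL : 0 ≤ L)
    (h1 : ∀ d, |M.θ d - π / 3 - M.E d / 3 - M.lin h d| ≤ C1 * (M.X2 h d + h ^ 2)) (F : ι → ℝ)
    (hF : ∀ i j, nv (M.p j - M.p i) ≤ 48 * h → |F j - F i| ≤ L * nv (M.p j - M.p i)) :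
    |∑ d, (M.θ d - π / 3 - M.E d / 3 - M.lin h d) * F (M.tl d)| ≤
      3840 * C1 * (L * h * (M.W h + 1)) := by
  have h0 := hf.pos
  set ρ : Φ → ℝ := fun d => M.θ d - π / 3 - M.E d / 3 - M.lin h d with hρ
  have hN : ∀ d, 0 < M.N d := fun d => by
    have := M.N_ge hf.edge d
    nlinarith
  have fs : ∀ d, ρ d = -ρ (M.φ d) - ρ (M.φ (M.φ d)) := fun d => by
    have := M.face_sum (hN d)
    simp only [hρ, Mesh.lin, M.E_φ, M.φ3]
    linarith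
  have e : 3 * ∑ d, ρ d * F (M.tl d) = ∑ d, (ρ (M.φ d) * (F (M.tl (M.φ d)) - F (M.tl d))
      + ρ (M.φ (M.φ d)) * (F (M.tl (M.φ (M.φ d))) - F (M.tl d))) := by
    have a1 := M.sum_φ fun d => ρ d * F (M.tl d)
    have a2 := M.sum_φφ fun d => ρ d * F (M.tl d)
    have a3 : ∑ d, (ρ (M.φ d) * (F (M.tl (M.φ d)) - F (M.tl d))
        + ρ (M.φ (M.φ d)) * (F (M.tl (M.φ (M.φ d))) - F (M.tl d))) =
        ∑ d, ρ d * F (M.tl d) + ∑ d, ρ (M.φ d) * F (M.tl (M.φ d))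
          + ∑ d, ρ (M.φ (M.φ d)) * F (M.tl (M.φ (M.φ d))) := by
      rw [← Finset.sum_add_distrib, ← Finset.sum_add_distrib]
      refine Finset.sum_congr rfl fun d _ => ?_
      rw [fs d]; ring
    rw [a3, a1, a2]; ring
  have b : ∀ d j, nv (M.p j - M.p (M.tl d)) ≤ 48 * h → ∀ d',
      |ρ d' * (F j - F (M.tl d))| ≤ 48 * C1 * (L * h) * (M.X2 h d' + h ^ 2) := by
    intro d j hj d'
    rw [abs_mul]
    have c1 : |F j - F (M.tl d)| ≤ L * (48 * h) :=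
      (hF _ _ hj).trans (mul_le_mul_of_nonneg_left hj hL)
    have c2 := X2_nonneg M h d'
    calc _ ≤ C1 * (M.X2 h d' + h ^ 2) * (L * (48 * h)) :=
          mul_le_mul (h1 d') c1 (abs_nonneg _) (by positivity)
      _ = _ := by ring
  have hs : ∑ d, (M.X2 h d + h ^ 2) ≤ 120 * (M.W h + 1) := by
    rw [Finset.sum_add_distrib, sum_X2, Finset.sum_const, Finset.card_univ, nsmul_eq_mul]
    linarith [card_le M hf, W_nonneg M h]
  have f : |3 * ∑ d, ρ d * F (M.tl d)| ≤ 2 * (48 * C1 * (L * h) * ∑ d, (M.X2 h d + h ^ 2)) := by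
    rw [e]
    refine (Finset.abs_sum_le_sum_abs _ _).trans ?_
    have g1 := M.sum_φ fun d => M.X2 h d + h ^ 2
    have g2 := M.sum_φφ fun d => M.X2 h d + h ^ 2
    calc _ ≤ ∑ d, (48 * C1 * (L * h) * (M.X2 h (M.φ d) + h ^ 2)
          + 48 * C1 * (L * h) * (M.X2 h (M.φ (M.φ d)) + h ^ 2)) :=
          Finset.sum_le_sum fun d _ => (abs_add_le _ _).trans
            (add_le_add (b d _ (dB M hf d) _) (b d _ (dC M hf d) _))
      _ = _ := by
          rw [Finset.sum_add_distrib, ← Finset.mul_sum, ← Finset.mul_sum, g1, g2]; ring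
  rw [abs_mul, abs_of_pos (by norm_num : (0 : ℝ) < 3)] at f
  have k : 0 ≤ 48 * C1 * (L * h) := by positivity
  have := mul_le_mul_of_nonneg_left hs k
  nlinarith

theorem x_X1 (h : ℝ) (d : Φ) : |M.x h d| * M.X1 h d ≤ 2 * M.X2 h d := by
  unfold Mesh.X1 Mesh.X2
  rw [← sq_abs (M.x h d), ← sq_abs (M.x h (M.φ d)), ← sq_abs (M.x h (M.φ (M.φ d)))]
  nlinarith [sq_nonneg (|M.x h d| - |M.x h (M.φ d)|),
    sq_nonneg (|M.x h d| - |M.x h (M.φ (M.φ d))|), sq_nonneg |M.x h (M.φ d)|,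
    sq_nonneg |M.x h (M.φ (M.φ d))|]

theorem x_le_X2 (h : ℝ) (d : Φ) : |M.x h d| ^ 2 ≤ M.X2 h d := by
  unfold Mesh.X2
  rw [sq_abs]
  nlinarith [sq_nonneg (M.x h (M.φ d)), sq_nonneg (M.x h (M.φ (M.φ d)))]

open Classical in
theorem flag_le {h C2 C3 L : ℝ} (hf : M.Fine h) (hC2 : 0 < C2) (hC3 : 0 < C3) (hL : 0 ≤ L)
    (h2 : ∀ d, nv (M.C d + M.C (M.s d) - M.A d - M.B d) ≤
      C2 * h * (M.X1 h d + M.X1 h (M.s d) + h))
    (h3 : ∀ d, d ∉ M.good h → 1 ≤ C3 * M.X2 h d) (F m : ι → ℝ) (hm : ∀ i, 0 ≤ m i)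
    (hF : ∀ i j, nv (M.p j - M.p i) ≤ 48 * h → |F j - F i| ≤ L * nv (M.p j - M.p i))
    (hT : ∀ i, ∃ g : V, nv g ≤ L ∧ ∀ j, nv (M.p j - M.p i) ≤ 48 * h →
      |F j - F i - ip g (M.p j - M.p i)| ≤ m i * nv (M.p j - M.p i) ^ 2) (d : Φ) :
    |M.x h d * (F (M.tl (M.φ (M.φ d))) + F (M.tl (M.φ (M.φ (M.s d))))
      - F (M.tl d) - F (M.tl (M.φ d)))| ≤
      (3 * C2 + 72 * (C3 + 1)) * (L * h) * (M.X2 h d + M.X2 h (M.s d) + h ^ 2)
        + 6912 * h ^ 2 * if d ∈ M.good h then |M.x h d| * m (M.tl d) else 0 := by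
  have h0 := hf.pos
  have n1 := X2_nonneg M h d
  have n2 := X2_nonneg M h (M.s d)
  have n3 : 0 ≤ L * h := by positivity
  have n4 := x_le_X2 M h d
  rw [abs_mul]
  split_ifs with hg
  · obtain ⟨g, hg1, hg2⟩ := hT (M.tl d)
    have t : ∀ j, nv (M.p j - M.p (M.tl d)) ≤ 48 * h →
        |F j - F (M.tl d) - ip g (M.p j - M.p (M.tl d))| ≤ m (M.tl d) * (48 * h) ^ 2 :=
      fun j hj => (hg2 j hj).trans (mul_le_mul_of_nonneg_left
        (pow_le_pow_left₀ (nv_nonneg _) hj 2) (hm _))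
    have t1 := abs_le.mp (t _ (dB M hf d))
    have t2 := abs_le.mp (t _ (dC M hf d))
    have t3 := abs_le.mp (t _ (dC' M hf d))
    have t4 : |ip g (M.C d + M.C (M.s d) - M.A d - M.B d)| ≤
        L * (C2 * h * (M.X1 h d + M.X1 h (M.s d) + h)) :=
      (abs_ip_le _ _).trans (mul_le_mul hg1 (h2 d) (nv_nonneg _) hL)
    rw [ip_sub_right, ip_sub_right, ip_add_right] at t4
    simp only [ip_sub_right] at t1 t2 t3
    unfold Mesh.A Mesh.B Mesh.C at t4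
    have t5 := abs_le.mp t4
    have t6 : |F (M.tl (M.φ (M.φ d))) + F (M.tl (M.φ (M.φ (M.s d))))
        - F (M.tl d) - F (M.tl (M.φ d))| ≤
        L * (C2 * h * (M.X1 h d + M.X1 h (M.s d) + h)) + 3 * (m (M.tl d) * (48 * h) ^ 2) :=
      abs_le.mpr ⟨by linarith [t1.1, t1.2, t2.1, t2.2, t3.1, t3.2, t5.1, t5.2],
        by linarith [t1.1, t1.2, t2.1, t2.2, t3.1, t3.2, t5.1, t5.2]⟩
    refine (mul_le_mul_of_nonneg_left t6 (abs_nonneg _)).trans ?_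
    have u1 := x_X1 M h d
    have u2 := x_X1 M h (M.s d)
    rw [x_s] at u2
    have u3 : |M.x h d| * (M.X1 h d + M.X1 h (M.s d) + h) ≤
        3 * (M.X2 h d + M.X2 h (M.s d) + h ^ 2) := by
      nlinarith [sq_nonneg (|M.x h d| - h), sq_nonneg h]
    have u4 := mul_le_mul_of_nonneg_left u3 (by positivity : 0 ≤ C2 * (L * h))
    have u5 : 0 ≤ 72 * (C3 + 1) * (L * h) * (M.X2 h d + M.X2 h (M.s d) + h ^ 2) := by positivity
    nlinarith
  · have t : ∀ j, nv (M.p j - M.p (M.tl d)) ≤ 48 * h → |F j - F (M.tl d)| ≤ L * (48 * h) :=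
      fun j hj => (hF _ j hj).trans (mul_le_mul_of_nonneg_left hj hL)
    have t1 := abs_le.mp (t _ (dB M hf d))
    have t2 := abs_le.mp (t _ (dC M hf d))
    have t3 := abs_le.mp (t _ (dC' M hf d))
    have t6 : |F (M.tl (M.φ (M.φ d))) + F (M.tl (M.φ (M.φ (M.s d))))
        - F (M.tl d) - F (M.tl (M.φ d))| ≤ 144 * (L * h) :=
      abs_le.mpr ⟨by linarith [t1.1, t1.2, t2.1, t2.2, t3.1, t3.2],
        by linarith [t1.1, t1.2, t2.1, t2.2, t3.1, t3.2]⟩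
    refine (mul_le_mul_of_nonneg_left t6 (abs_nonneg _)).trans ?_
    have u1 : 2 * |M.x h d| ≤ (C3 + 1) * M.X2 h d := by
      nlinarith [h3 d hg, sq_nonneg (|M.x h d| - 1)]
    have u2 := mul_le_mul_of_nonneg_left u1 n3
    have u3 : 0 ≤ 3 * C2 * (L * h) * (M.X2 h d + M.X2 h (M.s d) + h ^ 2) := by positivity
    have u4 : 0 ≤ 72 * (C3 + 1) * (L * h) * (M.X2 h (M.s d) + h ^ 2) := by positivity
    nlinarith

end Reg

theorem regS (h1 : AngS) (h2 : RhoS) (h3 : BadS) : RegS := by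
  classical
  obtain ⟨C1, a1, hC1, ha1, h1⟩ := h1
  obtain ⟨C2, a2, hC2, ha2, h2⟩ := h2
  obtain ⟨C3, a3, hC3, ha3, h3⟩ := h3
  refine ⟨3840 * C1 + 120 * (3 * C2 + 72 * (C3 + 1)) + 6912,
    min (min a1 a2) (min a3 (1 / 48)), by positivity, by positivity, ?_⟩
  intro ι Φ _ _ M h hf hh F m L hL hm hF hT
  simp only [le_min_iff] at hh
  obtain ⟨⟨b1, b2⟩, b3, b4⟩ := hh
  have h0 := hf.pos
  have r1 := Reg.rem_le M hf b4 hC1 hL (h1 ι Φ M h hf b1) F hF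
  have r2 := Reg.flag_le M hf hC2 hC3 hL (h2 ι Φ M h hf b2) (h3 ι Φ M h hf b3) F m hm hF hT
  set K := 3 * C2 + 72 * (C3 + 1) with hK
  have hK0 : 0 < K := by positivity
  have e : ∑ v, M.q v * F v - ∑ d, M.E d / 3 * F (M.tl d) =
      ∑ d, (M.θ d - π / 3 - M.E d / 3 - M.lin h d) * F (M.tl d)
        + ∑ d, M.lin h d * F (M.tl d) := by
    rw [Reg.sum_q, ← Finset.sum_sub_distrib, ← Finset.sum_add_distrib]
    exact Finset.sum_congr rfl fun d _ => by ring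
  have hW := Reg.W_nonneg M h
  have cs : ∑ d ∈ M.good h, |M.x h d| * m (M.tl d) ≤
      √(M.W h) * √(∑ d ∈ M.good h, m (M.tl d) ^ 2) := by
    refine (Real.sum_mul_le_sqrt_mul_sqrt _ _ _).trans
      (mul_le_mul_of_nonneg_right (Real.sqrt_le_sqrt ?_) (Real.sqrt_nonneg _))
    simp only [sq_abs]
    exact Finset.sum_le_sum_of_subset_of_nonneg (Finset.subset_univ _) fun _ _ _ => sq_nonneg _
  have r3 : |∑ d, M.x h d * (F (M.tl (M.φ (M.φ d))) + F (M.tl (M.φ (M.φ (M.s d))))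
      - F (M.tl d) - F (M.tl (M.φ d)))| ≤ 120 * K * (L * h * (M.W h + 1))
        + 6912 * (h ^ 2 * √(M.W h) * √(∑ d ∈ M.good h, m (M.tl d) ^ 2)) := by
    refine (Finset.abs_sum_le_sum_abs _ _).trans ((Finset.sum_le_sum fun d _ => r2 d).trans ?_)
    rw [Finset.sum_add_distrib, ← Finset.mul_sum, ← Finset.mul_sum, Finset.sum_ite_mem,
      Finset.univ_inter, Finset.sum_add_distrib, Finset.sum_add_distrib,
      M.sum_s fun d => M.X2 h d, Reg.sum_X2, Finset.sum_const, Finset.card_univ, nsmul_eq_mul]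
    have c1 := mul_le_mul_of_nonneg_left cs (by positivity : 0 ≤ 6912 * h ^ 2)
    have c2 : 3 * M.W h + 3 * M.W h + (Fintype.card Φ : ℝ) * h ^ 2 ≤ 120 * (M.W h + 1) := by
      linarith [Reg.card_le M hf]
    have c3 := mul_le_mul_of_nonneg_left c2 (by positivity : 0 ≤ K * (L * h))
    nlinarith
  have s3 : √3 / 6 ≤ 1 := by
    have : √3 ≤ 2 := Real.sqrt_le_iff.mpr ⟨by norm_num, by norm_num⟩
    linarith
  have r4 : |∑ d, M.lin h d * F (M.tl d)| ≤ 120 * K * (L * h * (M.W h + 1))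
        + 6912 * (h ^ 2 * √(M.W h) * √(∑ d ∈ M.good h, m (M.tl d) ^ 2)) := by
    rw [Reg.sum_lin, abs_mul, abs_of_nonneg (by positivity : 0 ≤ √3 / 6)]
    exact (mul_le_of_le_one_left (abs_nonneg _) s3).trans r3
  rw [e]
  refine (abs_add_le _ _).trans ((add_le_add r1 r4).trans ?_)
  have p1 : 0 ≤ L * h * (M.W h + 1) := by positivity
  have p2 : 0 ≤ h ^ 2 * √(M.W h) * √(∑ d ∈ M.good h, m (M.tl d) ^ 2) := by positivity
  nlinarith [mul_nonneg hC1.le p2, mul_nonneg hK0.le p2]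

end Pool.Agent.MP_2ab689_gt.Big
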