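import Mathlib.MeasureTheory.Measure.Lebesgue.VolumeOfBalls
import Pool.Agent.MP_2ab689_gt.Big.MBasic

/-!
Volumes by plane sections: the ball and its sectors; cone volumes over caps.
-/

namespace Pool.Agent.MP_2ab689_gt.Big

open MeasureTheory Set Real Pointwise

/-- The plane section at height `z` of the first coordinate. -/
def sec (U : Set V) (z : ℝ) : Set ℂ := {w | (![z, w.re, w.im] : V) ∈ U}

theorem vol_sections {U : Set V} (hU : MeasurableSet U) :
    volume U = ∫⁻ z, volume (sec U z) := by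
  have h1 := volume_preserving_piFinSuccAbove (fun _ : Fin 3 => ℝ) 0
  have h2 := (MeasurePreserving.id (volume : Measure ℝ)).prod
    ((Complex.volume_preserving_equiv_real_prod.symm _).comp (volume_preserving_finTwoArrow ℝ))
  have h3 := h2.comp h1
  have hc : Continuous fun y : ℝ × ℂ => (![y.1, y.2.re, y.2.im] : V) := by
    refine continuous_pi fun i => ?_
    fin_cases i <;> simp <;> fun_prop
  have hm : MeasurableSet ((fun y : ℝ × ℂ => (![y.1, y.2.re, y.2.im] : V)) ⁻¹' U) :=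
    hc.measurable hU
  have h4 := h3.measure_preimage hm.nullMeasurableSet
  rw [Measure.prod_apply hm] at h4
  rw [show (∫⁻ z, volume (sec U z)) = _ from h4.symm]
  congr 1
  ext x
  have : (![x 0, x 1, x 2] : V) = x := by
    funext i; fin_cases i <;> rfl
  change x ∈ U ↔ (![x 0, x 1, x 2] : V) ∈ U
  rw [this]

theorem vol_disc (g : ℝ) :
    volume {w : ℂ | w.re ^ 2 + w.im ^ 2 ≤ g} = ENNReal.ofReal (π * g) := by
  rcases lt_or_ge g 0 with h | h
  · rw [ENNReal.ofReal_of_nonpos (mul_nonpos_of_nonneg_of_nonpos pi_pos.le h.le)]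
    convert measure_empty (μ := (volume : Measure ℂ))
    ext w
    simp only [mem_ofPred_eq, mem_empty_iff_false, iff_false, not_le]
    exact h.trans_le (by positivity)
  · have e : {w : ℂ | w.re ^ 2 + w.im ^ 2 ≤ g} = Metric.closedBall 0 √g := by
      ext w
      simp only [mem_ofPred_eq, mem_closedBall_zero_iff]
      rw [Real.le_sqrt (norm_nonneg _) h, Complex.sq_norm, Complex.normSq_apply]
      ring_nf
    rw [e, Complex.volume_closedBall, ← ENNReal.ofReal_pow (sqrt_nonneg g), Real.sq_sqrt h,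
      mul_comm π, ENNReal.ofReal_mul h]
    congr 1
    rw [← NNReal.coe_real_pi, ENNReal.ofReal_coe_nnreal]

theorem lint_Ioc {a b : ℝ} (hab : a ≤ b) {f : ℝ → ℝ} (hf : Continuous f)
    (h0 : ∀ z ∈ Ioc a b, 0 ≤ f z) :
    ∫⁻ z, (Ioc a b).indicator (fun z => ENNReal.ofReal (f z)) z =
      ENNReal.ofReal (∫ z in a..b, f z) := by
  rw [lintegral_indicator measurableSet_Ioc, ← ofReal_integral_eq_lintegral_ofReal
    hf.integrableOn_Ioc ((ae_restrict_iff' measurableSet_Ioc).mpr (ae_of_all _ h0)),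
    ← intervalIntegral.integral_of_le hab]

theorem int_quad (a b c0 c1 c2 : ℝ) : ∫ z in a..b, (c0 + c1 * z + c2 * z ^ 2) =
    c0 * (b - a) + c1 * (b ^ 2 - a ^ 2) / 2 + c2 * (b ^ 3 - a ^ 3) / 3 := by
  rw [intervalIntegral.integral_add, intervalIntegral.integral_add,
    intervalIntegral.integral_const_mul, intervalIntegral.integral_const_mul, integral_id,
    integral_pow]
  · simp; ring
  all_goals apply Continuous.intervalIntegrable; fun_prop

theorem cont_ip2 : Continuous fun x : V => ip x x := by unfold ip; fun_prop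

theorem vol_ball : volume {x : V | ip x x ≤ 1} = ENNReal.ofReal (4 * π / 3) := by
  rw [vol_sections (isClosed_le cont_ip2 continuous_const).measurableSet]
  have e : ∀ z, volume (sec {x : V | ip x x ≤ 1} z) =
      (Ioc (-1 : ℝ) 1).indicator (fun z => ENNReal.ofReal (π + 0 * z + -π * z ^ 2)) z := by
    intro z
    have : sec {x : V | ip x x ≤ 1} z = {w : ℂ | w.re ^ 2 + w.im ^ 2 ≤ 1 - z ^ 2} := by
      ext w
      simp only [sec, ip, mem_ofPred_eq, Matrix.cons_val_zero, Matrix.cons_val_one,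
        Matrix.cons_val_two, Matrix.head_cons, Matrix.tail_cons]
      constructor <;> intro h <;> nlinarith
    rw [this, vol_disc]
    by_cases hz : z ∈ Ioc (-1 : ℝ) 1
    · rw [indicator_of_mem hz]; congr 1; ring
    · rw [indicator_of_notMem hz, ENNReal.ofReal_of_nonpos]
      refine mul_nonpos_of_nonneg_of_nonpos pi_pos.le ?_
      rw [mem_Ioc, not_and_or, not_lt, not_le] at hz
      rcases hz with h | h <;> nlinarith
  simp only [e]
  rw [lint_Ioc (by norm_num) (by fun_prop) (fun z hz => by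
    have : z ^ 2 ≤ 1 := by nlinarith [hz.1, hz.2]
    nlinarith [pi_pos]), int_quad]
  congr 1
  ring

/-- The sector of the unit ball over a cap. -/
def Sec (c : V) (t : ℝ) : Set V := {x | ip x x ≤ 1 ∧ 0 ≤ ip x c ∧ t ^ 2 * ip x x ≤ ip x c ^ 2}

theorem isClosed_Sec (c : V) (t : ℝ) : IsClosed (Sec c t) := by
  have h : Continuous fun x : V => ip x c := by unfold ip; fun_prop
  exact (isClosed_le cont_ip2 continuous_const).inter ((isClosed_le continuous_const h).inter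
    (isClosed_le (continuous_const.mul cont_ip2) (h.pow 2)))

theorem vol_Sec0 {t : ℝ} (h0 : 0 < t) (h1 : t ≤ 1) :
    volume (Sec ![1, 0, 0] t) = ENNReal.ofReal (2 * π * (1 - t) / 3) := by
  rw [vol_sections (isClosed_Sec _ t).measurableSet]
  have ht2 : 0 < t ^ 2 := by positivity
  have ht1 : t ^ 2 ≤ 1 := by nlinarith
  have e : ∀ z, volume (sec (Sec ![1, 0, 0] t) z) =
      (Ioc (0 : ℝ) t).indicator
        (fun z => ENNReal.ofReal (0 + 0 * z + π * (1 - t ^ 2) / t ^ 2 * z ^ 2)) z +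
      (Ioc t 1).indicator (fun z => ENNReal.ofReal (π + 0 * z + -π * z ^ 2)) z := by
    intro z
    have hs : ∀ w : ℂ, w ∈ sec (Sec ![1, 0, 0] t) z ↔ w.re ^ 2 + w.im ^ 2 ≤ 1 - z ^ 2 ∧ 0 ≤ z ∧
        w.re ^ 2 + w.im ^ 2 ≤ (1 - t ^ 2) / t ^ 2 * z ^ 2 := by
      intro w
      simp only [sec, Sec, ip, mem_ofPred_eq, Matrix.cons_val_zero, Matrix.cons_val_one,
        Matrix.cons_val_two, Matrix.head_cons, Matrix.tail_cons, mul_one, mul_zero, add_zero]
      rw [div_mul_eq_mul_div, le_div_iff₀ ht2]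
      constructor <;> rintro ⟨a, b, c⟩ <;> exact ⟨by nlinarith, b, by nlinarith⟩
    rcases lt_or_ge z 0 with hz | hz
    · rw [indicator_of_notMem (fun h => by linarith [h.1]),
        indicator_of_notMem (fun h => by linarith [h.1]), add_zero]
      convert measure_empty (μ := (volume : Measure ℂ))
      ext w
      simp only [hs, mem_empty_iff_false, iff_false]
      exact fun h => by linarith [h.2.1]
    rcases le_or_gt z t with hz' | hz'
    · have : sec (Sec ![1, 0, 0] t) z =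
          {w : ℂ | w.re ^ 2 + w.im ^ 2 ≤ (1 - t ^ 2) / t ^ 2 * z ^ 2} := by
        ext w
        rw [hs]
        refine ⟨fun h => h.2.2, fun h => ⟨le_trans h ?_, hz, h⟩⟩
        rw [div_mul_eq_mul_div, div_le_iff₀ ht2]
        nlinarith [pow_le_pow_left₀ hz hz' 2]
      rw [this, vol_disc, indicator_of_notMem (s := Ioc t 1) (fun h => by linarith [h.1]),
        add_zero]
      rcases hz.lt_or_eq with h | h
      · rw [indicator_of_mem (show z ∈ Ioc 0 t from ⟨h, hz'⟩)]; congr 1; ring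
      · subst h; simp
    · have : sec (Sec ![1, 0, 0] t) z = {w : ℂ | w.re ^ 2 + w.im ^ 2 ≤ 1 - z ^ 2} := by
        ext w
        rw [hs]
        refine ⟨fun h => h.1, fun h => ⟨h, hz, le_trans h ?_⟩⟩
        rw [div_mul_eq_mul_div, le_div_iff₀ ht2]
        nlinarith [pow_le_pow_left₀ h0.le hz'.le 2]
      rw [this, vol_disc, indicator_of_notMem (s := Ioc 0 t) (fun h => by linarith [h.2]),
        zero_add]
      rcases le_or_gt z 1 with h | h
      · rw [indicator_of_mem (show z ∈ Ioc t 1 from ⟨hz', h⟩)]; congr 1; ring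
      · rw [indicator_of_notMem (fun h' => by linarith [h'.2]), ENNReal.ofReal_of_nonpos]
        exact mul_nonpos_of_nonneg_of_nonpos pi_pos.le (by nlinarith)
  simp only [e]
  have hq : 0 ≤ π * (1 - t ^ 2) / t ^ 2 := div_nonneg (mul_nonneg pi_pos.le (by linarith)) ht2.le
  rw [lintegral_add_left (Measurable.indicator (by fun_prop) measurableSet_Ioc),
    lint_Ioc h0.le (by fun_prop) (fun z hz => by linarith [mul_nonneg hq (sq_nonneg z)]),
    lint_Ioc h1 (by fun_prop) (fun z hz => by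
      have : z ^ 2 ≤ 1 := by nlinarith [hz.1, hz.2]
      nlinarith [pi_pos]), int_quad, int_quad, ← ENNReal.ofReal_add]
  · congr 1
    field_simp
    ring
  · have := mul_nonneg hq (pow_pos h0 3).le
    nlinarith
  · have : 0 ≤ (1 - t) ^ 2 * (2 + t) := by positivity
    nlinarith [pi_pos]

theorem exists_onb {u : V} (hu : ip u u = 1) : ∃ e f : V, ip e e = 1 ∧ ip f f = 1 ∧
    ip e f = 0 ∧ ip u e = 0 ∧ ip u f = 0 ∧ det3 u e f = 1 ∧
    ∀ x : V, x = ip x u • u + ip x e • e + ip x f • f := by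
  obtain ⟨e, hee, heu⟩ : ∃ e : V, ip e e = 1 ∧ ip e u = 0 := by
    by_cases h : u 0 ^ 2 + u 1 ^ 2 = 0
    · have h0 : u 0 = 0 := by nlinarith [sq_nonneg (u 0), sq_nonneg (u 1)]
      exact ⟨![1, 0, 0], by simp [ip], by simp [ip, h0]⟩
    · have hp : 0 < u 0 ^ 2 + u 1 ^ 2 := lt_of_le_of_ne (by positivity) (Ne.symm h)
      have hs : 0 < √(u 0 ^ 2 + u 1 ^ 2) := Real.sqrt_pos.mpr hp
      have hs2 := Real.sq_sqrt hp.le
      refine ⟨![-u 1 / √(u 0 ^ 2 + u 1 ^ 2), u 0 / √(u 0 ^ 2 + u 1 ^ 2), 0], ?_, ?_⟩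
      · simp only [ip, Matrix.cons_val_zero, Matrix.cons_val_one, Matrix.cons_val_two,
          Matrix.head_cons, Matrix.tail_cons]
        field_simp
        linarith
      · simp only [ip, Matrix.cons_val_zero, Matrix.cons_val_one, Matrix.cons_val_two,
          Matrix.head_cons, Matrix.tail_cons]
        ring
  have hd : det3 u e (crs u e) = 1 := by
    simp only [ip, det3, crs, Matrix.cons_val_zero, Matrix.cons_val_one, Matrix.cons_val_two,
      Matrix.head_cons, Matrix.tail_cons] at *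
    linear_combination (e 0 * e 0 + e 1 * e 1 + e 2 * e 2) * hu + hee
      - (e 0 * u 0 + e 1 * u 1 + e 2 * u 2) * heu
  refine ⟨e, crs u e, hee, ?_, ?_, ip_comm u e ▸ heu, ?_, hd, fun x => ?_⟩
  · rw [← hd]
    simp only [ip, det3, crs, Matrix.cons_val_zero, Matrix.cons_val_one, Matrix.cons_val_two,
      Matrix.head_cons, Matrix.tail_cons]
    ring
  · simp only [ip, crs, Matrix.cons_val_zero, Matrix.cons_val_one, Matrix.cons_val_two,
      Matrix.head_cons, Matrix.tail_cons]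
    ring
  · simp only [ip, crs, Matrix.cons_val_zero, Matrix.cons_val_one, Matrix.cons_val_two,
      Matrix.head_cons, Matrix.tail_cons]
    ring
  · funext i
    simp only [ip, crs, Matrix.cons_val_zero, Matrix.cons_val_one, Matrix.cons_val_two,
      Matrix.head_cons, Matrix.tail_cons, Pi.add_apply, Pi.smul_apply, smul_eq_mul] at *
    fin_cases i
    · simp only [Fin.zero_eta, Matrix.cons_val_zero]
      linear_combination (-(x 0) * (e 0 * e 0 + e 1 * e 1 + e 2 * e 2)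
        + (x 0 * e 0 + x 1 * e 1 + x 2 * e 2) * e 0) * hu
        + (-(x 0) + (x 0 * u 0 + x 1 * u 1 + x 2 * u 2) * u 0) * hee
        + (x 0 * (e 0 * u 0 + e 1 * u 1 + e 2 * u 2) - (x 0 * e 0 + x 1 * e 1 + x 2 * e 2) * u 0
          - (x 0 * u 0 + x 1 * u 1 + x 2 * u 2) * e 0) * heu
    · simp only [Fin.mk_one, Matrix.cons_val_one, Matrix.cons_val_zero]
      linear_combination (-(x 1) * (e 0 * e 0 + e 1 * e 1 + e 2 * e 2)
        + (x 0 * e 0 + x 1 * e 1 + x 2 * e 2) * e 1) * hu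
        + (-(x 1) + (x 0 * u 0 + x 1 * u 1 + x 2 * u 2) * u 1) * hee
        + (x 1 * (e 0 * u 0 + e 1 * u 1 + e 2 * u 2) - (x 0 * e 0 + x 1 * e 1 + x 2 * e 2) * u 1
          - (x 0 * u 0 + x 1 * u 1 + x 2 * u 2) * e 1) * heu
    · simp only [Fin.reduceFinMk, Matrix.cons_val_two, Matrix.tail_cons, Matrix.head_cons]
      linear_combination (-(x 2) * (e 0 * e 0 + e 1 * e 1 + e 2 * e 2)
        + (x 0 * e 0 + x 1 * e 1 + x 2 * e 2) * e 2) * hu
        + (-(x 2) + (x 0 * u 0 + x 1 * u 1 + x 2 * u 2) * u 2) * hee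
        + (x 2 * (e 0 * u 0 + e 1 * u 1 + e 2 * u 2) - (x 0 * e 0 + x 1 * e 1 + x 2 * e 2) * u 2
          - (x 0 * u 0 + x 1 * u 1 + x 2 * u 2) * e 2) * heu

theorem vol_Sec {c : V} (hc : ip c c = 1) {t : ℝ} (h0 : 0 < t) (h1 : t ≤ 1) :
    volume (Sec c t) = ENNReal.ofReal (2 * π * (1 - t) / 3) := by
  obtain ⟨e, f, a1, a2, a3, a4, a5, a6, a7⟩ := exists_onb hc
  have k : ∀ w : V, ip (aff 0 c e f w) (aff 0 c e f w) = ip w w ∧
      ip (aff 0 c e f w) c = ip w ![1, 0, 0] := by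
    intro w
    simp only [aff, sub_zero, zero_add, ip_add_left, ip_add_right, ip_smul_left, ip_smul_right,
      hc, a1, a2, a3, a4, a5, ip_comm e c, ip_comm f c, ip_comm f e]
    simp [ip]
  have e1 : Sec c t = aff 0 c e f '' Sec ![1, 0, 0] t := by
    ext x
    constructor
    · intro hx
      have : aff 0 c e f ![ip x c, ip x e, ip x f] = x := by
        simp only [aff, sub_zero, zero_add]; exact (a7 x).symm
      refine ⟨![ip x c, ip x e, ip x f], ?_, this⟩
      rw [Sec, mem_ofPred_eq, ← (k _).1, ← (k _).2, this]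
      exact hx
    · rintro ⟨w, hw, rfl⟩
      simp only [Sec, mem_ofPred_eq, (k _).1, (k _).2]
      exact hw
  have e2 : T4 c e f 0 = 1 := by simpa [T4] using a6
  rw [e1, vol_aff, e2, vol_Sec0 h0 h1]
  simp

theorem hull_sub_ball {ι : Type} {p : ι → V} (hu : ∀ i, ip (p i) (p i) = 1) :
    convexHull ℝ (range p) ⊆ {x : V | ip x x ≤ 1} := by
  refine convexHull_min (by rintro _ ⟨i, rfl⟩; exact (hu i).le) ?_
  intro x hx y hy a b ha hb hab
  have k : ∀ x : V, ip x x ≤ 1 ↔ nv x ≤ 1 := fun x => by rw [nv_le_iff zero_le_one, one_pow]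
  simp only [mem_ofPred_eq, k] at *
  refine (nv_add _ _).trans ?_
  rw [nv_smul, nv_smul, abs_of_nonneg ha, abs_of_nonneg hb]
  nlinarith

theorem nv_comb {a b c : V} (ha : ip a a = 1) (hb : ip b b = 1) (hc : ip c c = 1) {α β γ : ℝ}
    (h1 : 0 ≤ α) (h2 : 0 ≤ β) (h3 : 0 ≤ γ) : nv (α • a + β • b + γ • c) ≤ α + β + γ := by
  refine (nv_add _ _).trans ((add_le_add_left (nv_add _ _) _).trans ?_)
  rw [nv_smul, nv_smul, nv_smul, abs_of_nonneg h1, abs_of_nonneg h2, abs_of_nonneg h3,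
    nv_eq_one ha, nv_eq_one hb, nv_eq_one hc]
  linarith

namespace Mesh

variable {ι Φ : Type} [Fintype ι] [Fintype Φ] (M : Mesh ι Φ)

theorem vol_le : M.vol ≤ 4 * π / 3 :=
  ENNReal.toReal_le_of_le_ofReal (by positivity)
    ((measure_mono (hull_sub_ball M.unit)).trans vol_ball.le)

theorem sum_D_le (S : Finset Φ) : ∑ d ∈ S, M.D d ≤ 24 * π := by
  have h1 : ∑ d ∈ S, M.D d ≤ ∑ d, M.D d :=
    Finset.sum_le_sum_of_subset_of_nonneg (Finset.subset_univ _) fun d _ _ => (M.D_pos d).le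
  rw [sum_D] at h1
  linarith [M.vol_le]

theorem cap_le {c : V} (hc : ip c c = 1) {t : ℝ} (h0 : 0 < t) (h1 : t ≤ 1) (S : Finset Φ)
    (hS : ∀ d ∈ S, t ≤ ip (M.A d) c ∧ t ≤ ip (M.B d) c ∧ t ≤ ip (M.C d) c) :
    ∑ d ∈ S, M.D d ≤ 12 * π * (1 - t) := by
  have := M.pack S (Sec c t) (u := 2 * π * (1 - t) / 3)
    (by have := sub_nonneg.mpr h1; positivity) (vol_Sec hc h0 h1).le (by
      intro d hd α β γ a1 a2 a3 a4
      obtain ⟨b1, b2, b3⟩ := hS d hd
      have n1 := nv_comb (M.uA d) (M.uB d) (M.uC d) a1.le a2.le a3.le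
      have n2 : t * (α + β + γ) ≤ ip (α • M.A d + β • M.B d + γ • M.C d) c := by
        rw [ip_add_left, ip_add_left, ip_smul_left, ip_smul_left, ip_smul_left]
        nlinarith
      have n0 := nv_nonneg (α • M.A d + β • M.B d + γ • M.C d)
      refine ⟨?_, le_trans (by positivity) n2, ?_⟩
      · rw [← nv_sq]; nlinarith
      · rw [← nv_sq, ← mul_pow]
        exact pow_le_pow_left₀ (by positivity) ((mul_le_mul_of_nonneg_left n1 h0.le).trans n2) 2)
  linarith

theorem nv_AB {ℓ : ℝ} (h0 : 0 ≤ ℓ) (hl : ∀ d, M.sq d ≤ ℓ ^ 2) (d : Φ) : nv (M.A d - M.B d) ≤ ℓ :=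
  (nv_le_iff h0).mpr (hl d)

theorem nv_AC {ℓ : ℝ} (h0 : 0 ≤ ℓ) (hl : ∀ d, M.sq d ≤ ℓ ^ 2) (d : Φ) :
    nv (M.A d - M.C d) ≤ ℓ := by
  have := M.nv_AB h0 hl (M.φ (M.φ d))
  rwa [B_φ, C_φ, nv_sub_comm] at this

/-- Cone volume over the faces that start within chord distance `ρ` of `c`. -/
theorem cap_chord {c : V} (hc : ip c c = 1) {ρ ℓ : ℝ} (hρ : 0 ≤ ρ) (h0 : 0 ≤ ℓ)
    (hl : ∀ d, M.sq d ≤ ℓ ^ 2) (h2 : (ρ + ℓ) ^ 2 < 2) (S : Finset Φ)
    (hS : ∀ d ∈ S, nv (M.A d - c) ≤ ρ) : ∑ d ∈ S, M.D d ≤ 6 * π * (ρ + ℓ) ^ 2 := by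
  have k : ∀ x : V, ip x x = 1 → nv (x - c) ≤ ρ + ℓ → 1 - (ρ + ℓ) ^ 2 / 2 ≤ ip x c := by
    intro x hx h
    rw [nv_le_iff (by positivity), ip_sub_unit hx hc] at h
    linarith
  have := M.cap_le hc (t := 1 - (ρ + ℓ) ^ 2 / 2) (by linarith) (by nlinarith) S fun d hd =>
    ⟨k _ (M.uA d) (by linarith [hS d hd]), k _ (M.uB d) (by
      have := nv_tri (M.B d) (M.A d) c
      rw [nv_sub_comm (M.B d) (M.A d)] at this
      linarith [hS d hd, M.nv_AB h0 hl d]), k _ (M.uC d) (by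
      have := nv_tri (M.C d) (M.A d) c
      rw [nv_sub_comm (M.C d) (M.A d)] at this
      linarith [hS d hd, M.nv_AC h0 hl d])⟩
  linarith

theorem cap_chord' {c : V} (hc : ip c c = 1) {ρ ℓ : ℝ} (hρ : 0 ≤ ρ) (h0 : 0 ≤ ℓ)
    (hl : ∀ d, M.sq d ≤ ℓ ^ 2) (S : Finset Φ)
    (hS : ∀ d ∈ S, nv (M.A d - c) ≤ ρ) : ∑ d ∈ S, M.D d ≤ 12 * π * (ρ + ℓ) ^ 2 := by
  rcases lt_or_ge ((ρ + ℓ) ^ 2) 2 with h | h
  · have := M.cap_chord hc hρ h0 hl h S hS
    nlinarith [pi_pos, _root_.sq_nonneg (ρ + ℓ)]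
  · nlinarith [M.sum_D_le S, pi_pos]

/-- Upper bound in terms of the height of the first vertex. -/
theorem cap_height {c : V} (hc : ip c c = 1) {t ℓ : ℝ} (h0 : 0 ≤ ℓ) (hl : ∀ d, M.sq d ≤ ℓ ^ 2)
    (ht : ℓ < t) (ht1 : t ≤ 1) (S : Finset Φ) (hS : ∀ d ∈ S, t ≤ ip (M.A d) c) :
    ∑ d ∈ S, M.D d ≤ 12 * π * (1 - t + ℓ) := by
  have k : ∀ d ∈ S, ∀ x : V, nv (M.A d - x) ≤ ℓ → t - ℓ ≤ ip x c := by
    intro d hd x h
    have := ip_le_nv (M.A d - x) c
    rw [nv_eq_one hc, ip_sub_left] at this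
    linarith [hS d hd]
  have := M.cap_le hc (t := t - ℓ) (by linarith) (by linarith) S fun d hd =>
    ⟨by linarith [hS d hd], k d hd _ (M.nv_AB h0 hl d), k d hd _ (M.nv_AC h0 hl d)⟩
  linarith

/-- Lower bound in terms of the height of the first vertex. -/
theorem cap_low {c : V} (hc : ip c c = 1) {t ℓ κ : ℝ} (h0 : 0 ≤ ℓ) (hl1 : ℓ ≤ 1)
    (hl : ∀ d, M.sq d ≤ ℓ ^ 2) (hκ : 0 < κ) (hb : ∀ x : V, ip x x ≤ κ ^ 2 → x ∈ M.hull)
    (ht : 0 < t) (ht1 : t ≤ 1) (S : Finset Φ) (hS : ∀ d, t - 2 * ℓ ≤ ip (M.A d) c → d ∈ S) :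
    12 * π * (1 - t) * κ ^ 3 ≤ ∑ d ∈ S, M.D d := by
  have hv : volume ((κ • Sec c t) \ {0}) = ENNReal.ofReal (κ ^ 3 * (2 * π * (1 - t) / 3)) := by
    rw [measure_sdiff_null (measure_singleton _), Measure.addHaar_smul, vol_Sec hc ht ht1,
      ENNReal.ofReal_mul (by positivity), abs_of_pos (by positivity)]
    simp
  have := M.cov S ((κ • Sec c t) \ {0}) (by
    rintro _ ⟨⟨x, hx, rfl⟩, -⟩
    refine hb _ ?_
    rw [ip_smul_left, ip_smul_right]
    nlinarith [hx.1, mul_pos hκ hκ]) hv.ge (by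
    rintro d α β γ a1 a2 a3 - ⟨⟨x, hx, e⟩, hne⟩
    refine hS d ?_
    simp only at e
    set y := α • M.A d + β • M.B d + γ • M.C d with hy
    have hσ : 0 < α + β + γ := by
      refine lt_of_le_of_ne (by positivity) fun h => hne ?_
      have z1 : α = 0 := by linarith
      have z2 : β = 0 := by linarith
      have z3 : γ = 0 := by linarith
      simp [hy, z1, z2, z3]
    have n1 : t * nv y ≤ ip y c := by
      refine abs_le_of_sq_le_sq' ?_ (by rw [← e, ip_smul_left]; exact mul_nonneg hκ.le hx.2.1)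
        |>.2
      rw [mul_pow, nv_sq, ← e, ip_smul_left, ip_smul_left, ip_smul_right]
      nlinarith [mul_le_mul_of_nonneg_left hx.2.2 (mul_pos hκ hκ).le]
    have n2 : (α + β + γ) * (1 - ℓ) ≤ nv y := by
      have := ip_le_nv y (M.A d)
      rw [nv_eq_one (M.uA d), mul_one, hy, ip_add_left, ip_add_left, ip_smul_left, ip_smul_left,
        ip_smul_left, M.uA, ip_comm (M.B d), ← hy] at this
      have b1 := hl d
      have b2 := hl (M.φ (M.φ d))
      rw [sq_eq] at b1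
      rw [sq_φφ] at b2
      have b3 : 1 - ℓ ≤ ip (M.A d) (M.B d) := by nlinarith
      have b4 : 1 - ℓ ≤ ip (M.C d) (M.A d) := by nlinarith
      nlinarith [mul_le_mul_of_nonneg_left b3 a2, mul_le_mul_of_nonneg_left b4 a3,
        mul_nonneg a1 h0]
    have n3 : ip y c ≤ (α + β + γ) * (ip (M.A d) c + ℓ) := by
      have k : ∀ x : V, nv (M.A d - x) ≤ ℓ → ip x c ≤ ip (M.A d) c + ℓ := by
        intro x h
        have := ip_le_nv (x - M.A d) c
        rw [nv_eq_one hc, ip_sub_left, nv_sub_comm] at this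
        linarith
      rw [hy, ip_add_left, ip_add_left, ip_smul_left, ip_smul_left, ip_smul_left]
      nlinarith [mul_le_mul_of_nonneg_left (k _ (M.nv_AB h0 hl d)) a2,
        mul_le_mul_of_nonneg_left (k _ (M.nv_AC h0 hl d)) a3, mul_nonneg a1 h0]
    have n4 : (α + β + γ) * (t * (1 - ℓ)) ≤ (α + β + γ) * (ip (M.A d) c + ℓ) := by
      nlinarith [mul_le_mul_of_nonneg_left n2 ht.le]
    have n5 := le_of_mul_le_mul_left n4 hσ
    nlinarith)
  linarith

end Mesh

end Pool.Agent.MP_2ab689_gt.Big
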