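import Pool.Agent.MP_2ab689_gt.Big.Spec

/-!
A lattice vector as a sum of derivatives of the piecewise affine interpolation.
-/

namespace Pool.Agent.MP_2ab689_gt.Big

namespace Seg

variable (P : ℤ → ℤ → ℝ)

/-- The affine formula of an upper cell. -/
def U (a b : ℤ) (s t : ℝ) : ℝ :=
  P a b + (s - a) * (P (a + 1) b - P a b) + (t - b) * (P a (b + 1) - P a b)

/-- The affine formula of a lower cell. -/
def D (a b : ℤ) (s t : ℝ) : ℝ :=
  P (a + 1) (b + 1) + (s - a - 1) * (P (a + 1) (b + 1) - P a (b + 1)) +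
    (t - b - 1) * (P (a + 1) (b + 1) - P (a + 1) b)

/-- The interpolation. -/
noncomputable def L (s t : ℝ) : ℝ :=
  if s + t ≤ ⌊s⌋ + ⌊t⌋ + 1 then U P ⌊s⌋ ⌊t⌋ s t else D P ⌊s⌋ ⌊t⌋ s t

theorem fl {a : ℤ} {s : ℝ} (h1 : (a : ℝ) ≤ s) (h2 : s ≤ a + 1) :
    ⌊s⌋ = a ∨ (⌊s⌋ = a + 1 ∧ s = a + 1) := by
  rcases h2.lt_or_eq with h | h
  · exact Or.inl (Int.floor_eq_iff.2 ⟨h1, h⟩)
  · exact Or.inr ⟨by rw [h]; simp, h⟩

theorem L_up {a b : ℤ} {s t : ℝ} (h1 : (a : ℝ) ≤ s) (h2 : (b : ℝ) ≤ t) (h3 : s + t ≤ a + b + 1) :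
    L P s t = U P a b s t := by
  unfold L
  rcases fl h1 (by linarith) with e | ⟨e, e'⟩ <;> rcases fl h2 (by linarith) with f | ⟨f, f'⟩ <;>
    rw [e, f, if_pos (by push_cast; linarith)]
  · obtain rfl : s = a := by linarith
    simp only [U, f']; push_cast; ring
  · obtain rfl : t = b := by linarith
    simp only [U, e']; push_cast; ring
  · linarith

theorem L_dn {a b : ℤ} {s t : ℝ} (h1 : s ≤ a + 1) (h2 : t ≤ b + 1) (h3 : a + b + 1 ≤ s + t) :
    L P s t = D P a b s t := by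
  unfold L
  rcases fl (a := a) (by linarith) h1 with e | ⟨e, e'⟩ <;>
    rcases fl (a := b) (by linarith) h2 with f | ⟨f, f'⟩ <;> rw [e, f]
  · split_ifs with c
    · obtain rfl : t = a + b + 1 - s := by linarith
      simp only [U, D]; ring
    · rfl
  · rw [if_pos (by push_cast; linarith)]
    simp only [U, D, f']; push_cast; ring
  · rw [if_pos (by push_cast; linarith)]
    simp only [U, D, e']; push_cast; ring
  · rw [if_pos (by push_cast; linarith)]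
    simp only [U, D, e', f']; push_cast; ring

theorem lo {m N A k : ℤ} (hN : 0 < N) (hm : m = 0 ∨ m ∣ N) (h : 2 * N * A ≤ m * (2 * k + 1)) :
    N * A ≤ m * k ∧ N * A ≤ m * (k + 1) := by
  rcases hm with rfl | ⟨c, rfl⟩
  · constructor <;> linarith
  · rcases lt_trichotomy m 0 with p | rfl | p
    · have : 2 * k + 1 ≤ 2 * (c * A) := le_of_mul_le_mul_left (a := -m) (by linarith) (by omega)
      have : k + 1 ≤ c * A := by omega
      constructor <;> nlinarith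
    · simp at hN
    · have : 2 * (c * A) ≤ 2 * k + 1 := le_of_mul_le_mul_left (a := m) (by linarith) p
      have : c * A ≤ k := by omega
      constructor <;> nlinarith

theorem hi {m N A k : ℤ} (hN : 0 < N) (hm : m = 0 ∨ m ∣ N) (h : m * (2 * k + 1) ≤ 2 * N * A) :
    m * k ≤ N * A ∧ m * (k + 1) ≤ N * A := by
  have := lo (m := -m) (A := -A) (k := k) hN (hm.imp (by omega) neg_dvd.2) (by linarith)
  constructor <;> linarith [this.1, this.2]

theorem ex (m : ℤ) : ∃ n : ℕ, 0 < n ∧ (m = 0 ∨ m ∣ n) := by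
  rcases eq_or_ne m 0 with h | h
  · exact ⟨1, one_pos, Or.inl h⟩
  · exact ⟨m.natAbs, Int.natAbs_pos.2 h, Or.inr (Int.dvd_natAbs.2 dvd_rfl)⟩

theorem le_r {N A x : ℤ} (hN : 0 < N) (h : N * A ≤ x) : (A : ℝ) ≤ (x : ℝ) / N := by
  rw [le_div_iff₀ (by exact_mod_cast hN), mul_comm]
  exact_mod_cast h

theorem r_le {N A x : ℤ} (hN : 0 < N) (h : x ≤ N * A) : (x : ℝ) / N ≤ A := by
  rw [div_le_iff₀ (by exact_mod_cast hN), mul_comm]
  exact_mod_cast h

theorem cell {m N k : ℤ} (hN : 0 < N) (hm : m = 0 ∨ m ∣ N) :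
    (N * (m * (2 * k + 1) / (2 * N)) ≤ m * k ∧ N * (m * (2 * k + 1) / (2 * N)) ≤ m * (k + 1)) ∧
    m * k ≤ N * (m * (2 * k + 1) / (2 * N) + 1) ∧
      m * (k + 1) ≤ N * (m * (2 * k + 1) / (2 * N) + 1) :=
  ⟨lo hN hm (Int.mul_ediv_self_le (by omega)), hi hN hm (by
    have := Int.lt_mul_ediv_self_add (x := m * (2 * k + 1)) (k := 2 * N) (by omega)
    linarith)⟩

theorem bd {m N k A : ℤ} (hN : 0 < N) (h0 : 0 ≤ k) (hk : k < N) (h1 : N * A ≤ m * k)
    (h2 : m * k ≤ N * (A + 1)) : |A| ≤ |m| + 1 := by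
  have a : |m| * k ≤ N * |m| := by nlinarith [abs_nonneg m]
  have b : m * k ≤ |m| * k := mul_le_mul_of_nonneg_right (le_abs_self m) h0
  have c : -|m| * k ≤ m * k := mul_le_mul_of_nonneg_right (neg_abs_le m) h0
  have d : A ≤ |m| := le_of_mul_le_mul_left (a := N) (by linarith) hN
  have e : -|m| ≤ A + 1 := le_of_mul_le_mul_left (a := N) (by linarith) hN
  rw [abs_le]
  constructor <;> linarith

end Seg

open Seg

theorem segS : SegS := by
  intro i j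
  obtain ⟨n1, p1, d1⟩ := ex i
  obtain ⟨n2, p2, d2⟩ := ex j
  obtain ⟨n3, p3, d3⟩ := ex (i + j)
  obtain ⟨N, hN, di, dj, dij⟩ : ∃ N : ℕ, 0 < N ∧ (i = 0 ∨ i ∣ N) ∧ (j = 0 ∨ j ∣ N) ∧
      (i + j = 0 ∨ i + j ∣ N) :=
    ⟨n1 * n2 * n3, by positivity, d1.imp id fun h => h.trans ⟨n2 * n3, by push_cast; ring⟩,
      d2.imp id fun h => h.trans ⟨n1 * n3, by push_cast; ring⟩,
      d3.imp id fun h => h.trans ⟨n1 * n2, by push_cast; ring⟩⟩
  have hz : (0 : ℤ) < N := by exact_mod_cast hN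
  have hr : (N : ℝ) ≠ 0 := by positivity
  obtain ⟨a, ha⟩ : ∃ a : ℕ → ℤ, ∀ k : ℕ, ((N : ℤ) * a k ≤ i * k ∧ N * a k ≤ i * (k + 1)) ∧
      i * k ≤ N * (a k + 1) ∧ i * (k + 1) ≤ N * (a k + 1) := ⟨_, fun k => cell hz di⟩
  obtain ⟨b, hb⟩ : ∃ b : ℕ → ℤ, ∀ k : ℕ, ((N : ℤ) * b k ≤ j * k ∧ N * b k ≤ j * (k + 1)) ∧
      j * k ≤ N * (b k + 1) ∧ j * (k + 1) ≤ N * (b k + 1) := ⟨_, fun k => cell hz dj⟩
  refine ⟨N, a, b, fun k => decide ((i + j) * (2 * k + 1) ≤ 2 * N * (a k + b k + 1)), hN,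
    fun k hk => ⟨bd hz (by omega) (by exact_mod_cast hk) (ha k).1.1 (ha k).2.1,
      bd hz (by omega) (by exact_mod_cast hk) (hb k).1.1 (hb k).2.1⟩, fun P => ?_⟩
  have e := Finset.sum_range_sub (fun k : ℕ => L P (((i * k : ℤ) : ℝ) / (N : ℤ))
    (((j * k : ℤ) : ℝ) / (N : ℤ))) N
  have e0 : ∀ x y : ℤ, L P x y = P x y := fun x y => by
    rw [L_up P le_rfl le_rfl (by linarith)]; simp [U]
  have e1 : ∀ x : ℤ, ((x * (N : ℕ) : ℤ) : ℝ) / ((N : ℤ) : ℝ) = x := fun x => by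
    push_cast; field_simp
  have e2 : ∀ x : ℤ, ((x * (0 : ℕ) : ℤ) : ℝ) / ((N : ℤ) : ℝ) = (0 : ℤ) := fun x => by simp
  rw [e1, e1, e2, e2, e0, e0] at e
  rw [← e, Finset.mul_sum]
  refine Finset.sum_congr rfl fun k _ => ?_
  have s : ∀ x : ℤ, ((i * x : ℤ) : ℝ) / (N : ℤ) + ((j * x : ℤ) : ℝ) / (N : ℤ) =
      (((i + j) * x : ℤ) : ℝ) / (N : ℤ) := fun x => by push_cast; ring
  rw [Nat.cast_succ]
  by_cases c : (i + j) * (2 * k + 1) ≤ 2 * N * (a k + b k + 1)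
  · have q := hi hz dij c
    rw [if_pos (decide_eq_true c),
      L_up P (le_r hz (ha k).1.1) (le_r hz (hb k).1.1) (by rw [s]; exact_mod_cast r_le hz q.1),
      L_up P (le_r hz (ha k).1.2) (le_r hz (hb k).1.2) (by rw [s]; exact_mod_cast r_le hz q.2)]
    simp only [U]; push_cast; field_simp; ring
  · have q := lo hz dij (not_le.1 c).le
    rw [if_neg (by simpa using c),
      L_dn P (a := a k) (b := b k) (by exact_mod_cast r_le hz (ha k).2.2)
        (by exact_mod_cast r_le hz (hb k).2.2) (by rw [s]; exact_mod_cast le_r hz q.2),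
      L_dn P (a := a k) (b := b k) (by exact_mod_cast r_le hz (ha k).2.1)
        (by exact_mod_cast r_le hz (hb k).2.1) (by rw [s]; exact_mod_cast le_r hz q.1)]
    simp only [D]; push_cast; field_simp; ring

end Pool.Agent.MP_2ab689_gt.Big
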