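import Pool.Agent.MP_2ab689_gt.Big.Spec
import Mathlib.NumberTheory.Harmonic.Bounds
import Mathlib.Analysis.Complex.ExponentialBounds

/-!
The row data of the construction: a greedy sequence follows the ideal number of points per
sector, and an even shift of the index adjusts the total number of points.
-/

namespace Pool.Agent.MP_2ab689_gt.Big

open Real Finset

namespace SeqRow

open Classical in
/-- The greedy sequence that follows `y`. -/
noncomputable def gr (y : ℕ → ℝ) : ℕ → ℕ × ℕ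
  | 0 => (2, 2)
  | j + 1 =>
    if Odd j ∧ (gr y j).2 = (gr y j).1 ∧ ((gr y j).1 : ℝ) + 1 ≤ y j then ((gr y j).1 + 1, 2)
    else ((gr y j).1, min (gr y j).1 ((gr y j).2 + 1))

theorem gr_cases (y : ℕ → ℝ) (j : ℕ) :
    (Odd j ∧ (gr y j).2 = (gr y j).1 ∧ ((gr y j).1 : ℝ) + 1 ≤ y j ∧
      (gr y (j + 1)).1 = (gr y j).1 + 1 ∧ (gr y (j + 1)).2 = 2) ∨
    (¬ (Odd j ∧ (gr y j).2 = (gr y j).1 ∧ ((gr y j).1 : ℝ) + 1 ≤ y j) ∧
      (gr y (j + 1)).1 = (gr y j).1 ∧ (gr y (j + 1)).2 = min (gr y j).1 ((gr y j).2 + 1)) := by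
  by_cases h : Odd j ∧ (gr y j).2 = (gr y j).1 ∧ ((gr y j).1 : ℝ) + 1 ≤ y j
  · left
    refine ⟨h.1, h.2.1, h.2.2, ?_, ?_⟩ <;> rw [gr, if_pos h]
  · right
    refine ⟨h, ?_, ?_⟩ <;> rw [gr, if_neg h]

theorem greedy (y : ℕ → ℝ) (ε Y : ℝ) (h0 : 0 ≤ ε) (mono : ∀ i, y i ≤ y (i + 1))
    (inc : ∀ i, y (i + 1) ≤ y i + ε) (y0 : y 0 ≤ 3) (hY : ∀ i, y i ≤ Y)
    (hε : ε * (Y + 1) ≤ 1) (hε2 : 2 * ε ≤ 1) :
    ∃ q w : ℕ → ℕ, (∀ j, 2 ≤ w j ∧ w j ≤ q j) ∧
      (∀ j, Step j (q j) (w j) (q (j + 1)) (w (j + 1))) ∧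
      (∀ j, (q j : ℝ) ≤ max 2 (y j)) ∧ ∀ j, y j ≤ q j + 2 := by
  have hw : ∀ j, 2 ≤ (gr y j).2 ∧ (gr y j).2 ≤ (gr y j).1 := by
    intro j
    induction j with
    | zero => simp [gr]
    | succ j ih =>
      rcases gr_cases y j with ⟨-, -, -, h1, h2⟩ | ⟨-, h1, h2⟩ <;> rw [h1, h2] <;> omega
  refine ⟨fun j => (gr y j).1, fun j => (gr y j).2, hw, ?_, ?_, ?_⟩
  · intro j
    rcases gr_cases y j with ⟨a, b, -, h1, h2⟩ | ⟨-, h1, h2⟩
    · exact Or.inr ⟨a, b, h1, h2⟩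
    · exact Or.inl ⟨h1, h2⟩
  · intro j
    induction j with
    | zero => simp [gr]
    | succ j ih =>
      rcases gr_cases y j with ⟨-, -, c, h1, -⟩ | ⟨-, h1, -⟩
      · simp only [h1]
        push_cast
        exact le_max_of_le_right (c.trans (mono j))
      · simp only [h1]
        exact ih.trans (max_le_max le_rfl (mono j))
  · have inv : ∀ j, ((gr y j).2 < (gr y j).1 →
        y j - (gr y j).1 + ε * (((gr y j).1 : ℝ) - (gr y j).2) ≤ 1) ∧
        ((gr y j).2 = (gr y j).1 → y j - (gr y j).1 ≤ 1 + ε ∨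
          (Odd j ∧ y j - (gr y j).1 ≤ 1 + 2 * ε)) := by
      intro j
      induction j with
      | zero =>
        refine ⟨by simp [gr], fun _ => Or.inl ?_⟩
        simp only [gr]
        push_cast
        linarith
      | succ j ih =>
        have hj := hw j
        have hi := inc j
        rcases gr_cases y j with ⟨a, b, c, h1, h2⟩ | ⟨hn, h1, h2⟩
        · rw [h1, h2]
          refine ⟨fun _ => ?_, fun h => by omega⟩
          have h3 : y j - (gr y j).1 ≤ 1 + 2 * ε := by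
            rcases ih.2 b with h | h
            · linarith
            · exact h.2
          have h4 : ε * (((gr y j).1 : ℝ) + 2) ≤ ε * (Y + 1) :=
            mul_le_mul_of_nonneg_left (by linarith [hY j]) h0
          push_cast
          nlinarith
        · rw [h1, h2]
          rcases hj.2.lt_or_eq with hlt | heq
          · have h3 := ih.1 hlt
            have h5 : min (gr y j).1 ((gr y j).2 + 1) = (gr y j).2 + 1 := by omega
            rw [h5]
            refine ⟨fun _ => ?_, fun h => Or.inl ?_⟩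
            · push_cast
              nlinarith
            · have h6 : ((gr y j).1 : ℝ) = (gr y j).2 + 1 := by exact_mod_cast h.symm
              rw [h6] at h3 ⊢
              nlinarith
          · have h5 : min (gr y j).1 ((gr y j).2 + 1) = (gr y j).1 := by omega
            rw [h5]
            refine ⟨fun h => absurd h (lt_irrefl _), fun _ => ?_⟩
            by_cases hc : ((gr y j).1 : ℝ) + 1 ≤ y j
            · have hodd : ¬ Odd j := fun ho => hn ⟨ho, heq, hc⟩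
              right
              refine ⟨(Nat.not_odd_iff_even.1 hodd).add_one, ?_⟩
              rcases ih.2 heq with h | h
              · linarith
              · exact absurd h.1 hodd
            · left
              linarith [not_le.1 hc]
    intro j
    rcases (hw j).2.lt_or_eq with hlt | heq
    · have h3 := (inv j).1 hlt
      have h4 : ((gr y j).2 : ℝ) ≤ (gr y j).1 := by exact_mod_cast hlt.le
      have h5 := mul_nonneg h0 (sub_nonneg.2 h4)
      linarith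
    · rcases (inv j).2 heq with h | h
      · linarith
      · linarith [h.2]

/-- Harmonic sums. -/
noncomputable def H (n : ℕ) : ℝ := ∑ i ∈ range n, 1 / ((i : ℝ) + 1)

theorem H_le (n : ℕ) : H n ≤ 1 + log n := by
  have h := harmonic_le_one_add_log n
  simpa [harmonic, H, one_div] using h

theorem H_mono {m n : ℕ} (h : m ≤ n) : H m ≤ H n :=
  sum_le_sum_of_subset_of_nonneg (range_mono h) fun _ _ _ => by positivity

theorem H_nonneg (n : ℕ) : 0 ≤ H n := sum_nonneg fun _ _ => by positivity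

theorem sum_bound (q w : ℕ → ℕ) (Q : ℕ) (hw : ∀ j, 2 ≤ w j ∧ w j ≤ q j)
    (hs : ∀ j, Step j (q j) (w j) (q (j + 1)) (w (j + 1))) (hQ : ∀ j, q j ≤ Q) (n : ℕ) :
    ∑ j ∈ range n, (1 / (w j : ℝ) + ((q (j + 1) : ℝ) - q j)) ≤
      H Q * q n + H (w n - 1) + ∑ j ∈ range n, 1 / (q j : ℝ) := by
  induction n with
  | zero =>
    simp only [range_zero, sum_empty, add_zero]
    exact add_nonneg (mul_nonneg (H_nonneg _) (Nat.cast_nonneg _)) (H_nonneg _)
  | succ n ih =>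
    rw [sum_range_succ, sum_range_succ]
    have hn := hw n
    have hq0 : (0 : ℝ) ≤ 1 / (q n : ℝ) := by positivity
    rcases hs n with ⟨h1, h2⟩ | ⟨-, h0, h1, h2⟩
    · rw [h1, h2]
      rcases hn.2.lt_or_eq with hlt | heq
      · have h5 : min (q n) (w n + 1) - 1 = (w n - 1) + 1 := by omega
        have h6 : ((w n - 1 : ℕ) : ℝ) + 1 = w n := by
          have : w n - 1 + 1 = w n := by omega
          exact_mod_cast this
        have h7 : H (w n - 1 + 1) = H (w n - 1) + 1 / (w n : ℝ) := by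
          rw [H, sum_range_succ, h6]
          rfl
        rw [h5, h7]
        linarith
      · have h5 : min (q n) (w n + 1) - 1 = w n - 1 := by omega
        rw [h5, heq]
        rw [heq] at ih
        linarith
    · rw [h1, h2]
      have h7 : H (2 - 1) = 1 := by simp [H]
      have h8 : H (w n - 1) ≤ H Q := H_mono (by have := hQ n; omega)
      rw [h7, h0]
      rw [h0] at ih h8
      push_cast
      linarith

theorem cross (p : ℕ → Prop) (S : ℕ) (h0 : ¬ p 0) (hS : p S) : ∃ s < S, ¬ p s ∧ p (s + 1) := by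
  induction S with
  | zero => exact absurd hS h0
  | succ S ih =>
    by_cases h : p S
    · obtain ⟨s, hs, h1⟩ := ih h
      exact ⟨s, by omega, h1⟩
    · exact ⟨S, by omega, h, hS⟩

theorem sum_Ico_one (f : ℕ → ℝ) (J : ℕ) (hJ : 1 ≤ J) :
    ∑ j ∈ Ico 1 J, f j = ∑ j ∈ range J, f j - f 0 := by
  rw [range_eq_Ico, sum_eq_sum_Ico_succ_bot (by omega : 0 < J)]
  simp

theorem step_shift {j s q w q' w' : ℕ} (h : Step (j + 2 * s) q w q' w') : Step j q w q' w' := by
  rcases h with h | ⟨h1, h2⟩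
  · exact Or.inl h
  · refine Or.inr ⟨?_, h2⟩
    rw [Nat.odd_iff] at h1 ⊢
    omega

theorem core (J M K : ℕ) (x : ℕ → ℝ) (hJ : 4000000 ≤ J) (hM1 : 225 * J ≤ M ^ 2)
    (hM2 : M ^ 2 ≤ 900 * J) (mono : ∀ i, x i ≤ x (i + 1))
    (inc : ∀ i, M * x (i + 1) ≤ M * x i + 7) (x0 : M * x 0 ≤ 7) (up : ∀ i, M * x i ≤ 4 * J)
    (low : ∀ i, 3 * (((min i (J - 1) : ℕ) : ℝ) + 1 / 2) ≤ M * x i)
    (hK1 : 2 * M * ∑ j ∈ range J, x j ≤ K + 11)
    (hK2 : (K : ℝ) ≤ 2 * M * ∑ j ∈ range J, x j + 15 * J) :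
    ∃ q w : ℕ → ℕ, (∀ j, 2 ≤ w j ∧ w j ≤ q j) ∧
      (∀ j < J, Step j (q j) (w j) (q (j + 1)) (w (j + 1))) ∧
      (∀ j < J, |x j - q j| ≤ 6000) ∧
      (M : ℝ) * ∑ j ∈ range J, (1 / (w j : ℝ) + ((q (j + 1) : ℝ) - q j)) ≤ 6000 * J * log J ∧
      M * (2 * ∑ j ∈ Ico 1 J, q j + q J) + 6 ≤ K ∧
      (K : ℝ) ≤ M * (2 * ∑ j ∈ Ico 1 J, (q (j + 1) : ℝ)) + 6000 * J := by
  have hM30 : 30 ≤ M := by
    by_contra h
    have : M ^ 2 ≤ 30 ^ 2 := Nat.pow_le_pow_left (by omega) 2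
    omega
  have hMJ : 63 * M ≤ J := by
    by_contra h
    have h1 : J ^ 2 ≤ (63 * M) ^ 2 := Nat.pow_le_pow_left (by omega) 2
    have h2 : 4000000 * J ≤ J ^ 2 := by
      rw [sq]
      exact Nat.mul_le_mul_right _ hJ
    have h3 : (63 * M) ^ 2 = 3969 * M ^ 2 := by ring
    omega
  have rM : (30 : ℝ) ≤ M := by exact_mod_cast hM30
  have rJ : (4000000 : ℝ) ≤ J := by exact_mod_cast hJ
  have rMJ : 63 * (M : ℝ) ≤ J := by exact_mod_cast hMJ
  have rM1 : 225 * (J : ℝ) ≤ (M : ℝ) ^ 2 := by exact_mod_cast hM1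
  have rM2 : (M : ℝ) ^ 2 ≤ 900 * J := by exact_mod_cast hM2
  have M0 : (0 : ℝ) < M := by linarith
  have xpos : ∀ i, 0 < x i := by
    intro i
    have h1 : (0 : ℝ) < M * x i := lt_of_lt_of_le (by positivity) (low i)
    exact (mul_pos_iff_of_pos_left M0).1 h1
  have xmono : Monotone x := monotone_nat_of_le_succ mono
  have xinc : ∀ i k : ℕ, M * x (i + k) ≤ M * x i + 7 * k := by
    intro i k
    induction k with
    | zero => simp
    | succ k ih =>
      have := inc (i + k)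
      rw [← add_assoc]
      push_cast
      linarith
  obtain ⟨q, w, hw, hs, hu, hl⟩ := greedy (fun i => x i - 1) (7 / M) (4 * J / M - 1)
    (by positivity) (fun i => by linarith [mono i])
    (fun i => by
      have h1 : x (i + 1) - x i ≤ 7 / M := by
        rw [le_div_iff₀ M0]
        linarith [inc i]
      linarith)
    (by nlinarith [xpos 0])
    (fun i => by
      have h1 : x i ≤ 4 * J / M := by
        rw [le_div_iff₀ M0]
        linarith [up i]
      linarith)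
    (by
      rw [sub_add_cancel, div_mul_div_comm, div_le_one (by positivity)]
      nlinarith)
    (by
      rw [← mul_div_assoc, div_le_one M0]
      linarith)
  have q2 : ∀ j, (2 : ℝ) ≤ q j := fun j => by exact_mod_cast (hw j).1.trans (hw j).2
  have hu2 : ∀ j, (q j : ℝ) ≤ x j + 2 := fun j =>
    (hu j).trans (max_le (by linarith [xpos j]) (by linarith))
  have hl2 : ∀ j, x j ≤ q j + 3 := fun j => by linarith [hl j]
  have hQ : ∀ j, (M : ℝ) * q j ≤ 5 * J := fun j => by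
    have := mul_le_mul_of_nonneg_left (hu2 j) M0.le
    nlinarith [up j]
  have hQJ : ∀ j, q j ≤ J := fun j => by
    have h1 : (q j : ℝ) ≤ J := by nlinarith [hQ j, q2 j]
    exact_mod_cast h1
  have qmono : ∀ j, (q j : ℝ) ≤ q (j + 1) := fun j => by
    have : q j ≤ q (j + 1) := by rcases hs j with h | h <;> omega
    exact_mod_cast this
  -- the two ends of the family
  have T0 : ¬ K < M * (2 * ∑ j ∈ Ico 1 J, q (j + 2 * 0) + q (J + 2 * 0)) + 6 := by
    rw [not_lt]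
    have h1 : ∀ j ∈ range J, (q j : ℝ) ≤ x j - 1 + if j < M then 3 else 0 := by
      intro j hj
      have hj' := mem_range.1 hj
      split_ifs with h
      · linarith [hu2 j]
      · have h2 := low j
        have h3 : min j (J - 1) = j := by omega
        have h4 : (M : ℝ) ≤ j := by exact_mod_cast not_lt.1 h
        rw [h3] at h2
        have h5 : 3 ≤ x j := by nlinarith
        exact (hu j).trans (max_le (by linarith) (by linarith))
    have h2 := sum_le_sum h1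
    have h3 : ∑ j ∈ range J, (if j < M then (3 : ℝ) else 0) = 3 * M := by
      rw [← sum_filter]
      have : (range J).filter (fun j => j < M) = range M := by
        ext j
        simp only [mem_filter, mem_range]
        omega
      rw [this]
      simp [mul_comm]
    rw [sum_add_distrib, sum_sub_distrib, h3] at h2
    simp only [sum_const, card_range, nsmul_eq_mul, mul_one] at h2
    have h4 := sum_Ico_one (fun j => (q j : ℝ)) J (by omega)
    have h5 : (M : ℝ) * (2 * ∑ j ∈ Ico 1 J, (q j : ℝ) + q J) + 6 ≤ K := by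
      rw [h4]
      have h6 : ∑ j ∈ range J, (q j : ℝ) - q 0 ≤ ∑ j ∈ range J, x j - J / 2 := by
        linarith [q2 0]
      have h7 := mul_le_mul_of_nonneg_left h6 M0.le
      nlinarith [hQ J]
    simp only [mul_zero, add_zero]
    exact_mod_cast h5
  have T1 : K < M * (2 * ∑ j ∈ Ico 1 J, q (j + 2 * M) + q (J + 2 * M)) + 6 := by
    have h1 : ∑ j ∈ range J, x (j + 2 * M) + ∑ j ∈ range (2 * M), x j =
        ∑ j ∈ range J, x j + ∑ j ∈ range (2 * M), x (J + j) := by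
      rw [← sum_range_add, add_comm J (2 * M), sum_range_add, add_comm]
      simp only [add_comm]
    have hx21 : ∀ i ≤ 2 * M, x i ≤ 15 := by
      intro i hi
      have h2 := xinc 0 i
      have h3 : (i : ℝ) ≤ 2 * M := by exact_mod_cast hi
      rw [zero_add] at h2
      nlinarith
    have h2 : ∑ j ∈ range (2 * M), x j ≤ ∑ j ∈ range (2 * M), (15 : ℝ) :=
      sum_le_sum fun j hj => hx21 j (mem_range.1 hj).le
    have h3 : ∑ j ∈ range (2 * M), (3 * (J : ℝ) - 2) / M ≤ ∑ j ∈ range (2 * M), x (J + j) := by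
      refine sum_le_sum fun j _ => ?_
      have h4 := low (J + j)
      have h5 : min (J + j) (J - 1) = J - 1 := by omega
      have h6 : ((J - 1 : ℕ) : ℝ) = J - 1 := by
        rw [Nat.cast_sub (by omega)]
        simp
      rw [h5, h6] at h4
      rw [div_le_iff₀ M0]
      linarith
    simp only [sum_const, card_range, nsmul_eq_mul] at h2 h3
    push_cast at h2 h3
    have h4 : 2 * (M : ℝ) * ((3 * (J : ℝ) - 2) / M) = 6 * J - 4 := by
      field_simp
      ring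
    rw [h4] at h3
    have h5 : ∑ j ∈ range J, x (j + 2 * M) ≤ ∑ j ∈ range J, ((q (j + 2 * M) : ℝ) + 3) :=
      sum_le_sum fun j _ => hl2 _
    rw [sum_add_distrib] at h5
    simp only [sum_const, card_range, nsmul_eq_mul] at h5
    have h6 := sum_Ico_one (fun j => (q (j + 2 * M) : ℝ)) J (by omega)
    have h7 : (q (0 + 2 * M) : ℝ) ≤ 17 := by linarith [hu2 (0 + 2 * M), hx21 (0 + 2 * M) (by omega)]
    have h8 : ∑ j ∈ range J, x j + J ≤ ∑ j ∈ Ico 1 J, (q (j + 2 * M) : ℝ) := by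
      rw [h6]
      linarith
    have h9 := mul_le_mul_of_nonneg_left h8 M0.le
    have h10 : (K : ℝ) < M * (2 * ∑ j ∈ Ico 1 J, (q (j + 2 * M) : ℝ) + q (J + 2 * M)) + 6 := by
      nlinarith [q2 (J + 2 * M)]
    exact_mod_cast h10
  obtain ⟨s, hsM, hs0, hs1⟩ := cross
    (fun s => K < M * (2 * ∑ j ∈ Ico 1 J, q (j + 2 * s) + q (J + 2 * s)) + 6) M T0 T1
  have rs : (s : ℝ) ≤ M := by exact_mod_cast hsM.le
  have logJ : 1 ≤ log (J : ℝ) := by
    rw [le_log_iff_exp_le (by linarith)]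
    linarith [exp_one_lt_three]
  refine ⟨fun j => q (j + 2 * s), fun j => w (j + 2 * s), fun j => hw _, ?_, ?_, ?_, not_lt.1 hs0,
    ?_⟩
  · intro j _
    have h1 := hs (j + 2 * s)
    have h2 : j + 2 * s + 1 = j + 1 + 2 * s := by ring
    rw [h2] at h1
    exact step_shift h1
  · intro j _
    have h1 := xinc j (2 * s)
    have h2 : x j ≤ x (j + 2 * s) := xmono (by omega)
    push_cast at h1
    have h3 : x (j + 2 * s) ≤ x j + 14 := by nlinarith
    rw [abs_le]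
    constructor <;> linarith [hu2 (j + 2 * s), hl2 (j + 2 * s)]
  · have h1 : ∑ j ∈ range J, (1 / (w (j + 2 * s) : ℝ) + ((q (j + 1 + 2 * s) : ℝ) - q (j + 2 * s)))
        ≤ ∑ j ∈ range (2 * s + J), (1 / (w j : ℝ) + ((q (j + 1) : ℝ) - q j)) := by
      rw [sum_range_add]
      have h2 : 0 ≤ ∑ j ∈ range (2 * s), (1 / (w j : ℝ) + ((q (j + 1) : ℝ) - q j)) :=
        sum_nonneg fun j _ => add_nonneg (by positivity) (sub_nonneg.2 (qmono j))
      refine le_trans (le_of_eq (sum_congr rfl fun j _ => ?_)) (le_add_of_nonneg_left h2)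
      rw [show j + 1 + 2 * s = 2 * s + j + 1 by ring, show j + 2 * s = 2 * s + j by ring]
    have h2 := sum_bound q w J hw hs hQJ (2 * s + J)
    have h3 : H (w (2 * s + J) - 1) ≤ H J :=
      H_mono (by have := hw (2 * s + J); have := hQJ (2 * s + J); omega)
    have h4 : ∑ j ∈ range (2 * s + J), 1 / (q j : ℝ) ≤
        ∑ j ∈ range (2 * s + J), 2 * M * (1 / ((j : ℝ) + 1)) := by
      refine sum_le_sum fun j hj => ?_
      have hj' := mem_range.1 hj
      have h5 := low j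
      have h6 : j + 1 ≤ 2 * min j (J - 1) + 2 := by omega
      have h7 : (j : ℝ) + 1 ≤ 2 * ((min j (J - 1) : ℕ) : ℝ) + 2 := by exact_mod_cast h6
      rw [mul_one_div, div_le_div_iff₀ (by linarith [q2 j]) (by positivity)]
      have h8 : x j ≤ 5 / 2 * q j := by linarith [hl2 j, q2 j]
      have h9 := mul_le_mul_of_nonneg_left h8 M0.le
      nlinarith [q2 j]
    rw [← mul_sum] at h4
    have h5 : H (2 * s + J) ≤ H (J * J) := H_mono (by nlinarith)
    have h6 := H_le (J * J)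
    have h7 := H_le J
    rw [Nat.cast_mul, log_mul (by linarith) (by linarith)] at h6
    have h8 : ∑ j ∈ range (2 * s + J), 1 / (q j : ℝ) ≤ 2 * M * (3 * log J) :=
      h4.trans (mul_le_mul_of_nonneg_left (by change H _ ≤ _; linarith) (by positivity))
    have h9 : H J ≤ 2 * log J := by linarith
    have h10 : (M : ℝ) * (H J * q (2 * s + J) + H J) ≤ 6 * J * H J := by
      have := mul_le_mul_of_nonneg_left (show (M : ℝ) * q (2 * s + J) + M ≤ 6 * J by
        linarith [hQ (2 * s + J)]) (H_nonneg J)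
      linarith
    have h11 : 6 * (J : ℝ) * H J ≤ 6 * J * (2 * log J) :=
      mul_le_mul_of_nonneg_left h9 (by positivity)
    have h12 : (M : ℝ) * (2 * M * (3 * log J)) ≤ 5400 * J * log J := by
      have := mul_le_mul_of_nonneg_right rM2 (show 0 ≤ log (J : ℝ) by linarith)
      linarith
    have h13 := mul_le_mul_of_nonneg_left
      (h1.trans (h2.trans (add_le_add (add_le_add le_rfl h3) h8))) M0.le
    have h14 : 0 ≤ (J : ℝ) * log J := by positivity
    linarith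
  · have h1 : ∑ j ∈ Ico 1 J, (q (j + 2 * (s + 1)) : ℝ) ≤
        ∑ j ∈ Ico 1 J, (q (j + 1 + 2 * s) : ℝ) + q (J + 1 + 2 * s) := by
      have h2 := sum_Ico_sub (fun j => (q (j + 1 + 2 * s) : ℝ)) (show 1 ≤ J by omega)
      rw [sum_sub_distrib] at h2
      have h3 : ∑ j ∈ Ico 1 J, (q (j + 2 * (s + 1)) : ℝ) =
          ∑ j ∈ Ico 1 J, (q (j + 1 + 1 + 2 * s) : ℝ) :=
        sum_congr rfl fun j _ => by rw [show j + 2 * (s + 1) = j + 1 + 1 + 2 * s by ring]
      linarith [q2 (1 + 1 + 2 * s)]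
    have h2 : (K : ℝ) < M * (2 * ∑ j ∈ Ico 1 J, (q (j + 2 * (s + 1)) : ℝ) +
        q (J + 2 * (s + 1))) + 6 := by exact_mod_cast hs1
    have h3 := mul_le_mul_of_nonneg_left h1 M0.le
    nlinarith [hQ (J + 1 + 2 * s), hQ (J + 2 * (s + 1))]

theorem cc_facts (J : ℕ) (hJ : 2 ≤ J) : 0 < gam J ∧ gam J ≤ 1 ∧ gam J * J = π / 2 ∧
    cc J ≤ gam J ∧ gam J * (1 - gam J ^ 2 / 24) ≤ cc J := by
  have rJ : (2 : ℝ) ≤ J := by exact_mod_cast hJ
  have h0 : 0 < gam J := by
    unfold gam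
    positivity
  have h1 : gam J * J = π / 2 := by
    unfold gam
    field_simp
  refine ⟨h0, by nlinarith [pi_le_four], h1, ?_, ?_⟩
  · have := sin_le (show 0 ≤ gam J / 2 by linarith)
    unfold cc
    linarith
  · have := sin_ge_sub_cube (show 0 ≤ gam J / 2 by linarith)
    unfold cc
    nlinarith

theorem sum_rbar (J : ℕ) (hJ : 2 ≤ J) : cc J * ∑ j ∈ range J, rbar J j = 1 := by
  have h1 : ∀ j : ℕ, cc J * rbar J j = cos (j * gam J) - cos (((j + 1 : ℕ) : ℝ) * gam J) := by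
    intro j
    rw [cos_sub_cos]
    unfold cc rbar
    push_cast
    rw [show (j * gam J + (j + 1) * gam J) / 2 = (j + 1 / 2) * gam J by ring,
      show (j * gam J - (j + 1) * gam J) / 2 = -(gam J / 2) by ring, sin_neg]
    ring
  rw [mul_sum, sum_congr rfl fun j _ => h1 j,
    sum_range_sub' (fun j : ℕ => cos ((j : ℝ) * gam J)), mul_comm (J : ℝ),
    (cc_facts J hJ).2.2.1]
  simp

theorem rbar_facts (J : ℕ) (hJ : 2 ≤ J) (i : ℕ) :
    rbar J (min i (J - 1)) ≤ rbar J (min (i + 1) (J - 1)) ∧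
    rbar J (min (i + 1) (J - 1)) ≤ rbar J (min i (J - 1)) + gam J ∧
    (((min i (J - 1) : ℕ) : ℝ) + 1 / 2) ≤ J * rbar J (min i (J - 1)) := by
  obtain ⟨g0, -, g2, -, -⟩ := cc_facts J hJ
  have rJ : (2 : ℝ) ≤ J := by exact_mod_cast hJ
  have hr : ∀ k : ℕ, k + 1 ≤ J →
      0 ≤ ((k : ℝ) + 1 / 2) * gam J ∧ ((k : ℝ) + 1 / 2) * gam J ≤ π / 2 := by
    intro k hk
    have h1 : (k : ℝ) + 1 ≤ J := by exact_mod_cast hk
    exact ⟨by positivity, by nlinarith⟩
  have ha := hr (min i (J - 1)) (by omega)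
  have hb := hr (min (i + 1) (J - 1)) (by omega)
  have h1 : ((min i (J - 1) : ℕ) : ℝ) ≤ ((min (i + 1) (J - 1) : ℕ) : ℝ) := by
    exact_mod_cast (by omega : min i (J - 1) ≤ min (i + 1) (J - 1))
  have h2 : ((min (i + 1) (J - 1) : ℕ) : ℝ) ≤ ((min i (J - 1) : ℕ) : ℝ) + 1 := by
    exact_mod_cast (by omega : min (i + 1) (J - 1) ≤ min i (J - 1) + 1)
  unfold rbar
  generalize ((min i (J - 1) : ℕ) : ℝ) = a at *
  generalize ((min (i + 1) (J - 1) : ℕ) : ℝ) = b at *
  refine ⟨?_, ?_, ?_⟩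
  · exact sin_le_sin_of_le_of_le_pi_div_two (by linarith [pi_pos]) hb.2 (by nlinarith)
  · have h3 := abs_sin_sub_sin_le ((b + 1 / 2) * gam J) ((a + 1 / 2) * gam J)
    rw [abs_of_nonneg (show 0 ≤ (b + 1 / 2) * gam J - (a + 1 / 2) * gam J by nlinarith)] at h3
    have h4 := (abs_le.1 h3).2
    nlinarith
  · have h3 := mul_le_mul_of_nonneg_left (mul_le_sin ha.1 ha.2) (show (0 : ℝ) ≤ J by linarith)
    have h4 : (J : ℝ) * (2 / π * ((a + 1 / 2) * gam J)) = (a + 1 / 2) * (2 / π * (gam J * J)) := by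
      ring
    rw [h4, g2] at h3
    have h5 : 2 / π * (π / 2) = 1 := by field_simp
    rw [h5] at h3
    linarith

theorem B_bounds (a g c B T : ℝ) (g0 : 0 < g) (g1 : g ≤ 1) (c1 : c ≤ g)
    (c2 : g * (1 - g ^ 2 / 24) ≤ c) (hB : B * c ^ 2 = T) (ha : a * g ^ 2 = T) (T0 : 0 < T)
    (T1 : T ≤ 11) : a ≤ B ∧ B ≤ a + 11 := by
  have g3 : g ^ 2 ≤ 1 := by nlinarith
  have c3 : 23 / 24 * g ≤ c := by nlinarith
  have c0 : 0 < c := by linarith
  have B0 : 0 < B := by
    have h1 : 0 < B * c ^ 2 := by rwa [hB]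
    exact (mul_pos_iff_of_pos_right (by positivity)).1 h1
  constructor
  · have h1 : c ^ 2 ≤ g ^ 2 := pow_le_pow_left₀ c0.le c1 2
    have h2 : a * g ^ 2 ≤ B * g ^ 2 := by
      have := mul_le_mul_of_nonneg_left h1 B0.le
      linarith
    exact le_of_mul_le_mul_right h2 (by positivity)
  · have h1 : (g * (1 - g ^ 2 / 24)) ^ 2 ≤ c ^ 2 :=
      pow_le_pow_left₀ (mul_nonneg g0.le (by linarith)) c2 2
    have h2 : g ^ 2 * (1 - g ^ 2 / 12) ≤ c ^ 2 := by
      have := sq_nonneg (g ^ 3)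
      linarith
    have h3 : (23 / 24 * g) ^ 2 ≤ c ^ 2 := pow_le_pow_left₀ (by positivity) c3 2
    have h4 : B * g ^ 2 ≤ 12 := by
      have := mul_le_mul_of_nonneg_left h3 B0.le
      linarith
    have h5 : B * g ^ 2 ≤ (a + 11) * g ^ 2 := by
      have h6 := mul_le_mul_of_nonneg_left h2 B0.le
      have h7 := mul_le_mul_of_nonneg_right h4 (sq_nonneg g)
      have h8 := sq_nonneg g
      linarith
    exact le_of_mul_le_mul_right h5 (by positivity)

theorem A_bounds (A g c J T : ℝ) (g0 : 0 < g) (g1 : g ≤ 1) (c1 : c ≤ g)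
    (c2 : g * (1 - g ^ 2 / 24) ≤ c) (A0 : 0 < A) (hA : A * c = T) (T0 : 5 ≤ T) (T1 : T ≤ 5.5)
    (J0 : 1.5 ≤ g * J) (J1 : g * J ≤ 1.6) : A * g ≤ 6 ∧ 3 * J ≤ A ∧ A ≤ 4 * J := by
  have g3 : g ^ 2 ≤ 1 := by nlinarith
  have c3 : 23 / 24 * g ≤ c := by nlinarith
  have h1 := mul_le_mul_of_nonneg_left c1 A0.le
  have h2 := mul_le_mul_of_nonneg_left c3 A0.le
  refine ⟨by linarith, ?_, ?_⟩
  · exact le_of_mul_le_mul_right (show 3 * J * g ≤ A * g by linarith) g0
  · exact le_of_mul_le_mul_right (show A * g ≤ 4 * J * g by linarith) g0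

theorem consts : 4 ≤ 8 * √3 / π ∧ 8 * √3 / π ≤ 5 ∧ 5 ≤ √3 * π ∧ √3 * π ≤ 5.5 := by
  have s3a : 1.73 < √3 := by
    rw [lt_sqrt (by norm_num)]
    norm_num
  have s3b : √3 < 1.74 := by
    rw [sqrt_lt' (by norm_num)]
    norm_num
  have pa := pi_gt_d2
  have pb := pi_lt_d2
  refine ⟨?_, ?_, by nlinarith, by nlinarith⟩
  · rw [le_div_iff₀ pi_pos]
    linarith
  · rw [div_le_iff₀ pi_pos]
    linarith

theorem exists_J (κ : ℝ) (κ4 : 4 ≤ κ) (κ5 : κ ≤ 5) (K : ℕ) (hK : 5 * 4000001 ^ 2 ≤ K) :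
    ∃ J : ℕ, 4000000 ≤ J ∧ κ * (J : ℝ) ^ 2 ≤ K ∧ K ≤ κ * (J : ℝ) ^ 2 + 15 * J ∧
      (J : ℝ) ^ 2 ≤ K ∧ (K : ℝ) ≤ 20 * J ^ 2 := by
  have rK : 5 * (4000001 : ℝ) ^ 2 ≤ K := by exact_mod_cast hK
  obtain ⟨J, hJ1, hJ2⟩ : ∃ J : ℕ, κ * (J : ℝ) ^ 2 ≤ K ∧ K < κ * ((J : ℝ) + 1) ^ 2 := by
    have h0 : 0 ≤ (K : ℝ) / κ := by positivity
    refine ⟨⌊√(K / κ)⌋₊, ?_, ?_⟩
    · have h1 := Nat.floor_le (sqrt_nonneg ((K : ℝ) / κ))
      rw [le_sqrt (by positivity) h0, le_div_iff₀ (by linarith)] at h1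
      linarith
    · have h1 := Nat.lt_floor_add_one √((K : ℝ) / κ)
      rw [sqrt_lt' (by positivity), div_lt_iff₀ (by linarith)] at h1
      linarith
  have J0 : (0 : ℝ) ≤ J := Nat.cast_nonneg J
  have hJ : 4000000 ≤ J := by
    by_contra h
    have h1 : (J : ℝ) + 1 ≤ 4000001 := by exact_mod_cast (by omega : J + 1 ≤ 4000001)
    have h2 : ((J : ℝ) + 1) ^ 2 ≤ 4000001 ^ 2 := pow_le_pow_left₀ (by linarith) h1 2
    have h3 := mul_le_mul_of_nonneg_right κ5 (sq_nonneg ((J : ℝ) + 1))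
    linarith
  have rJ : (4000000 : ℝ) ≤ J := by exact_mod_cast hJ
  have h1 := mul_le_mul_of_nonneg_right κ5 (show 0 ≤ 2 * (J : ℝ) + 1 by linarith)
  have h2 := mul_le_mul_of_nonneg_right κ5 (sq_nonneg (J : ℝ))
  have h3 := mul_le_mul_of_nonneg_right κ4 (sq_nonneg (J : ℝ))
  have h4 := mul_le_mul_of_nonneg_right rJ J0
  have h5 := sq_nonneg (J : ℝ)
  exact ⟨J, hJ, hJ1, by linarith, by linarith, by linarith⟩

theorem exists_M (J : ℕ) (hJ : 1 ≤ J) : ∃ M : ℕ, 5 ≤ M ∧ 225 * J ≤ M ^ 2 ∧ M ^ 2 ≤ 900 * J := by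
  have h1 := Nat.sqrt_le' J
  have h2 := Nat.lt_succ_sqrt' J
  have h3 : 0 < Nat.sqrt J := Nat.sqrt_pos.2 (by omega)
  refine ⟨15 * (Nat.sqrt J + 1), by omega, ?_, ?_⟩ <;> nlinarith

theorem exists_x (J M : ℕ) (hJ : 2 ≤ J) (hM : 0 < M) : ∃ x : ℕ → ℝ,
    (∀ j < J, x j = 2 * π / (M * hh J) * rbar J j) ∧ (∀ i, x i ≤ x (i + 1)) ∧
    (∀ i, M * x (i + 1) ≤ M * x i + 7) ∧ M * x 0 ≤ 7 ∧ (∀ i, M * x i ≤ 4 * J) ∧
    (∀ i, 3 * (((min i (J - 1) : ℕ) : ℝ) + 1 / 2) ≤ M * x i) ∧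
    8 * √3 / π * (J : ℝ) ^ 2 ≤ 2 * M * ∑ j ∈ range J, x j ∧
    2 * M * ∑ j ∈ range J, x j ≤ 8 * √3 / π * (J : ℝ) ^ 2 + 11 := by
  have M0 : (0 : ℝ) < M := by exact_mod_cast hM
  have rJ : (2 : ℝ) ≤ J := by exact_mod_cast hJ
  obtain ⟨g0, g1, g2, c1, c2⟩ := cc_facts J hJ
  obtain ⟨-, -, t1, t2⟩ := consts
  have c0 : 0 < cc J := lt_of_lt_of_le (mul_pos g0 (by nlinarith)) c2
  obtain ⟨A, hA⟩ : ∃ A : ℝ, A = √3 * π / cc J := ⟨_, rfl⟩
  have hAc : A * cc J = √3 * π := by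
    rw [hA]
    field_simp
  have A0 : 0 < A := by
    rw [hA]
    positivity
  have hη : M * (2 * π / (M * hh J)) = A := by
    rw [hA]
    unfold hh
    field_simp
  obtain ⟨Ag, A3, A4⟩ := A_bounds A (gam J) (cc J) J (√3 * π) g0 g1 c1 c2 A0 hAc t1 t2
    (by linarith [pi_gt_three]) (by linarith [pi_lt_d2])
  obtain ⟨x, hx⟩ : ∃ x : ℕ → ℝ, ∀ i, x i = 2 * π / (M * hh J) * rbar J (min i (J - 1)) :=
    ⟨_, fun _ => rfl⟩
  have hMx : ∀ i, M * x i = A * rbar J (min i (J - 1)) := fun i => by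
    rw [hx, ← mul_assoc, hη]
  have hB : (2 * M * ∑ j ∈ range J, x j) * cc J ^ 2 = 2 * (√3 * π) := by
    have h1 : M * ∑ j ∈ range J, x j = A * ∑ j ∈ range J, rbar J j := by
      rw [mul_sum, mul_sum]
      refine sum_congr rfl fun j hj => ?_
      rw [hMx, show min j (J - 1) = j by have := mem_range.1 hj; omega]
    have h2 := sum_rbar J hJ
    rw [mul_assoc 2, h1]
    calc 2 * (A * ∑ j ∈ range J, rbar J j) * cc J ^ 2
        = 2 * (A * cc J) * (cc J * ∑ j ∈ range J, rbar J j) := by ring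
      _ = _ := by rw [h2, hAc, mul_one]
  have hκg : 8 * √3 / π * (J : ℝ) ^ 2 * gam J ^ 2 = 2 * (√3 * π) := by
    have h1 : 8 * √3 / π * (J : ℝ) ^ 2 * gam J ^ 2 = 8 * √3 / π * (gam J * J) ^ 2 := by ring
    rw [h1, g2]
    field_simp
    ring
  refine ⟨x, fun j hj => ?_, fun i => ?_, fun i => ?_, ?_, fun i => ?_, fun i => ?_,
    B_bounds _ _ _ _ _ g0 g1 c1 c2 hB hκg (by linarith) (by linarith)⟩
  · rw [hx, show min j (J - 1) = j by omega]
  · have h := mul_le_mul_of_nonneg_left (rbar_facts J hJ i).1 A0.le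
    rw [← hMx, ← hMx] at h
    exact le_of_mul_le_mul_left h M0
  · have h := mul_le_mul_of_nonneg_left (rbar_facts J hJ i).2.1 A0.le
    rw [hMx, hMx]
    linarith
  · rw [hMx]
    have h : rbar J (min 0 (J - 1)) ≤ gam J := by
      have := sin_le (show 0 ≤ 1 / 2 * gam J by linarith)
      simp only [rbar, Nat.zero_min, Nat.cast_zero, zero_add]
      linarith
    have := mul_le_mul_of_nonneg_left h A0.le
    linarith
  · rw [hMx]
    have h : rbar J (min i (J - 1)) ≤ 1 := sin_le_one _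
    have := mul_le_mul_of_nonneg_left h A0.le
    linarith
  · rw [hMx]
    have h := (rbar_facts J hJ i).2.2
    have h' : 0 < J * rbar J (min i (J - 1)) := lt_of_lt_of_le (by positivity) h
    have h'' : 0 < rbar J (min i (J - 1)) := (mul_pos_iff_of_pos_left (by linarith)).1 h'
    have := mul_le_mul_of_nonneg_right A3 h''.le
    linarith

end SeqRow

theorem seqS : SeqS := by
  refine ⟨6000, 5 * 4000001 ^ 2, by norm_num, fun K hK => ?_⟩
  obtain ⟨J, hJ, k1, k2, k3, k4⟩ :=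
    SeqRow.exists_J _ SeqRow.consts.1 SeqRow.consts.2.1 K hK
  obtain ⟨M, hM, hM1, hM2⟩ := SeqRow.exists_M J (by omega)
  obtain ⟨x, hx, x1, x2, x3, x4, x5, x6, x7⟩ := SeqRow.exists_x J M (by omega) (by omega)
  obtain ⟨q, w, h1, h2, h3, h4, h5, h6⟩ := SeqRow.core J M K x hJ hM1 hM2 x1 x2 x3 x4 x5
    (by linarith) (by linarith)
  refine ⟨J, M, q, w, by omega, hM, k3, k4, h1, h2, fun j hj => ?_, h4, h5, h6⟩
  rw [← hx j hj]
  exact h3 j hj

end Pool.Agent.MP_2ab689_gt.Big
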