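import Pool.Agent.MP_2ab689_gt.Big.Spec

/-!
The volume of a slab between two rows.
-/

namespace Pool.Agent.MP_2ab689_gt.Big

open MeasureTheory Set Real

namespace Slab

theorem convex_sec {H : Set V} (hH : Convex ℝ H) (z : ℝ) : Convex ℝ (sec H z) := by
  intro u hu w hw α β hα hβ h
  have := hH hu hw hα hβ h
  change _ ∈ H
  convert this using 1
  ext i
  fin_cases i
  · simp only [Fin.zero_eta, Matrix.cons_val_zero, Pi.add_apply, Pi.smul_apply, smul_eq_mul]
    linear_combination (-z) * h
  · simp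
  · simp

theorem comb_mem {H : Set V} (hH : Convex ℝ H) {za zb z s x y x' y' : ℝ} (h0 : 0 ≤ s) (h1 : s ≤ 1)
    (hz : z = za + s * (zb - za)) (ha : (![za, x, y] : V) ∈ H) (hb : (![zb, x', y'] : V) ∈ H)
    {w : ℂ} (e1 : w.re = (1 - s) * x + s * x') (e2 : w.im = (1 - s) * y + s * y') :
    w ∈ sec H z := by
  have := hH ha hb (sub_nonneg.2 h1) h0 (sub_add_cancel 1 s)
  change _ ∈ H
  convert this using 1
  ext i
  fin_cases i
  · simp only [Fin.zero_eta, Matrix.cons_val_zero, Pi.add_apply, Pi.smul_apply, smul_eq_mul]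
    linear_combination hz
  · simpa using e1
  · simpa using e2

theorem lint_quad {za zb P Q R : ℝ} (h : zb - za ≠ 0) (hP : 0 ≤ P) (hQ : 0 ≤ Q) (hR : 0 ≤ R)
    (hs : ∀ z ∈ uIoc za zb, 0 ≤ (z - za) / (zb - za) ∧ (z - za) / (zb - za) ≤ 1) :
    ENNReal.ofReal (|za - zb| * (P / 3 + Q / 3 + R / 6)) =
      ∫⁻ z in uIoc za zb, ENNReal.ofReal (P * (1 - (z - za) / (zb - za)) ^ 2 +
        Q * ((z - za) / (zb - za)) ^ 2 +
        R * ((z - za) / (zb - za) * (1 - (z - za) / (zb - za)))) := by
  have hc : Continuous fun z : ℝ => P * (1 - (z - za) / (zb - za)) ^ 2 +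
      Q * ((z - za) / (zb - za)) ^ 2 +
      R * ((z - za) / (zb - za) * (1 - (z - za) / (zb - za))) := by fun_prop
  have hn : ∀ z ∈ uIoc za zb, 0 ≤ P * (1 - (z - za) / (zb - za)) ^ 2 +
      Q * ((z - za) / (zb - za)) ^ 2 +
      R * ((z - za) / (zb - za) * (1 - (z - za) / (zb - za))) := fun z hz => by
    have h1 := (hs z hz).1
    have h2 := sub_nonneg.2 (hs z hz).2
    positivity
  rw [← ofReal_integral_eq_lintegral_ofReal hc.integrableOn_uIoc
    ((ae_restrict_iff' measurableSet_uIoc).mpr (ae_of_all _ hn))]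
  congr 1
  rw [← abs_of_nonneg (setIntegral_nonneg measurableSet_uIoc hn),
    ← intervalIntegral.abs_intervalIntegral_eq]
  have e : (fun z : ℝ => P * (1 - (z - za) / (zb - za)) ^ 2 + Q * ((z - za) / (zb - za)) ^ 2 +
      R * ((z - za) / (zb - za) * (1 - (z - za) / (zb - za)))) = fun z =>
      (P - (R - 2 * P) * za / (zb - za) + (P + Q - R) / (zb - za) ^ 2 * za ^ 2) +
        ((R - 2 * P) / (zb - za) - 2 * za * ((P + Q - R) / (zb - za) ^ 2)) * z +
        (P + Q - R) / (zb - za) ^ 2 * z ^ 2 := by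
    funext z
    field_simp
    ring
  rw [e, int_quad, abs_sub_comm, ← abs_of_nonneg (a := P / 3 + Q / 3 + R / 6) (by positivity),
    ← abs_mul]
  congr 1
  field_simp
  ring

end Slab

open Slab in
theorem slabS (hF : FanS) : SlabS := by
  intro H za zb a b N g hH ha hb hN ma mb g1 g2 g3 pa pb
  by_cases h : zb - za = 0
  · have : za - zb = 0 := by linarith
    rw [this]
    simp [slabV]
  have hs : ∀ z ∈ uIoc za zb, 0 ≤ (z - za) / (zb - za) ∧ (z - za) / (zb - za) ≤ 1 := by
    intro z hz
    rcases mem_uIoc.1 hz with ⟨h1, h2⟩ | ⟨h1, h2⟩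
    · have : 0 < zb - za := by linarith
      exact ⟨div_nonneg (by linarith) this.le, (div_le_one this).2 (by linarith)⟩
    · have : zb - za < 0 := by linarith
      exact ⟨div_nonneg_of_nonpos (by linarith) this.le, (div_le_one_of_neg this).2 (by linarith)⟩
  have s1 : ∀ k, 0 ≤ sin (g (k + 1) - g k) := fun k =>
    sin_nonneg_of_nonneg_of_le_pi (sub_nonneg.2 (g1 k)) (by linarith [g1 (k + 1), g2 k])
  have s2 : ∀ k, 0 ≤ sin (g (k + 2) - g k) := fun k =>
    sin_nonneg_of_nonneg_of_le_pi (by linarith [g1 k, g1 (k + 1)]) (g2 k).le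
  have e : slabV |za - zb| a b N g = |za - zb| *
      ((∑ k ∈ Finset.range N, (if Even k then a ^ 2 else 0) * sin (g (k + 2) - g k) / 2) / 3 +
        (∑ k ∈ Finset.range N, (if Even k then 0 else b ^ 2) * sin (g (k + 2) - g k) / 2) / 3 +
        (∑ k ∈ Finset.range N,
          a * b * (sin (g (k + 1) - g k) + sin (g (k + 2) - g (k + 1))) / 2) / 6) := by
    unfold slabV
    rw [Finset.sum_div, Finset.sum_div, Finset.sum_div, ← Finset.sum_add_distrib,
      ← Finset.sum_add_distrib, Finset.mul_sum, Finset.mul_sum]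
    refine Finset.sum_congr rfl fun k _ => ?_
    split_ifs <;> ring
  rw [e, lint_quad h (Finset.sum_nonneg fun k _ => ?_) (Finset.sum_nonneg fun k _ => ?_)
    (Finset.sum_nonneg fun k _ => ?_) hs]
  · refine setLIntegral_mono' measurableSet_uIoc fun z hz => ?_
    obtain ⟨h0, h1⟩ := hs z hz
    have hz' : z = za + (z - za) / (zb - za) * (zb - za) := by
      rw [div_mul_cancel₀ _ h]
      ring
    generalize (z - za) / (zb - za) = s at h0 h1 hz' ⊢
    have h1' := sub_nonneg.2 h1
    have key := hF (sec H z) N g (fun k => if Even k then (1 - s) * a else s * b)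
      (convex_sec hH z) (comb_mem hH h0 h1 hz' ma mb (by simp) (by simp)) g1 g2 g3
      (fun k => by split_ifs <;> positivity)
      (fun k => by simp only [Nat.even_add, hN, iff_true])
      (fun k => by
        rcases Nat.even_or_odd k with hk | hk
        · have hk' := hk.add_one
          refine comb_mem hH h0 h1 hz' (pa k hk) (pb _ hk') ?_ ?_ <;>
          · simp only [if_pos hk, if_neg (Nat.not_even_iff_odd.2 hk')]
            ring
        · have hk' := hk.add_one
          refine comb_mem hH h0 h1 hz' (pa _ hk') (pb k hk) ?_ ?_ <;>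
          · simp only [if_pos hk', if_neg (Nat.not_even_iff_odd.2 hk)]
            ring)
    refine le_trans (le_of_eq ?_) key
    congr 1
    rw [Finset.sum_mul, Finset.sum_mul, Finset.sum_mul, ← Finset.sum_add_distrib,
      ← Finset.sum_add_distrib]
    refine Finset.sum_congr rfl fun k _ => ?_
    have e2 : Even (k + 2) ↔ Even k := by simp [Nat.even_add]
    simp only [e2, Nat.even_add_one]
    by_cases hk : Even k
    · simp only [hk, if_true, not_true, if_false]
      ring
    · simp only [hk, if_false, not_false_iff, if_true]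
      ring
  · have := s2 k
    split_ifs <;> positivity
  · have := s2 k
    split_ifs <;> positivity
  · have := s1 k
    have := s1 (k + 1)
    positivity

end Pool.Agent.MP_2ab689_gt.Big
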