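import Pool.Agent.MP_2ab689_gt.Big.Spec

/-!
Stability: the energy is controlled by the volume deficit.
-/

namespace Pool.Agent.MP_2ab689_gt.Big

open Real

namespace Stab

theorem flag {a b c D h t : ℝ} (ht : t ^ 2 = 3) (ht0 : 0 < t) (ha : 0 ≤ a) (hb : 0 ≤ b)
    (hc : 0 ≤ c) (hS : a + b + c ≤ 6912 * h ^ 2) (hD : 0 < D)
    (hsq : 4 * D ^ 2 = 2 * (a * b + b * c + c * a) - (a ^ 2 + b ^ 2 + c ^ 2) - a * b * c) :
    2 * t * D ≤ a + b + c ∧ (a - h ^ 2) ^ 2 + (b - h ^ 2) ^ 2 + (c - h ^ 2) ^ 2 ≤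
      300000000 * (D * (a + b + c - 2 * t * D) + (D - t / 2 * h ^ 2) ^ 2) := by
  have habc : 0 ≤ a * b * c := by positivity
  have hS0 : 0 ≤ a + b + c := by positivity
  set S := a + b + c with hSd
  have t1 : 17 / 10 < t := by nlinarith
  have hv : 6 * ((a - S / 3) ^ 2 + (b - S / 3) ^ 2 + (c - S / 3) ^ 2) + 3 * (a * b * c) =
      S ^ 2 - (2 * t * D) ^ 2 := by
    rw [hSd]
    linear_combination (4 * D ^ 2) * ht + 3 * hsq
  have h1 : 2 * t * D ≤ S := by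
    refine abs_le_of_sq_le_sq' ?_ hS0 |>.2
    nlinarith [sq_nonneg (a - S / 3), sq_nonneg (b - S / 3), sq_nonneg (c - S / 3)]
  refine ⟨h1, ?_⟩
  obtain ⟨u, hu⟩ : ∃ u, u = S - 2 * t * D := ⟨_, rfl⟩
  obtain ⟨e, he⟩ : ∃ e, e = D - t / 2 * h ^ 2 := ⟨_, rfl⟩
  rw [← hu, ← he]
  have hu0 : 0 ≤ u := by linarith
  have htD : 0 < t * D := mul_pos ht0 hD
  have huS : u ≤ S := by linarith
  have h2 : (a - S / 3) ^ 2 + (b - S / 3) ^ 2 + (c - S / 3) ^ 2 ≤ S * u / 3 := by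
    have : S ^ 2 - (2 * t * D) ^ 2 = u * (2 * S - u) := by rw [hu]; ring
    nlinarith [sq_nonneg u]
  have h3 : S / 3 - h ^ 2 = u / 3 + 2 * t / 3 * e := by
    rw [hu, he]
    linear_combination (h ^ 2 / 3) * ht
  have h4 : 3 * (S / 3 - h ^ 2) ^ 2 ≤ 2 / 3 * (S * u) + 8 * e ^ 2 := by
    have k1 : (2 * t / 3 * e) ^ 2 = 4 / 3 * e ^ 2 := by linear_combination (4 / 9 * e ^ 2) * ht
    have k2 : u ^ 2 ≤ S * u := by nlinarith
    rw [h3]
    nlinarith [sq_nonneg (u / 3 - 2 * t / 3 * e)]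
  have h5 : (a - h ^ 2) ^ 2 + (b - h ^ 2) ^ 2 + (c - h ^ 2) ^ 2 =
      (a - S / 3) ^ 2 + (b - S / 3) ^ 2 + (c - S / 3) ^ 2 + 3 * (S / 3 - h ^ 2) ^ 2 := by
    rw [hSd]; ring
  have hDu : 0 ≤ D * u := mul_nonneg hD.le hu0
  have hh : 0 ≤ h ^ 2 := sq_nonneg h
  have he2 : 0 ≤ e ^ 2 := sq_nonneg e
  have h6 : S * u ≤ 299000000 * (D * u + e ^ 2) := by
    clear_value S
    clear hv h2 h3 h4 h5 hsq habc hSd
    rcases le_total (t / 4 * h ^ 2) D with k | k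
    · have k0 := mul_le_mul_of_nonneg_right t1.le hh
      have k1 : S ≤ 17000 * D := by linarith
      have k2 := mul_le_mul_of_nonneg_right k1 hu0
      linarith
    · have k1 : t / 4 * h ^ 2 ≤ -e := by rw [he]; linarith
      have k2 : (t / 4 * h ^ 2) ^ 2 ≤ (-e) ^ 2 := pow_le_pow_left₀ (by positivity) k1 2
      have k3 : (t / 4 * h ^ 2) ^ 2 = 3 / 16 * (h ^ 2) ^ 2 := by
        linear_combination ((h ^ 2) ^ 2 / 16) * ht
      have k4 : S * u ≤ (6912 * h ^ 2) * (6912 * h ^ 2) :=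
        mul_le_mul hS (huS.trans hS) hu0 (by positivity)
      linarith
  linarith

theorem area {E D S L : ℝ} (hD : 0 < D) (hS : D ≤ S) (hL : S ≤ L) (hL1 : S ≤ 1)
    (hE : 2 * (D / (4 - S / 2)) - (D / (4 - S / 2)) ^ 3 ≤ E) :
    D * S / 48 - L ^ 2 * D ≤ E / 3 - D / 6 := by
  have hN : 0 < 4 - S / 2 := by linarith
  have h1 : D / 4 * (1 + S / 8) ≤ D / (4 - S / 2) := by
    rw [le_div_iff₀ hN]
    nlinarith [mul_nonneg hD.le (sq_nonneg S)]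
  have h2 : D / (4 - S / 2) ≤ D := div_le_self hD.le (by linarith)
  have h3 : (D / (4 - S / 2)) ^ 3 ≤ D ^ 3 := pow_le_pow_left₀ (div_pos hD hN).le h2 3
  have h4 : D ^ 2 ≤ L ^ 2 := pow_le_pow_left₀ hD.le (hS.trans hL) 2
  have h5 : D ^ 3 ≤ L ^ 2 * D := by nlinarith
  have h6 : 0 ≤ L ^ 2 * D := by positivity
  nlinarith

end Stab

theorem stabS : StabS := by
  refine ⟨10 ^ 21, 1 / 200, by norm_num, by norm_num, fun ι Φ _ _ M h F hh => ?_⟩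
  have h0 := F.pos
  have ht : √3 ^ 2 = (3 : ℝ) := sq_sqrt (by norm_num)
  have ht0 : (0 : ℝ) < √3 := sqrt_pos.mpr (by norm_num)
  have hnum := F.num
  obtain ⟨t, htd⟩ : ∃ t : ℝ, t = √3 := ⟨_, rfl⟩
  rw [← htd] at ht ht0 hnum
  have t1 : 17 / 10 < t := by nlinarith
  have t2 : t < 18 / 10 := by nlinarith
  have hh2 : h ^ 2 ≤ 1 / 40000 := by nlinarith
  have hp : 0 < h ^ 2 := by positivity
  obtain ⟨sE, hc⟩ := M.sum_E F.edge (by nlinarith)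
  have hcard : (Fintype.card Φ : ℝ) ≤ 6 * Fintype.card ι := by
    exact_mod_cast (by omega : Fintype.card Φ ≤ 6 * Fintype.card ι)
  set S : Φ → ℝ := fun d => M.sq d + M.sq (M.φ d) + M.sq (M.φ (M.φ d)) with hSd
  have hS : ∀ d, S d ≤ 6912 * h ^ 2 := fun d => by
    have := F.edge d
    have := F.edge (M.φ d)
    have := F.edge (M.φ (M.φ d))
    simp only [hSd]
    nlinarith
  have hf : ∀ d, 2 * t * M.D d ≤ S d ∧ h ^ 4 * M.X2 h d ≤
      300000000 * (M.D d * (S d - 2 * t * M.D d) + (M.D d - t / 2 * h ^ 2) ^ 2) := fun d => by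
    have := Stab.flag ht ht0 (M.sq_nonneg d) (M.sq_nonneg (M.φ d)) (M.sq_nonneg (M.φ (M.φ d)))
      (hS d) (M.D_pos d) (by rw [M.D_sq, M.sq_φφ, M.sq_φ, M.sq_eq]; ring)
    refine ⟨this.1, le_of_eq_of_le ?_ this.2⟩
    simp only [Mesh.X2, Mesh.x]
    field_simp
  have ha : ∀ d, M.D d * S d / 48 - (6912 * h ^ 2) ^ 2 * M.D d ≤ M.E d / 3 - M.D d / 6 :=
    fun d => by
      have k1 := (hf d).1
      have k2 := M.D_pos d
      have k3 := hS d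
      have hN : M.N d = 4 - S d / 2 := M.N_eq d
      refine Stab.area k2 (by nlinarith) k3 (by linarith) ?_
      rw [← hN]
      exact (M.E_bounds (by rw [hN]; linarith)).2.2.2
  set G : Φ → ℝ := fun d => M.D d * (S d - 2 * t * M.D d) + (M.D d - t / 2 * h ^ 2) ^ 2 with hG
  have s1 : h ^ 4 * (3 * M.W h) ≤ 300000000 * ∑ d, G d := by
    have e : ∑ d, M.X2 h d = 3 * M.W h := by
      simp only [Mesh.X2, Mesh.W, Finset.sum_add_distrib]
      rw [M.sum_φφ fun d => M.x h d ^ 2, M.sum_φ fun d => M.x h d ^ 2]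
      ring
    rw [← e, Finset.mul_sum, Finset.mul_sum]
    exact Finset.sum_le_sum fun d _ => (hf d).2
  have s2 : ∑ d, (G d / 48 + (h ^ 2 / 8 - (6912 * h ^ 2) ^ 2) * M.D d - t * h ^ 4 / 32) ≤
      ∑ d, (M.E d / 3 - M.D d / 6) := Finset.sum_le_sum fun d _ => by
    refine le_trans ?_ (ha d)
    have e : M.D d * S d / 48 = M.D d * (S d - 2 * t * M.D d) / 48
        + 2 * t * (M.D d - t / 2 * h ^ 2) ^ 2 / 48 + h ^ 2 / 8 * M.D d - t * h ^ 4 / 32 := by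
      linear_combination (h ^ 2 * M.D d / 24 - t * h ^ 4 / 96) * ht
    simp only [hG]
    rw [e]
    nlinarith [sq_nonneg (M.D d - t / 2 * h ^ 2)]
  rw [Finset.sum_sub_distrib, Finset.sum_add_distrib, Finset.sum_sub_distrib, ← Finset.sum_div,
    ← Finset.sum_div, ← Finset.sum_div, ← Finset.mul_sum, M.sum_D, sE, Finset.sum_const,
    Finset.card_univ, nsmul_eq_mul] at s2
  have sD : ∑ x, M.D x / 6 = 3 * M.vol := by rw [← Finset.sum_div, M.sum_D]; ring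
  have s3 : (Fintype.card Φ : ℝ) * (t * h ^ 4 / 32) ≤ 3 * π * h ^ 2 / 2 := by
    refine (mul_le_mul_of_nonneg_right hcard (by positivity)).trans (le_of_eq ?_)
    linear_combination (3 * h ^ 2 / 16) * hnum
  have s4 : 18 * M.vol ≤ 24 * π := by
    rw [← M.sum_D]
    exact M.sum_D_le Finset.univ
  obtain ⟨m, hm⟩ : ∃ m, m = max (4 * π / 3 - π * h ^ 2 / 2 - M.vol) 0 := ⟨_, rfl⟩
  have m0 : 0 ≤ m := hm ▸ le_max_right _ _
  have m1 : 4 * π / 3 - π * h ^ 2 / 2 - M.vol ≤ m := hm ▸ le_max_left _ _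
  change M.W h * h ^ 4 ≤ 10 ^ 21 * (max (4 * π / 3 - π * h ^ 2 / 2 - M.vol) 0 + h ^ 4)
  rw [← hm]
  have p4 : π < 4 := pi_lt_four
  have h4 : h ^ 4 = h ^ 2 * h ^ 2 := by ring
  have h40 : 0 < h ^ 4 := by positivity
  have s5 : (6912 * h ^ 2) ^ 2 * (18 * M.vol) ≤ 6912 ^ 2 * 96 * h ^ 4 := by
    refine (mul_le_mul_of_nonneg_left (s4.trans (by linarith : 24 * π ≤ 96))
      (sq_nonneg _)).trans (le_of_eq ?_)
    ring
  have s6 : 3 * π * h ^ 2 - 3 * m - 5 * h ^ 4 ≤ h ^ 2 / 8 * (18 * M.vol) := by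
    have k1 := mul_le_mul_of_nonneg_left m1 hp.le
    have k2 : h ^ 2 * m ≤ m := by nlinarith
    have k3 : π * h ^ 4 ≤ 4 * h ^ 4 := by nlinarith
    nlinarith
  have s7 : (∑ d, G d) / 48 ≤ 6 * m + (6912 ^ 2 * 96 + 5) * h ^ 4 := by
    linarith
  linarith

end Pool.Agent.MP_2ab689_gt.Big
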