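import Pool.Agent.MP_2ab689_gt.Big.Spec

/-!
The development of a cap without defects in the plane, by a sweep from the top.
-/

namespace Pool.Agent.MP_2ab689_gt.Big

namespace Sweep

variable {ι Φ : Type} [Fintype ι] [Fintype Φ] (M : Mesh ι Φ)

theorem r_succ (k : ℕ) (d : Φ) : (M.r ^ (k + 1)) d = M.r ((M.r ^ k) d) := by
  rw [pow_succ', Equiv.Perm.mul_apply]

theorem tl_pow (d : Φ) : ∀ k : ℕ, M.tl ((M.r ^ k) d) = M.tl d
  | 0 => rfl
  | k + 1 => by rw [r_succ, M.tl_r, tl_pow d k]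

/-- The star of a vertex is one orbit of the rotation. -/
theorem orbit (d : Φ) : Function.minimalPeriod M.r d = M.deg (M.tl d) ∧
    ∀ e, M.tl e = M.tl d → ∃ k < M.deg (M.tl d), (M.r ^ k) d = e := by
  classical
  have hp : 0 < Function.minimalPeriod M.r d :=
    Function.minimalPeriod_pos_of_mem_periodicPts (M.r.injective.mem_periodicPts d)
  have h := M.star_eq (v := M.tl d)
    (S := (Finset.range (Function.minimalPeriod M.r d)).image fun k => (M.r ^ k) d)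
    (fun e he => by
      obtain ⟨k, -, rfl⟩ := Finset.mem_image.mp he
      exact tl_pow M d k)
    (fun e he => by
      obtain ⟨k, -, rfl⟩ := Finset.mem_image.mp he
      refine Finset.mem_image.mpr ⟨(k + 1) % Function.minimalPeriod M.r d,
        Finset.mem_range.mpr (Nat.mod_lt _ hp), ?_⟩
      rw [← r_succ, Equiv.Perm.coe_pow, Equiv.Perm.coe_pow,
        Function.iterate_mod_minimalPeriod_eq])
    ⟨d, Finset.mem_image.mpr ⟨0, Finset.mem_range.mpr hp, rfl⟩⟩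
  have hc : Function.minimalPeriod M.r d = M.deg (M.tl d) := by
    rw [Mesh.deg, ← h, Finset.card_image_of_injOn, Finset.card_range]
    intro i hi j hj e
    simp only [Equiv.Perm.coe_pow] at e
    exact Function.iterate_injOn_Iio_minimalPeriod (by simpa using hi) (by simpa using hj) e
  refine ⟨hc, fun e he => ?_⟩
  have := M.mem_star.mpr he
  rw [← h] at this
  obtain ⟨k, hk, e⟩ := Finset.mem_image.mp this
  exact ⟨k, hc ▸ Finset.mem_range.mp hk, e⟩

theorem pow_mod {d : Φ} (h : M.deg (M.tl d) = 6) (k : ℕ) : (M.r ^ (k % 6)) d = (M.r ^ k) d := by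
  rw [← h, ← (orbit M d).1, Equiv.Perm.coe_pow, Equiv.Perm.coe_pow,
    Function.iterate_mod_minimalPeriod_eq]

theorem pow_inj {d : Φ} (h : M.deg (M.tl d) = 6) {i j : ℕ} (hi : i < 6) (hj : j < 6)
    (e : (M.r ^ i) d = (M.r ^ j) d) : i = j := by
  rw [← h, ← (orbit M d).1] at hi hj
  simp only [Equiv.Perm.coe_pow] at e
  exact Function.iterate_injOn_Iio_minimalPeriod hi hj e

theorem om_sq : om ^ 2 = om - 1 := by
  have h : √3 * √3 = 3 := Real.mul_self_sqrt (by norm_num)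
  refine Complex.ext ?_ ?_
  · simp only [om, sq, Complex.mul_re, Complex.sub_re, Complex.one_re]
    linarith
  · simp only [om, sq, Complex.mul_im, Complex.sub_im, Complex.one_im]
    ring

theorem om_six : om ^ 6 = 1 := by
  linear_combination (om ^ 4 + om ^ 3 - om - 1) * om_sq

theorem om_ne : om ≠ 0 := fun e => by
  have := om_six
  rw [e] at this
  norm_num at this

theorem om_mod (k : ℕ) : om ^ (k % 6) = om ^ k := by
  conv_rhs => rw [← Nat.div_add_mod k 6, pow_add, pow_mul, om_six, one_pow, one_mul]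

/-- The development is defined on the set `S` of vertices. -/
def Dv (S : Finset ι) (z : ι → ℂ) (u : Φ → ℂ) : Prop := ∀ d, M.tl d ∈ S → u d ≠ 0 ∧
  u (M.r d) = om * u d ∧
    (M.tl (M.φ d) ∈ S → z (M.tl (M.φ d)) = z (M.tl d) + u d ∧ u (M.s d) = -u d)

/-- One triangle with two vertices in `S`. -/
theorem tri {S : Finset ι} {z : ι → ℂ} {u : Φ → ℂ} (h : Dv M S z u) {d : Φ} {w U : ℂ}
    (h1 : M.tl (M.φ d) ∈ S) (h2 : M.tl (M.φ (M.r d)) ∈ S) (e1 : u (M.s d) = -U)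
    (e2 : z (M.tl (M.φ d)) = w + U) :
    u (M.s (M.r d)) = -(om * U) ∧ z (M.tl (M.φ (M.r d))) = w + om * U := by
  rw [M.tl_φr] at h2 ⊢
  obtain ⟨-, a1, a2⟩ := h _ h1
  obtain ⟨a2, a3⟩ := a2 h2
  obtain ⟨-, a4, -⟩ := h _ h2
  rw [M.r_φ] at a1 a4
  rw [M.s_r]
  have b1 : u (M.φ d) = om ^ 2 * U := by
    linear_combination om ^ 2 * a1 - om ^ 2 * e1 + (om + 1) * u (M.φ d) * om_sq
  refine ⟨?_, ?_⟩
  · linear_combination om ^ 2 * a4 - om ^ 2 * a3 + om ^ 2 * b1
      + (om + 1) * (u (M.φ (M.φ d)) + om * U) * om_sq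
  · linear_combination a2 + e2 + b1 + U * om_sq

/-- A new vertex whose neighbours in `S` form an initial arc. -/
theorem add [DecidableEq ι] {S : Finset ι} {z : ι → ℂ} {u : Φ → ℂ} (h : Dv M S z u) {a : ι}
    (ha : a ∉ S) {d0 : Φ} (h0 : M.tl d0 = a) (h6 : M.deg a = 6)
    (arc : ∀ k, k + 1 < 6 → M.tl (M.φ ((M.r ^ (k + 1)) d0)) ∈ S →
      M.tl (M.φ ((M.r ^ k) d0)) ∈ S) : ∃ z' u', Dv M (insert a S) z' u' := by
  classical
  obtain ⟨u0, n0, e0⟩ : ∃ u0 : ℂ, u0 ≠ 0 ∧ (M.tl (M.φ d0) ∈ S → u (M.s d0) = -u0) := by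
    by_cases c : M.tl (M.φ d0) ∈ S
    · exact ⟨-u (M.s d0), neg_ne_zero.mpr (h _ (by rwa [M.tl_s])).1, fun _ => (neg_neg _).symm⟩
    · exact ⟨1, one_ne_zero, fun c' => absurd c' c⟩
  have h6' : M.deg (M.tl d0) = 6 := by rw [h0, h6]
  obtain ⟨f, hf⟩ : ∃ f : Φ → ℂ, ∀ k : ℕ, f ((M.r ^ k) d0) = om ^ k * u0 := by
    refine ⟨Function.extend (fun k : ℕ => (M.r ^ k) d0) (fun k => om ^ k * u0) 0, fun k => ?_⟩
    refine Function.FactorsThrough.extend_apply (fun i j e => ?_) _ k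
    rw [← pow_mod M h6' i, ← pow_mod M h6' j] at e
    rw [← om_mod i, ← om_mod j, pow_inj M h6' (Nat.mod_lt _ (by norm_num))
      (Nat.mod_lt _ (by norm_num)) e]
  have key : ∀ k, k < 6 → M.tl (M.φ ((M.r ^ k) d0)) ∈ S →
      u (M.s ((M.r ^ k) d0)) = -(om ^ k * u0) ∧
        z (M.tl (M.φ ((M.r ^ k) d0))) = (z (M.tl (M.φ d0)) - u0) + om ^ k * u0 := by
    intro k
    induction k with
    | zero => exact fun _ c => ⟨by simpa using e0 c, by simp⟩
    | succ k ih =>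
      intro hk c
      obtain ⟨i1, i2⟩ := ih (by omega) (arc k hk c)
      have := tri M h (arc k hk c) (by rwa [r_succ] at c) i1 i2
      rwa [r_succ, pow_succ', mul_assoc]
  have ne : ∀ v ∈ S, v ≠ a := fun v hv e => ha (e ▸ hv)
  obtain ⟨z', z1, z2⟩ : ∃ z' : ι → ℂ, z' a = z (M.tl (M.φ d0)) - u0 ∧ ∀ v ∈ S, z' v = z v :=
    ⟨Function.update z a _, Function.update_self .., fun v hv => Function.update_of_ne (ne v hv) ..⟩
  obtain ⟨u', u1, u2⟩ : ∃ u' : Φ → ℂ, (∀ d, M.tl d = a → u' d = f d) ∧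
      ∀ d, M.tl d ∈ S → u' d = u d :=
    ⟨fun d => if M.tl d = a then f d else u d, fun d hd => if_pos hd,
      fun d hd => if_neg (ne _ hd)⟩
  have new : ∀ d, M.tl d = a → u' d ≠ 0 ∧ u' (M.r d) = om * u' d ∧ (M.tl (M.φ d) ∈ S →
      z' (M.tl (M.φ d)) = z' (M.tl d) + u' d ∧ u' (M.s d) = -u' d) := by
    intro d hd
    obtain ⟨k, hk, rfl⟩ := (orbit M d0).2 d (hd.trans h0.symm)
    rw [h6'] at hk
    rw [u1 _ hd, u1 _ ((M.tl_r _).trans hd), ← r_succ, hf, hf]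
    refine ⟨mul_ne_zero (pow_ne_zero _ om_ne) n0, by ring, fun c => ?_⟩
    rw [z2 _ c, hd, z1, u2 _ (by rwa [M.tl_s])]
    exact (key k hk c).symm
  refine ⟨z', u', fun d hd => ?_⟩
  rcases Finset.mem_insert.mp hd with hd | hd
  · obtain ⟨b1, b2, b3⟩ := new d hd
    refine ⟨b1, b2, fun c => b3 ((Finset.mem_insert.mp c).resolve_left ?_)⟩
    rw [← hd]
    exact M.tl_ne d
  · obtain ⟨b1, b2, b3⟩ := h d hd
    refine ⟨by rwa [u2 _ hd], by rw [u2 _ hd, u2 _ (by rwa [M.tl_r]), b2], fun c => ?_⟩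
    rcases Finset.mem_insert.mp c with c | c
    · obtain ⟨b4, b5⟩ := (new (M.s d) ((M.tl_s d).trans c)).2.2 (by rwa [M.tl_φs])
      rw [M.tl_φs, M.tl_s] at b4
      rw [M.s2] at b5
      exact ⟨by rw [b4, b5]; ring, by rw [b5, neg_neg]⟩
    · rw [z2 _ c, z2 _ hd, u2 _ hd, u2 _ (by rwa [M.tl_s])]
      exact b3 c

theorem sweep [DecidableEq ι] {c : V} (hc : M.Generic c) (S : Finset ι) :
    (∀ v ∈ S, M.deg v = 6) → (∀ v ∈ S, ∀ w, ip c (M.p v) < ip c (M.p w) → w ∈ S) →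
      ∃ z u, Dv M S z u := by
  induction S using Finset.induction_on_min_value (fun v => ip c (M.p v)) with
  | empty => exact fun _ _ => ⟨0, 0, fun d hd => absurd hd (Finset.notMem_empty _)⟩
  | insert a S ha hm ih =>
    intro h6 hu
    obtain ⟨z, u, h⟩ := ih (fun v hv => h6 v (Finset.mem_insert_of_mem hv)) fun v hv w hw =>
      (Finset.mem_insert.mp (hu v (Finset.mem_insert_of_mem hv) w hw)).resolve_left fun e =>
        absurd (hm v hv) (not_le.mpr (e ▸ hw))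
    have a6 := h6 a (Finset.mem_insert_self _ _)
    have hi : ∀ v ∈ S, ip c (M.p a) < ip c (M.p v) := fun v hv =>
      lt_of_le_of_ne (hm v hv) (hc _ _ fun e => ha (e ▸ hv))
    have lo : ∀ v, v ≠ a → v ∉ S → ip c (M.p v) < ip c (M.p a) := fun v h1 h2 =>
      lt_of_le_of_ne (not_lt.mp fun h3 => (Finset.mem_insert.mp
        (hu a (Finset.mem_insert_self _ _) v h3)).elim h1 h2) (hc _ _ h1)
    by_cases up : ∃ e, M.tl e = a ∧ M.tl (M.φ e) ∉ S ∧ M.tl (M.φ (M.r e)) ∈ S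
    · obtain ⟨e, e1, e2, e3⟩ := up
      refine add M h ha ((M.tl_r e).trans e1) a6 fun k hk c1 => by_contra fun c2 => ?_
      rw [r_succ, M.tl_φr] at c1
      rw [M.tl_φr] at e3
      have t1 : M.tl ((M.r ^ k) (M.r e)) = a := (tl_pow M _ k).trans ((M.tl_r e).trans e1)
      have := M.upx c e ((M.r ^ k) (M.r e)) (e1.trans t1.symm)
        (by rw [e1]; exact lo _ (e1 ▸ M.tl_ne e) e2) (by rw [e1]; exact hi _ e3)
        (by rw [t1]; exact lo _ (t1 ▸ M.tl_ne _) c2) (by rw [t1]; exact hi _ c1)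
      rw [← Equiv.Perm.mul_apply, ← pow_succ] at this
      exact absurd (pow_inj M (d := e) (by rw [e1, a6]) (i := 0) (by norm_num) hk this) (by omega)
    · obtain ⟨d0, h0⟩ := M.exists_flag a
      refine add M h ha h0 a6 fun k _ c1 => by_contra fun c2 => ?_
      exact up ⟨_, (tl_pow M d0 k).trans h0, c2, by rwa [r_succ] at c1⟩

end Sweep

open Sweep

theorem orbS : OrbS := fun _ _ _ _ M d h => by
  rw [← pow_mod M h 6]
  rfl

theorem devS : DevS := fun _ _ _ _ M c t hc _ h6 => by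
  classical
  obtain ⟨z, u, h⟩ := sweep M hc (Finset.univ.filter fun v => t < ip c (M.p v))
    (fun v hv => h6 v (Finset.mem_filter.mp hv).2) fun v hv w hw =>
      Finset.mem_filter.mpr ⟨Finset.mem_univ _, (Finset.mem_filter.mp hv).2.trans hw⟩
  refine ⟨z, u, fun d hd => ?_⟩
  obtain ⟨b1, b2, b3⟩ := h d (Finset.mem_filter.mpr ⟨Finset.mem_univ _, hd⟩)
  exact ⟨b1, b2, fun hb => b3 (Finset.mem_filter.mpr ⟨Finset.mem_univ _, hb⟩)⟩

end Pool.Agent.MP_2ab689_gt.Big
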