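import Pool.Agent.MP_2ab689_gt.Big.Spec

/-!
Row TRI1: the determinant of a face, the rhombus defect, and small faces.
-/

namespace Pool.Agent.MP_2ab689_gt.Big

open Set Real

namespace Tri1

variable {ι Φ : Type} [Fintype ι] [Fintype Φ] {M : Mesh ι Φ} {h : ℝ}

theorem sq_x (F : M.Fine h) (d : Φ) : M.sq d = h ^ 2 * (1 + M.x h d) := by
  have := F.pos.ne'
  unfold Mesh.x
  field_simp
  ring

theorem x_bd (F : M.Fine h) (d : Φ) : 0 ≤ 1 + M.x h d ∧ 1 + M.x h d ≤ 2304 := by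
  have h2 : 0 < h ^ 2 := pow_pos F.pos 2
  have h3 := M.sq_nonneg d
  have h4 := F.edge d
  rw [sq_x F] at h3 h4
  exact ⟨nonneg_of_mul_nonneg_right h3 h2,
    le_of_mul_le_mul_left (by linarith) h2⟩

/-- The squared determinant in terms of the strains. -/
theorem y_sq (F : M.Fine h) (d : Φ) : ∃ e : ℝ, 0 ≤ e ∧ e ≤ 2304 ^ 3 / 4 * h ^ 2 ∧
    |(M.D d / h ^ 2) ^ 2 - 3 / 4 + e| ≤ M.X1 h d / 2 + M.X1 h d ^ 2 / 4 := by
  have h2 : 0 < h ^ 2 := pow_pos F.pos 2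
  have hD := M.D_sq d
  have e1 := M.sq_eq d
  have e2 := M.sq_φ d
  have e3 := M.sq_φφ d
  rw [sq_x F] at e1 e2 e3
  obtain ⟨a1, a2⟩ := x_bd F d
  obtain ⟨b1, b2⟩ := x_bd F (M.φ d)
  obtain ⟨c1, c2⟩ := x_bd F (M.φ (M.φ d))
  unfold Mesh.X1
  generalize M.x h d = x at *
  generalize M.x h (M.φ d) = y at *
  generalize M.x h (M.φ (M.φ d)) = z at *
  have f1 : ip (M.A d) (M.B d) = 1 - h ^ 2 * (1 + x) / 2 := by linarith
  have f2 : ip (M.B d) (M.C d) = 1 - h ^ 2 * (1 + y) / 2 := by linarith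
  have f3 : ip (M.C d) (M.A d) = 1 - h ^ 2 * (1 + z) / 2 := by linarith
  rw [f1, f2, f3] at hD
  refine ⟨(1 + x) * (1 + y) * (1 + z) / 4 * h ^ 2, by positivity, ?_, ?_⟩
  · have : (1 + x) * (1 + y) * (1 + z) ≤ 2304 * 2304 * 2304 :=
      mul_le_mul (mul_le_mul a2 b2 b1 (by norm_num)) c2 c1 (by norm_num)
    exact mul_le_mul_of_nonneg_right (by linarith) h2.le
  · have key : (M.D d / h ^ 2) ^ 2 - 3 / 4 + (1 + x) * (1 + y) * (1 + z) / 4 * h ^ 2 =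
        (x + y + z) / 2 + (2 * (x * y) + 2 * (y * z) + 2 * (z * x) - x ^ 2 - y ^ 2 - z ^ 2) / 4 := by
      have := F.pos.ne'
      rw [div_pow, hD]
      field_simp
      ring
    rw [key]
    have g1 := abs_le.1 (abs_mul x y).le
    have g2 := abs_le.1 (abs_mul y z).le
    have g3 := abs_le.1 (abs_mul z x).le
    have t : (|x| + |y| + |z|) ^ 2 = x ^ 2 + y ^ 2 + z ^ 2 + 2 * (|x| * |y|) + 2 * (|y| * |z|) +
        2 * (|z| * |x|) := by
      linear_combination sq_abs x + sq_abs y + sq_abs z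
    rw [t, abs_le]
    constructor <;> linarith [le_abs_self x, le_abs_self y, le_abs_self z, neg_abs_le x,
      neg_abs_le y, neg_abs_le z, sq_nonneg x, sq_nonneg y, sq_nonneg z, g1.1, g1.2, g2.1, g2.2,
      g3.1, g3.2]

theorem X1_nonneg (d : Φ) : 0 ≤ M.X1 h d := by
  unfold Mesh.X1
  positivity

theorem X1_le (F : M.Fine h) (d : Φ) : M.X1 h d ≤ 6912 := by
  have k : ∀ e, |M.x h e| ≤ 2304 := fun e =>
    abs_le.2 ⟨by linarith [(x_bd F e).1], by linarith [(x_bd F e).2]⟩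
  unfold Mesh.X1
  linarith [k d, k (M.φ d), k (M.φ (M.φ d))]

theorem det_le (F : M.Fine h) (d : Φ) :
    |M.D d - √3 / 2 * h ^ 2| ≤ 2304 ^ 3 * h ^ 2 * (M.X1 h d + h ^ 2) := by
  have h2 : 0 < h ^ 2 := pow_pos F.pos 2
  obtain ⟨e, e0, e1, e2⟩ := y_sq F d
  have x0 := X1_nonneg (M := M) (h := h) d
  have x1 := X1_le F d
  have hy : 0 < M.D d / h ^ 2 := div_pos (M.D_pos d) h2
  have hD : M.D d - √3 / 2 * h ^ 2 = h ^ 2 * (M.D d / h ^ 2 - √3 / 2) := by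
    have := F.pos.ne'
    field_simp
  rw [hD, abs_mul, abs_of_pos h2]
  generalize M.D d / h ^ 2 = y at *
  generalize M.X1 h d = X at *
  have s3 : √3 ^ 2 = 3 := Real.sq_sqrt (by norm_num)
  have s1 : 1 ≤ √3 := Real.one_le_sqrt.2 (by norm_num)
  have k1 : |y - √3 / 2| * (y + √3 / 2) = |y ^ 2 - 3 / 4| := by
    rw [← abs_of_pos (show 0 < y + √3 / 2 by linarith), ← abs_mul]
    congr 1
    linear_combination (-1 / 4 : ℝ) * s3
  have k2 : |y ^ 2 - 3 / 4| ≤ X / 2 + X ^ 2 / 4 + e := by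
    obtain ⟨u1, u2⟩ := abs_le.1 e2
    exact abs_le.2 ⟨by linarith, by linarith⟩
  have k3 : |y - √3 / 2| * (1 / 2) ≤ |y - √3 / 2| * (y + √3 / 2) :=
    mul_le_mul_of_nonneg_left (by linarith) (abs_nonneg _)
  have k4 : X ^ 2 ≤ 6912 * X := by nlinarith
  have k5 : |y - √3 / 2| ≤ 2304 ^ 3 * (X + h ^ 2) := by linarith
  calc h ^ 2 * |y - √3 / 2| ≤ h ^ 2 * (2304 ^ 3 * (X + h ^ 2)) :=
        mul_le_mul_of_nonneg_left k5 h2.le
    _ = _ := by ring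

end Tri1

theorem detS : DetS :=
  ⟨2304 ^ 3, 1, by norm_num, one_pos, fun _ _ _ _ _ _ F _ d => Tri1.det_le F d⟩

theorem badS : BadS := by
  refine ⟨7, 1 / 1000000, by norm_num, by norm_num, fun ι Φ _ _ M h F hh d hd => ?_⟩
  have h2 : 0 < h ^ 2 := pow_pos F.pos 2
  have hd' : M.D d < √3 / 4 * h ^ 2 := by simpa [Mesh.good] using hd
  obtain ⟨e, e0, e1, e2⟩ := Tri1.y_sq F d
  have hy : 0 < M.D d / h ^ 2 := div_pos (M.D_pos d) h2
  have hy' : M.D d / h ^ 2 < √3 / 4 := by rwa [div_lt_iff₀ h2]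
  have x0 := Tri1.X1_nonneg (M := M) (h := h) d
  have s3 : √3 ^ 2 = 3 := Real.sq_sqrt (by norm_num)
  have k1 : (M.D d / h ^ 2) ^ 2 ≤ 3 / 16 := by
    have := pow_le_pow_left₀ hy.le hy'.le 2
    nlinarith
  have k2 : h ^ 2 ≤ (1 / 1000000) ^ 2 := pow_le_pow_left₀ F.pos.le hh 2
  have k3 : 1 / 2 ≤ M.X1 h d / 2 + M.X1 h d ^ 2 / 4 := by linarith [(abs_le.1 e2).1]
  have k4 : 49 / 100 ≤ M.X1 h d ^ 2 := by
    by_contra hc
    have : M.X1 h d ≤ 7 / 10 := by nlinarith [not_le.1 hc]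
    linarith [not_le.1 hc]
  have k5 : M.X1 h d ^ 2 ≤ 3 * M.X2 h d := by
    unfold Mesh.X1 Mesh.X2
    rw [← sq_abs (M.x h d), ← sq_abs (M.x h (M.φ d)), ← sq_abs (M.x h (M.φ (M.φ d)))]
    nlinarith [sq_nonneg (|M.x h d| - |M.x h (M.φ d)|),
      sq_nonneg (|M.x h d| - |M.x h (M.φ (M.φ d))|),
      sq_nonneg (|M.x h (M.φ d)| - |M.x h (M.φ (M.φ d))|)]
  linarith

theorem rhoS : RhoS := by
  refine ⟨5 * 2304 ^ 3, 1, by norm_num, one_pos, fun ι Φ _ _ M h F hh d => ?_⟩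
  have h0 := F.pos
  have h2 : 0 < h ^ 2 := pow_pos h0 2
  have x0 := Tri1.X1_nonneg (M := M) (h := h) d
  have x0' := Tri1.X1_nonneg (M := M) (h := h) (M.s d)
  by_cases hx : 1 / 2 ≤ |M.x h d|
  · have a1 := M.nv_AC (by positivity : 0 ≤ 48 * h) F.edge d
    have a2 := M.nv_AC (by positivity : 0 ≤ 48 * h) F.edge (M.s d)
    rw [M.A_s] at a2
    have a3 : M.C d + M.C (M.s d) - M.A d - M.B d = -((M.A d - M.C d) + (M.B d - M.C (M.s d))) := by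
      abel
    have a4 : 1 / 2 ≤ M.X1 h d := by
      unfold Mesh.X1
      linarith [abs_nonneg (M.x h (M.φ d)), abs_nonneg (M.x h (M.φ (M.φ d)))]
    rw [a3, nv_neg]
    refine (nv_add _ _).trans ?_
    have : 5 * 2304 ^ 3 * h * (1 / 2) ≤ 5 * 2304 ^ 3 * h * (M.X1 h d + M.X1 h (M.s d) + h) :=
      mul_le_mul_of_nonneg_left (by linarith) (by positivity)
    linarith
  obtain ⟨x1, x2⟩ := abs_lt.1 (not_le.1 hx)
  rw [nv_le_iff (by positivity)]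
  set w := M.C d + M.C (M.s d) - M.A d - M.B d with hw
  have g := det3_sq (M.A d) (M.B d) w
  rw [M.uA, M.uB] at g
  have gd : det3 (M.A d) (M.B d) w = M.D d - M.D (M.s d) := by
    simp only [hw, Mesh.D, M.A_s, M.B_s, det3, Pi.add_apply, Pi.sub_apply]
    ring
  have e1 := M.sq_eq d
  have e2 := M.sq_φ d
  have e3 := M.sq_φφ d
  have e4 := M.sq_φ (M.s d)
  have e5 := M.sq_φφ (M.s d)
  rw [M.B_s] at e4
  rw [M.A_s] at e5
  have gp : ip w (M.A d) = (M.sq d - M.sq (M.φ (M.φ d)) - M.sq (M.φ (M.s d))) / 2 := by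
    rw [hw, ip_sub_left, ip_sub_left, ip_add_left, M.uA, e1, e3, e4, ip_comm (M.B d),
      ip_comm (M.C (M.s d))]
    ring
  have gq : ip (M.B d) w = (M.sq d - M.sq (M.φ d) - M.sq (M.φ (M.φ (M.s d)))) / 2 := by
    rw [hw, ip_sub_right, ip_sub_right, ip_add_right, M.uB, e1, e2, e5, ip_comm (M.B d) (M.A d),
      ip_comm (M.B d) (M.C (M.s d))]
    ring
  have gt : ip (M.A d) (M.B d) = 1 - M.sq d / 2 := by linarith
  have d1 := Tri1.det_le F d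
  have d2 := Tri1.det_le F (M.s d)
  have hh2 : h ^ 2 ≤ h := by nlinarith
  obtain ⟨Y, hY⟩ : ∃ Y, Y = M.X1 h d + M.X1 h (M.s d) + h := ⟨_, rfl⟩
  have Y0 : h ≤ Y := by linarith
  have b1 : |M.D d - M.D (M.s d)| ≤ 2 * 2304 ^ 3 * h ^ 2 * Y := by
    have t1 := abs_sub_le (M.D d) (√3 / 2 * h ^ 2) (M.D (M.s d))
    rw [abs_sub_comm (√3 / 2 * h ^ 2)] at t1
    have t2 : h ^ 2 * (M.X1 h d + h ^ 2 + (M.X1 h (M.s d) + h ^ 2)) ≤ h ^ 2 * (2 * Y) :=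
      mul_le_mul_of_nonneg_left (by linarith) h2.le
    linarith
  have b2 : |ip w (M.A d) - ip (M.B d) w| ≤ h ^ 2 * Y := by
    have t1 : ip w (M.A d) - ip (M.B d) w = h ^ 2 * ((M.x h (M.φ d) + M.x h (M.φ (M.φ (M.s d))) -
        M.x h (M.φ (M.φ d)) - M.x h (M.φ (M.s d))) / 2) := by
      rw [gp, gq]
      simp only [Tri1.sq_x F]
      ring
    rw [t1, abs_mul, abs_of_pos h2]
    refine mul_le_mul_of_nonneg_left ?_ h2.le
    rw [hY]
    unfold Mesh.X1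
    rw [abs_le]
    constructor <;> linarith [le_abs_self (M.x h (M.φ d)), neg_abs_le (M.x h (M.φ d)),
      le_abs_self (M.x h (M.φ (M.φ d))), neg_abs_le (M.x h (M.φ (M.φ d))),
      le_abs_self (M.x h (M.φ (M.s d))), neg_abs_le (M.x h (M.φ (M.s d))),
      le_abs_self (M.x h (M.φ (M.φ (M.s d)))), neg_abs_le (M.x h (M.φ (M.φ (M.s d)))),
      abs_nonneg (M.x h d), abs_nonneg (M.x h (M.s d))]
  have b3 : |ip w (M.A d) + ip (M.B d) w| ≤ 4608 * h ^ 2 := by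
    rw [gp, gq, abs_le]
    have u := fun e => M.sq_nonneg e
    have v := F.edge
    constructor <;> linarith [u d, v d, u (M.φ d), v (M.φ d), u (M.φ (M.φ d)), v (M.φ (M.φ d)),
      u (M.φ (M.s d)), v (M.φ (M.s d)), u (M.φ (M.φ (M.s d))), v (M.φ (M.φ (M.s d)))]
  have c1 : h ^ 2 / 2 ≤ M.sq d := by
    rw [Tri1.sq_x F]
    nlinarith
  have c2 : M.sq d ≤ 2 * h ^ 2 := by
    rw [Tri1.sq_x F]
    nlinarith
  have w0 := ip_self_nonneg w
  rw [gd, gt] at g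
  rw [← hY]
  generalize ip w (M.A d) = p at *
  generalize ip (M.B d) w = q at *
  generalize ip w w = N at *
  generalize M.sq d = a at *
  generalize M.D d - M.D (M.s d) = T at *
  have key : N * (a / 2 * (2 - a / 2)) = T ^ 2 + (p - q) ^ 2 * (1 - a / 4) + (p + q) ^ 2 * (a / 4) := by
    linear_combination -g
  have f1 : T ^ 2 ≤ (2 * 2304 ^ 3 * h ^ 2 * Y) ^ 2 := sq_le_sq' (abs_le.1 b1).1 (abs_le.1 b1).2
  have f2 : (p - q) ^ 2 ≤ (h ^ 2 * Y) ^ 2 := sq_le_sq' (abs_le.1 b2).1 (abs_le.1 b2).2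
  have f3 : (p + q) ^ 2 ≤ (4608 * h ^ 2) ^ 2 := sq_le_sq' (abs_le.1 b3).1 (abs_le.1 b3).2
  have f4 : (p - q) ^ 2 * (1 - a / 4) ≤ (h ^ 2 * Y) ^ 2 * 1 :=
    mul_le_mul f2 (by linarith) (by linarith) (by positivity)
  have f5 : h ^ 2 ≤ Y ^ 2 := pow_le_pow_left₀ h0.le Y0 2
  have f6 : (p + q) ^ 2 * (a / 4) ≤ (4608 * h ^ 2) ^ 2 * Y ^ 2 :=
    mul_le_mul f3 (by linarith) (by linarith) (by positivity)
  have f7 : h ^ 2 / 4 * 1 ≤ a / 2 * (2 - a / 2) :=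
    mul_le_mul (by linarith) (by linarith) (by norm_num) (by linarith)
  have f8 : N * (h ^ 2 / 4 * 1) ≤ N * (a / 2 * (2 - a / 2)) := mul_le_mul_of_nonneg_left f7 w0
  have f9 : 0 ≤ (h ^ 2 * Y) ^ 2 := by positivity
  refine le_of_mul_le_mul_right (a := h ^ 2 / 4) ?_ (by positivity)
  nlinarith

end Pool.Agent.MP_2ab689_gt.Big
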