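import Pool.Agent.MP_2ab689_gt.Big.Spec

/-!
Row TRI2: linearisation of the angle, and the charge of the defects.
-/

namespace Pool.Agent.MP_2ab689_gt.Big

open Real

namespace Tri2

theorem abs_sub_sin {x : ℝ} (hx : |x| ≤ 1) : |x - sin x| ≤ x ^ 2 := by
  refine (abs_sub_sin_le x).trans ?_
  rw [← sq_abs x]
  nlinarith [mul_nonneg (sq_nonneg |x|) (sub_nonneg.mpr hx), sq_nonneg |x|]

theorem sq_small {γ t : ℝ} (h : |γ| ≤ 3 * t) (h1 : t ≤ 11 / 1000) : γ ^ 2 ≤ t / 8 := by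
  rw [← sq_abs]
  nlinarith [abs_nonneg γ]

theorem add_sq_two (a b : ℝ) : (a + b) ^ 2 ≤ 2 * a ^ 2 + 2 * b ^ 2 := by
  nlinarith [sq_nonneg (a - b)]

theorem core {φ R n m : ℝ} (hR : 0 ≤ R) (h1 : R * sin φ = n) (h2 : R * cos φ = m)
    (h3 : -(π / 2) ≤ φ) (h4 : φ ≤ π) (hm : 1 / 2 ≤ m) (hn : |n| ≤ 1 / 4) :
    |φ - n| ≤ 19 * n ^ 2 + 2 * (m - 1) ^ 2 := by
  have a1 : m ≤ R := by nlinarith [cos_le_one φ]
  have a2 : φ ≤ π / 2 := by
    by_contra h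
    have := cos_nonpos_of_pi_div_two_le_of_le (not_le.mp h).le (by linarith [pi_pos])
    nlinarith
  have a3 : R * |sin φ| = |n| := by rw [← h1, abs_mul, abs_of_nonneg hR]
  have a4 : |sin φ| ≤ 2 * |n| := by nlinarith [abs_nonneg (sin φ)]
  have a5 := mul_abs_le_abs_sin (abs_le.mpr ⟨h3, a2⟩)
  have a6 : |φ| ≤ 4 * |n| := by
    rw [div_mul_eq_mul_div, div_le_iff₀ pi_pos] at a5
    nlinarith [pi_le_four, abs_nonneg (sin φ), abs_nonneg n]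
  have a7 := abs_sub_sin (x := φ) (by linarith)
  have a8 : φ ^ 2 ≤ 16 * n ^ 2 := by
    rw [← sq_abs φ, ← sq_abs n]
    nlinarith [abs_nonneg φ]
  have a9 : R ^ 2 = n ^ 2 + m ^ 2 := by
    rw [← h1, ← h2]
    linear_combination (-R ^ 2) * sin_sq_add_cos_sq φ
  have b1 : R ≤ m + |n| := by
    refine abs_le_of_sq_le_sq' ?_ (by linarith [abs_nonneg n]) |>.2
    rw [a9, ← sq_abs n]
    nlinarith [abs_nonneg n]
  have b2 : (1 - R) ^ 2 ≤ 2 * (m - 1) ^ 2 + 2 * n ^ 2 := by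
    rw [← sq_abs n]
    nlinarith [sq_nonneg (m - 1 - (R - m)), abs_nonneg n]
  have b3 : |sin φ - n| ≤ n ^ 2 + (1 - R) ^ 2 := by
    rw [show sin φ - n = sin φ * (1 - R) by rw [← h1]; ring, abs_mul, ← sq_abs n,
      ← sq_abs (1 - R)]
    nlinarith [mul_le_mul_of_nonneg_right a4 (abs_nonneg (1 - R)), sq_nonneg (|n| - |1 - R|)]
  have := abs_sub_le φ (sin φ) n
  linarith

theorem y_est {s x0 x1 x2 y k : ℝ} (hs : s ^ 2 = 3) (hs0 : 0 ≤ s) (h0 : |x0| ≤ 1 / 10)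
    (h1 : |x1| ≤ 1 / 10) (h2 : |x2| ≤ 1 / 10) (hk : 0 ≤ k) (hy : 0 ≤ y)
    (e : y ^ 2 = 3 / 4 + (x0 + x1 + x2) / 2 + (2 * (x0 * x1 + x1 * x2 + x2 * x0)
      - (x0 ^ 2 + x1 ^ 2 + x2 ^ 2)) / 4 - k * ((1 + x0) * (1 + x1) * (1 + x2)) / 4) :
    |y - s / 2 * (1 + (x0 + x1 + x2) / 3)| ≤ 2 * (x0 ^ 2 + x1 ^ 2 + x2 ^ 2 + k) := by
  obtain ⟨a0, b0⟩ := abs_le.mp h0
  obtain ⟨a1, b1⟩ := abs_le.mp h1
  obtain ⟨a2, b2⟩ := abs_le.mp h2
  have s1 : 17 / 10 ≤ s := by nlinarith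
  set y0 := s / 2 * (1 + (x0 + x1 + x2) / 3) with hy0
  have c1 : 1 / 2 ≤ y0 := by rw [hy0]; nlinarith
  have c2 : y0 ^ 2 = 3 / 4 * (1 + (x0 + x1 + x2) / 3) ^ 2 := by
    rw [hy0, mul_pow, div_pow, hs]; ring
  have p1 : 0 ≤ (1 + x0) * (1 + x1) := by nlinarith
  have p2 : (1 + x0) * (1 + x1) ≤ 3 / 2 := by nlinarith
  have p3 : 0 ≤ (1 + x0) * (1 + x1) * (1 + x2) := by nlinarith
  have p4 : (1 + x0) * (1 + x1) * (1 + x2) ≤ 2 := by nlinarith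
  have c3 : |y ^ 2 - y0 ^ 2| ≤ x0 ^ 2 + x1 ^ 2 + x2 ^ 2 + k := by
    rw [e, c2, abs_le]
    have q1 := mul_nonneg hk p3
    have q2 := mul_le_mul_of_nonneg_left p4 hk
    constructor
    · nlinarith [sq_nonneg (x0 + x1), sq_nonneg (x1 + x2), sq_nonneg (x2 + x0),
        sq_nonneg (x0 - x1), sq_nonneg (x1 - x2), sq_nonneg (x2 - x0)]
    · nlinarith [sq_nonneg (x0 + x1), sq_nonneg (x1 + x2), sq_nonneg (x2 + x0),
        sq_nonneg (x0 - x1), sq_nonneg (x1 - x2), sq_nonneg (x2 - x0)]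
  rw [show y ^ 2 - y0 ^ 2 = (y - y0) * (y + y0) by ring, abs_mul,
    abs_of_nonneg (by linarith : 0 ≤ y + y0)] at c3
  nlinarith [abs_nonneg (y - y0)]

theorem lin_sq {s x0 x1 x2 : ℝ} (hs : s ^ 2 = 3) :
    (s / 6 * (2 * x1 - x0 - x2)) ^ 2 ≤ (x0 ^ 2 + x1 ^ 2 + x2 ^ 2) / 2 := by
  rw [mul_pow, div_pow, hs]
  nlinarith [sq_nonneg (x0 + x1 / 2), sq_nonneg (x2 + x1 / 2), sq_nonneg (x0 - x2),
    sq_nonneg (2 * x0 + x1), sq_nonneg (2 * x2 + x1)]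

theorem small {s x0 x1 x2 y u k φ R : ℝ} (hs : s ^ 2 = 3) (hs0 : 0 ≤ s)
    (hX : x0 ^ 2 + x1 ^ 2 + x2 ^ 2 ≤ 1 / 100) (hk : 0 ≤ k) (hk1 : k ≤ 1 / 1000) (hy : 0 ≤ y)
    (e : y ^ 2 = 3 / 4 + (x0 + x1 + x2) / 2 + (2 * (x0 * x1 + x1 * x2 + x2 * x0)
      - (x0 ^ 2 + x1 ^ 2 + x2 ^ 2)) / 4 - k * ((1 + x0) * (1 + x1) * (1 + x2)) / 4)
    (eu : u = (1 + x0 + x2 - x1) / 2 - k * ((1 + x0) * (1 + x2)) / 4)
    (hR : 0 ≤ R) (h1 : R * sin φ = y / 2 - s / 2 * u) (h2 : R * cos φ = u / 2 + s / 2 * y)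
    (h3 : -(π / 2) ≤ φ) (h4 : φ ≤ π) :
    |φ - s / 6 * (2 * x1 - x0 - x2)| ≤ 50 * (x0 ^ 2 + x1 ^ 2 + x2 ^ 2 + k) := by
  have n0 := sq_nonneg x0
  have n1 := sq_nonneg x1
  have n2 := sq_nonneg x2
  have h0' : |x0| ≤ 1 / 10 := abs_le.mpr (abs_le_of_sq_le_sq' (by linarith) (by norm_num))
  have h1' : |x1| ≤ 1 / 10 := abs_le.mpr (abs_le_of_sq_le_sq' (by linarith) (by norm_num))
  have h2' : |x2| ≤ 1 / 10 := abs_le.mpr (abs_le_of_sq_le_sq' (by linarith) (by norm_num))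
  have hy' := y_est hs hs0 h0' h1' h2' hk hy e
  have hl := lin_sq (x0 := x0) (x1 := x1) (x2 := x2) hs
  obtain ⟨a0, b0⟩ := abs_le.mp h0'
  obtain ⟨a2, b2⟩ := abs_le.mp h2'
  have s2 : s ≤ 2 := by nlinarith
  set t := x0 ^ 2 + x1 ^ 2 + x2 ^ 2 + k with ht
  have t0 : 0 ≤ t := by linarith
  have t1 : t ≤ 11 / 1000 := by linarith
  obtain ⟨α, hα⟩ : ∃ α, α = y - s / 2 * (1 + (x0 + x1 + x2) / 3) := ⟨_, rfl⟩
  obtain ⟨β, hβ⟩ : ∃ β, β = k * ((1 + x0) * (1 + x2)) / 4 := ⟨_, rfl⟩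
  obtain ⟨l, hl'⟩ : ∃ l, l = s / 6 * (2 * x1 - x0 - x2) := ⟨_, rfl⟩
  rw [← hα] at hy'
  rw [← hl'] at hl ⊢
  obtain ⟨c1, c2⟩ := abs_le.mp hy'
  have p1 : 0 ≤ (1 + x0) * (1 + x2) := by nlinarith
  have p2 : (1 + x0) * (1 + x2) ≤ 2 := by nlinarith
  have β0 : 0 ≤ β := by rw [hβ]; positivity
  have β1 : β ≤ t := by
    have := mul_le_mul_of_nonneg_left p2 hk
    rw [hβ]; linarith
  have en : y / 2 - s / 2 * u = l + (α / 2 + s / 2 * β) := by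
    rw [eu, hl', hα, hβ]; ring
  have em : u / 2 + s / 2 * y = 1 + (x0 + x2) / 2 + (s / 2 * α - β / 2) := by
    rw [eu, hα, hβ]; linear_combination (1 + (x0 + x1 + x2) / 3) / 4 * hs
  have d1 : |α / 2 + s / 2 * β| ≤ 2 * t := by
    have := mul_nonneg hs0 β0
    have := mul_le_mul_of_nonneg_right s2 β0
    exact abs_le.mpr ⟨by linarith, by linarith⟩
  have d2 : |s / 2 * α - β / 2| ≤ 3 * t := by
    have g : |s / 2 * α| ≤ 2 * t := by
      rw [abs_mul, abs_of_nonneg (by linarith : 0 ≤ s / 2)]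
      nlinarith [abs_nonneg α]
    obtain ⟨g1, g2⟩ := abs_le.mp g
    exact abs_le.mpr ⟨by linarith, by linarith⟩
  generalize α / 2 + s / 2 * β = γ at en d1
  generalize s / 2 * α - β / 2 = δ at em d2
  rw [en] at h1
  rw [em] at h2
  obtain ⟨d3, d4⟩ := abs_le.mp d1
  obtain ⟨d5, d6⟩ := abs_le.mp d2
  obtain ⟨l1, l2⟩ := abs_le_of_sq_le_sq' (show l ^ 2 ≤ (1 / 10) ^ 2 by linarith) (by norm_num)
  have := core hR h1 h2 h3 h4 (by linarith) (abs_le.mpr ⟨by linarith, by linarith⟩)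
  have f1 : γ ^ 2 ≤ t / 8 := sq_small (by linarith) t1
  have f2 : δ ^ 2 ≤ t / 8 := sq_small d2 t1
  have f3 : (l + γ) ^ 2 ≤ 2 * t := by linarith [add_sq_two l γ]
  have f4 : (1 + (x0 + x2) / 2 + δ - 1) ^ 2 ≤ 2 * t := by
    rw [show 1 + (x0 + x2) / 2 + δ - 1 = (x0 + x2) / 2 + δ by ring]
    have g1 := add_sq_two ((x0 + x2) / 2) δ
    have g2 := add_sq_two x0 x2
    rw [div_pow] at g1
    linarith
  have f5 := abs_sub_le φ (l + γ) l
  rw [show l + γ - l = γ by ring] at f5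
  linarith

variable {ι Φ : Type} [Fintype ι] [Fintype Φ] (M : Mesh ι Φ)

theorem sq_x {h : ℝ} (h0 : 0 < h) (d : Φ) : M.sq d = h ^ 2 * (1 + M.x h d) := by
  rw [Mesh.x]; field_simp; ring

theorem x_abs {h : ℝ} (hf : M.Fine h) (d : Φ) : |M.x h d| ≤ 2304 := by
  have h0 := pow_pos hf.pos 2
  have h1 : M.sq d / h ^ 2 ≤ 2304 := by
    rw [div_le_iff₀ h0]; linarith [hf.edge d]
  have h2 := div_nonneg (M.sq_nonneg d) h0.le
  rw [Mesh.x]
  exact abs_le.mpr ⟨by linarith, by linarith⟩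

theorem D_le {h : ℝ} (hf : M.Fine h) (d : Φ) : M.D d ≤ 2304 * h ^ 2 := by
  have h0 := hf.pos
  have e : M.D d = det3 (M.A d) (M.A d - M.B d) (M.A d - M.C d) := by
    simp only [Mesh.D, det3, Pi.sub_apply]; ring
  have h1 := (le_abs_self _).trans (abs_det3_le (M.A d) (M.A d - M.B d) (M.A d - M.C d))
  rw [nv_eq_one (M.uA d), one_mul, ← e] at h1
  have h2 := mul_le_mul (M.nv_AB (by linarith) hf.edge d) (M.nv_AC (by linarith) hf.edge d)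
    (nv_nonneg _) (by linarith)
  linarith

theorem E_le {h : ℝ} (hf : M.Fine h) (hh : h ≤ 1 / 48) (d : Φ) :
    0 < M.E d ∧ M.E d ≤ 2304 * h ^ 2 := by
  have h0 := hf.pos
  have hN : 2 ≤ M.N d := by
    have := M.N_ge hf.edge d
    nlinarith
  obtain ⟨a1, -, a2, -⟩ := M.E_bounds (by linarith : 0 < M.N d)
  refine ⟨a1, a2.trans (le_trans ?_ (D_le M hf d))⟩
  rw [← mul_div_assoc, div_le_iff₀ (by linarith)]
  nlinarith [M.D_pos d]

theorem lin_le (h : ℝ) (d : Φ) : M.lin h d ^ 2 ≤ M.X2 h d / 2 :=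
  lin_sq (Real.sq_sqrt (by norm_num))

theorem ang_small {h : ℝ} (hf : M.Fine h) (hh : h ≤ 1 / 48) (d : Φ) (hX : M.X2 h d ≤ 1 / 100) :
    |M.θ d - π / 3 - M.lin h d| ≤ 50 * (M.X2 h d + h ^ 2) := by
  have h0 := hf.pos
  have hk := pow_pos h0 2
  have e0 : ip (M.A d) (M.B d) = 1 - h ^ 2 * (1 + M.x h d) / 2 := by
    rw [← sq_x M h0, M.sq_eq]; ring
  have e1 : ip (M.B d) (M.C d) = 1 - h ^ 2 * (1 + M.x h (M.φ d)) / 2 := by
    rw [← sq_x M h0, M.sq_φ]; ring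
  have e2 : ip (M.C d) (M.A d) = 1 - h ^ 2 * (1 + M.x h (M.φ (M.φ d))) / 2 := by
    rw [← sq_x M h0, M.sq_φφ]; ring
  have c := Complex.norm_mul_cos_arg (M.z d)
  have s := Complex.norm_mul_sin_arg (M.z d)
  change ‖M.z d‖ * cos (M.θ d) = ip (M.B d) (M.C d) - ip (M.A d) (M.B d) * ip (M.C d) (M.A d)
    at c
  change ‖M.z d‖ * sin (M.θ d) = M.D d at s
  refine small (y := M.D d / h ^ 2) (u := ‖M.z d‖ * cos (M.θ d) / h ^ 2) (R := ‖M.z d‖ / h ^ 2)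
    (Real.sq_sqrt (by norm_num)) (Real.sqrt_nonneg _) hX hk.le (by nlinarith)
    (div_pos (M.D_pos d) hk).le ?_ ?_ (by positivity) ?_ ?_ ?_ ?_
  · rw [div_pow, M.D_sq, e0, e1, e2]
    field_simp
    ring
  · rw [c, e0, e1, e2]
    field_simp
    ring
  · rw [sin_sub, cos_pi_div_three, sin_pi_div_three, ← s]
    ring
  · rw [cos_sub, cos_pi_div_three, sin_pi_div_three, ← s]
    ring
  · linarith [M.θ_pos d, pi_pos]
  · linarith [M.θ_lt d, pi_pos]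

theorem vertex (b : Φ → ℝ) (hb : ∀ d, 0 ≤ b d)
    (h : ∀ d, |M.θ d - π / 3| < π / 21 ∨ 1 ≤ b d) (v : ι) :
    |6 - (M.deg v : ℝ)| ≤ 6 * ∑ d ∈ M.star v, b d ∧
      (M.deg v ≠ 6 → 1 ≤ ∑ d ∈ M.star v, b d) := by
  have hp := pi_pos
  have hs := M.angle_sum v
  by_cases hc : ∀ d ∈ M.star v, |M.θ d - π / 3| < π / 21
  · obtain ⟨d0, hd0⟩ := M.exists_flag v
    have hne : (M.star v).Nonempty := ⟨d0, M.mem_star.mpr hd0⟩
    have a1 : ∑ _d ∈ M.star v, 2 * π / 7 < ∑ d ∈ M.star v, M.θ d :=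
      Finset.sum_lt_sum_of_nonempty hne fun d hd => by linarith [(abs_lt.mp (hc d hd)).1]
    have a2 : ∑ d ∈ M.star v, M.θ d ≤ ∑ _d ∈ M.star v, 8 * π / 21 :=
      Finset.sum_le_sum fun d hd => by linarith [(abs_lt.mp (hc d hd)).2]
    rw [Finset.sum_const, nsmul_eq_mul, hs] at a1 a2
    change (M.deg v : ℝ) * _ < _ at a1
    change _ ≤ (M.deg v : ℝ) * _ at a2
    have b1 : (M.deg v : ℝ) < 7 := by
      by_contra hh
      nlinarith
    have b2 : (5 : ℝ) < M.deg v := by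
      by_contra hh
      nlinarith
    have : M.deg v = 6 := by
      have c1 : M.deg v < 7 := by exact_mod_cast b1
      have c2 : 5 < M.deg v := by exact_mod_cast b2
      omega
    refine ⟨?_, fun hh => absurd this hh⟩
    rw [this]
    simpa using Finset.sum_nonneg fun d _ => hb d
  · simp only [not_forall] at hc
    obtain ⟨d0, hd0, hc⟩ := hc
    have a1 : 1 ≤ ∑ d ∈ M.star v, b d :=
      ((h d0).resolve_left hc).trans (Finset.single_le_sum (fun d _ => hb d) hd0)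
    refine ⟨?_, fun _ => a1⟩
    have a2 : ∑ _d ∈ M.star v, 2 * π ≤ ∑ d ∈ M.star v, (2 * π * b d + 7 * M.θ d) :=
      Finset.sum_le_sum fun d _ => by
        rcases h d with g | g
        · nlinarith [(abs_lt.mp g).1, hb d]
        · nlinarith [M.θ_pos d]
    rw [Finset.sum_const, nsmul_eq_mul, Finset.sum_add_distrib, ← Finset.mul_sum,
      ← Finset.mul_sum, hs] at a2
    change (M.deg v : ℝ) * _ ≤ _ at a2
    have a3 : (M.deg v : ℝ) ≤ ∑ d ∈ M.star v, b d + 7 := by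
      by_contra hh
      nlinarith
    have a4 : (0 : ℝ) ≤ M.deg v := Nat.cast_nonneg _
    exact abs_le.mpr ⟨by linarith, by linarith⟩

theorem sum_X2 (h : ℝ) : ∑ d, M.X2 h d = 3 * M.W h := by
  unfold Mesh.X2 Mesh.W
  rw [Finset.sum_add_distrib, Finset.sum_add_distrib, M.sum_φφ fun d => M.x h d ^ 2,
    M.sum_φ fun d => M.x h d ^ 2]
  ring

end Tri2

theorem angS : AngS := by
  refine ⟨1000000, 1 / 48, by norm_num, by norm_num, ?_⟩
  intro ι Φ _ _ M h hf hh d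
  obtain ⟨e1, e2⟩ := Tri2.E_le M hf hh d
  have h0 := hf.pos
  have n0 : 0 ≤ M.X2 h d := by unfold Mesh.X2; positivity
  have n1 := sq_nonneg h
  rcases le_total (M.X2 h d) (1 / 100) with hX | hX
  · obtain ⟨a1, a2⟩ := abs_le.mp (Tri2.ang_small M hf hh d hX)
    exact abs_le.mpr ⟨by linarith, by linarith⟩
  · have a0 := Tri2.lin_le M h d
    obtain ⟨a1, a2⟩ : -(1 + M.X2 h d) ≤ M.lin h d ∧ M.lin h d ≤ 1 + M.X2 h d :=
      abs_le_of_sq_le_sq' (by nlinarith) (by linarith)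
    have a3 : h ^ 2 ≤ 1 / 2304 := by nlinarith
    exact abs_le.mpr ⟨by linarith [M.θ_pos d, pi_le_four],
      by linarith [M.θ_lt d, pi_le_four, pi_pos]⟩

theorem defS (h1 : AngS) : DefS := by
  obtain ⟨C1, a1, hC1, ha1, h1⟩ := h1
  refine ⟨24 * (200 * (1 + C1)), min a1 (1 / (300 * (1 + C1))), by positivity, by positivity, ?_⟩
  intro ι Φ _ _ M h hf hh
  obtain ⟨b1, b2⟩ := le_min_iff.mp hh
  have h0 := hf.pos
  have b3 : h * (300 * (1 + C1)) ≤ 1 := by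
    rwa [le_div_iff₀ (by positivity)] at b2
  have b4 : h ≤ 1 / 300 := by nlinarith
  have b5 : C1 * h ≤ 1 / 300 := by nlinarith
  have n0 : ∀ d, 0 ≤ M.X2 h d := fun d => by unfold Mesh.X2; positivity
  have key := Tri2.vertex M (fun d => 200 * (1 + C1) * M.X2 h d)
    (fun d => mul_nonneg (by positivity) (n0 d)) (fun d => by
      rcases lt_or_ge (200 * (1 + C1) * M.X2 h d) 1 with g | g
      · left
        obtain ⟨c1, c2⟩ := abs_le.mp (h1 ι Φ M h hf b1 d)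
        obtain ⟨e1, e2⟩ := Tri2.E_le M hf (by linarith) d
        have c3 := Tri2.lin_le M h d
        have c4 := mul_nonneg hC1.le (n0 d)
        have c5 := n0 d
        obtain ⟨l1, l2⟩ : -(1 / 20) ≤ M.lin h d ∧ M.lin h d ≤ 1 / 20 :=
          abs_le_of_sq_le_sq' (by nlinarith) (by norm_num)
        have c6 : C1 * M.X2 h d ≤ 1 / 200 := by nlinarith
        have c7 : C1 * h ^ 2 ≤ 1 / 200 := by nlinarith
        have c8 : h ^ 2 ≤ 1 / 90000 := by nlinarith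
        exact abs_lt.mpr ⟨by linarith [pi_gt_three], by linarith [pi_gt_three]⟩
      · exact Or.inr g)
  have tot : ∑ v, ∑ d ∈ M.star v, 200 * (1 + C1) * M.X2 h d = 200 * (1 + C1) * (3 * M.W h) := by
    rw [M.sum_star fun d => 200 * (1 + C1) * M.X2 h d, ← Finset.mul_sum, Tri2.sum_X2]
  have hW : 0 ≤ 200 * (1 + C1) * M.W h :=
    mul_nonneg (by positivity) (Finset.sum_nonneg fun _ _ => sq_nonneg _)
  have nn : ∀ v, 0 ≤ ∑ d ∈ M.star v, 200 * (1 + C1) * M.X2 h d := fun v =>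
    Finset.sum_nonneg fun d _ => mul_nonneg (by positivity) (n0 d)
  constructor
  · calc ∑ v, |M.q v| ≤ ∑ v, 8 * ∑ d ∈ M.star v, 200 * (1 + C1) * M.X2 h d :=
          Finset.sum_le_sum fun v _ => by
            rw [Mesh.q, abs_mul, abs_of_pos (by positivity : 0 < π / 3)]
            nlinarith [(key v).1, nn v, pi_le_four, pi_pos, abs_nonneg (6 - (M.deg v : ℝ))]
      _ = _ := by rw [← Finset.mul_sum, tot]; ring
  · calc (M.defects.card : ℝ) = ∑ _v ∈ M.defects, (1 : ℝ) := by simp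
      _ ≤ ∑ v ∈ M.defects, ∑ d ∈ M.star v, 200 * (1 + C1) * M.X2 h d :=
          Finset.sum_le_sum fun v hv => (key v).2 (by simpa [Mesh.defects] using hv)
      _ ≤ ∑ v, ∑ d ∈ M.star v, 200 * (1 + C1) * M.X2 h d :=
          Finset.sum_le_sum_of_subset_of_nonneg (Finset.subset_univ _) fun v _ _ => nn v
      _ ≤ _ := by rw [tot]; linarith

end Pool.Agent.MP_2ab689_gt.Big
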